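import Pool.Agent.XPL.St

set_option autoImplicit false

/-!
# XPL, module A1: a near optimal family is close to antipodal (helper18)
-/

namespace Pool.Agent.XPL

open Finset

private lemma A1_wf {ι : Type} {d : ℕ} (p : ι → E d) (m : ι → ι) (hp : ∀ i, ‖p i‖ = 1) (i : ι) :
    wf p m i ^ 2 = (1 + gr p i (m i)) / 2 := by
  unfold wf
  rw [Real.sq_sqrt]
  have h := abs_real_inner_le_norm (p i) (p (m i))
  rw [hp, hp, one_mul] at h
  have h2 := (abs_le.1 h).1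
  unfold gr
  linarith

private lemma A1_gg {ι : Type} [DecidableEq ι] {d : ℕ} (p : ι → E d) (m : ι → ι) (a : ℝ) (i : ι) :
    0 ≤ gg p m (2 + 2 * a) i + 125 * a ^ 2 ∧
    (m i = i → 1 / 2000 ≤ gg p m (2 + 2 * a) i + 125 * a ^ 2) ∧
    (m i ≠ i → wf p m i ^ 2 / 2000 ≤ gg p m (2 + 2 * a) i + 125 * a ^ 2) := by
  have h1 : m i = i → 1 / 2000 ≤ gg p m (2 + 2 * a) i + 125 * a ^ 2 := by
    intro h
    unfold gg
    rw [if_pos h]
    nlinarith [sq_nonneg a]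
  have h2 : m i ≠ i → wf p m i ^ 2 / 2000 ≤ gg p m (2 + 2 * a) i + 125 * a ^ 2 := by
    intro h
    unfold gg
    rw [if_neg h]
    nlinarith [sq_nonneg (wf p m i - 500 * a)]
  refine ⟨?_, h1, h2⟩
  by_cases h : m i = i
  · have := h1 h
    linarith
  · have := h2 h
    nlinarith [sq_nonneg (wf p m i)]

private lemma A1_alg (D a S2 G2v sl sg h sqv r : ℝ) (hD : 0 < D) (ha : a * D = 1) (_ha0 : 0 < a)
    (hI : sqv = (2 * D + 2) * ((2 * D + 2) - 1) - (S2 - (2 * D + 2)) / 2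
      - (G2v - (2 * D + 2)) / 8 + sl)
    (hS : sl ≤ (r - 11 / 8) * (2 * D + 2) + 99 / 800 *
      (G2v - 2 * (2 + 2 * a) * (2 * D + 2) + (2 + 2 * a) ^ 2 * D) - sg)
    (hh0 : 2 - a ^ 2 / 4 - a ^ 4 / 10 ≤ h)
    (hV : r * (2 * D + 2) + (2 * D + 2) * (2 * D) * h / 2 ≤ sqv) (hS2 : 0 ≤ S2) :
    (G2v - 2 * (2 + 2 * a) * (2 * D + 2) + (2 + 2 * a) ^ 2 * D) / 800 + sg ≤ (1 + a) * a ^ 2 / 5 := by
  have e1 : G2v - 2 * (2 + 2 * a) * (2 * D + 2) + (2 + 2 * a) ^ 2 * D = G2v - 4 * (D + 2 + a) := by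
    linear_combination (4 * a) * ha
  rw [e1] at hS ⊢
  have e2 : (2 * D + 2) * (2 * D) * (2 - a ^ 2 / 4 - a ^ 4 / 10) / 2 =
      4 * D ^ 2 + 4 * D - (1 + a) / 2 - (1 + a) * a ^ 2 / 5 := by
    have h3 : D * a = 1 := by rw [mul_comm]; exact ha
    have h4 : (2 * D + 2) * (2 * D) * (2 - a ^ 2 / 4 - a ^ 4 / 10) / 2 =
      4 * D ^ 2 + 4 * D - (D * a + a) * (D * a) / 2 - (D * a + a) * (D * a) * a ^ 2 / 5 := by ring
    rw [h4, h3]
    ring
  have e3 : (2 * D + 2) * (2 * D) * (2 - a ^ 2 / 4 - a ^ 4 / 10) / 2 ≤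
      (2 * D + 2) * (2 * D) * h / 2 := by
    have h5 : 0 ≤ (2 * D + 2) * (2 * D) := by positivity
    have := mul_le_mul_of_nonneg_left hh0 h5
    linarith
  rw [e2] at e3
  nlinarith

theorem thm_A1 (hS1 : St_S1) (hId : St_Id) (hPe : St_Pe) (hTa : St_Ta) : St_A1 := by
  intro ι _ _ d p hp hd hN hV
  have hDR : (10 : ℝ) ^ 9 ≤ (d : ℝ) := by exact_mod_cast hd
  have hD0 : (0 : ℝ) < (d : ℝ) := by positivity
  set D : ℝ := (d : ℝ) with hDdef
  set a : ℝ := 1 / D with hadef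
  have haD : a * D = 1 := by rw [hadef]; field_simp
  have ha0 : 0 < a := by positivity
  have ha9 : a ≤ 1 / 10 ^ 9 := by
    rw [hadef]
    exact one_div_le_one_div_of_le (by positivity) hDR
  have hθ : (2 : ℝ) + 2 / D = 2 + 2 * a := by rw [hadef]; ring
  rw [hθ]
  have hNR : (Fintype.card ι : ℝ) = 2 * D + 2 := by rw [hN]; push_cast; ring
  obtain ⟨m, hm, hS⟩ := hS1 ι d p hp (2 + 2 * a) (by linarith) (by linarith)
  have hI := hId ι d p hp
  obtain ⟨-, hDD0, -⟩ := hPe ι d p hp (2 + 2 * a)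
  obtain ⟨K, -, -, hlo, -, -⟩ := hTa a ha0 (by linarith)
  have hkey : DD p (2 + 2 * a) / 800 + ∑ i, gg p m (2 + 2 * a) i ≤ (1 + a) * a ^ 2 / 5 := by
    unfold DD at hS ⊢
    rw [hNR] at hI hS ⊢
    unfold VV at hV
    unfold c0 at hS
    exact A1_alg D a (‖∑ i, p i‖ ^ 2) (G2 p) _ _ (hh a) (sq p) (√2) hD0 haD ha0 hI hS hlo hV
      (by positivity)
  have hg := A1_gg p m a
  have hsum : ∑ i, (gg p m (2 + 2 * a) i + 125 * a ^ 2) =
      ∑ i, gg p m (2 + 2 * a) i + (2 * D + 2) * (125 * a ^ 2) := by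
    rw [sum_add_distrib, sum_const, card_univ, nsmul_eq_mul, hNR]
  have hNa : (2 * D + 2) * (125 * a ^ 2) = 250 * a + 250 * a ^ 2 := by
    linear_combination (250 * a) * haD
  have ha2 : a ^ 2 ≤ a / 10 ^ 9 := by nlinarith
  have ha3 : (1 + a) * a ^ 2 / 5 ≤ a ^ 2 := by nlinarith [sq_nonneg a]
  have hsum0 : 0 ≤ ∑ i, (gg p m (2 + 2 * a) i + 125 * a ^ 2) := sum_nonneg fun i _ => (hg i).1
  have hsum1 : ∑ i, (gg p m (2 + 2 * a) i + 125 * a ^ 2) ≤ 251 * a := by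
    rw [hsum, hNa]
    nlinarith
  have hone : ∀ i, gg p m (2 + 2 * a) i + 125 * a ^ 2 ≤ 251 * a := fun i =>
    (single_le_sum (f := fun i => gg p m (2 + 2 * a) i + 125 * a ^ 2)
      (fun j _ => (hg j).1) (mem_univ i)).trans hsum1
  have hnf : ∀ i, m i ≠ i := by
    intro i hi
    have h1 := (hg i).2.1 hi
    have h2 := hone i
    linarith
  refine ⟨m, hm.1, hnf, ?_, A1_wf p m hp, ?_⟩
  · intro i
    have h1 := (hg i).2.2 (hnf i)
    have h2 := hone i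
    linarith
  · have h3 : ∑ i, gg p m (2 + 2 * a) i ≥ -(250 * a + 250 * a ^ 2) := by
      rw [hsum, hNa] at hsum0
      linarith
    linarith

end Pool.Agent.XPL
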