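import Pool.Agent.XPL.St

/-!
# A3 (helper82): the local argument and the case of equality
-/

set_option autoImplicit false

namespace Pool.Agent.XPL

open Finset

private theorem A3_num (K θ δ W2 W4 B T De D s2 : ℝ) (hK1 : 1 / 4 ≤ K) (hK2 : K ≤ 1 / 4 + 1 / 1000)
    (hs : θ + δ ≤ 20184 / 10000) (hW2 : 0 ≤ W2) (hW4 : W4 ≤ W2 / 1000) (hB : B ≤ 2 * (θ + δ) * W2)
    (hT : T ≤ (θ - 2 + δ + 2 / 1000) * W2) (hDe : -2 * W2 ≤ De) (hD : 0 ≤ D) (hs2 : 1414 / 1000 ≤ s2) :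
    -(s2 / 2) * W2 + K / 2 * (-D - 4 * W2 + 4 * W4 + B) - De / 2 - B / 10 + T / 5 ≤ -W2 / 20 := by
  have h1 : (θ + δ) * W2 ≤ 20184 / 10000 * W2 := mul_le_mul_of_nonneg_right hs hW2
  have h2 : B ≤ 40368 / 10000 * W2 := by linarith
  have h3 : T ≤ 204 / 10000 * W2 := by linarith
  have h4 : 0 ≤ (K / 2 - 1 / 10) * (40368 / 10000 * W2 - B) := mul_nonneg (by linarith) (by linarith)
  have h5 : 0 ≤ K * D := mul_nonneg (by linarith) hD
  have h6 : 0 ≤ K * (W2 / 1000 - W4) := mul_nonneg (by linarith) (by linarith)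
  have h7 : 0 ≤ (1 / 4 + 1 / 1000 - K) * W2 := mul_nonneg (by linarith) hW2
  have h8 : 0 ≤ (s2 - 1414 / 1000) * W2 := mul_nonneg (by linarith) hW2
  nlinarith

private theorem A3_root (w2 : ℝ) (h : w2 ≤ 2) : √(2 - 2 * w2) ≤ √2 - √2 / 2 * w2 := by
  rw [Real.sqrt_le_iff]
  have h1 : √2 * √2 = 2 := Real.mul_self_sqrt (by norm_num)
  have h2 : 0 ≤ √2 := Real.sqrt_nonneg 2
  constructor
  · nlinarith
  · have h3 : (√2 - √2 / 2 * w2) ^ 2 = (√2 * √2) * (1 - w2 / 2) ^ 2 := by ring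
    rw [h3, h1]
    nlinarith [sq_nonneg w2]

/-- **A3** -/
theorem thm_A3 (hA1 : St_A1) (hSm : St_Sm) (hGs : St_Gs) (hLo : St_Lo) (hTa : St_Ta) (hPe : St_Pe) : St_A3 := by
  classical
  intro ι _ _ d p hp hd hN
  by_cases hV : VV d ≤ sq p
  swap
  · exact ⟨(not_le.1 hV).le, fun h => absurd h.ge hV⟩
  obtain ⟨m, hm1, hm2, hw1, hw2, hDD⟩ := hA1 ι d p hp hd hN hV
  have hdR : (10 : ℝ) ^ 9 ≤ (d : ℝ) := by exact_mod_cast hd
  have hd0 : (0 : ℝ) < (d : ℝ) := by linarith [show (0 : ℝ) < 10 ^ 9 by norm_num]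
  have hNR : (Fintype.card ι : ℝ) = 2 * (d : ℝ) + 2 := by
    rw [hN]
    push_cast
    ring
  obtain ⟨θ, hθ⟩ : ∃ θ : ℝ, θ = 2 + 2 / (d : ℝ) := ⟨_, rfl⟩
  rw [← hθ] at hDD
  have hθ2 : 2 ≤ θ := by
    rw [hθ]
    have : 0 ≤ 2 / (d : ℝ) := by positivity
    linarith
  have hθ3 : θ ≤ 2 + 2 / 10 ^ 9 := by
    rw [hθ]
    have : 2 / (d : ℝ) ≤ 2 / 10 ^ 9 := div_le_div_of_nonneg_left (by norm_num) (by norm_num) hdR
    linarith
  obtain ⟨-, hDD0, hPv⟩ := hPe ι d p hp θ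
  obtain ⟨δ, hδ⟩ : ∃ δ : ℝ, δ = √(DD p θ) := ⟨_, rfl⟩
  rw [← hδ] at hPv
  have hδ0 : 0 ≤ δ := hδ ▸ Real.sqrt_nonneg _
  have hδ1 : δ ≤ 18258 / 1000000 := by
    rw [hδ, Real.sqrt_le_iff]
    constructor
    · norm_num
    · refine hDD.trans ?_
      norm_num
  obtain ⟨hG1, hG2, hG3, hG4⟩ := hGs ι d p m hp hm1 hm2 θ hθ2
  rw [← hδ] at hG3 hG4
  -- the vectors
  have hpi : ∀ i, p i = uv p m i + wv p m i := by
    intro i
    unfold uv wv
    rw [← smul_add, sub_add_add_cancel, ← two_smul ℝ, smul_smul]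
    norm_num
  have hpm : ∀ i, p (m i) = -uv p m i + wv p m i := by
    intro i
    unfold uv wv
    rw [neg_add_eq_sub, ← smul_sub, add_sub_sub_cancel, ← two_smul ℝ, smul_smul]
    norm_num
  have hwn : ∀ i, ‖wv p m i‖ ^ 2 = wf p m i ^ 2 := by
    intro i
    rw [hw2 i]
    unfold wv gr
    rw [norm_smul, mul_pow, norm_add_sq_real, hp, hp]
    norm_num
    ring
  have hun : ∀ i, ‖uv p m i‖ ^ 2 = 1 - wf p m i ^ 2 := by
    intro i
    rw [hw2 i]
    unfold uv gr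
    rw [norm_smul, mul_pow, norm_sub_sq_real, hp, hp]
    norm_num
    ring
  have hw0 : ∀ i, 0 ≤ wf p m i ^ 2 := fun i => sq_nonneg _
  have hu1 : ∀ i, ‖uv p m i‖ ≤ 1 := by
    intro i
    have h1 := hun i
    have h2 := hw0 i
    nlinarith [norm_nonneg (uv p m i)]
  obtain ⟨al, hal⟩ : ∃ al : ι → ι → ℝ, al = fun i j => (inner ℝ (uv p m i) (uv p m j) : ℝ) := ⟨_, rfl⟩
  obtain ⟨be, hbe⟩ : ∃ be : ι → ι → ℝ, be = fun i j => (inner ℝ (uv p m i) (wv p m j) : ℝ) := ⟨_, rfl⟩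
  obtain ⟨ga, hga⟩ : ∃ ga : ι → ι → ℝ, ga = fun i j => (inner ℝ (wv p m i) (uv p m j) : ℝ) := ⟨_, rfl⟩
  obtain ⟨de, hde⟩ : ∃ de : ι → ι → ℝ, de = fun i j => (inner ℝ (wv p m i) (wv p m j) : ℝ) := ⟨_, rfl⟩
  have hal' : ∀ i j, (inner ℝ (uv p m i) (uv p m j) : ℝ) = al i j := fun i j => by rw [hal]
  have hbe' : ∀ i j, (inner ℝ (uv p m i) (wv p m j) : ℝ) = be i j := fun i j => by rw [hbe]
  have hga' : ∀ i j, (inner ℝ (wv p m i) (uv p m j) : ℝ) = ga i j := fun i j => by rw [hga]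
  have hde' : ∀ i j, (inner ℝ (wv p m i) (wv p m j) : ℝ) = de i j := fun i j => by rw [hde]
  have g1 : ∀ i j, gr p i j = al i j + be i j + ga i j + de i j := by
    intro i j
    unfold gr
    rw [hpi i, hpi j, inner_add_left, inner_add_right, inner_add_right, hal', hbe', hga', hde']
    ring
  have g2 : ∀ i j, gr p (m i) (m j) = al i j - be i j - ga i j + de i j := by
    intro i j
    unfold gr
    rw [hpm i, hpm j, inner_add_left, inner_add_right, inner_add_right, inner_neg_left, inner_neg_left, inner_neg_right,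
      inner_neg_right, hal', hbe', hga', hde']
    ring
  have g3 : ∀ i j, gr p i (m j) = -al i j + be i j - ga i j + de i j := by
    intro i j
    unfold gr
    rw [hpi i, hpm j, inner_add_left, inner_add_right, inner_add_right, inner_neg_right,
      inner_neg_right, hal', hbe', hga', hde']
    ring
  have g4 : ∀ i j, gr p (m i) j = -al i j - be i j + ga i j + de i j := by
    intro i j
    unfold gr
    rw [hpm i, hpi j, inner_add_left, inner_add_right, inner_add_right, inner_neg_left, inner_neg_left,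
      hal', hbe', hga', hde']
    ring
  simp only [hal', hbe', hga', hde'] at hG1 hG2 hG3 hG4
  -- the products are small
  have hsm : ∀ i j, j ≠ i → j ≠ m i → |gr p i j| ≤ 3 / 20 := by
    intro i j h1 h2
    have h3 := hPv (p i)
    rw [hp i, one_pow, mul_one] at h3
    have h4 : gr p i i ^ 2 + (gr p i (m i) ^ 2 + gr p i j ^ 2) ≤ ∑ l, (inner ℝ (p i) (p l) : ℝ) ^ 2 := by
      have h5 : ({i, m i, j} : Finset ι) ⊆ univ := subset_univ _
      have h6 := sum_le_sum_of_subset_of_nonneg (f := fun l => gr p i l ^ 2) h5 (fun l _ _ => sq_nonneg _)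
      rw [sum_insert, sum_insert, sum_singleton] at h6
      · exact h6
      · rw [mem_singleton]
        exact Ne.symm h2
      · rw [mem_insert, mem_singleton, not_or]
        exact ⟨Ne.symm (hm2 i), Ne.symm h1⟩
    have h5 : gr p i i = 1 := by
      unfold gr
      rw [real_inner_self_eq_norm_sq, hp, one_pow]
    have h6 : gr p i (m i) = 2 * wf p m i ^ 2 - 1 := by
      have := hw2 i
      linarith
    rw [h5, h6] at h4
    have h7 := hw1 i
    have h8 := hw0 i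
    have h9 : gr p i j ^ 2 ≤ (3 / 20) ^ 2 := by nlinarith
    exact abs_le_of_sq_le_sq h9 (by norm_num)
  have hmm : ∀ i j, m i = m j → i = j := fun i j h => by rw [← hm1 i, h, hm1]
  -- the four roots
  have hH : ∀ i j, j ≠ i → j ≠ m i →
      √(1 - gr p i j) + √(1 - gr p (m i) (m j)) + √(1 - gr p i (m j)) + √(1 - gr p (m i) j) ≤
        2 * hh (al i j) - 2 * de i j - 2 / 5 * (be i j ^ 2 + ga i j ^ 2 + de i j ^ 2) + 4 / 5 * |de i j| * al i j ^ 2 := by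
    intro i j h1 h2
    rw [g1, g2, g3, g4]
    apply hLo
    · rw [← g1]
      exact hsm i j h1 h2
    · rw [← g2]
      exact hsm (m i) (m j) (fun h => h1 (hmm _ _ h)) (fun h => h2 (hmm _ _ (by rw [h, hm1])))
    · rw [← g3]
      exact hsm i (m j) (fun h => h2 (by rw [← h, hm1])) (fun h => h1 (hmm _ _ h))
    · rw [← g4]
      exact hsm (m i) j h2 (fun h => h1 (by rw [h, hm1]))
  -- Taylor at `1 / d`
  obtain ⟨K, hK1, hK2, -, -, hK⟩ := hTa (1 / (d : ℝ)) (by positivity) (by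
    rw [div_le_div_iff₀ hd0 (by norm_num)]
    linarith [show (100 : ℝ) ≤ 10 ^ 9 by norm_num])
  obtain ⟨x0, hx0⟩ : ∃ x0 : ℝ, x0 = 1 / (d : ℝ) := ⟨_, rfl⟩
  rw [← hx0] at hK
  have hal1 : ∀ i j, |al i j| ≤ 1 := by
    intro i j
    rw [← hal']
    refine (abs_real_inner_le_norm _ _).trans ?_
    exact mul_le_one₀ (hu1 i) (norm_nonneg _) (hu1 j)
  obtain ⟨sl, hsl⟩ : ∃ sl : ι → ι → ℝ, sl = fun i j => hh x0 - K * (al i j ^ 2 - x0 ^ 2) - hh (al i j) := ⟨_, rfl⟩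
  have hsl0 : ∀ i j, 0 ≤ sl i j := by
    intro i j
    rw [hsl]
    have := (hK (al i j) (hal1 i j)).1
    show 0 ≤ hh x0 - K * (al i j ^ 2 - x0 ^ 2) - hh (al i j)
    linarith
  -- sums
  obtain ⟨D, hD⟩ : ∃ D : ι → Finset ι, D = fun i => (univ.erase i).erase (m i) := ⟨_, rfl⟩
  have hD' : ∀ i, (univ.erase i).erase (m i) = D i := fun i => by rw [hD]
  have hmem : ∀ i, m i ∈ (univ : Finset ι).erase i := fun i => mem_erase.2 ⟨hm2 i, mem_univ _⟩
  have hDmem : ∀ i j, j ∈ D i ↔ j ≠ m i ∧ j ≠ i := by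
    intro i j
    rw [← hD', mem_erase, mem_erase]
    simp
  have hcard : ∀ i, ((D i).card : ℝ) = 2 * (d : ℝ) := by
    intro i
    rw [← hD', card_erase_of_mem (hmem i), card_erase_of_mem (mem_univ i), card_univ, hN]
    have : 2 * d + 2 - 1 - 1 = 2 * d := by omega
    rw [this]
    push_cast
    ring
  simp only [hD'] at hG1 hG2 hG3 hG4
  have hsq : sq p = ∑ i, √(1 - gr p i (m i)) + ∑ i, ∑ j ∈ D i, √(1 - gr p i j) := by
    unfold sq
    rw [← sum_add_distrib]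
    refine sum_congr rfl fun i _ => ?_
    rw [← hD']
    exact (add_sum_erase (univ.erase i) (fun j => √(1 - gr p i j)) (hmem i)).symm
  have hSm1 := hSm ι m hm1 hm2 (fun i j => √(1 - gr p i j))
  simp only [hD'] at hSm1
  rw [hSm1] at hsq
  have hroot : ∑ i, √(1 - gr p i (m i)) ≤ √2 * (2 * (d : ℝ) + 2) - √2 / 2 * ∑ i, wf p m i ^ 2 := by
    have h1 : ∀ i ∈ (univ : Finset ι), √(1 - gr p i (m i)) ≤ √2 - √2 / 2 * wf p m i ^ 2 := by
      intro i _
      have h2 : 1 - gr p i (m i) = 2 - 2 * wf p m i ^ 2 := by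
        have := hw2 i
        linarith
      rw [h2]
      exact A3_root _ (by have := hw1 i; linarith)
    refine (sum_le_sum h1).trans (le_of_eq ?_)
    rw [sum_sub_distrib, sum_const, card_univ, nsmul_eq_mul, ← mul_sum, hNR]
    ring
  have hHsum : ∑ i, ∑ j ∈ D i,
      (√(1 - gr p i j) + √(1 - gr p (m i) (m j)) + √(1 - gr p i (m j)) + √(1 - gr p (m i) j)) ≤
      ∑ i, ∑ j ∈ D i, (2 * hh (al i j) - 2 * de i j - 2 / 5 * (be i j ^ 2 + ga i j ^ 2 + de i j ^ 2) +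
        4 / 5 * |de i j| * al i j ^ 2) :=
    sum_le_sum fun i _ => sum_le_sum fun j hj => by
      have h1 := (hDmem i j).1 hj
      exact hH i j h1.2 h1.1
  -- names for the sums
  obtain ⟨W2, hW2⟩ : ∃ W2 : ℝ, W2 = ∑ i, wf p m i ^ 2 := ⟨_, rfl⟩
  obtain ⟨W4, hW4⟩ : ∃ W4 : ℝ, W4 = ∑ i, ‖wv p m i‖ ^ 4 := ⟨_, rfl⟩
  have hW2' : ∑ i, ‖wv p m i‖ ^ 2 = W2 := by
    rw [hW2]
    exact sum_congr rfl fun i _ => hwn i
  have hW20 : 0 ≤ W2 := hW2 ▸ sum_nonneg fun i _ => hw0 i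
  have hW4le : W4 ≤ W2 / 1000 := by
    rw [hW4, hW2, sum_div]
    refine sum_le_sum fun i _ => ?_
    have h1 : ‖wv p m i‖ ^ 4 = (‖wv p m i‖ ^ 2) ^ 2 := by ring
    rw [h1, hwn]
    have h2 := hw1 i
    have h3 := hw0 i
    nlinarith
  rw [hW2'] at hG1 hG2 hG3
  rw [← hW4] at hG2
  rw [← hW2] at hroot
  have hT1 : ∑ i, ∑ j ∈ D i, |de i j| * al i j ^ 2 ≤ (θ - 2 + δ + 2 / 1000) * W2 := by
    refine hG4.trans ?_
    rw [hW2, mul_sum]
    refine sum_le_sum fun i _ => ?_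
    rw [hwn, mul_comm]
    apply mul_le_mul_of_nonneg_right _ (hw0 i)
    have := hw1 i
    linarith
  have hsplit : ∑ i, ∑ j ∈ D i, (2 * hh (al i j) - 2 * de i j - 2 / 5 * (be i j ^ 2 + ga i j ^ 2 + de i j ^ 2) +
        4 / 5 * |de i j| * al i j ^ 2) =
      2 * ∑ i, ∑ j ∈ D i, hh (al i j) - 2 * ∑ i, ∑ j ∈ D i, de i j -
        2 / 5 * ∑ i, ∑ j ∈ D i, (be i j ^ 2 + ga i j ^ 2 + de i j ^ 2) +
        4 / 5 * ∑ i, ∑ j ∈ D i, |de i j| * al i j ^ 2 := by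
    simp only [mul_sum, ← sum_sub_distrib, ← sum_add_distrib]
    exact sum_congr rfl fun i _ => sum_congr rfl fun j _ => by ring
  have hslsum : ∑ i, ∑ j ∈ D i, sl i j = (2 * (d : ℝ) + 2) * (2 * (d : ℝ)) * (hh x0 + K * x0 ^ 2) -
      K * ∑ i, ∑ j ∈ D i, al i j ^ 2 - ∑ i, ∑ j ∈ D i, hh (al i j) := by
    have h1 : (2 * (d : ℝ) + 2) * (2 * (d : ℝ)) * (hh x0 + K * x0 ^ 2) =
        ∑ i : ι, ∑ j ∈ D i, (hh x0 + K * x0 ^ 2) := by
      have h2 : ∀ i ∈ (univ : Finset ι), ∑ j ∈ D i, (hh x0 + K * x0 ^ 2) = 2 * (d : ℝ) * (hh x0 + K * x0 ^ 2) := by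
        intro i _
        rw [sum_const, nsmul_eq_mul, hcard]
      rw [sum_congr rfl h2, sum_const, card_univ, nsmul_eq_mul, hNR]
      ring
    rw [h1, hsl]
    simp only [mul_sum, ← sum_sub_distrib]
    exact sum_congr rfl fun i _ => sum_congr rfl fun j _ => by ring
  have hAB : ∑ i, ∑ j ∈ D i, (al i j ^ 2 + be i j ^ 2 + ga i j ^ 2 + de i j ^ 2) =
      ∑ i, ∑ j ∈ D i, al i j ^ 2 + ∑ i, ∑ j ∈ D i, (be i j ^ 2 + ga i j ^ 2 + de i j ^ 2) := by
    simp only [← sum_add_distrib]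
    exact sum_congr rfl fun i _ => sum_congr rfl fun j _ => by ring
  rw [hAB] at hG2
  -- `G2`
  have hG2' : G2 p - 2 * (2 * (d : ℝ) + 2) = (2 * (d : ℝ) + 2) * (2 * (d : ℝ)) * x0 ^ 2 + DD p θ := by
    unfold DD
    rw [hNR, hθ, hx0]
    field_simp
    ring
  rw [hNR] at hG2
  have hsl1 : 0 ≤ ∑ i, ∑ j ∈ D i, sl i j := sum_nonneg fun i _ => sum_nonneg fun j _ => hsl0 i j
  have hs2 : 1414 / 1000 ≤ √2 := Real.le_sqrt_of_sq_le (by norm_num)
  have hS0 : 0 ≤ ‖∑ i, p i‖ ^ 2 := sq_nonneg _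
  have key := A3_num K θ δ W2 W4 (∑ i, ∑ j ∈ D i, (be i j ^ 2 + ga i j ^ 2 + de i j ^ 2))
    (∑ i, ∑ j ∈ D i, |de i j| * al i j ^ 2) (∑ i, ∑ j ∈ D i, de i j) (DD p θ) (√2) hK1 hK2
    (by linarith [show (2 : ℝ) / 10 ^ 9 ≤ 1 / 10000 by norm_num]) hW20 hW4le hG3 hT1 (by linarith) hDD0 hs2
  have hfin : sq p + (∑ i, ∑ j ∈ D i, sl i j) / 2 + W2 / 20 ≤ VV d := by
    have h1 : VV d = √2 * (2 * (d : ℝ) + 2) + (2 * (d : ℝ) + 2) * (2 * (d : ℝ)) * hh x0 / 2 := by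
      unfold VV
      rw [hx0]
    rw [h1, hslsum, hsq]
    rw [hsplit] at hHsum
    have h2 : K * ∑ i, ∑ j ∈ D i, al i j ^ 2 = K * ((2 * (d : ℝ) + 2) * (2 * (d : ℝ)) * x0 ^ 2 + DD p θ + 4 * W2 - 4 * W4 -
        ∑ i, ∑ j ∈ D i, (be i j ^ 2 + ga i j ^ 2 + de i j ^ 2)) := by
      congr 1
      linarith
    rw [h2]
    nlinarith
  have hW2z : W2 = 0 := by linarith
  have hslz : ∑ i, ∑ j ∈ D i, sl i j = 0 := by linarith
  refine ⟨by linarith, fun _ => ⟨m, hm1, hm2, ?_, ?_⟩⟩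
  · intro i
    have h1 : wf p m i ^ 2 = 0 := by
      rw [hW2] at hW2z
      exact (sum_eq_zero_iff_of_nonneg fun i _ => hw0 i).1 hW2z i (mem_univ i)
    have h2 : wv p m i = 0 := by
      have h3 := hwn i
      rw [h1] at h3
      exact norm_eq_zero.1 (pow_eq_zero_iff (two_ne_zero)|>.1 h3)
    rw [hpm i, h2, add_zero]
    have h3 := hpi i
    rw [h2, add_zero] at h3
    rw [← h3]
  · intro i j h1 h2
    have hwz : ∀ l, wv p m l = 0 := by
      intro l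
      have h1 : wf p m l ^ 2 = 0 := by
        rw [hW2] at hW2z
        exact (sum_eq_zero_iff_of_nonneg fun i _ => hw0 i).1 hW2z l (mem_univ l)
      have h3 := hwn l
      rw [h1] at h3
      exact norm_eq_zero.1 (pow_eq_zero_iff (two_ne_zero)|>.1 h3)
    have h3 : sl i j = 0 := by
      have h4 := (sum_eq_zero_iff_of_nonneg fun i _ => sum_nonneg fun j _ => hsl0 i j).1 hslz i (mem_univ i)
      exact (sum_eq_zero_iff_of_nonneg fun j _ => hsl0 i j).1 h4 j ((hDmem i j).2 ⟨h2, h1⟩)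
    have h4 : al i j ^ 2 = x0 ^ 2 := by
      apply (hK (al i j) (hal1 i j)).2
      rw [hsl] at h3
      have h5 : hh x0 - K * (al i j ^ 2 - x0 ^ 2) - hh (al i j) = 0 := h3
      linarith
    have h5 : gr p i j = al i j := by
      rw [g1, ← hbe', ← hga', ← hde', hwz i, hwz j, inner_zero_right, inner_zero_left, inner_zero_left]
      ring
    rw [h5, h4, hx0, div_pow, one_pow]

end Pool.Agent.XPL
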