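import Pool.Agent.XPL.St

set_option autoImplicit false

/-!
MP_b22a07_co, module A4: rigidity of `2d+2` unit vectors, closed under negation, whose other
products are `± 1/d`.
-/

namespace Pool.Agent.XPL

open Finset

/-- Representatives of the antipodal pairs. -/
private theorem A4_reps {d : ℕ} (P : Finset (E d)) (h1 : ∀ x ∈ P, ‖x‖ = 1)
    (hneg : ∀ x ∈ P, -x ∈ P) :
    ∃ Q : Finset (E d), Q ⊆ P ∧ (∀ x ∈ Q, -x ∉ Q) ∧ P = Q ∪ Q.image (fun x => -x) := by
  classical
  obtain ⟨Q, hQ, hmax⟩ := (P.powerset.filter (fun Q => ∀ x ∈ Q, -x ∉ Q)).exists_max_image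
    Finset.card ⟨∅, by simp⟩
  rw [mem_filter, mem_powerset] at hQ
  obtain ⟨hQP, hQn⟩ := hQ
  refine ⟨Q, hQP, hQn, ?_⟩
  have key : ∀ y ∈ P, y ∈ Q ∨ -y ∈ Q := by
    intro y hy
    by_contra hcon
    push Not at hcon
    obtain ⟨hy1, hy2⟩ := hcon
    have hyy : -y ≠ y := by
      intro h
      have h3 : (2 : ℝ) • y = 0 := by
        rw [two_smul]
        nth_rewrite 1 [← h]
        exact neg_add_cancel y
      have h2 : y = 0 := (smul_eq_zero.mp h3).resolve_left two_ne_zero
      have := h1 y hy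
      rw [h2, norm_zero] at this
      exact zero_ne_one this
    have hmem : insert y Q ∈ P.powerset.filter (fun Q => ∀ x ∈ Q, -x ∉ Q) := by
      rw [mem_filter, mem_powerset]
      refine ⟨insert_subset hy hQP, ?_⟩
      intro x hx hx2
      rw [mem_insert] at hx hx2
      rcases hx with rfl | hx
      · rcases hx2 with h | h
        · exact hyy h
        · exact hy2 h
      · rcases hx2 with h | h
        · apply hy2
          rw [← h, neg_neg]
          exact hx
        · exact hQn x hx h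
    have := hmax _ hmem
    rw [card_insert_of_notMem hy1] at this
    omega
  ext y
  rw [mem_union, mem_image]
  constructor
  · intro hy
    rcases key y hy with h | h
    · exact Or.inl h
    · exact Or.inr ⟨-y, h, neg_neg y⟩
  · rintro (h | ⟨x, hx, rfl⟩)
    · exact hQP h
    · exact hneg x (hQP hx)

/-- **A4.** -/
theorem thm_A4 : St_A4 := by
  classical
  intro d P hd hcard h1 hneg hsq
  obtain ⟨Q, hQP, hQn, hPQ⟩ := A4_reps P h1 hneg
  have hd0 : (0 : ℝ) < d := by
    have : 0 < d := by omega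
    exact_mod_cast this
  have hdisj : Disjoint Q (Q.image (fun x => -x)) := by
    rw [disjoint_left]
    intro x hx hx2
    rw [mem_image] at hx2
    obtain ⟨y, hy, rfl⟩ := hx2
    exact hQn y hy hx
  have hQcard : Q.card = d + 1 := by
    have h2 : P.card = Q.card + Q.card := by
      conv_lhs => rw [hPQ]
      rw [card_union_of_disjoint hdisj, card_image_of_injective _ neg_injective]
    omega
  -- linear dependence
  obtain ⟨c, hc, x0, hx0, hcx0⟩ := Module.exists_nontrivial_relation_of_finrank_lt_card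
    (R := ℝ) (M := E d) (t := Q) (by rw [finrank_euclideanSpace_fin, hQcard]; omega)
  have hne : ∀ x ∈ Q, ∀ y ∈ Q, x ≠ y → (inner ℝ x y : ℝ) ^ 2 = 1 / (d : ℝ) ^ 2 := by
    intro x hx y hy hxy
    refine hsq x (hQP hx) y (hQP hy) hxy ?_
    rintro rfl
    exact hQn y hy hx
  have habs : ∀ x ∈ Q, ∀ y ∈ Q, x ≠ y → |(inner ℝ x y : ℝ)| = 1 / (d : ℝ) := by
    intro x hx y hy hxy
    have h := hne x hx y hy hxy
    have h2 : |(inner ℝ x y : ℝ)| ^ 2 = (1 / (d : ℝ)) ^ 2 := by
      rw [sq_abs, h, div_pow, one_pow]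
    exact (pow_left_inj₀ (abs_nonneg _) (by positivity) two_ne_zero).mp h2
  have hrel : ∀ k ∈ Q, c k + ∑ x ∈ Q.erase k, c x * (inner ℝ x k : ℝ) = 0 := by
    intro k hk
    have h := congrArg (fun v => (inner ℝ v k : ℝ)) hc
    simp only [inner_zero_left, sum_inner, real_inner_smul_left] at h
    rw [← add_sum_erase Q _ hk, real_inner_self_eq_norm_sq, h1 k (hQP hk)] at h
    simpa using h
  set S : ℝ := ∑ x ∈ Q, |c x| with hS
  have hle : ∀ k ∈ Q, |c k| * (d + 1) ≤ S := by
    intro k hk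
    have h := hrel k hk
    have h2 : |c k| ≤ ∑ x ∈ Q.erase k, |c x| * (1 / (d : ℝ)) := by
      have h3 : c k = -∑ x ∈ Q.erase k, c x * (inner ℝ x k : ℝ) := by linarith
      rw [h3, abs_neg]
      refine (abs_sum_le_sum_abs _ _).trans (sum_le_sum ?_)
      intro x hx
      rw [mem_erase] at hx
      rw [abs_mul, habs x hx.2 k hk hx.1]
    rw [← sum_mul] at h2
    have h4 : |c k| + ∑ x ∈ Q.erase k, |c x| = S := by
      rw [hS, ← add_sum_erase Q _ hk]
    have h5 : |c k| * d ≤ ∑ x ∈ Q.erase k, |c x| := by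
      calc |c k| * d ≤ ((∑ x ∈ Q.erase k, |c x|) * (1 / (d : ℝ))) * d :=
            mul_le_mul_of_nonneg_right h2 hd0.le
        _ = ∑ x ∈ Q.erase k, |c x| := by field_simp
    nlinarith
  have heq : ∀ k ∈ Q, |c k| * (d + 1) = S := by
    have hsum : ∑ k ∈ Q, |c k| * (d + 1) = ∑ k ∈ Q, S := by
      rw [← sum_mul, sum_const, hQcard, nsmul_eq_mul, ← hS]
      push_cast
      ring
    exact (sum_eq_sum_iff_of_le hle).mp hsum
  have hSpos : 0 < S := by
    have h := heq x0 hx0
    have h2 : 0 < |c x0| := abs_pos.mpr hcx0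
    rw [← h]
    positivity
  set s : ℝ := S / (d + 1) with hs
  have hd1 : (0 : ℝ) < (d : ℝ) + 1 := by linarith
  have hspos : 0 < s := div_pos hSpos hd1
  have hcs : ∀ k ∈ Q, |c k| = s := by
    intro k hk
    rw [hs, eq_div_iff hd1.ne']
    exact heq k hk
  have hcs2 : ∀ k ∈ Q, c k ^ 2 = s ^ 2 := by
    intro k hk
    rw [← sq_abs, hcs k hk]
  -- each product is extremal
  have hprod : ∀ k ∈ Q, ∀ x ∈ Q, x ≠ k → c k * (c x * (inner ℝ x k : ℝ)) = -(s ^ 2 / d) := by
    intro k hk
    have hlow : ∀ x ∈ Q.erase k, -(s ^ 2 / d) ≤ c k * (c x * (inner ℝ x k : ℝ)) := by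
      intro x hx
      rw [mem_erase] at hx
      have h : |c k * (c x * (inner ℝ x k : ℝ))| = s ^ 2 / d := by
        rw [abs_mul, abs_mul, hcs k hk, hcs x hx.2, habs x hx.2 k hk hx.1]
        ring
      rw [← h]
      exact neg_abs_le _
    have hsum : ∑ x ∈ Q.erase k, -(s ^ 2 / d) = ∑ x ∈ Q.erase k, c k * (c x * (inner ℝ x k : ℝ)) := by
      rw [sum_const, card_erase_of_mem hk, hQcard, ← mul_sum, nsmul_eq_mul]
      have h := hrel k hk
      have h2 : ∑ x ∈ Q.erase k, c x * (inner ℝ x k : ℝ) = -c k := by linarith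
      rw [h2, Nat.add_sub_cancel]
      have h3 := hcs2 k hk
      field_simp
      nlinarith
    have h := (sum_eq_sum_iff_of_le hlow).mp hsum
    intro x hx hxk
    exact (h x (mem_erase.mpr ⟨hxk, hx⟩)).symm
  -- the simplex
  set g : E d → E d := fun x => (c x / s) • x with hg
  have hsg : ∀ x ∈ Q, c x / s = 1 ∨ c x / s = -1 := by
    intro x hx
    have h := hcs x hx
    rcases abs_eq hspos.le |>.mp h with h | h
    · left; rw [h, div_self hspos.ne']
    · right; rw [h, neg_div, div_self hspos.ne']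
  have hgx : ∀ x ∈ Q, g x = x ∨ g x = -x := by
    intro x hx
    rcases hsg x hx with h | h
    · left; simp only [hg, h, one_smul]
    · right; simp only [hg, h, neg_smul, one_smul]
  have hgn : ∀ x ∈ Q, ‖g x‖ = 1 := by
    intro x hx
    rcases hgx x hx with h | h
    · rw [h]; exact h1 x (hQP hx)
    · rw [h, norm_neg]; exact h1 x (hQP hx)
  have hgi : ∀ x ∈ Q, ∀ y ∈ Q, x ≠ y → (inner ℝ (g x) (g y) : ℝ) = -(1 / (d : ℝ)) := by
    intro x hx y hy hxy
    have h := hprod y hy x hx hxy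
    simp only [hg, real_inner_smul_left, real_inner_smul_right]
    have h2 : c y / s * (c x / s * (inner ℝ x y : ℝ)) = (c y * (c x * (inner ℝ x y : ℝ))) / s ^ 2 := by
      field_simp
    rw [h2, h]
    field_simp
  have hginj : Set.InjOn g (Q : Set (E d)) := by
    intro x hx y hy hxy
    by_contra hne2
    have h := hgi x hx y hy hne2
    rw [hxy, real_inner_self_eq_norm_sq, hgn y hy] at h
    have h3 : 0 < 1 / (d : ℝ) := by positivity
    linarith
  refine ⟨Q.image g, ?_, ?_, ?_, ?_⟩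
  · rw [card_image_of_injOn hginj, hQcard]
  · intro a ha
    rw [mem_image] at ha
    obtain ⟨x, hx, rfl⟩ := ha
    exact hgn x hx
  · intro a ha b hb hab
    rw [mem_image] at ha hb
    obtain ⟨x, hx, rfl⟩ := ha
    obtain ⟨y, hy, rfl⟩ := hb
    exact hgi x hx y hy (fun h => hab (by rw [h]))
  · rw [hPQ]
    ext y
    simp only [mem_union, mem_image]
    constructor
    · rintro (h | ⟨x, hx, rfl⟩)
      · rcases hgx y h with h2 | h2
        · exact Or.inl ⟨y, h, h2⟩
        · exact Or.inr ⟨g y, ⟨y, h, rfl⟩, by rw [h2, neg_neg]⟩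
      · rcases hgx x hx with h2 | h2
        · exact Or.inr ⟨g x, ⟨x, hx, rfl⟩, by rw [h2]⟩
        · exact Or.inl ⟨x, hx, h2⟩
    · rintro (⟨x, hx, rfl⟩ | ⟨_, ⟨x, hx, rfl⟩, rfl⟩)
      · rcases hgx x hx with h2 | h2
        · left; rw [h2]; exact hx
        · right; exact ⟨x, hx, h2.symm⟩
      · rcases hgx x hx with h2 | h2
        · right; exact ⟨x, hx, by rw [h2]⟩
        · left; rw [h2, neg_neg]; exact hx

end Pool.Agent.XPL
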