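import Pool.Agent.XPL.St

set_option autoImplicit false

namespace Pool.Agent.XPL

theorem thm_B1 : St_Lm → St_B1 := by
  rintro ⟨key, -, -, -⟩ t h0 h1
  rw [key t h1]
  have h2 : √(1 - t) ^ 2 = 1 - t := Real.sq_sqrt (by linarith)
  have hr : 0 ≤ √(1 - t) := Real.sqrt_nonneg _
  set r := √(1 - t) with hrd
  have h3 : t = 1 - r ^ 2 := by rw [h2]; ring
  have h4 : r ^ 2 ≤ 178 / 100 := by rw [h2]; linarith
  have h5 : r ≤ 13342 / 10000 := by
    by_contra h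
    push Not at h
    nlinarith
  have h6 : (r - 1) * (r + 3) / 8 ≤ 333 / 10000 * (r + 1) ^ 2 := by nlinarith
  have h7 : (r - 1) ^ 3 * (r + 3) / 8 = (r - 1) ^ 2 * ((r - 1) * (r + 3) / 8) := by ring
  have h8 : 333 / 10000 * t ^ 2 = (r - 1) ^ 2 * (333 / 10000 * (r + 1) ^ 2) := by rw [h3]; ring
  rw [h7, h8]
  exact mul_le_mul_of_nonneg_left h6 (sq_nonneg _)

theorem thm_B2 : St_Lm → St_B2 := by
  rintro ⟨key, -, hneg, -⟩ t g h0 h1 h2 h3
  have hg0 : 0 ≤ g := by linarith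
  have hlg := hneg g hg0 h3
  have hg2 : ((-3 * t - 191 / 100) / 2) ^ 2 ≤ g ^ 2 := by
    apply pow_le_pow_left₀ _ h2
    linarith
  have hk := key t (by linarith)
  have h2' : √(1 - t) ^ 2 = 1 - t := Real.sq_sqrt (by linarith)
  have hr : 0 ≤ √(1 - t) := Real.sqrt_nonneg _
  set r := √(1 - t) with hrd
  have h3' : t = 1 - r ^ 2 := by rw [h2']; ring
  have hlo : 1334 / 1000 ≤ r := by
    by_contra h
    push Not at h
    nlinarith
  have hhi : r ≤ 1415 / 1000 := by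
    by_contra h
    push Not at h
    nlinarith
  have hmain : (r - 1) ^ 3 * (r + 3) / 8 ≤
      333 / 10000 * (t ^ 2 + ((-3 * t - 191 / 100) / 2) ^ 2) := by
    rw [h3']
    nlinarith [mul_nonneg (sub_nonneg.2 hlo) (sub_nonneg.2 hhi), sq_nonneg (r ^ 2), sq_nonneg r,
      mul_nonneg (mul_nonneg (sub_nonneg.2 hlo) (sub_nonneg.2 hhi)) hr,
      mul_nonneg (mul_nonneg (sub_nonneg.2 hlo) (sub_nonneg.2 hhi)) (sq_nonneg r)]
  rw [hk]
  linarith

end Pool.Agent.XPL
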