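import Pool.Agent.XPL.St

set_option autoImplicit false

/-!
XPL, module BB: Theorem B for families with the case of equality (helper76).
-/

namespace Pool.Agent.XPL

open Finset

private theorem BB_self {ι : Type} {d : ℕ} (p : ι → E d) (h1 : ∀ i, ‖p i‖ = 1) (i : ι) :
    gr p i i = 1 := by
  unfold gr
  rw [real_inner_self_eq_norm_sq, h1 i, one_pow]

private theorem BB_abs {ι : Type} {d : ℕ} (p : ι → E d) (h1 : ∀ i, ‖p i‖ = 1) (i j : ι) :
    |gr p i j| ≤ 1 := by
  unfold gr
  refine (abs_real_inner_le_norm _ _).trans ?_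
  rw [h1 i, h1 j, one_mul]

private theorem BB_split {ι : Type} [Fintype ι] [DecidableEq ι] {i k : ι} (h : k ≠ i)
    (F : ι → ℝ) : ∑ j, F j = F i + (F k + ∑ j ∈ (univ.erase i).erase k, F j) := by
  rw [← Finset.add_sum_erase univ F (Finset.mem_univ i),
    ← Finset.add_sum_erase (univ.erase i) F (Finset.mem_erase.2 ⟨h, Finset.mem_univ k⟩)]

private theorem BB_bound (hS1 : St_S1) (hId : St_Id) {ι : Type} [Fintype ι] [DecidableEq ι]
    {d : ℕ} (p : ι → E d) (h1 : ∀ i, ‖p i‖ = 1) : ∃ m : ι → ι, MM p m ∧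
    sq p ≤ (Fintype.card ι : ℝ) * ((Fintype.card ι : ℝ) - 1)
      + (√2 - 5 / 4) * (Fintype.card ι : ℝ) + (d : ℝ) / 2
      - DD p 2 / 800 - ∑ i, gg p m 2 i := by
  obtain ⟨m, hm, h2⟩ := hS1 ι d p h1 2 le_rfl (by norm_num)
  refine ⟨m, hm, ?_⟩
  have h3 := hId ι d p h1
  have h4 : DD p 2 = G2 p - 2 * 2 * (Fintype.card ι : ℝ) + 2 ^ 2 * (d : ℝ) := rfl
  have h5 : c0 = √2 - 11 / 8 := rfl
  have h6 : 0 ≤ ‖∑ i, p i‖ ^ 2 := sq_nonneg _
  rw [h5] at h2
  nlinarith

theorem thm_BB : St_S1 → St_Id → St_Pe → St_BB := by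
  intro hS1 hId hPe ι _ _ d p h1
  obtain ⟨m, hm, hb⟩ := BB_bound hS1 hId p h1
  obtain ⟨hpe1, hpe2, -⟩ := hPe ι d p h1 2
  have hgg : ∀ i, 0 ≤ gg p m 2 i := by
    intro i
    unfold gg
    split_ifs with h
    · norm_num
    · have : 0 ≤ wf p m i ^ 2 := sq_nonneg _
      nlinarith
  have hggs : 0 ≤ ∑ i, gg p m 2 i := Finset.sum_nonneg fun i _ => hgg i
  have hle : sq p ≤ (Fintype.card ι : ℝ) * ((Fintype.card ι : ℝ) - 1)
      + (√2 - 5 / 4) * (Fintype.card ι : ℝ) + (d : ℝ) / 2 := by linarith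
  refine ⟨hle, ?_, ?_⟩
  · intro heq
    have hD : DD p 2 = 0 := by linarith
    have hg0 : ∑ i, gg p m 2 i = 0 := by linarith
    have hg : ∀ i, gg p m 2 i = 0 := by
      intro i
      exact (Finset.sum_eq_zero_iff_of_nonneg (fun i _ => hgg i)).1 hg0 i (Finset.mem_univ i)
    have hne : ∀ i, m i ≠ i := by
      intro i hi
      have := hg i
      unfold gg at this
      rw [if_pos hi] at this
      norm_num at this
    have hw : ∀ i, gr p i (m i) = -1 := by
      intro i
      have h2 := hg i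
      unfold gg at h2
      rw [if_neg (hne i)] at h2
      have h3 : wf p m i ^ 2 = 0 := by linarith
      have h4 := BB_abs p h1 i (m i)
      rw [abs_le] at h4
      have h5 : wf p m i ^ 2 = (1 + gr p i (m i)) / 2 := by
        unfold wf
        exact Real.sq_sqrt (by linarith)
      linarith
    have huu1 : ∀ i, uu p i = 1 + (1 + ∑ j ∈ (univ.erase i).erase (m i), gr p i j ^ 2) := by
      intro i
      unfold uu
      rw [BB_split (hne i) (fun j => gr p i j ^ 2), BB_self p h1 i, hw i]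
      norm_num
    have hupos : ∀ i, 0 < uu p i := by
      intro i
      rw [huu1 i]
      have : 0 ≤ ∑ j ∈ (univ.erase i).erase (m i), gr p i j ^ 2 :=
        Finset.sum_nonneg fun j _ => sq_nonneg _
      linarith
    have hu : ∀ i, uu p i = 2 := by
      intro i
      have h2 : ∀ i, 0 ≤ (uu p i - 2) ^ 2 / uu p i := fun i =>
        div_nonneg (sq_nonneg _) (hupos i).le
      have h3 : ∑ i, (uu p i - 2) ^ 2 / uu p i = 0 :=
        le_antisymm (hpe1.trans hD.le) (Finset.sum_nonneg fun i _ => h2 i)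
      have h4 := (Finset.sum_eq_zero_iff_of_nonneg (fun i _ => h2 i)).1 h3 i (Finset.mem_univ i)
      rw [div_eq_zero_iff] at h4
      rcases h4 with h4 | h4
      · have := pow_eq_zero_iff (two_ne_zero) |>.1 h4
        linarith
      · exact absurd h4 (hupos i).ne'
    refine ⟨?_, m, hm.1, hne, hw, ?_⟩
    · have h2 : DD p 2 = G2 p - 2 * 2 * (Fintype.card ι : ℝ) + 2 ^ 2 * (d : ℝ) := rfl
      have h3 : G2 p = 2 * (Fintype.card ι : ℝ) := by
        unfold G2
        rw [Finset.sum_congr rfl (fun i _ => hu i), Finset.sum_const, nsmul_eq_mul,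
          Finset.card_univ]
        ring
      have h4 : (Fintype.card ι : ℝ) = 2 * (d : ℝ) := by
        rw [h3, hD] at h2
        linarith
      exact_mod_cast h4
    · intro i j hji hjm
      have h2 := huu1 i
      rw [hu i] at h2
      have h3 : ∑ j ∈ (univ.erase i).erase (m i), gr p i j ^ 2 = 0 := by linarith
      have h4 := (Finset.sum_eq_zero_iff_of_nonneg (fun j _ => sq_nonneg _)).1 h3 j
        (Finset.mem_erase.2 ⟨hjm, Finset.mem_erase.2 ⟨hji, Finset.mem_univ j⟩⟩)
      exact pow_eq_zero_iff (two_ne_zero) |>.1 h4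
  · rintro ⟨hN, m', hm1, hm2, hm3, hm4⟩
    have hrow : ∀ i, ∑ j ∈ univ.erase i, √(1 - gr p i j) = √2 + ((Fintype.card ι : ℝ) - 2) := by
      intro i
      rw [← Finset.add_sum_erase (univ.erase i) (fun j => √(1 - gr p i j))
        (Finset.mem_erase.2 ⟨hm2 i, Finset.mem_univ (m' i)⟩), hm3 i]
      have h2 : ∑ j ∈ (univ.erase i).erase (m' i), √(1 - gr p i j) =
          ∑ j ∈ (univ.erase i).erase (m' i), (1 : ℝ) := by
        refine Finset.sum_congr rfl fun j hj => ?_
        rw [Finset.mem_erase, Finset.mem_erase] at hj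
        rw [hm4 i j hj.2.1 hj.1, sub_zero, Real.sqrt_one]
      have h3 : (((univ.erase i).erase (m' i)).card : ℝ) = (Fintype.card ι : ℝ) - 2 := by
        have h4 : ((univ.erase i).erase (m' i)).card + 1 = (univ.erase i).card :=
          Finset.card_erase_add_one (Finset.mem_erase.2 ⟨hm2 i, Finset.mem_univ (m' i)⟩)
        have h5 : (univ.erase i).card + 1 = (univ : Finset ι).card :=
          Finset.card_erase_add_one (Finset.mem_univ i)
        rw [Finset.card_univ] at h5
        have h6 : ((univ.erase i).erase (m' i)).card + 2 = Fintype.card ι := by omega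
        have h7 : (((univ.erase i).erase (m' i)).card : ℝ) + 2 = (Fintype.card ι : ℝ) := by
          exact_mod_cast h6
        linarith
      rw [h2, Finset.sum_const, nsmul_eq_mul, mul_one, h3]
      norm_num
    unfold sq
    rw [Finset.sum_congr rfl (fun i _ => hrow i), Finset.sum_const, nsmul_eq_mul,
      Finset.card_univ]
    have h8 : (d : ℝ) = (Fintype.card ι : ℝ) / 2 := by
      have : (Fintype.card ι : ℝ) = 2 * (d : ℝ) := by exact_mod_cast hN
      linarith
    rw [h8]
    ring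

end Pool.Agent.XPL
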