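import Pool.Agent.XPL.St

set_option autoImplicit false

/-!
# XPL, statement Cv : the converse computation for the simplex and its negative
-/

namespace Pool.Agent.XPL

open Finset

private theorem Cv_dist {d : ℕ} (x y : E d) (hx : ‖x‖ = 1) (hy : ‖y‖ = 1) :
    dist x y = √2 * √(1 - inner ℝ x y) := by
  have h1 : ‖x - y‖ ^ 2 = 2 * (1 - inner ℝ x y) := by
    rw [norm_sub_sq_real, hx, hy]
    ring
  rw [dist_eq_norm, ← Real.sqrt_sq (norm_nonneg (x - y)), h1, Real.sqrt_mul (by norm_num)]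

private theorem Cv_row {d : ℕ} {A : Finset (E d)} (hc : A.card = d + 1) (h1 : ∀ a ∈ A, ‖a‖ = 1)
    (h2 : ∀ a ∈ A, ∀ b ∈ A, a ≠ b → (inner ℝ a b : ℝ) = -(1 / (d : ℝ))) {x : E d} (hx : x ∈ A) :
    ∑ y ∈ A, dist x y + ∑ y ∈ A, dist x (-y) = 2 + (d : ℝ) * (√2 * hh (1 / (d : ℝ))) := by
  have hce : (A.erase x).card = d := by
    rw [Finset.card_erase_of_mem hx, hc]
    rfl
  have s1 : ∑ y ∈ A.erase x, dist x y = (d : ℝ) * (√2 * √(1 + 1 / (d : ℝ))) := by
    have h3 : ∀ y ∈ A.erase x, dist x y = √2 * √(1 + 1 / (d : ℝ)) := by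
      intro y hy
      rw [Finset.mem_erase] at hy
      rw [Cv_dist x y (h1 x hx) (h1 y hy.2), h2 x hx y hy.2 (Ne.symm hy.1), sub_neg_eq_add]
    rw [Finset.sum_congr rfl h3, Finset.sum_const, hce, nsmul_eq_mul]
  have s2 : ∑ y ∈ A.erase x, dist x (-y) = (d : ℝ) * (√2 * √(1 - 1 / (d : ℝ))) := by
    have h3 : ∀ y ∈ A.erase x, dist x (-y) = √2 * √(1 - 1 / (d : ℝ)) := by
      intro y hy
      rw [Finset.mem_erase] at hy
      rw [Cv_dist x (-y) (h1 x hx) (by rw [norm_neg]; exact h1 y hy.2), inner_neg_right,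
        h2 x hx y hy.2 (Ne.symm hy.1), neg_neg]
    rw [Finset.sum_congr rfl h3, Finset.sum_const, hce, nsmul_eq_mul]
  have s3 : dist x (-x) = 2 := by
    rw [dist_eq_norm, sub_neg_eq_add, ← two_smul ℝ x, norm_smul, h1 x hx]
    norm_num
  rw [← Finset.add_sum_erase A (fun y => dist x y) hx,
    ← Finset.add_sum_erase A (fun y => dist x (-y)) hx, s1, s2]
  show dist x x + _ + (dist x (-x) + _) = _
  rw [s3, dist_self]
  unfold hh
  ring

/-- **Cv.** -/
theorem thm_Cv : St_Cv := by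
  intro d A hd hc h1 h2
  have hinj : Function.Injective (fun x : E d => -x) := neg_injective
  have hd0 : (2 : ℝ) ≤ d := by exact_mod_cast hd
  have hdis : Disjoint A (A.image (fun x => -x)) := by
    rw [Finset.disjoint_left]
    intro a ha hb
    rw [Finset.mem_image] at hb
    obtain ⟨b, hb, hba⟩ := hb
    by_cases hab : a = b
    · subst hab
      have h3 : dist a (-a) = 2 := by
        rw [dist_eq_norm, sub_neg_eq_add, ← two_smul ℝ a, norm_smul, h1 a ha]
        norm_num
      rw [hba, dist_self] at h3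
      norm_num at h3
    · have h3 := h2 a ha b hb hab
      rw [← hba, inner_neg_left, real_inner_self_eq_norm_sq, h1 b hb] at h3
      have h4 : 1 / (d : ℝ) ≤ 1 / 2 := one_div_le_one_div_of_le (by norm_num) hd0
      linarith
  refine ⟨?_, ?_, ?_⟩
  · rw [Finset.card_union_of_disjoint hdis, Finset.card_image_of_injective A hinj, hc]
    ring
  · intro x hx
    rw [Finset.mem_union, Finset.mem_image] at hx
    rcases hx with hx | ⟨y, hy, rfl⟩
    · exact h1 x hx
    · rw [norm_neg]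
      exact h1 y hy
  · have hs : ∀ f : E d → ℝ, ∑ x ∈ A ∪ A.image (fun x => -x), f x =
        ∑ x ∈ A, f x + ∑ x ∈ A, f (-x) := by
      intro f
      rw [Finset.sum_union hdis, Finset.sum_image (fun x _ y _ h => hinj h)]
    rw [hs]
    have r1 : ∀ x ∈ A, ∑ y ∈ A ∪ A.image (fun x => -x), dist x y =
        2 + (d : ℝ) * (√2 * hh (1 / (d : ℝ))) := by
      intro x hx
      rw [hs]
      exact Cv_row hc h1 h2 hx
    have r2 : ∀ x ∈ A, ∑ y ∈ A ∪ A.image (fun x => -x), dist (-x) y =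
        2 + (d : ℝ) * (√2 * hh (1 / (d : ℝ))) := by
      intro x hx
      rw [hs, ← Cv_row hc h1 h2 hx, add_comm]
      congr 1
      · exact Finset.sum_congr rfl (fun y _ => dist_neg_neg x y)
      · refine Finset.sum_congr rfl (fun y _ => ?_)
        rw [← dist_neg_neg (-x) y, neg_neg]
    rw [Finset.sum_congr rfl r1, Finset.sum_congr rfl r2, Finset.sum_const, hc, nsmul_eq_mul]
    unfold VV
    push_cast
    have h2 : √2 * √2 = (2 : ℝ) := Real.mul_self_sqrt (by norm_num)
    linear_combination (-(2 * (d : ℝ) + 2)) * h2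

end Pool.Agent.XPL
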