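import Pool.Agent.XPL.Tr

set_option autoImplicit false

namespace Pool.Agent.XPL

open Finset

/-- Theorem A for sets: the upper bound and the shape of the extremal sets. -/
theorem Fin_A (hA3 : St_A3) (hA4 : St_A4) (hCv : St_Cv) {d : ℕ} (hd : 10 ^ 9 ≤ d)
    (P : Finset (E d)) (hc : P.card = 2 * d + 2) (hP : ∀ x ∈ P, ‖x‖ = 1) :
    ∑ x ∈ P, ∑ y ∈ P, dist x y ≤ √2 * VV d ∧
    (∑ x ∈ P, ∑ y ∈ P, dist x y = √2 * VV d ↔
      ∃ A : Finset (E d), A.card = d + 1 ∧ (∀ a ∈ A, ‖a‖ = 1) ∧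
        (∀ a ∈ A, ∀ b ∈ A, a ≠ b → (inner ℝ a b : ℝ) = -(1 / (d : ℝ))) ∧
        P = A ∪ A.image (fun x => -x)) := by
  classical
  have hd2 : 2 ≤ d := le_trans (by norm_num) hd
  have hs := Tr_sum P hP
  have hcard : Fintype.card {x // x ∈ P} = 2 * d + 2 := by rw [Tr_card, hc]
  obtain ⟨h1, h2⟩ := hA3 {x // x ∈ P} d (fun i => (i : E d)) (fun i => hP _ i.2) hd hcard
  have hs2 : 0 < √2 := by positivity
  refine ⟨?_, ?_, ?_⟩
  · rw [hs]
    exact mul_le_mul_of_nonneg_left h1 hs2.le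
  · intro heq
    rw [hs] at heq
    have hsq : sq (fun i : {x // x ∈ P} => (i : E d)) = VV d := mul_left_cancel₀ hs2.ne' heq
    obtain ⟨m, hm1, hm2, hm3, hm4⟩ := h2 hsq
    apply hA4 d P hd2 hc hP
    · intro x hx
      have := hm3 ⟨x, hx⟩
      rw [← this]
      exact (m ⟨x, hx⟩).2
    · intro x hx y hy hxy hxy'
      apply hm4 ⟨x, hx⟩ ⟨y, hy⟩
      · intro h
        exact hxy (congrArg Subtype.val h).symm
      · intro h
        apply hxy'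
        have h3 := hm3 ⟨x, hx⟩
        rw [← h] at h3
        have h4 : y = -x := h3
        rw [h4, neg_neg]
  · rintro ⟨A, hA, hA1, hA2, rfl⟩
    exact (hCv d A hd2 hA hA1 hA2).2.2

theorem Fin_Aex (hSx : St_Sx) (hCv : St_Cv) {d : ℕ} (hd2 : 2 ≤ d) :
    ∃ P : Finset (E d), P.card = 2 * d + 2 ∧ (∀ x ∈ P, ‖x‖ = 1) ∧
      ∑ x ∈ P, ∑ y ∈ P, dist x y = √2 * VV d := by
  classical
  obtain ⟨A, hA, hA1, hA2⟩ := hSx d hd2
  obtain ⟨h1, h2, h3⟩ := hCv d A hd2 hA hA1 hA2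
  exact ⟨_, h1, h2, h3⟩

theorem Fin_VV {k : ℕ} : √2 * VV (k + 1) / 2 =
    2 * ((k : ℝ) + 2) + ((k : ℝ) + 1) * ((k : ℝ) + 2) *
      (√(2 + 2 / ((k : ℝ) + 1)) + √(2 - 2 / ((k : ℝ) + 1))) := by
  have hk : (0 : ℝ) < (k : ℝ) + 1 := by positivity
  have h1 : √(2 + 2 / ((k : ℝ) + 1)) = √2 * √(1 + 1 / ((k : ℝ) + 1)) := by
    rw [← Real.sqrt_mul (by norm_num : (0 : ℝ) ≤ 2)]
    congr 1
    ring
  have h2 : √(2 - 2 / ((k : ℝ) + 1)) = √2 * √(1 - 1 / ((k : ℝ) + 1)) := by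
    rw [← Real.sqrt_mul (by norm_num : (0 : ℝ) ≤ 2)]
    congr 1
    ring
  rw [h1, h2]
  unfold VV hh
  push_cast
  have hs : √2 * √2 = (2 : ℝ) := Real.mul_self_sqrt (by norm_num)
  linear_combination (2 * ((k : ℝ) + 1) + 2) / 2 * hs

/-- Theorem B for sets: the bound. -/
theorem Fin_B (hBB : St_BB) {d : ℕ} (P : Finset (E d)) (hP : ∀ x ∈ P, ‖x‖ = 1) :
    (∑ x ∈ P, ∑ y ∈ P, dist x y) / 2 ≤ ((P.card : ℝ) ^ 2 - P.card) / √2
      + (1 - 5 * √2 / 8) * (P.card : ℝ) + √2 / 4 * (d : ℝ) ∧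
    ((∑ x ∈ P, ∑ y ∈ P, dist x y) / 2 = ((P.card : ℝ) ^ 2 - P.card) / √2
      + (1 - 5 * √2 / 8) * (P.card : ℝ) + √2 / 4 * (d : ℝ) ↔
      P.card = 2 * d ∧ ∀ x ∈ P, -x ∈ P ∧ ∀ y ∈ P, y ≠ x → y ≠ -x → (inner ℝ x y : ℝ) = 0) := by
  classical
  have hs := Tr_sum P hP
  obtain ⟨h1, h2⟩ := hBB {x // x ∈ P} d (fun i => (i : E d)) (fun i => hP _ i.2)
  rw [Tr_card] at h1 h2
  have hs2 : 0 < √2 := by positivity
  have hss : √2 * √2 = (2 : ℝ) := Real.mul_self_sqrt (by norm_num)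
  have hdiv : ((P.card : ℝ) ^ 2 - P.card) / √2 = √2 / 2 * ((P.card : ℝ) ^ 2 - P.card) := by
    rw [div_eq_iff hs2.ne']
    linear_combination -(((P.card : ℝ) ^ 2 - P.card) / 2) * hss
  have hval : ((P.card : ℝ) ^ 2 - P.card) / √2
      + (1 - 5 * √2 / 8) * (P.card : ℝ) + √2 / 4 * (d : ℝ) = √2 / 2 *
      ((P.card : ℝ) * ((P.card : ℝ) - 1) + (√2 - 5 / 4) * (P.card : ℝ) + (d : ℝ) / 2) := by
    rw [hdiv]
    linear_combination -((P.card : ℝ) / 2) * hss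
  have hsum : (∑ x ∈ P, ∑ y ∈ P, dist x y) / 2 =
      √2 / 2 * sq (fun i : {x // x ∈ P} => (i : E d)) := by
    rw [hs]; ring
  have hs22 : 0 < √2 / 2 := by positivity
  rw [hval, hsum]
  refine ⟨mul_le_mul_of_nonneg_left h1 hs22.le, ?_⟩
  have hiff : (√2 / 2 * sq (fun i : {x // x ∈ P} => (i : E d)) = √2 / 2 *
      ((P.card : ℝ) * ((P.card : ℝ) - 1) + (√2 - 5 / 4) * (P.card : ℝ) + (d : ℝ) / 2)) ↔
      sq (fun i : {x // x ∈ P} => (i : E d)) =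
      ((P.card : ℝ) * ((P.card : ℝ) - 1) + (√2 - 5 / 4) * (P.card : ℝ) + (d : ℝ) / 2) :=
    ⟨fun h => mul_left_cancel₀ hs22.ne' h, fun h => by rw [h]⟩
  rw [hiff, h2]
  constructor
  · rintro ⟨hN, m, hm1, hm2, hm3, hm4⟩
    refine ⟨hN, fun x hx => ?_⟩
    have hneg : ((m ⟨x, hx⟩ : {x // x ∈ P}) : E d) = -x := by
      have h3 : (inner ℝ x ((m ⟨x, hx⟩ : {x // x ∈ P}) : E d) : ℝ) = -1 := hm3 ⟨x, hx⟩
      have h4 : ‖x + ((m ⟨x, hx⟩ : {x // x ∈ P}) : E d)‖ ^ 2 = 0 := by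
        rw [norm_add_sq_real, h3, hP x hx, hP _ (m ⟨x, hx⟩).2]; ring
      have h5 : x + ((m ⟨x, hx⟩ : {x // x ∈ P}) : E d) = 0 := by
        rw [← norm_eq_zero]
        exact pow_eq_zero_iff (two_ne_zero) |>.1 h4
      exact (neg_eq_of_add_eq_zero_right h5).symm
    refine ⟨by rw [← hneg]; exact (m ⟨x, hx⟩).2, fun y hy hyx hyx' => ?_⟩
    apply hm4 ⟨x, hx⟩ ⟨y, hy⟩
    · intro h
      exact hyx (congrArg Subtype.val h)
    · intro h
      apply hyx'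
      rw [← hneg, ← h]
  · rintro ⟨hN, hx⟩
    refine ⟨hN, fun i => ⟨-(i : E d), (hx _ i.2).1⟩, ?_, ?_, ?_, ?_⟩
    · intro i
      apply Subtype.ext
      simp
    · intro i h
      have h3 : -(i : E d) = (i : E d) := congrArg Subtype.val h
      have h4 : (i : E d) = 0 := by
        have h5 : (i : E d) + (i : E d) = 0 := by
          nth_rewrite 1 [← h3]
          simp
        have h6 : (2 : ℝ) • (i : E d) = 0 := by rw [two_smul]; exact h5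
        exact (smul_eq_zero.1 h6).resolve_left (by norm_num)
      have h7 := hP _ i.2
      rw [h4, norm_zero] at h7
      norm_num at h7
    · intro i
      show (inner ℝ (i : E d) (-(i : E d)) : ℝ) = -1
      rw [inner_neg_right, real_inner_self_eq_norm_sq, hP _ i.2]
      norm_num
    · intro i j hji hjm
      show (inner ℝ (i : E d) (j : E d) : ℝ) = 0
      apply (hx _ i.2).2 _ j.2
      · intro h
        exact hji (Subtype.ext h)
      · intro h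
        exact hjm (Subtype.ext h)

end Pool.Agent.XPL
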