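import Pool.Agent.XPL.St

/-!
# XPL Gs: Gram sums of half sums and half differences (helper20)
-/

set_option autoImplicit false

namespace Pool.Agent.XPL

open Finset

private theorem Gs_ers {ι : Type} [Fintype ι] [DecidableEq ι] (m : ι → ι)
    (hm : ∀ i, m i ≠ i) (i : ι) (F : ι → ℝ) :
    ∑ j ∈ (univ.erase i).erase (m i), F j = ∑ j, F j - F i - F (m i) := by
  rw [Finset.sum_erase_eq_sub (Finset.mem_erase.mpr ⟨hm i, Finset.mem_univ _⟩),
    Finset.sum_erase_eq_sub (Finset.mem_univ _)]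

private theorem Gs_reidx {ι : Type} [Fintype ι] {A : Type} [AddCommMonoid A] (m : ι → ι)
    (hmm : ∀ i, m (m i) = i) (F : ι → A) : ∑ j, F (m j) = ∑ j, F j :=
  Fintype.sum_bijective m (Function.Involutive.bijective hmm) _ _ (fun _ => rfl)

theorem thm_Gs (hPe : St_Pe) : St_Gs := by
  intro ι _ _ d p m hp hmm hm θ hθ
  obtain ⟨-, -, hv⟩ := hPe ι d p hp θ
  set u : ι → E d := uv p m with hu
  set w : ι → E d := wv p m with hw
  have hum : ∀ i, u (m i) = -u i := by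
    intro i
    rw [hu]
    unfold uv
    rw [hmm, ← smul_neg, neg_sub]
  have hwm : ∀ i, w (m i) = w i := by
    intro i
    rw [hw]
    unfold wv
    rw [hmm, add_comm]
  have hpu : ∀ j, p j = u j + w j := by
    intro j
    rw [hu, hw]
    unfold uv wv
    rw [← smul_add]
    have h : p j - p (m j) + (p j + p (m j)) = (2 : ℝ) • p j := by
      rw [two_smul]
      abel
    rw [h, smul_smul]
    norm_num
  have hpm : ∀ j, p (m j) = -u j + w j := by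
    intro j
    rw [hpu (m j), hum, hwm]
  have huw : ∀ i, (inner ℝ (u i) (w i) : ℝ) = 0 := by
    intro i
    have h1 : ‖u i + w i‖ ^ 2 = 1 := by
      rw [← hpu, hp]
      norm_num
    have h2 : ‖-u i + w i‖ ^ 2 = 1 := by
      rw [← hpm, hp]
      norm_num
    rw [norm_add_sq_real] at h1 h2
    rw [norm_neg, inner_neg_left] at h2
    linarith
  have hnn : ∀ i, ‖u i‖ ^ 2 + ‖w i‖ ^ 2 = 1 := by
    intro i
    have h1 : ‖u i + w i‖ ^ 2 = 1 := by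
      rw [← hpu, hp]
      norm_num
    rw [norm_add_sq_real, huw] at h1
    linarith
  have hww : ∀ i, (inner ℝ (w i) (w i) : ℝ) = ‖w i‖ ^ 2 := fun i => real_inner_self_eq_norm_sq _
  have huu : ∀ i, (inner ℝ (u i) (u i) : ℝ) = ‖u i‖ ^ 2 := fun i => real_inner_self_eq_norm_sq _
  -- the splitting of the squares
  have hsp : ∀ x : E d, ∑ j, ((inner ℝ x (u j) : ℝ) ^ 2 + (inner ℝ x (w j) : ℝ) ^ 2)
      = ∑ j, (inner ℝ x (p j) : ℝ) ^ 2 := by
    intro x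
    have h1 : ∑ j, (inner ℝ x (p (m j)) : ℝ) ^ 2 = ∑ j, (inner ℝ x (p j) : ℝ) ^ 2 :=
      Gs_reidx m hmm (fun j => (inner ℝ x (p j) : ℝ) ^ 2)
    have h2 : ∑ j, ((inner ℝ x (p j) : ℝ) ^ 2 + (inner ℝ x (p (m j)) : ℝ) ^ 2)
        = ∑ j, 2 * ((inner ℝ x (u j) : ℝ) ^ 2 + (inner ℝ x (w j) : ℝ) ^ 2) := by
      refine Finset.sum_congr rfl (fun j _ => ?_)
      rw [hpu j, hpm j, inner_add_right, inner_add_right, inner_neg_right]
      ring
    rw [Finset.sum_add_distrib, h1, ← Finset.mul_sum] at h2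
    linarith
  -- the bound of Pe
  have hv' : ∀ x : E d, ∑ j, (inner ℝ x (p j) : ℝ) ^ 2 ≤ (θ + √(DD p θ)) * ‖x‖ ^ 2 := hv
  have hsq : 0 ≤ √(DD p θ) := Real.sqrt_nonneg _
  refine ⟨?_, ?_, ?_, ?_⟩
  · -- (1)
    have hsw : ∑ j, w j = ∑ j, p j := by
      have h1 : ∑ j, w j = (1 / 2 : ℝ) • (∑ j, p j + ∑ j, p (m j)) := by
        rw [← Finset.sum_add_distrib, Finset.smul_sum]
        exact Finset.sum_congr rfl (fun j _ => rfl)
      rw [h1, Gs_reidx m hmm p, ← two_smul ℝ, smul_smul]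
      norm_num
    have h2 : ∀ i, ∑ j ∈ (univ.erase i).erase (m i), (inner ℝ (w i) (w j) : ℝ)
        = inner ℝ (w i) (∑ j, p j) - 2 * ‖w i‖ ^ 2 := by
      intro i
      rw [Gs_ers m hm, hwm, hww, ← hsw, inner_sum]
      ring
    rw [Finset.sum_congr rfl (fun i _ => h2 i), Finset.sum_sub_distrib, ← sum_inner, hsw,
      real_inner_self_eq_norm_sq, Finset.mul_sum]
  · -- (2)
    have h2 : ∀ i, ∑ j ∈ (univ.erase i).erase (m i), ((inner ℝ (u i) (u j) : ℝ) ^ 2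
        + (inner ℝ (u i) (w j) : ℝ) ^ 2 + (inner ℝ (w i) (u j) : ℝ) ^ 2
        + (inner ℝ (w i) (w j) : ℝ) ^ 2)
        = (∑ j, (inner ℝ (u i) (p j) : ℝ) ^ 2 + ∑ j, (inner ℝ (w i) (p j) : ℝ) ^ 2)
          - (2 - 4 * ‖w i‖ ^ 2 + 4 * ‖w i‖ ^ 4) := by
      intro i
      have e1 : (inner ℝ (w i) (u i) : ℝ) = 0 := by
        rw [real_inner_comm, huw]
      have e2 : ‖u i‖ ^ 2 = 1 - ‖w i‖ ^ 2 := by
        have := hnn i
        linarith
      rw [Gs_ers m hm, hum, hwm, inner_neg_right, inner_neg_right, huu, hww, huw, e1, e2,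
        ← hsp (u i), ← hsp (w i)]
      simp only [Finset.sum_add_distrib]
      ring
    rw [Finset.sum_congr rfl (fun i _ => h2 i), Finset.sum_sub_distrib, Finset.sum_add_distrib,
      Finset.sum_comm, Finset.sum_comm (f := fun i j => (inner ℝ (w i) (p j) : ℝ) ^ 2),
      ← Finset.sum_add_distrib]
    have h3 : ∀ j, ∑ i, (inner ℝ (u i) (p j) : ℝ) ^ 2 + ∑ i, (inner ℝ (w i) (p j) : ℝ) ^ 2
        = uu p j := by
      intro j
      rw [← Finset.sum_add_distrib]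
      have h4 := hsp (p j)
      unfold uu gr
      rw [← h4]
      refine Finset.sum_congr rfl (fun i _ => ?_)
      rw [real_inner_comm (p j) (u i), real_inner_comm (p j) (w i)]
    rw [Finset.sum_congr rfl (fun j _ => h3 j)]
    have h5 : ∑ i, (2 - 4 * ‖w i‖ ^ 2 + 4 * ‖w i‖ ^ 4)
        = 2 * (Fintype.card ι : ℝ) - 4 * ∑ i, ‖w i‖ ^ 2 + 4 * ∑ i, ‖w i‖ ^ 4 := by
      rw [Finset.sum_add_distrib, Finset.sum_sub_distrib, Finset.sum_const, Finset.mul_sum,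
        Finset.mul_sum, nsmul_eq_mul, Finset.card_univ]
      ring
    rw [h5]
    show G2 p - _ = _
    ring
  · -- (3)
    have h1 : ∀ i, ∑ j ∈ (univ.erase i).erase (m i), ((inner ℝ (u i) (w j) : ℝ) ^ 2
        + (inner ℝ (w i) (u j) : ℝ) ^ 2 + (inner ℝ (w i) (w j) : ℝ) ^ 2)
        ≤ ∑ j, ((inner ℝ (u i) (w j) : ℝ) ^ 2
        + (inner ℝ (w i) (u j) : ℝ) ^ 2 + (inner ℝ (w i) (w j) : ℝ) ^ 2) := by
      intro i
      exact Finset.sum_le_sum_of_subset_of_nonneg (Finset.subset_univ _)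
        (fun j _ _ => by positivity)
    have h2 : ∑ i, ∑ j, (inner ℝ (u i) (w j) : ℝ) ^ 2 = ∑ i, ∑ j, (inner ℝ (w i) (u j) : ℝ) ^ 2 := by
      rw [Finset.sum_comm]
      refine Finset.sum_congr rfl (fun i _ => Finset.sum_congr rfl (fun j _ => ?_))
      rw [real_inner_comm]
    have h3 : ∑ i, ∑ j, ((inner ℝ (u i) (w j) : ℝ) ^ 2
        + (inner ℝ (w i) (u j) : ℝ) ^ 2 + (inner ℝ (w i) (w j) : ℝ) ^ 2)
        ≤ ∑ i, 2 * ((θ + √(DD p θ)) * ‖w i‖ ^ 2) := by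
      have h4 : ∑ i, ∑ j, ((inner ℝ (u i) (w j) : ℝ) ^ 2
          + (inner ℝ (w i) (u j) : ℝ) ^ 2 + (inner ℝ (w i) (w j) : ℝ) ^ 2)
          = ∑ i, (∑ j, (inner ℝ (w i) (u j) : ℝ) ^ 2 + ∑ j, ((inner ℝ (w i) (u j) : ℝ) ^ 2
            + (inner ℝ (w i) (w j) : ℝ) ^ 2)) := by
        simp only [Finset.sum_add_distrib]
        rw [h2]
        ring
      rw [h4]
      refine Finset.sum_le_sum (fun i _ => ?_)
      have h5 : ∑ j, (inner ℝ (w i) (u j) : ℝ) ^ 2 ≤ ∑ j, ((inner ℝ (w i) (u j) : ℝ) ^ 2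
            + (inner ℝ (w i) (w j) : ℝ) ^ 2) :=
        Finset.sum_le_sum (fun j _ => le_add_of_nonneg_right (sq_nonneg _))
      have h6 := hv' (w i)
      rw [← hsp (w i)] at h6
      linarith
    refine (Finset.sum_le_sum (fun i _ => h1 i)).trans (h3.trans (le_of_eq ?_))
    rw [Finset.mul_sum]
    exact Finset.sum_congr rfl (fun i _ => by ring)
  · -- (4)
    have h1 : ∀ i j, |(inner ℝ (w i) (w j) : ℝ)| ≤ (‖w i‖ ^ 2 + ‖w j‖ ^ 2) / 2 := by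
      intro i j
      have h2 := abs_real_inner_le_norm (w i) (w j)
      nlinarith [sq_nonneg (‖w i‖ - ‖w j‖)]
    have h2 : ∑ i, ∑ j ∈ (univ.erase i).erase (m i), |(inner ℝ (w i) (w j) : ℝ)|
        * (inner ℝ (u i) (u j) : ℝ) ^ 2 ≤
        ∑ i, ∑ j ∈ (univ.erase i).erase (m i), ((‖w i‖ ^ 2 + ‖w j‖ ^ 2) / 2)
        * (inner ℝ (u i) (u j) : ℝ) ^ 2 :=
      Finset.sum_le_sum (fun i _ => Finset.sum_le_sum (fun j _ =>
        mul_le_mul_of_nonneg_right (h1 i j) (sq_nonneg _)))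
    have h3 : ∑ i, ∑ j ∈ (univ.erase i).erase (m i), ‖w j‖ ^ 2 * (inner ℝ (u i) (u j) : ℝ) ^ 2
        = ∑ i, ∑ j ∈ (univ.erase i).erase (m i), ‖w i‖ ^ 2 * (inner ℝ (u i) (u j) : ℝ) ^ 2 := by
      have e1 : ∀ i, ∑ j ∈ (univ.erase i).erase (m i), ‖w j‖ ^ 2 * (inner ℝ (u i) (u j) : ℝ) ^ 2
          = ∑ j, ‖w j‖ ^ 2 * (inner ℝ (u i) (u j) : ℝ) ^ 2
            - ‖w i‖ ^ 2 * (inner ℝ (u i) (u i) : ℝ) ^ 2
            - ‖w i‖ ^ 2 * (inner ℝ (u i) (u (m i)) : ℝ) ^ 2 := by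
        intro i
        rw [Gs_ers m hm, hwm]
      have e2 : ∀ i, ∑ j ∈ (univ.erase i).erase (m i), ‖w i‖ ^ 2 * (inner ℝ (u i) (u j) : ℝ) ^ 2
          = ∑ j, ‖w i‖ ^ 2 * (inner ℝ (u i) (u j) : ℝ) ^ 2
            - ‖w i‖ ^ 2 * (inner ℝ (u i) (u i) : ℝ) ^ 2
            - ‖w i‖ ^ 2 * (inner ℝ (u i) (u (m i)) : ℝ) ^ 2 := by
        intro i
        rw [Gs_ers m hm]
      rw [Finset.sum_congr rfl (fun i _ => e1 i), Finset.sum_congr rfl (fun i _ => e2 i)]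
      simp only [Finset.sum_sub_distrib]
      congr 2
      rw [Finset.sum_comm]
      refine Finset.sum_congr rfl (fun i _ => Finset.sum_congr rfl (fun j _ => ?_))
      rw [real_inner_comm]
    have h4 : ∑ i, ∑ j ∈ (univ.erase i).erase (m i), ((‖w i‖ ^ 2 + ‖w j‖ ^ 2) / 2)
        * (inner ℝ (u i) (u j) : ℝ) ^ 2
        = ∑ i, ∑ j ∈ (univ.erase i).erase (m i), ‖w i‖ ^ 2 * (inner ℝ (u i) (u j) : ℝ) ^ 2 := by
      have e1 : ∑ i, ∑ j ∈ (univ.erase i).erase (m i), ((‖w i‖ ^ 2 + ‖w j‖ ^ 2) / 2)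
          * (inner ℝ (u i) (u j) : ℝ) ^ 2
          = (∑ i, ∑ j ∈ (univ.erase i).erase (m i), ‖w i‖ ^ 2 * (inner ℝ (u i) (u j) : ℝ) ^ 2
            + ∑ i, ∑ j ∈ (univ.erase i).erase (m i), ‖w j‖ ^ 2 * (inner ℝ (u i) (u j) : ℝ) ^ 2)
            / 2 := by
        rw [← Finset.sum_add_distrib, Finset.sum_div]
        refine Finset.sum_congr rfl (fun i _ => ?_)
        rw [← Finset.sum_add_distrib, Finset.sum_div]
        exact Finset.sum_congr rfl (fun j _ => by ring)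
      rw [e1, h3]
      ring
    refine h2.trans ((le_of_eq h4).trans (Finset.sum_le_sum (fun i _ => ?_)))
    rw [← Finset.mul_sum]
    refine mul_le_mul_of_nonneg_left ?_ (sq_nonneg _)
    rw [Gs_ers m hm, hum, inner_neg_right, huu]
    have h5 := hv' (u i)
    rw [← hsp (u i)] at h5
    have h6 : ∑ j, (inner ℝ (u i) (u j) : ℝ) ^ 2 ≤ ∑ j, ((inner ℝ (u i) (u j) : ℝ) ^ 2
        + (inner ℝ (u i) (w j) : ℝ) ^ 2) :=
      Finset.sum_le_sum (fun j _ => le_add_of_nonneg_right (sq_nonneg _))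
    have h7 := hnn i
    have h8 : 0 ≤ ‖w i‖ ^ 2 := sq_nonneg _
    have h9 : ‖u i‖ ^ 2 = 1 - ‖w i‖ ^ 2 := by linarith
    rw [h9] at h5 ⊢
    nlinarith [mul_nonneg h8 hsq, mul_nonneg h8 (sub_nonneg.mpr hθ), mul_nonneg h8 h8]

end Pool.Agent.XPL
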