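import Pool.Agent.XPL.St

set_option autoImplicit false

namespace Pool.Agent.XPL

private theorem I1_quad (A B C e : ℝ) (hA : 0 < A) (hd : 0 ≤ 4 * A * C - B ^ 2) :
    0 ≤ A * e ^ 2 + B * e + C := by
  have h1 : 0 ≤ 4 * A * (A * e ^ 2 + B * e + C) := by
    have : 4 * A * (A * e ^ 2 + B * e + C) = (2 * A * e + B) ^ 2 + (4 * A * C - B ^ 2) := by ring
    rw [this]
    positivity
  by_contra h
  push Not at h
  nlinarith

theorem thm_I1 : St_I1 := by
  intro e w hw0 hw2 he0 he1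
  have hw1 : w ≤ 3317 / 10000 := by
    by_contra h
    push Not at h
    nlinarith
  have hred : 4 * e * (1 + 41 / 50 * w - 23 / 25 * w ^ 2) ^ 2 -
      (e * (4 + 6 * w + 4 * w ^ 2) - w ^ 3 - 5 * e ^ 2 * (1 + w) + 2 * e ^ 3 - (w - e) ^ 4 / 4)
      = (w ^ 3 + w ^ 4 / 4) + e * (w * (56 / 100 - 86704 / 10000 * w - 70352 / 10000 * w ^ 2
          + 33856 / 10000 * w ^ 3)) + e ^ 2 * (5 + 5 * w + 3 / 2 * w ^ 2) - e ^ 3 * (2 + w)
          + e ^ 4 / 4 := by ring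
  have he4 : 0 ≤ e ^ 4 / 4 := by positivity
  suffices hs : 0 ≤ (w ^ 3 + w ^ 4 / 4) + e * (w * (56 / 100 - 86704 / 10000 * w
      - 70352 / 10000 * w ^ 2 + 33856 / 10000 * w ^ 3)) + e ^ 2 * (5 + 5 * w + 3 / 2 * w ^ 2)
      - e ^ 3 * (2 + w) by linarith
  have hcub1 : e ^ 3 * (2 + w) ≤ 3 / 5 * e ^ 2 * (2 + w) := by
    apply mul_le_mul_of_nonneg_right _ (by linarith)
    nlinarith [sq_nonneg e]
  rcases le_or_gt w (29 / 100) with h29 | h29
  · -- e ^ 3 ≤ 3/5 e ^ 2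
    rcases le_or_gt w (6 / 100) with h6 | h6
    · have hg : 0 ≤ 56 / 100 - 86704 / 10000 * w - 70352 / 10000 * w ^ 2
          + 33856 / 10000 * w ^ 3 := by
        have : 0 ≤ w ^ 3 := by positivity
        nlinarith
      have h1 : 0 ≤ e * (w * (56 / 100 - 86704 / 10000 * w
        - 70352 / 10000 * w ^ 2 + 33856 / 10000 * w ^ 3)) := mul_nonneg he0 (mul_nonneg hw0 hg)
      have h2 : 0 ≤ w ^ 3 + w ^ 4 / 4 := by positivity
      have h3 : 0 ≤ e ^ 2 * (5 + 5 * w + 3 / 2 * w ^ 2) - 3 / 5 * e ^ 2 * (2 + w) := by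
        have : e ^ 2 * (5 + 5 * w + 3 / 2 * w ^ 2) - 3 / 5 * e ^ 2 * (2 + w)
          = e ^ 2 * (38 / 10 + 44 / 10 * w + 3 / 2 * w ^ 2) := by ring
        rw [this]
        positivity
      linarith
    · have hA : 0 < 38 / 10 + 44 / 10 * w + 3 / 2 * w ^ 2 := by positivity
      have hd : 0 ≤ 4 * (38 / 10 + 44 / 10 * w + 3 / 2 * w ^ 2) * (w ^ 3 + w ^ 4 / 4)
          - (w * (56 / 100 - 86704 / 10000 * w
        - 70352 / 10000 * w ^ 2 + 33856 / 10000 * w ^ 3)) ^ 2 := by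
        have h1 : 4 * (38 / 10 + 44 / 10 * w + 3 / 2 * w ^ 2) * (w ^ 3 + w ^ 4 / 4)
          - (w * (56 / 100 - 86704 / 10000 * w
        - 70352 / 10000 * w ^ 2 + 33856 / 10000 * w ^ 3)) ^ 2 =
          w ^ 2 * (4 * (38 / 10 + 44 / 10 * w + 3 / 2 * w ^ 2) * (w + w ^ 2 / 4) -
          (56 / 100 - 86704 / 10000 * w
        - 70352 / 10000 * w ^ 2 + 33856 / 10000 * w ^ 3) ^ 2) := by ring
        rw [h1]
        apply mul_nonneg (sq_nonneg _)
        obtain ⟨x, hx⟩ : ∃ x, w = 6 / 100 + x := ⟨w - 6 / 100, by ring⟩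
        have hx0 : 0 ≤ x := by linarith
        have hx1 : 0 ≤ 23 / 100 - x := by linarith
        rw [hx]
        nlinarith [mul_nonneg hx0 hx1, mul_nonneg (mul_nonneg hx0 hx1) hx0,
          mul_nonneg (mul_nonneg hx0 hx1) (sq_nonneg x),
          mul_nonneg (mul_nonneg hx0 hx1) (mul_nonneg hx0 (sq_nonneg x)),
          mul_nonneg (mul_nonneg hx0 hx1) (sq_nonneg (x ^ 2)), pow_nonneg hx0 3,
          pow_nonneg hx0 5]
      have := I1_quad _ _ _ e hA hd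
      nlinarith
  · have hcub2 : e ^ 3 * (2 + w) ≤ (752 / 1000 * e ^ 2 - 96976 / 1000000 * e
        + 34656 / 10000000) * (2 + w) := by
      apply mul_le_mul_of_nonneg_right _ (by linarith)
      have h1 : 0 ≤ (3 / 5 - e) * (e - 76 / 1000) ^ 2 := mul_nonneg (by linarith) (sq_nonneg _)
      nlinarith
    have hA : 0 < 3496 / 1000 + 4248 / 1000 * w + 3 / 2 * w ^ 2 := by positivity
    have hd : 0 ≤ 4 * (3496 / 1000 + 4248 / 1000 * w + 3 / 2 * w ^ 2) * (w ^ 3 + w ^ 4 / 4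
          - 34656 / 10000000 * (2 + w))
          - (w * (56 / 100 - 86704 / 10000 * w
        - 70352 / 10000 * w ^ 2 + 33856 / 10000 * w ^ 3) + 96976 / 1000000 * (2 + w)) ^ 2 := by
      obtain ⟨x, hx⟩ : ∃ x, w = 29 / 100 + x := ⟨w - 29 / 100, by ring⟩
      have hx0 : 0 ≤ x := by linarith
      have hx1 : 0 ≤ 417 / 10000 - x := by linarith
      rw [hx]
      nlinarith [mul_nonneg hx0 hx1, mul_nonneg (mul_nonneg hx0 hx1) hx0,
          mul_nonneg (mul_nonneg hx0 hx1) (sq_nonneg x),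
          mul_nonneg (mul_nonneg hx0 hx1) (mul_nonneg hx0 (sq_nonneg x)),
          mul_nonneg (mul_nonneg hx0 hx1) (sq_nonneg (x ^ 2)), pow_nonneg hx0 3,
          pow_nonneg hx0 5]
    have := I1_quad _ _ _ e hA hd
    nlinarith

end Pool.Agent.XPL
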