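import Pool.Agent.XPL.St

/-!
# [Id] The quadratic identity for the sum of roots
-/

set_option autoImplicit false

namespace Pool.Agent.XPL

open Finset

/-- **Id.** `√(1-t) = 1 - t/2 - t^2/8 + lam t`, summed over ordered pairs. -/
theorem thm_Id : St_Id := by
  intro ι _ _ d p hp
  have hii : ∀ i, gr p i i = 1 := by
    intro i
    unfold gr
    rw [real_inner_self_eq_norm_sq, hp i]
    norm_num
  have h1 : ∀ i, ∑ j ∈ univ.erase i, √(1 - gr p i j) =
      ((Fintype.card ι : ℝ) - 1) - (∑ j, gr p i j - 1) / 2 - (uu p i - 1) / 8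
        + ∑ j ∈ univ.erase i, lam (gr p i j) := by
    intro i
    have h2 : ∀ j, √(1 - gr p i j) =
        1 - gr p i j / 2 - gr p i j ^ 2 / 8 + lam (gr p i j) := by
      intro j
      unfold lam
      ring
    have h3 : ∀ F : ι → ℝ, ∑ j ∈ univ.erase i, F j = ∑ j, F j - F i := by
      intro F
      rw [← Finset.add_sum_erase univ F (Finset.mem_univ i)]
      ring
    rw [Finset.sum_congr rfl fun j _ => h2 j, Finset.sum_add_distrib, Finset.sum_sub_distrib,
      Finset.sum_sub_distrib, ← Finset.sum_div, ← Finset.sum_div, h3 (fun _ => (1 : ℝ)),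
      h3 (fun j => gr p i j), h3 (fun j => gr p i j ^ 2), hii]
    unfold uu
    rw [Finset.sum_const, Finset.card_univ, nsmul_eq_mul]
    ring
  have h4 : ∑ i, ∑ j, gr p i j = ‖∑ i, p i‖ ^ 2 := by
    rw [← real_inner_self_eq_norm_sq, sum_inner]
    refine Finset.sum_congr rfl fun i _ => ?_
    rw [inner_sum]
    rfl
  have h5 : ∑ i, (uu p i - 1) = G2 p - (Fintype.card ι : ℝ) := by
    unfold G2
    rw [Finset.sum_sub_distrib, Finset.sum_const, Finset.card_univ, nsmul_eq_mul, mul_one]
  have h6 : ∑ i, (∑ j, gr p i j - 1) = ‖∑ i, p i‖ ^ 2 - (Fintype.card ι : ℝ) := by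
    rw [Finset.sum_sub_distrib, h4, Finset.sum_const, Finset.card_univ, nsmul_eq_mul, mul_one]
  unfold sq
  rw [Finset.sum_congr rfl fun i _ => h1 i, Finset.sum_add_distrib, Finset.sum_sub_distrib,
    Finset.sum_sub_distrib, ← Finset.sum_div, ← Finset.sum_div, h5, h6, Finset.sum_const,
    Finset.card_univ, nsmul_eq_mul]

end Pool.Agent.XPL
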