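import Pool.Agent.XPL.St

/-! XPL, module Mt (helper30): maximal matchings exist. -/

set_option autoImplicit false

namespace Pool.Agent.XPL

open Finset

theorem thm_Mt : St_Mt := by
  classical
  intro ι _ _ R hR
  -- admissible involutions with a given number of fixed points
  have hex : ∃ n : ℕ, ∃ m : ι → ι, ((∀ i, m (m i) = i) ∧ (∀ i, m i ≠ i → R i (m i))) ∧
      (univ.filter (fun i => m i = i)).card = n :=
    ⟨_, fun i => i, ⟨fun _ => rfl, fun i h => absurd rfl h⟩, rfl⟩
  obtain ⟨m, ⟨hm1, hm2⟩, hcard⟩ := Nat.find_spec hex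
  have hmin : ∀ m' : ι → ι, (∀ i, m' (m' i) = i) → (∀ i, m' i ≠ i → R i (m' i)) →
      (univ.filter (fun i => m i = i)).card ≤ (univ.filter (fun i => m' i = i)).card := by
    intro m' h1 h2
    rw [hcard]
    exact Nat.find_min' hex ⟨m', ⟨h1, h2⟩, rfl⟩
  refine ⟨m, hm1, hm2, ?_⟩
  intro i j hij hi hj hRij
  obtain ⟨m', hm'⟩ : ∃ m' : ι → ι, ∀ k, m' k = if k = i then j else if k = j then i else m k :=
    ⟨_, fun _ => rfl⟩
  have h'i : m' i = j := by rw [hm', if_pos rfl]
  have h'j : m' j = i := by rw [hm', if_neg (Ne.symm hij), if_pos rfl]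
  have h'k : ∀ k, k ≠ i → k ≠ j → m' k = m k := fun k h1 h2 => by
    rw [hm', if_neg h1, if_neg h2]
  have hmk : ∀ k, k ≠ i → k ≠ j → m k ≠ i ∧ m k ≠ j := by
    intro k h1 h2
    refine ⟨fun h => h1 ?_, fun h => h2 ?_⟩
    · have := hm1 k
      rw [h, hi] at this
      exact this.symm
    · have := hm1 k
      rw [h, hj] at this
      exact this.symm
  have hinv : ∀ k, m' (m' k) = k := by
    intro k
    by_cases h1 : k = i
    · rw [h1, h'i, h'j]
    · by_cases h2 : k = j
      · rw [h2, h'j, h'i]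
      · obtain ⟨h3, h4⟩ := hmk k h1 h2
        rw [h'k k h1 h2, h'k _ h3 h4, hm1]
  have hrel : ∀ k, m' k ≠ k → R k (m' k) := by
    intro k hk
    by_cases h1 : k = i
    · rw [h1, h'i]; exact hRij
    · by_cases h2 : k = j
      · rw [h2, h'j]; exact hR _ _ hRij
      · rw [h'k k h1 h2] at hk ⊢
        exact hm2 k hk
  have hlt : (univ.filter (fun k => m' k = k)).card < (univ.filter (fun k => m k = k)).card := by
    refine card_lt_card ?_
    rw [ssubset_iff_of_subset]
    · refine ⟨i, ?_, ?_⟩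
      · rw [mem_filter]; exact ⟨mem_univ _, hi⟩
      · rw [mem_filter, h'i]
        exact fun h => hij h.2.symm
    · intro k hk
      rw [mem_filter] at hk ⊢
      refine ⟨mem_univ _, ?_⟩
      have h1 : k ≠ i := by
        rintro rfl
        rw [h'i] at hk
        exact hij hk.2.symm
      have h2 : k ≠ j := by
        rintro rfl
        rw [h'j] at hk
        exact hij hk.2
      rw [← h'k k h1 h2]
      exact hk.2
  exact absurd (hmin m' hinv hrel) (not_le.2 hlt)

end Pool.Agent.XPL
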