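import Pool.Agent.XPL.St

set_option autoImplicit false

namespace Pool.Agent.XPL

private theorem P1_D_pos (w : ℝ) (h0 : 0 ≤ w) (h1 : w ^ 2 ≤ 11 / 100) :
    1 ≤ 1 + 41 / 50 * w - 23 / 25 * w ^ 2 := by
  have hw1 : w ≤ 3317 / 10000 := by
    by_contra h
    push Not at h
    nlinarith
  nlinarith

theorem thm_P1 : St_Lm → St_I1 → St_P1 := by
  intro _ hI1 x w hw0 hw2 hx
  have hw1 : w ≤ 3317 / 10000 := by
    by_contra h
    push Not at h
    nlinarith
  obtain ⟨hx1, hx2⟩ := abs_le.1 hx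
  have ha : (0 : ℝ) ≤ 1 + x + w := by linarith
  have hb : (0 : ℝ) ≤ 1 - x + w := by linarith
  have e1 : (1 : ℝ) - (-x - w) = 1 + x + w := by ring
  have e2 : (1 : ℝ) - (x - w) = 1 - x + w := by ring
  unfold lam
  rw [e1, e2]
  have hr2 := Real.sq_sqrt ha
  have hs2 := Real.sq_sqrt hb
  have hr0 := Real.sqrt_nonneg (1 + x + w)
  have hs0 := Real.sqrt_nonneg (1 - x + w)
  set r := √(1 + x + w) with hr
  set s := √(1 - x + w) with hs
  -- the product
  have hrs0 : 0 ≤ r * s := mul_nonneg hr0 hs0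
  have hrs2 : (r * s) ^ 2 = (1 + w) ^ 2 - x ^ 2 := by
    rw [mul_pow, hr2, hs2]; ring
  have hx22 : x ^ 2 ≤ (1 - w) ^ 2 := by
    rw [← sq_abs]
    exact pow_le_pow_left₀ (abs_nonneg x) hx 2
  have hrs4 : 4 * w ≤ (r * s) ^ 2 := by rw [hrs2]; nlinarith
  have hprod : (8 / 10 * w + w ^ 2) ≤ 2 * (r * s) := by
    by_contra h
    push Not at h
    have h1 : (2 * (r * s)) ^ 2 < (8 / 10 * w + w ^ 2) ^ 2 :=
      pow_lt_pow_left₀ h (by positivity) (by norm_num)
    have h2 : (8 / 10 * w + w ^ 2) ^ 2 ≤ 16 * w := by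
      have : (8 / 10 * w + w ^ 2) ^ 2 = w * (w * (8 / 10 + w) ^ 2) := by ring
      rw [this]
      have h3 : w * (8 / 10 + w) ^ 2 ≤ 16 := by nlinarith
      nlinarith
    nlinarith
  have hBsq : (r + s) ^ 2 = 2 + 2 * w + 2 * (r * s) := by
    have : (r + s) ^ 2 = r ^ 2 + s ^ 2 + 2 * (r * s) := by ring
    rw [this, hr2, hs2]; ring
  have hB0 : 0 ≤ r + s := add_nonneg hr0 hs0
  have he0 : 0 ≤ 2 + w - (r + s) := by
    by_contra h
    push Not at h
    have h1 : (2 + w) ^ 2 < (r + s) ^ 2 := pow_lt_pow_left₀ (by linarith) (by linarith) (by norm_num)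
    have h2 : (r + s) ^ 2 ≤ 4 + 4 * w := by
      have : (r + s) ^ 2 + (r - s) ^ 2 = 2 * (r ^ 2 + s ^ 2) := by ring
      rw [hr2, hs2] at this
      nlinarith [sq_nonneg (r - s)]
    nlinarith
  have he1 : 2 + w - (r + s) ≤ 3 / 5 := by
    by_contra h
    push Not at h
    have h1 : r + s < 14 / 10 + w := by linarith
    have h2 : (r + s) ^ 2 < (14 / 10 + w) ^ 2 := pow_lt_pow_left₀ h1 hB0 (by norm_num)
    nlinarith
  have hI := hI1 (2 + w - (r + s)) w hw0 hw2 he0 he1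
  have hD := P1_D_pos w hw0 hw2
  have hxB : x ^ 2 = (r + s) ^ 2 * (4 + 4 * w - (r + s) ^ 2) / 4 := by
    rw [hBsq]
    nlinarith
  set D := 1 + 41 / 50 * w - 23 / 25 * w ^ 2 with hDdef
  have hQ : x ^ 2 + w ^ 2 ≤ 4 * (2 + w - (r + s)) * D ^ 2 := by
    refine le_trans (le_of_eq ?_) hI
    rw [hxB]
    ring
  have hy : yf w = 1 / D := rfl
  have hy2 : yf w ^ 2 * (x ^ 2 + w ^ 2) ≤ 4 * (2 + w - (r + s)) := by
    rw [hy]
    have hD2 : 0 < D ^ 2 := by positivity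
    have : (1 / D) ^ 2 * (x ^ 2 + w ^ 2) = (x ^ 2 + w ^ 2) / D ^ 2 := by
      field_simp
    rw [this, div_le_iff₀ hD2]
    exact hQ
  unfold muf
  nlinarith

theorem thm_P2 : St_Lm → St_P1 → St_P2 := by
  rintro ⟨key, mono, hneg, -⟩ hP1 a b w ha0 ha1 hb0 hb1 hab hw0 hw2
  have hw1 : w ≤ 3317 / 10000 := by
    by_contra h
    push Not at h
    nlinarith
  have hmuw : 0 ≤ muf w := by
    have hD := P1_D_pos w hw0 hw2
    unfold muf yf
    have h1 : 1 / (1 + 41 / 50 * w - 23 / 25 * w ^ 2) ≤ 1 := by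
      rw [div_le_one (by linarith)]
      exact hD
    have h2 : 0 ≤ 1 / (1 + 41 / 50 * w - 23 / 25 * w ^ 2) := by positivity
    nlinarith
  rcases le_or_gt 0 (a + b) with hc | hc
  · have h1 : lam b ≤ lam (-a) := mono (-a) b (by linarith) hb1
    have h2 : lam a + lam (-a) ≤ 0 := by
      rw [key a ha1, key (-a) (by linarith)]
      have hr2 := Real.sq_sqrt (show (0 : ℝ) ≤ 1 - a by linarith)
      have hs2 := Real.sq_sqrt (show (0 : ℝ) ≤ 1 - -a by linarith)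
      have hr0 := Real.sqrt_nonneg (1 - a)
      have hs0 := Real.sqrt_nonneg (1 - -a)
      set r := √(1 - a)
      set s := √(1 - -a)
      have hsum : r ^ 2 + s ^ 2 = 2 := by rw [hr2, hs2]; ring
      have h4 : (r + s) ^ 2 = 2 + 2 * (r * s) := by nlinarith
      have h5 : 4 * (r + s) ≤ 6 + 2 * (r * s) := by nlinarith [sq_nonneg (r + s - 2)]
      have h6 : r ^ 4 + s ^ 4 = 4 - 2 * (r * s) ^ 2 := by
        have : r ^ 4 + s ^ 4 = (r ^ 2 + s ^ 2) ^ 2 - 2 * (r * s) ^ 2 := by ring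
        rw [this, hsum]; ring
      have h7 : (r - 1) ^ 3 * (r + 3) / 8 + (s - 1) ^ 3 * (s + 3) / 8
          = ((r ^ 4 + s ^ 4) - 6 * (r ^ 2 + s ^ 2) + 8 * (r + s) - 6) / 8 := by ring
      rw [h7, h6, hsum]
      nlinarith [sq_nonneg (r * s - 1)]
    have h3 : 0 ≤ muf w * (a ^ 2 + b ^ 2) := mul_nonneg hmuw (by positivity)
    linarith
  · obtain ⟨hab1, hab2⟩ := abs_le.1 hab
    set y := -(a + b) / 2 with hy
    set x := (b - a) / 2 with hx
    have hy0 : 0 ≤ y := by rw [hy]; linarith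
    have hyw : y ≤ w := by rw [hy]; linarith
    have hy2 : y ^ 2 ≤ 11 / 100 := le_trans (pow_le_pow_left₀ hy0 hyw 2) hw2
    have hxy : |x| ≤ 1 - y := by
      rw [abs_le]
      constructor <;> rw [hx, hy] <;> linarith
    have h1 := hP1 x y hy0 hy2 hxy
    have ea : -x - y = a := by rw [hx, hy]; ring
    have eb : x - y = b := by rw [hx, hy]; ring
    rw [ea, eb] at h1
    have hmu : muf y ≤ muf w := by
      have hDy := P1_D_pos y hy0 hy2
      have hDw := P1_D_pos w hw0 hw2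
      have hDD : 1 + 41 / 50 * y - 23 / 25 * y ^ 2 ≤ 1 + 41 / 50 * w - 23 / 25 * w ^ 2 := by
        nlinarith
      unfold muf yf
      have h2 : 1 / (1 + 41 / 50 * w - 23 / 25 * w ^ 2) ≤ 1 / (1 + 41 / 50 * y - 23 / 25 * y ^ 2) :=
        one_div_le_one_div_of_le (by linarith) hDD
      have h3 : 0 ≤ 1 / (1 + 41 / 50 * w - 23 / 25 * w ^ 2) := by positivity
      have h4 := pow_le_pow_left₀ h3 h2 2
      linarith
    have h5 : a ^ 2 + b ^ 2 = 2 * (x ^ 2 + y ^ 2) := by rw [hx, hy]; ring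
    have h6 : 0 ≤ x ^ 2 + y ^ 2 := by positivity
    have h7 := mul_le_mul_of_nonneg_right hmu h6
    rw [h5]
    linarith

end Pool.Agent.XPL
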