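import Pool.Agent.XPL.St

set_option autoImplicit false

/-! **Pe.** The Perron type inequality and the Frobenius bound. -/

namespace Pool.Agent.XPL

open Finset

private noncomputable def Pe_X {ι : Type} [Fintype ι] {d : ℕ} (p : ι → E d) (y : ι → ℝ) (θ : ℝ)
    (c : Fin d × Fin d) : ℝ :=
  ∑ i, y i * (p i c.1 * p i c.2) - if c.1 = c.2 then θ else 0

private lemma Pe_inner {d : ℕ} (v w : E d) : (inner ℝ v w : ℝ) = ∑ a, v a * w a := by
  rw [PiLp.inner_apply]
  refine Finset.sum_congr rfl fun a _ => ?_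
  simp [mul_comm]

private lemma Pe_norm {ι : Type} {d : ℕ} (p : ι → E d) (hp : ∀ i, ‖p i‖ = 1) (i : ι) :
    gr p i i = 1 := by
  unfold gr
  rw [real_inner_self_eq_norm_sq, hp i]
  norm_num

private lemma Pe_sum {ι : Type} [Fintype ι] {d : ℕ} (p : ι → E d) (hp : ∀ i, ‖p i‖ = 1)
    (y : ι → ℝ) (θ : ℝ) : ∑ c, Pe_X p y θ c ^ 2 =
      ∑ i, ∑ j, y i * y j * gr p i j ^ 2 - 2 * θ * ∑ i, y i + θ ^ 2 * d := by
  have e1 : ∀ c : Fin d × Fin d, Pe_X p y θ c ^ 2 =
      (∑ i, ∑ j, y i * y j * ((p i c.1 * p j c.1) * (p i c.2 * p j c.2))) -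
        2 * θ * (if c.1 = c.2 then ∑ i, y i * (p i c.1 * p i c.2) else 0) +
        (if c.1 = c.2 then θ ^ 2 else 0) := by
    intro c
    have e2 : (∑ i, y i * (p i c.1 * p i c.2)) ^ 2 =
        ∑ i, ∑ j, y i * y j * ((p i c.1 * p j c.1) * (p i c.2 * p j c.2)) := by
      rw [pow_two, Finset.sum_mul_sum]
      refine Finset.sum_congr rfl fun i _ => Finset.sum_congr rfl fun j _ => ?_
      ring
    unfold Pe_X
    rw [← e2]
    split_ifs <;> ring
  rw [Finset.sum_congr rfl fun c _ => e1 c, Finset.sum_add_distrib, Finset.sum_sub_distrib,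
    ← Finset.mul_sum]
  have e3 : ∑ c : Fin d × Fin d, ∑ i, ∑ j, y i * y j * ((p i c.1 * p j c.1) *
      (p i c.2 * p j c.2)) = ∑ i, ∑ j, y i * y j * gr p i j ^ 2 := by
    rw [Finset.sum_comm]
    refine Finset.sum_congr rfl fun i _ => ?_
    rw [Finset.sum_comm]
    refine Finset.sum_congr rfl fun j _ => ?_
    rw [← Finset.mul_sum, Fintype.sum_prod_type]
    congr 1
    unfold gr
    rw [Pe_inner, pow_two, Finset.sum_mul_sum]
  have e4 : ∑ c : Fin d × Fin d, (if c.1 = c.2 then ∑ i, y i * (p i c.1 * p i c.2) else 0) =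
      ∑ i, y i := by
    rw [Fintype.sum_prod_type]
    have h1 : ∀ a : Fin d, ∑ b : Fin d, (if a = b then ∑ i, y i * (p i a * p i b) else 0) =
        ∑ i, y i * (p i a * p i a) := by
      intro a
      rw [Finset.sum_ite_eq]
      simp
    rw [Finset.sum_congr rfl fun a _ => h1 a, Finset.sum_comm]
    refine Finset.sum_congr rfl fun i _ => ?_
    rw [← Finset.mul_sum, ← Pe_inner]
    have := Pe_norm p hp i
    unfold gr at this
    rw [this, mul_one]
  have e5 : ∑ c : Fin d × Fin d, (if c.1 = c.2 then θ ^ 2 else 0) = θ ^ 2 * d := by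
    rw [Fintype.sum_prod_type]
    have h1 : ∀ a : Fin d, ∑ b : Fin d, (if a = b then θ ^ 2 else 0) = θ ^ 2 := by
      intro a
      rw [Finset.sum_ite_eq]
      simp
    rw [Finset.sum_congr rfl fun a _ => h1 a, Finset.sum_const, Finset.card_univ,
      Fintype.card_fin, nsmul_eq_mul, mul_comm]
  rw [e3, e4, e5]

private lemma Pe_one {ι : Type} [Fintype ι] {d : ℕ} (p : ι → E d) (hp : ∀ i, ‖p i‖ = 1)
    (θ : ℝ) : ∑ c, Pe_X p (fun _ => 1) θ c ^ 2 = DD p θ := by
  rw [Pe_sum p hp]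
  unfold DD G2 uu
  simp only [one_mul, Finset.sum_const, Finset.card_univ, nsmul_eq_mul, mul_one]

theorem thm_Pe : St_Pe := by
  intro ι _ d p hp θ
  have hDD : 0 ≤ DD p θ := by
    rw [← Pe_one p hp]
    exact Finset.sum_nonneg fun _ _ => sq_nonneg _
  have hu : ∀ i, 0 < uu p i := by
    intro i
    have h1 : gr p i i ^ 2 ≤ uu p i :=
      Finset.single_le_sum (f := fun j => gr p i j ^ 2) (fun _ _ => sq_nonneg _)
        (Finset.mem_univ i)
    rw [Pe_norm p hp i] at h1
    linarith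
  refine ⟨?_, hDD, ?_⟩
  · obtain ⟨z, hz⟩ : ∃ z : ι → ℝ, ∀ i, z i = (uu p i - θ) / uu p i := ⟨_, fun _ => rfl⟩
    have hzu : ∀ i, z i * uu p i = uu p i - θ := by
      intro i
      rw [hz, div_mul_cancel₀ _ (hu i).ne']
    have h0 : 0 ≤ ∑ c, Pe_X p (fun i => 1 - z i) θ c ^ 2 :=
      Finset.sum_nonneg fun _ _ => sq_nonneg _
    rw [Pe_sum p hp] at h0
    have hsym : ∀ i j, gr p i j = gr p j i := fun i j => real_inner_comm _ _
    have h1 : ∑ i, ∑ j, (1 - z i) * (1 - z j) * gr p i j ^ 2 ≤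
        ∑ i, (uu p i - 2 * (z i * uu p i) + z i ^ 2 * uu p i) := by
      have g1 : ∑ i, ∑ j, (1 - z i) * (1 - z j) * gr p i j ^ 2 ≤
          ∑ i, ∑ j, ((1 - z i - z j + z i ^ 2 / 2 + z j ^ 2 / 2) * gr p i j ^ 2) := by
        refine Finset.sum_le_sum fun i _ => Finset.sum_le_sum fun j _ => ?_
        have h2 := mul_nonneg (sq_nonneg (z i - z j)) (sq_nonneg (gr p i j))
        nlinarith
      refine g1.trans (le_of_eq ?_)
      have g2 : ∑ i, ∑ j, ((1 - z i - z j + z i ^ 2 / 2 + z j ^ 2 / 2) * gr p i j ^ 2) =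
          ∑ i, ∑ j, ((1 - z i + z i ^ 2 / 2) * gr p i j ^ 2) +
            ∑ i, ∑ j, ((-z j + z j ^ 2 / 2) * gr p i j ^ 2) := by
        rw [← Finset.sum_add_distrib]
        refine Finset.sum_congr rfl fun i _ => ?_
        rw [← Finset.sum_add_distrib]
        refine Finset.sum_congr rfl fun j _ => ?_
        ring
      have g3 : ∑ i, ∑ j, ((-z j + z j ^ 2 / 2) * gr p i j ^ 2) =
          ∑ i, ((-z i + z i ^ 2 / 2) * uu p i) := by
        rw [Finset.sum_comm]
        refine Finset.sum_congr rfl fun i _ => ?_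
        unfold uu
        rw [Finset.mul_sum]
        refine Finset.sum_congr rfl fun j _ => ?_
        rw [hsym j i]
      have g4 : ∑ i, ∑ j, ((1 - z i + z i ^ 2 / 2) * gr p i j ^ 2) =
          ∑ i, ((1 - z i + z i ^ 2 / 2) * uu p i) := by
        refine Finset.sum_congr rfl fun i _ => ?_
        unfold uu
        rw [Finset.mul_sum]
      rw [g2, g3, g4, ← Finset.sum_add_distrib]
      refine Finset.sum_congr rfl fun i _ => ?_
      ring
    have h2 : ∑ i, (uu p i - 2 * (z i * uu p i) + z i ^ 2 * uu p i) - 2 * θ * ∑ i, (1 - z i) +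
        θ ^ 2 * d = DD p θ - ∑ i, (uu p i - θ) ^ 2 / uu p i := by
      have g1 : ∀ i, (uu p i - 2 * (z i * uu p i) + z i ^ 2 * uu p i) - 2 * θ * (1 - z i) =
          uu p i - 2 * θ - (uu p i - θ) ^ 2 / uu p i := by
        intro i
        have g2 : (uu p i - θ) ^ 2 / uu p i = z i * (uu p i - θ) := by
          rw [hz]; ring
        rw [g2]
        have g3 := hzu i
        linear_combination (z i) * g3
      have g5 : ∑ i, (uu p i - 2 * (z i * uu p i) + z i ^ 2 * uu p i) - 2 * θ * ∑ i, (1 - z i) =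
          ∑ i, (uu p i - 2 * θ - (uu p i - θ) ^ 2 / uu p i) := by
        rw [Finset.mul_sum, ← Finset.sum_sub_distrib]
        exact Finset.sum_congr rfl fun i _ => g1 i
      rw [g5, Finset.sum_sub_distrib, Finset.sum_sub_distrib, Finset.sum_const,
        Finset.card_univ, nsmul_eq_mul]
      unfold DD G2
      ring
    linarith
  · intro v
    have hone := Pe_one p hp θ
    have hcs := Finset.sum_mul_sq_le_sq_mul_sq (Finset.univ : Finset (Fin d × Fin d))
      (Pe_X p (fun _ => 1) θ) (fun c => v c.1 * v c.2)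
    have hvv : ∑ a, v a * v a = ‖v‖ ^ 2 := by
      rw [← Pe_inner, real_inner_self_eq_norm_sq]
    have e1 : ∑ c : Fin d × Fin d, (v c.1 * v c.2) ^ 2 = (‖v‖ ^ 2) ^ 2 := by
      rw [Fintype.sum_prod_type, ← hvv, pow_two, Finset.sum_mul_sum]
      refine Finset.sum_congr rfl fun a _ => Finset.sum_congr rfl fun b _ => ?_
      ring
    have e2 : ∑ c : Fin d × Fin d, Pe_X p (fun _ => 1) θ c * (v c.1 * v c.2) =
        ∑ j, (inner ℝ v (p j) : ℝ) ^ 2 - θ * ‖v‖ ^ 2 := by
      have g1 : ∀ c : Fin d × Fin d, Pe_X p (fun _ => 1) θ c * (v c.1 * v c.2) =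
          ∑ j, (v c.1 * p j c.1) * (v c.2 * p j c.2) -
            (if c.1 = c.2 then θ * (v c.1 * v c.2) else 0) := by
        intro c
        unfold Pe_X
        rw [sub_mul, Finset.sum_mul]
        congr 1
        · refine Finset.sum_congr rfl fun j _ => ?_
          ring
        · split_ifs
          · rfl
          · rw [zero_mul]
      rw [Finset.sum_congr rfl fun c _ => g1 c, Finset.sum_sub_distrib]
      congr 1
      · rw [Finset.sum_comm]
        refine Finset.sum_congr rfl fun j _ => ?_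
        rw [Fintype.sum_prod_type, Pe_inner, pow_two, Finset.sum_mul_sum]
      · rw [Fintype.sum_prod_type, ← hvv, Finset.mul_sum]
        refine Finset.sum_congr rfl fun a _ => ?_
        have : ∑ b : Fin d, (if a = b then θ * (v a * v b) else 0) = θ * (v a * v a) := by
          rw [Finset.sum_ite_eq]
          simp
        exact this
    rw [e1, e2, hone] at hcs
    have h3 : |∑ j, (inner ℝ v (p j) : ℝ) ^ 2 - θ * ‖v‖ ^ 2| ≤ √(DD p θ) * ‖v‖ ^ 2 := by
      rw [← Real.sqrt_sq_eq_abs]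
      have h4 : √(DD p θ) * ‖v‖ ^ 2 = √(DD p θ * (‖v‖ ^ 2) ^ 2) := by
        rw [Real.sqrt_mul hDD, Real.sqrt_sq (sq_nonneg _)]
      rw [h4]
      exact Real.sqrt_le_sqrt hcs
    have h5 := (abs_le.1 h3).2
    linarith

end Pool.Agent.XPL
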