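import Pool.Agent.XPL.St

set_option autoImplicit false

namespace Pool.Agent.XPL

private theorem Rm_basic (u θ s : ℝ) (hu : 0 < u) :
    (1 - s ^ 2) * u - 2 * θ * (1 - s) ≤ (u - θ) ^ 2 / u := by
  rw [le_div_iff₀ hu]
  nlinarith [sq_nonneg (θ - s * u)]

private theorem sqrt2_lo : (141421 : ℝ) / 100000 ≤ √2 := by
  apply Real.le_sqrt_of_sq_le
  norm_num

private theorem sqrt2_hi : √2 ≤ (141422 : ℝ) / 100000 := by
  apply Real.sqrt_le_iff.2
  norm_num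

theorem thm_Ru : St_Ru := by
  intro u θ hu h1 h2
  have hb := Rm_basic u θ (8549 / 10000) (by linarith)
  have hs := sqrt2_lo
  unfold c0
  have hθ : 2 * θ * (1 - 8549 / 10000) ≤ 2 * (2 + 1 / 1000) * (1 - 8549 / 10000) := by
    nlinarith
  nlinarith

private theorem Rm_poly (w : ℝ) (hw0 : 0 ≤ w) (hw1 : w ≤ 3317 / 10000) :
    99 / 800 * (253 / 250) * (41 / 50 - 23 / 25 * w) *
      (2 * (253 / 250) * (41 / 50 - 23 / 25 * w) + 4 * w * (1 - w ^ 2) *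
        (2 * (1 + 41 / 50 * w - 23 / 25 * w ^ 2) - 253 / 250 * (w * (41 / 50 - 23 / 25 * w))))
    ≤ (2061 / 10000 - 32323 / 100000 * w ^ 2) * (1 + 41 / 50 * w - 23 / 25 * w ^ 2) ^ 2 := by
  rcases le_or_gt w (1 / 5) with h | h
  · have h5 : 0 ≤ 1 / 5 - w := by linarith
    nlinarith [mul_nonneg hw0 h5, mul_nonneg (mul_nonneg hw0 h5) hw0,
      mul_nonneg (mul_nonneg hw0 h5) (sq_nonneg w), mul_nonneg (mul_nonneg hw0 h5) (pow_nonneg hw0 3),
      pow_nonneg hw0 3, pow_nonneg hw0 5]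
  · obtain ⟨x, hx⟩ : ∃ x, w = 3317 / 10000 - x := ⟨3317 / 10000 - w, by ring⟩
    have hx0 : 0 ≤ x := by linarith
    have hx1 : 0 ≤ 1317 / 10000 - x := by linarith
    rw [hx]
    nlinarith [mul_nonneg hx0 hx1, mul_nonneg (mul_nonneg hx0 hx1) hx0,
      mul_nonneg (mul_nonneg hx0 hx1) (sq_nonneg x), mul_nonneg (mul_nonneg hx0 hx1) (pow_nonneg hx0 3),
      pow_nonneg hx0 3, pow_nonneg hx0 5]

theorem thm_Rm : St_Lm → St_Rm := by
  intro _ w u θ hw0 hw2 hu h1 h2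
  have hw1 : w ≤ 3317 / 10000 := by
    by_contra h
    push Not at h
    nlinarith
  set D := 1 + 41 / 50 * w - 23 / 25 * w ^ 2 with hD
  have hD1 : 1 ≤ D := by rw [hD]; nlinarith
  have hD0 : 0 < D := by linarith
  -- q = n / D, z = w q
  set n := 41 / 50 - 23 / 25 * w with hn
  have hn0 : 0 ≤ n := by rw [hn]; nlinarith
  have hDn : D = 1 + w * n := by rw [hD, hn]; ring
  obtain ⟨q, hq⟩ : ∃ q, q = n / D := ⟨_, rfl⟩
  have hq0 : 0 ≤ q := by rw [hq]; positivity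
  have hqD : q * D = n := by rw [hq]; field_simp
  have hq1 : q ≤ 41 / 50 := by
    rw [hq, div_le_iff₀ hD0]
    nlinarith
  obtain ⟨z, hz⟩ : ∃ z, z = w * q := ⟨_, rfl⟩
  have hz0 : 0 ≤ z := by rw [hz]; positivity
  have hz1 : z ≤ 27 / 100 := by
    rw [hz]
    have h3 : q ≤ n := by
      rw [hq, div_le_iff₀ hD0]
      nlinarith
    have h4 : w * q ≤ w * n := mul_le_mul_of_nonneg_left h3 hw0
    have h5 : w * n ≤ 27 / 100 := by
      rw [hn]
      nlinarith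
    linarith
  have hyz : yf w = 1 - z := by
    have h3 : yf w = 1 / D := rfl
    rw [h3, hz, hq]
    have h4 : (1 : ℝ) = (D - w * n) := by rw [hDn]; ring
    field_simp
    linarith
  have hmu : muf w = (2 * z - z ^ 2) / 8 := by
    unfold muf
    rw [hyz]; ring
  have hu0 : 0 < u := by
    have : 0 ≤ (1 - 2 * w ^ 2) ^ 2 := sq_nonneg _
    linarith
  have hb := Rm_basic u θ (1 - 253 / 250 * z) hu0
  -- coefficient of u
  have hcoef : muf w ≤ 99 / 800 * (1 - (1 - 253 / 250 * z) ^ 2) := by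
    rw [hmu]
    nlinarith [mul_nonneg hz0 (sub_nonneg.2 hz1)]
  -- theta part
  have hth : 99 / 800 * (2 * θ * (1 - (1 - 253 / 250 * z))) - (θ - 2) * w / 4
      ≤ 99 / 800 * (4 * (253 / 250 * z)) := by
    have h3 : 99 / 800 * (2 * (253 / 250 * z)) ≤ w / 4 := by
      rw [hz]
      nlinarith
    nlinarith
  -- the gap c0 - lam(-tau)
  have hgap : w ^ 2 * (2071 / 10000) - w ^ 4 * (32323 / 100000) ≤ c0 - lam (-(1 - 2 * w ^ 2)) := by
    have h3 : (1 : ℝ) - -(1 - 2 * w ^ 2) = 2 * (1 - w ^ 2) := by ring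
    unfold c0 lam
    rw [h3, Real.sqrt_mul (by norm_num : (0 : ℝ) ≤ 2)]
    have h4 : √(1 - w ^ 2) ≤ 1 - w ^ 2 / 2 - w ^ 4 / 8 := by
      apply Real.sqrt_le_iff.2
      constructor
      · nlinarith [sq_nonneg (w ^ 2)]
      · have h5 : (1 - w ^ 2 / 2 - w ^ 4 / 8) ^ 2 - (1 - w ^ 2) = w ^ 6 / 8 + w ^ 8 / 64 := by ring
        have h6 : 0 ≤ w ^ 6 / 8 + w ^ 8 / 64 := by positivity
        linarith
    have hs1 := sqrt2_lo
    have hs2 := sqrt2_hi
    have h7 : √2 * √(1 - w ^ 2) ≤ √2 * (1 - w ^ 2 / 2 - w ^ 4 / 8) :=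
      mul_le_mul_of_nonneg_left h4 (by positivity)
    have hw4 : 0 ≤ w ^ 4 := by positivity
    have hw2' : 0 ≤ w ^ 2 := by positivity
    have h8 : w ^ 2 * (2071 / 10000) ≤ w ^ 2 * ((√2 - 1) / 2) := by
      apply mul_le_mul_of_nonneg_left _ hw2'
      linarith
    have h9 : w ^ 4 * (1 / 2 - √2 / 8) ≤ w ^ 4 * (32323 / 100000) := by
      apply mul_le_mul_of_nonneg_left _ hw4
      linarith
    nlinarith
  -- the polynomial inequality
  have hpoly := Rm_poly w hw0 hw1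
  rw [← hn, ← hD] at hpoly
  have hpq : 99 / 800 * (253 / 250) * q * (2 * (253 / 250) * q + 4 * w * (1 - w ^ 2) *
      (2 - 253 / 250 * z)) ≤ 2061 / 10000 - 32323 / 100000 * w ^ 2 := by
    have hD2 : 0 < D ^ 2 := by positivity
    have h3 : (99 / 800 * (253 / 250) * q * (2 * (253 / 250) * q + 4 * w * (1 - w ^ 2) *
      (2 - 253 / 250 * z))) * D ^ 2 = 99 / 800 * (253 / 250) * n *
      (2 * (253 / 250) * n + 4 * w * (1 - w ^ 2) * (2 * D - 253 / 250 * (w * n))) := by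
      rw [hz, ← hqD]; ring
    have h4 : (99 / 800 * (253 / 250) * q * (2 * (253 / 250) * q + 4 * w * (1 - w ^ 2) *
      (2 - 253 / 250 * z))) * D ^ 2 ≤ (2061 / 10000 - 32323 / 100000 * w ^ 2) * D ^ 2 := by
      rw [h3]; exact hpoly
    exact le_of_mul_le_mul_right h4 hD2
  have hfin : 99 / 800 * (253 / 250 * z) * (2 * (253 / 250 * z) +
      (4 * w ^ 2 - 4 * w ^ 4) * (2 - 253 / 250 * z)) + w ^ 2 / 1000
      ≤ c0 - lam (-(1 - 2 * w ^ 2)) := by
    have h3 : 99 / 800 * (253 / 250 * z) * (2 * (253 / 250 * z) +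
      (4 * w ^ 2 - 4 * w ^ 4) * (2 - 253 / 250 * z)) = w ^ 2 * (99 / 800 * (253 / 250) * q *
      (2 * (253 / 250) * q + 4 * w * (1 - w ^ 2) * (2 - 253 / 250 * z))) := by
      rw [hz]; ring
    have h4 := mul_le_mul_of_nonneg_left hpq (sq_nonneg w)
    rw [h3]
    nlinarith
  have hub : muf w * (u - 1 - (1 - 2 * w ^ 2) ^ 2) ≤
      99 / 800 * (1 - (1 - 253 / 250 * z) ^ 2) * (u - (1 + (1 - 2 * w ^ 2) ^ 2)) := by
    have h3 : u - 1 - (1 - 2 * w ^ 2) ^ 2 = u - (1 + (1 - 2 * w ^ 2) ^ 2) := by ring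
    rw [h3]
    exact mul_le_mul_of_nonneg_right hcoef (by linarith)
  have hmain : 99 / 800 * ((1 - (1 - 253 / 250 * z) ^ 2) * u - 2 * θ * (1 - (1 - 253 / 250 * z)))
      ≤ 99 / 800 * ((u - θ) ^ 2 / u) := mul_le_mul_of_nonneg_left hb (by norm_num)
  have hid : 99 / 800 * (1 - (1 - 253 / 250 * z) ^ 2) * (1 + (1 - 2 * w ^ 2) ^ 2)
      - 99 / 800 * (4 * (253 / 250 * z)) = -(99 / 800 * (253 / 250 * z) * (2 * (253 / 250 * z) +
      (4 * w ^ 2 - 4 * w ^ 4) * (2 - 253 / 250 * z))) := by ring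
  nlinarith

end Pool.Agent.XPL
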