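import Pool.Agent.XPL.St

set_option autoImplicit false

/-!
XPL, **Rw**: row bounds for unmatched and for matched rows.
-/

namespace Pool.Agent.XPL

open Finset

section
variable {ι : Type} {d : ℕ}

private theorem Rw_comm (p : ι → E d) (i j : ι) : gr p i j = gr p j i := real_inner_comm _ _

private theorem Rw_self (p : ι → E d) (hp : ∀ i, ‖p i‖ = 1) (i : ι) : gr p i i = 1 := by
  unfold gr
  rw [real_inner_self_eq_norm_sq, hp]
  norm_num

private theorem Rw_abs (p : ι → E d) (hp : ∀ i, ‖p i‖ = 1) (i j : ι) : |gr p i j| ≤ 1 := by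
  have h := abs_real_inner_le_norm (p i) (p j)
  rw [hp, hp, mul_one] at h
  exact h

private theorem Rw_uu [Fintype ι] [DecidableEq ι] (p : ι → E d) (hp : ∀ i, ‖p i‖ = 1) (i : ι) :
    uu p i - 1 = ∑ l ∈ univ.erase i, gr p i l ^ 2 := by
  unfold uu
  rw [← Finset.add_sum_erase univ _ (mem_univ i), Rw_self p hp i]
  ring

private theorem Rw_three (p : ι → E d) (hp : ∀ i, ‖p i‖ = 1) (i q s : ι) :
    0 ≤ 17 / 4 + 3 * gr p i q + 2 * gr p i s + 3 * gr p q s := by
  have h : 0 ≤ inner ℝ (p i + (3 / 2 : ℝ) • p q + p s) (p i + (3 / 2 : ℝ) • p q + p s) :=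
    real_inner_self_nonneg
  simp only [inner_add_left, inner_add_right, inner_smul_left, inner_smul_right] at h
  have e1 : inner ℝ (p i) (p i) = (1 : ℝ) := Rw_self p hp i
  have e2 : inner ℝ (p q) (p q) = (1 : ℝ) := Rw_self p hp q
  have e3 : inner ℝ (p s) (p s) = (1 : ℝ) := Rw_self p hp s
  have c1 : inner ℝ (p q) (p i) = (inner ℝ (p i) (p q) : ℝ) := real_inner_comm _ _
  have c2 : inner ℝ (p s) (p i) = (inner ℝ (p i) (p s) : ℝ) := real_inner_comm _ _
  have c3 : inner ℝ (p s) (p q) = (inner ℝ (p q) (p s) : ℝ) := real_inner_comm _ _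
  rw [e1, e2, e3, c1, c2, c3] at h
  simp only [conj_trivial] at h
  unfold gr
  linarith

private theorem Rw_pair [Fintype ι] [DecidableEq ι] (hB2 : St_B2) (p : ι → E d) (m : ι → ι)
    (hp : ∀ i, ‖p i‖ = 1) (hm : MM p m) (i l : ι) (hi : m i = i) (hl : l ≠ i)
    (ht : gr p i l < -(39 / 50)) :
    lam (gr p i l) + lam (gr p i (m l)) ≤
      333 / 10000 * (gr p i l ^ 2 + gr p i (m l) ^ 2) := by
  obtain ⟨h1, h2, h3⟩ := hm
  have hml : m l ≠ l := by
    intro h
    have := h3 i l (Ne.symm hl) hi h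
    linarith
  have h4 := h2 l hml
  have h5 := Rw_three p hp i l (m l)
  have h6 := abs_le.1 (Rw_abs p hp i l)
  have h7 := abs_le.1 (Rw_abs p hp i (m l))
  exact hB2 _ _ h6.1 ht.le (by linarith) h7.2

end

theorem thm_Rw (hB1 : St_B1) (hB2 : St_B2) (hP2 : St_P2) : St_Rw := by
  intro ι _ _ d p m hp hm
  have hm0 := hm
  obtain ⟨h1, h2, h3⟩ := hm0
  constructor
  · intro i hi
    rw [Rw_uu p hp i, Finset.mul_sum]
    have hperm : ∀ F : ι → ℝ, ∑ l ∈ univ.erase i, F (m l) = ∑ l ∈ univ.erase i, F l := by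
      intro F
      refine Finset.sum_nbij' m m ?_ ?_ ?_ ?_ ?_
      · intro l hl
        rw [mem_erase] at hl ⊢
        refine ⟨?_, mem_univ _⟩
        intro h
        apply hl.1
        rw [← h1 l, h, hi]
      · intro l hl
        rw [mem_erase] at hl ⊢
        refine ⟨?_, mem_univ _⟩
        intro h
        apply hl.1
        rw [← h1 l, h, hi]
      · intro l _
        exact h1 l
      · intro l _
        exact h1 l
      · intro l _
        rfl
    have key : ∀ l ∈ univ.erase i, lam (gr p i l) + lam (gr p i (m l)) ≤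
        333 / 10000 * (gr p i l ^ 2 + gr p i (m l) ^ 2) := by
      intro l hl
      have hli : l ≠ i := (mem_erase.1 hl).1
      have hmli : m l ≠ i := by
        intro h
        apply hli
        rw [← h1 l, h, hi]
      rcases lt_or_ge (gr p i l) (-(39 / 50)) with ha | ha
      · exact Rw_pair hB2 p m hp hm i l hi hli ha
      · rcases lt_or_ge (gr p i (m l)) (-(39 / 50)) with hb | hb
        · have h := Rw_pair hB2 p m hp hm i (m l) hi hmli hb
          rw [h1 l] at h
          linarith
        · have e1 := hB1 _ ha (abs_le.1 (Rw_abs p hp i l)).2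
          have e2 := hB1 _ hb (abs_le.1 (Rw_abs p hp i (m l))).2
          linarith
    have hs := Finset.sum_le_sum key
    rw [Finset.sum_add_distrib, hperm (fun l => lam (gr p i l))] at hs
    have e3 : ∑ l ∈ univ.erase i, 333 / 10000 * (gr p i l ^ 2 + gr p i (m l) ^ 2) =
        2 * ∑ l ∈ univ.erase i, 333 / 10000 * gr p i l ^ 2 := by
      simp only [mul_add, Finset.sum_add_distrib]
      rw [hperm (fun l => 333 / 10000 * gr p i l ^ 2)]
      ring
    rw [e3] at hs
    linarith
  · intro i hi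
    obtain ⟨j, hj⟩ : ∃ j, j = m i := ⟨_, rfl⟩
    have hij : i ≠ j := by rw [hj]; exact Ne.symm hi
    have hg := h2 i hi
    rw [← hj] at hg ⊢
    have hgr := abs_le.1 (Rw_abs p hp i j)
    have hw0 : 0 ≤ wf p m i := Real.sqrt_nonneg _
    have hw2 : wf p m i ^ 2 = (1 + gr p i j) / 2 := by
      unfold wf
      rw [← hj, Real.sq_sqrt]
      linarith
    have hw : wf p m i ^ 2 ≤ 11 / 100 := by
      rw [hw2]
      linarith
    have hnorm : ‖p i + p j‖ = 2 * wf p m i := by
      have e1 : ‖p i + p j‖ ^ 2 = (2 * wf p m i) ^ 2 := by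
        rw [mul_pow, hw2, norm_add_sq_real, hp, hp]
        unfold gr
        ring
      exact (pow_left_inj₀ (norm_nonneg _) (by linarith) (by norm_num)).1 e1
    have key : ∀ l, lam (gr p i l) + lam (gr p j l) ≤
        muf (wf p m i) * (gr p i l ^ 2 + gr p j l ^ 2) := by
      intro l
      have a1 := abs_le.1 (Rw_abs p hp i l)
      have a2 := abs_le.1 (Rw_abs p hp j l)
      have a3 : |gr p i l + gr p j l| ≤ 2 * wf p m i := by
        have := abs_real_inner_le_norm (p i + p j) (p l)
        rw [inner_add_left, hp, mul_one, hnorm] at this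
        exact this
      exact hP2 _ _ _ a1.1 a1.2 a2.1 a2.2 a3 hw0 hw
    have hji : j ∈ univ.erase i := by simp [Ne.symm hij]
    have hij' : i ∈ univ.erase j := by simp [hij]
    have hset : (univ.erase j).erase i = (univ.erase i).erase j := Finset.erase_right_comm
    have s1 : ∑ l ∈ univ.erase i, lam (gr p i l) =
        lam (gr p i j) + ∑ l ∈ (univ.erase i).erase j, lam (gr p i l) :=
      (Finset.add_sum_erase _ (fun l => lam (gr p i l)) hji).symm
    have s2 : ∑ l ∈ univ.erase j, lam (gr p j l) =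
        lam (gr p i j) + ∑ l ∈ (univ.erase i).erase j, lam (gr p j l) := by
      rw [← Finset.add_sum_erase _ (fun l => lam (gr p j l)) hij', hset, Rw_comm p j i]
    have u1 : uu p i - 1 = gr p i j ^ 2 + ∑ l ∈ (univ.erase i).erase j, gr p i l ^ 2 := by
      rw [Rw_uu p hp i, ← Finset.add_sum_erase _ (fun l => gr p i l ^ 2) hji]
    have u2 : uu p j - 1 = gr p i j ^ 2 + ∑ l ∈ (univ.erase i).erase j, gr p j l ^ 2 := by
      rw [Rw_uu p hp j, ← Finset.add_sum_erase _ (fun l => gr p j l ^ 2) hij', hset,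
        Rw_comm p j i]
    have hs := Finset.sum_le_sum (fun l (_ : l ∈ (univ.erase i).erase j) => key l)
    rw [Finset.sum_add_distrib, ← Finset.mul_sum, Finset.sum_add_distrib] at hs
    have e4 : uu p i + uu p j - 2 - 2 * gr p i j ^ 2 =
        ∑ l ∈ (univ.erase i).erase j, gr p i l ^ 2 +
          ∑ l ∈ (univ.erase i).erase j, gr p j l ^ 2 := by
      linarith
    rw [e4, s1, s2]
    linarith

end Pool.Agent.XPL
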