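import Pool.Agent.XPL.St

/-!
# XPL, module S1: summing the rows
-/

set_option autoImplicit false

namespace Pool.Agent.XPL

open Finset

private theorem S1_symm {ι : Type} {d : ℕ} (p : ι → E d) (i j : ι) : gr p i j = gr p j i := by
  unfold gr
  exact real_inner_comm _ _

private theorem S1_self {ι : Type} {d : ℕ} (p : ι → E d) (hp : ∀ i, ‖p i‖ = 1) (i : ι) :
    gr p i i = 1 := by
  unfold gr
  rw [real_inner_self_eq_norm_sq, hp i, one_pow]

private theorem S1_ge {ι : Type} {d : ℕ} (p : ι → E d) (hp : ∀ i, ‖p i‖ = 1) (i j : ι) :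
    -1 ≤ gr p i j := by
  unfold gr
  have h := abs_real_inner_le_norm (p i) (p j)
  rw [hp i, hp j, one_mul] at h
  exact (abs_le.1 h).1

private theorem S1_one {ι : Type} [Fintype ι] [DecidableEq ι] {d : ℕ} (p : ι → E d)
    (hp : ∀ i, ‖p i‖ = 1) (i : ι) : 1 ≤ uu p i := by
  unfold uu
  have h := single_le_sum (f := fun j => gr p i j ^ 2) (fun j _ => sq_nonneg _) (mem_univ i)
  simp only [S1_self p hp i, one_pow] at h
  exact h

private theorem S1_two {ι : Type} [Fintype ι] [DecidableEq ι] {d : ℕ} (p : ι → E d)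
    (hp : ∀ i, ‖p i‖ = 1) (i j : ι) (hij : j ≠ i) : 1 + gr p i j ^ 2 ≤ uu p i := by
  unfold uu
  have h : ∑ l ∈ ({i, j} : Finset ι), gr p i l ^ 2 ≤ ∑ l, gr p i l ^ 2 :=
    sum_le_sum_of_subset_of_nonneg (subset_univ _) fun l _ _ => sq_nonneg _
  rw [sum_pair (Ne.symm hij), S1_self p hp i, one_pow] at h
  exact h

theorem thm_S1 (hPe : St_Pe) (hMt : St_Mt) (hRw : St_Rw) (hRu : St_Ru) (hRm : St_Rm) :
    St_S1 := by
  intro ι _ _ d p hp θ hθ1 hθ2
  obtain ⟨m, hm1, hm2, hm3⟩ := hMt ι (fun i j => gr p i j ≤ -(39 / 50))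
    (fun i j h => by rw [S1_symm]; exact h)
  have hMM : MM p m := by
    refine ⟨hm1, hm2, fun i j hij hi hj => ?_⟩
    have h := hm3 i j hij hi hj
    exact not_le.1 h
  refine ⟨m, hMM, ?_⟩
  obtain ⟨hw1, hw2⟩ := hRw ι d p m hp hMM
  obtain ⟨hpe, -, -⟩ := hPe ι d p hp θ
  -- the rows
  obtain ⟨R, hR⟩ : ∃ R : ι → ℝ, ∀ i, R i = ∑ l ∈ univ.erase i, lam (gr p i l) - c0 -
    99 / 800 * ((uu p i - θ) ^ 2 / uu p i) := ⟨_, fun _ => rfl⟩
  have hrow : ∀ i, R i + R (m i) ≤ -gg p m θ i - gg p m θ (m i) := by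
    intro i
    by_cases hi : m i = i
    · have h1 := hw1 i hi
      have h2 := hRu (uu p i) θ (S1_one p hp i) hθ1 hθ2
      have h3 : gg p m θ i = 1 / 2000 := by
        unfold gg
        rw [if_pos hi]
      rw [hi, h3, hR i]
      linarith
    · have hj : m (m i) ≠ m i := by
        rw [hm1 i]
        exact fun h => hi h.symm
      have h1 := hw2 i hi
      have ht1 := hm2 i hi
      have ht2 := S1_ge p hp i (m i)
      have hwi : wf p m (m i) = wf p m i := by
        unfold wf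
        rw [hm1 i, S1_symm]
      have hw0 : 0 ≤ wf p m i := by
        unfold wf
        exact Real.sqrt_nonneg _
      have hwsq : wf p m i ^ 2 = (1 + gr p i (m i)) / 2 := by
        unfold wf
        rw [Real.sq_sqrt (by linarith)]
      have ht : -(1 - 2 * wf p m i ^ 2) = gr p i (m i) := by
        rw [hwsq]
        ring
      have ht' : (1 - 2 * wf p m i ^ 2) ^ 2 = gr p i (m i) ^ 2 := by
        rw [← ht]
        ring
      have hu1 : 1 + (1 - 2 * wf p m i ^ 2) ^ 2 ≤ uu p i := by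
        rw [ht']
        exact S1_two p hp i (m i) hi
      have hu2 : 1 + (1 - 2 * wf p m i ^ 2) ^ 2 ≤ uu p (m i) := by
        rw [ht', S1_symm]
        exact S1_two p hp (m i) i (fun h => hi h.symm)
      have hw11 : wf p m i ^ 2 ≤ 11 / 100 := by
        rw [hwsq]
        linarith
      have h2 := hRm (wf p m i) (uu p i) θ hw0 hw11 hu1 hθ1 hθ2
      have h3 := hRm (wf p m i) (uu p (m i)) θ hw0 hw11 hu2 hθ1 hθ2
      have hg1 : gg p m θ i = wf p m i ^ 2 / 1000 - (θ - 2) * wf p m i / 4 := by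
        unfold gg
        rw [if_neg hi]
      have hg2 : gg p m θ (m i) = wf p m i ^ 2 / 1000 - (θ - 2) * wf p m i / 4 := by
        unfold gg
        rw [if_neg hj, hwi]
      rw [ht, ht'] at h2 h3
      rw [hg1, hg2, hR i, hR (m i)]
      have h4 : muf (wf p m i) * (uu p i + uu p (m i) - 2 - 2 * gr p i (m i) ^ 2) =
          muf (wf p m i) * (uu p i - 1 - gr p i (m i) ^ 2) +
            muf (wf p m i) * (uu p (m i) - 1 - gr p i (m i) ^ 2) := by ring
      rw [h4] at h1
      linarith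
  -- summation
  have hinv : Function.Involutive m := hm1
  have hre : ∀ f : ι → ℝ, ∑ i, f (m i) = ∑ i, f i := fun f =>
    Equiv.sum_comp (hinv.toPerm m) f
  have hsum : ∑ i, (R i + R (m i)) ≤ ∑ i, (-gg p m θ i - gg p m θ (m i)) :=
    sum_le_sum fun i _ => hrow i
  rw [sum_add_distrib, hre R, sum_sub_distrib, hre (gg p m θ), sum_neg_distrib] at hsum
  have hRs : ∑ i, R i = ∑ i, ∑ j ∈ univ.erase i, lam (gr p i j) - c0 * (Fintype.card ι : ℝ) -
      99 / 800 * ∑ i, (uu p i - θ) ^ 2 / uu p i := by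
    simp only [hR]
    rw [sum_sub_distrib, sum_sub_distrib, ← mul_sum, sum_const, card_univ, nsmul_eq_mul,
      mul_comm c0]
  rw [hRs] at hsum
  have h5 : 99 / 800 * ∑ i, (uu p i - θ) ^ 2 / uu p i ≤ 99 / 800 * DD p θ :=
    mul_le_mul_of_nonneg_left hpe (by norm_num)
  linarith

end Pool.Agent.XPL
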