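import Pool.Agent.XPL.St

set_option autoImplicit false

/-! MP_b22a07_co: regrouping a double sum under a fixed point free involution. -/

namespace Pool.Agent.XPL

open Finset

theorem thm_Sm : St_Sm := by
  intro ι _ _ m hm _ F
  have hs : ∀ i : ι, (univ.erase (m i)).erase (m (m i)) = (univ.erase i).erase (m i) := by
    intro i
    rw [hm i]
    exact Finset.erase_right_comm
  have hA : ∀ (i : ι) (G : ι → ℝ),
      ∑ j ∈ (univ.erase i).erase (m i), G (m j) = ∑ j ∈ (univ.erase i).erase (m i), G j := by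
    intro i G
    have hmem : ∀ j ∈ (univ.erase i).erase (m i), m j ∈ (univ.erase i).erase (m i) := by
      intro j hj
      simp only [mem_erase, mem_univ, and_true, ne_eq] at hj ⊢
      refine ⟨fun h => hj.2 ?_, fun h => hj.1 ?_⟩
      · rw [← hm j, h, hm i]
      · rw [← h, hm j]
    exact Finset.sum_nbij' m m hmem hmem (fun j _ => hm j) (fun j _ => hm j) (fun j _ => rfl)
  have hC : ∀ G : ι → ℝ, ∑ i, G (m i) = ∑ i, G i := fun G =>
    Equiv.sum_comp (Function.Involutive.toPerm m hm) G
  have e1 : ∑ i, ∑ j ∈ (univ.erase i).erase (m i), F (m i) j =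
      ∑ i, ∑ j ∈ (univ.erase i).erase (m i), F i j := by
    rw [← hC fun i => ∑ j ∈ (univ.erase i).erase (m i), F i j]
    apply Finset.sum_congr rfl
    intro i _
    rw [hs i]
  have e2 : ∑ i, ∑ j ∈ (univ.erase i).erase (m i), F i (m j) =
      ∑ i, ∑ j ∈ (univ.erase i).erase (m i), F i j :=
    Finset.sum_congr rfl fun i _ => hA i (F i)
  have e3 : ∑ i, ∑ j ∈ (univ.erase i).erase (m i), F (m i) (m j) =
      ∑ i, ∑ j ∈ (univ.erase i).erase (m i), F i j := by
    rw [← e1]
    exact Finset.sum_congr rfl fun i _ => hA i (F (m i))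
  simp only [Finset.sum_add_distrib]
  rw [e1, e2, e3]
  ring

end Pool.Agent.XPL
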