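import Pool.Agent.XPL.St

set_option autoImplicit false

/-! MP_b22a07_co: regular simplices exist. -/

namespace Pool.Agent.XPL

open Finset

private lemma Sx_aux (d : ℕ) (hd : 1 ≤ d) : ∃ g : Fin (d + 1) → E d,
    ∀ i j, (inner ℝ (g i) (g j) : ℝ) = if i = j then 1 else -(1 / (d : ℝ)) := by
  have hfr : Fact (Module.finrank ℝ (EuclideanSpace ℝ (Fin (d + 1))) = d + 1) :=
    ⟨by rw [finrank_euclideanSpace_fin]⟩
  have hd0 : (0 : ℝ) < d := by exact_mod_cast hd
  set v : EuclideanSpace ℝ (Fin (d + 1)) := WithLp.toLp 2 (fun _ => (1 : ℝ)) with hv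
  have vap : ∀ i, v i = 1 := fun i => rfl
  have hvv : (inner ℝ v v : ℝ) = (d : ℝ) + 1 := by
    rw [PiLp.inner_apply]
    simp [vap]
  have hv0 : v ≠ 0 := by
    intro h
    rw [h, inner_zero_left] at hvv
    linarith
  have hev : ∀ i, (inner ℝ (EuclideanSpace.single i (1 : ℝ)) v : ℝ) = 1 := by
    intro i
    rw [EuclideanSpace.inner_single_left]
    simp [vap]
  have hve : ∀ i, (inner ℝ v (EuclideanSpace.single i (1 : ℝ)) : ℝ) = 1 := by
    intro i
    rw [real_inner_comm]
    exact hev i
  have hee : ∀ i j : Fin (d + 1), (inner ℝ (EuclideanSpace.single i (1 : ℝ))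
      (EuclideanSpace.single j (1 : ℝ)) : ℝ) = if i = j then 1 else 0 := by
    intro i j
    rw [EuclideanSpace.inner_single_left]
    by_cases h : i = j
    · subst h
      simp
    · simp [h]
  set c : ℝ := √(((d : ℝ) + 1) / d) with hc
  have hc2 : c * c = ((d : ℝ) + 1) / d := Real.mul_self_sqrt (by positivity)
  have hw : ∀ i j, (inner ℝ (c • (EuclideanSpace.single i (1 : ℝ) - (1 / ((d : ℝ) + 1)) • v))
      (c • (EuclideanSpace.single j (1 : ℝ) - (1 / ((d : ℝ) + 1)) • v)) : ℝ) =
      if i = j then 1 else -(1 / (d : ℝ)) := by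
    intro i j
    rw [real_inner_smul_left, real_inner_smul_right, inner_sub_left, inner_sub_right,
      inner_sub_right, real_inner_smul_left, real_inner_smul_left, real_inner_smul_right,
      real_inner_smul_right, hvv, hev, hve, hee, ← mul_assoc, hc2]
    split_ifs <;> field_simp <;> ring
  have hmem : ∀ i, c • (EuclideanSpace.single i (1 : ℝ) - (1 / ((d : ℝ) + 1)) • v) ∈
      (Submodule.span ℝ {v})ᗮ := by
    intro i
    rw [Submodule.mem_orthogonal_singleton_iff_inner_right, real_inner_smul_right, inner_sub_right,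
      real_inner_smul_right, hvv, hve]
    field_simp
    ring
  refine ⟨fun i => (OrthonormalBasis.fromOrthogonalSpanSingleton d hv0).repr ⟨_, hmem i⟩, ?_⟩
  intro i j
  rw [LinearIsometryEquiv.inner_map_map, Submodule.coe_inner]
  exact hw i j

/-- **Sx** -/
theorem thm_Sx : St_Sx := by
  classical
  intro d hd
  obtain ⟨g, hg⟩ := Sx_aux d (by omega)
  have hd0 : (0 : ℝ) < d := by exact_mod_cast (by omega : 0 < d)
  have hinj : Function.Injective g := by
    intro i j h
    by_contra hne
    have h1 := hg i j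
    rw [← h, hg i i, if_pos rfl, if_neg hne] at h1
    have h2 : 0 < 1 / (d : ℝ) := by positivity
    linarith
  refine ⟨univ.image g, ?_, ?_, ?_⟩
  · rw [card_image_of_injective _ hinj, card_univ, Fintype.card_fin]
  · intro a ha
    obtain ⟨i, -, rfl⟩ := mem_image.1 ha
    have h1 := hg i i
    rw [if_pos rfl, real_inner_self_eq_norm_sq] at h1
    have h2 := norm_nonneg (g i)
    nlinarith
  · intro a ha b hb hne
    obtain ⟨i, -, rfl⟩ := mem_image.1 ha
    obtain ⟨j, -, rfl⟩ := mem_image.1 hb
    rw [hg i j, if_neg fun h => hne (congrArg g h)]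

end Pool.Agent.XPL
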