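import Pool.Agent.XPL.St

set_option autoImplicit false

namespace Pool.Agent.XPL

private theorem Ta_basic (x : ℝ) (hx : |x| ≤ 1) :
    hh x ^ 2 = 2 + 2 * √(1 - x ^ 2) ∧ 0 < hh x := by
  obtain ⟨h1, h2⟩ := abs_le.1 hx
  have ha := Real.sq_sqrt (show (0 : ℝ) ≤ 1 - x by linarith)
  have hb := Real.sq_sqrt (show (0 : ℝ) ≤ 1 + x by linarith)
  have hm : √(1 - x) * √(1 + x) = √(1 - x ^ 2) := by
    rw [← Real.sqrt_mul (by linarith)]
    congr 1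
    ring
  have hsq : hh x ^ 2 = 2 + 2 * √(1 - x ^ 2) := by
    unfold hh
    rw [← hm]
    have : (√(1 - x) + √(1 + x)) ^ 2 = √(1 - x) ^ 2 + √(1 + x) ^ 2 + 2 * (√(1 - x) * √(1 + x)) := by
      ring
    rw [this, ha, hb]
    ring
  refine ⟨hsq, ?_⟩
  have h0 : 0 ≤ hh x := by unfold hh; positivity
  rcases h0.lt_or_eq with h | h
  · exact h
  · exfalso
    rw [← h] at hsq
    have := Real.sqrt_nonneg (1 - x ^ 2)
    norm_num at hsq
    linarith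

theorem thm_Ta : St_Ta := by
  intro x0 h0 h1
  have hx0abs : |x0| ≤ 1 := by rw [abs_of_pos h0]; linarith
  obtain ⟨hs0, hp0⟩ := Ta_basic x0 hx0abs
  have hx02 : x0 ^ 2 ≤ 1 / 10000 := by nlinarith
  have hr0pos : 0 < √(1 - x0 ^ 2) := Real.sqrt_pos.2 (by linarith)
  have hr0sq := Real.sq_sqrt (show (0 : ℝ) ≤ 1 - x0 ^ 2 by linarith)
  have hr01 : √(1 - x0 ^ 2) ≤ 1 := by
    apply Real.sqrt_le_one.2
    nlinarith
  set r0 := √(1 - x0 ^ 2) with hr0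
  set h := hh x0 with hh0
  have hr0lo : 1 - x0 ^ 2 ≤ r0 := by nlinarith
  have hr0lo2 : 1 - x0 ^ 2 / 2 - x0 ^ 4 / 5 ≤ r0 := by
    apply Real.le_sqrt_of_sq_le
    have e1 : (1 - x0 ^ 2) - (1 - x0 ^ 2 / 2 - x0 ^ 4 / 5) ^ 2
        = x0 ^ 4 * (3 / 20 - x0 ^ 2 / 5 - x0 ^ 4 / 25) := by ring
    have e2 : 0 ≤ x0 ^ 4 * (3 / 20 - x0 ^ 2 / 5 - x0 ^ 4 / 25) := by
      apply mul_nonneg (by positivity)
      nlinarith [sq_nonneg x0]
    linarith
  have hr0hi : r0 ≤ 1 - x0 ^ 2 / 2 := by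
    apply Real.sqrt_le_iff.2
    constructor
    · linarith
    · nlinarith [sq_nonneg (x0 ^ 2)]
  have hhhi : h ≤ 2 - x0 ^ 2 / 4 := by
    by_contra hn
    push Not at hn
    have h3 : (2 - x0 ^ 2 / 4) ^ 2 < h ^ 2 := pow_lt_pow_left₀ hn (by linarith) (by norm_num)
    rw [hs0] at h3
    nlinarith [sq_nonneg (x0 ^ 2)]
  have hhlo : 2 - x0 ^ 2 / 4 - x0 ^ 4 / 10 ≤ h := by
    have hx04 : x0 ^ 4 ≤ 1 / 10000 := by
      have : x0 ^ 4 = x0 ^ 2 * x0 ^ 2 := by ring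
      rw [this]
      nlinarith [sq_nonneg x0]
    by_contra hn
    push Not at hn
    have h3 : h ^ 2 < (2 - x0 ^ 2 / 4 - x0 ^ 4 / 10) ^ 2 :=
      pow_lt_pow_left₀ hn (by linarith) (by norm_num)
    rw [hs0] at h3
    -- 2 + 2 r0 ≥ 4 - x0^2 - 5/16 x0^4
    have hr0lo3 : 1 - x0 ^ 2 / 2 - 4 / 25 * x0 ^ 4 ≤ r0 := by
      apply Real.le_sqrt_of_sq_le
      have e1 : (1 - x0 ^ 2) - (1 - x0 ^ 2 / 2 - 4 / 25 * x0 ^ 4) ^ 2
          = x0 ^ 4 * (7 / 100 - 4 / 25 * x0 ^ 2 - 16 / 625 * x0 ^ 4) := by ring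
      have e2 : 0 ≤ x0 ^ 4 * (7 / 100 - 4 / 25 * x0 ^ 2 - 16 / 625 * x0 ^ 4) := by
        apply mul_nonneg (by positivity)
        nlinarith [sq_nonneg x0]
      linarith
    have e3 : (2 - x0 ^ 2 / 4 - x0 ^ 4 / 10) ^ 2 = 4 - x0 ^ 2 + x0 ^ 4 / 16 - 4 / 10 * x0 ^ 4
        + x0 ^ 4 * (x0 ^ 2 / 20 + x0 ^ 4 / 100) := by ring
    have e4 : x0 ^ 4 * (x0 ^ 2 / 20 + x0 ^ 4 / 100) ≤ x0 ^ 4 * (1 / 100) := by
      apply mul_le_mul_of_nonneg_left _ (by positivity)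
      linarith
    have e5 : 0 ≤ x0 ^ 4 := by positivity
    nlinarith
  have hhr : 0 < 2 * h * r0 := by positivity
  have hhle2 : h ≤ 2 := by nlinarith [sq_nonneg x0]
  have hhge : 1999 / 1000 ≤ h := by
    have : x0 ^ 4 ≤ 1 / 10000 := by
      have : x0 ^ 4 = x0 ^ 2 * x0 ^ 2 := by ring
      rw [this]
      nlinarith [sq_nonneg x0]
    linarith
  have hr0ge : 9998 / 10000 ≤ r0 := by linarith
  refine ⟨1 / (2 * h * r0), ?_, ?_, hhlo, hhhi, ?_⟩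
  · rw [le_div_iff₀ hhr]
    have : h * r0 ≤ 2 * 1 := mul_le_mul hhle2 hr01 hr0pos.le (by norm_num)
    linarith
  · rw [div_le_iff₀ hhr]
    have : 1999 / 1000 * (9998 / 10000) ≤ h * r0 :=
      mul_le_mul hhge hr0ge (by norm_num) hp0.le
    linarith
  · intro x hx
    obtain ⟨hs, hp⟩ := Ta_basic x hx
    have hx2 : x ^ 2 ≤ 1 := by
      rw [← sq_abs]
      have := pow_le_pow_left₀ (abs_nonneg x) hx 2
      linarith
    have hrsq := Real.sq_sqrt (show (0 : ℝ) ≤ 1 - x ^ 2 by linarith)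
    have hrn : 0 ≤ √(1 - x ^ 2) := Real.sqrt_nonneg _
    set r := √(1 - x ^ 2) with hr
    set g := hh x with hg
    have e1 : r = g ^ 2 / 2 - 1 := by rw [hs]; ring
    have e2 : r0 = h ^ 2 / 2 - 1 := by rw [hs0]; ring
    have e3 : x ^ 2 - x0 ^ 2 = (h ^ 2 - g ^ 2) * (h ^ 2 + g ^ 2 - 4) / 4 := by
      have : x ^ 2 - x0 ^ 2 = r0 ^ 2 - r ^ 2 := by rw [hrsq, hr0sq]; ring
      rw [this, e1, e2]; ring
    have e5 : h - 1 / (2 * h * r0) * (x ^ 2 - x0 ^ 2) - g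
        = (h - g) ^ 2 * (3 * h ^ 2 + 2 * h * g + g ^ 2 - 4) / 4 / (2 * h * r0) := by
      rw [eq_div_iff hhr.ne']
      have e6 : (h - 1 / (2 * h * r0) * (x ^ 2 - x0 ^ 2) - g) * (2 * h * r0)
          = (h - g) * (2 * h * r0) - (x ^ 2 - x0 ^ 2) := by
        field_simp
        ring
      rw [e6, e3]
      have e7 : (h - g) * (2 * h * r0) = (h - g) * (h * (h ^ 2 - 2)) := by rw [e2]; ring
      rw [e7]
      ring
    have hpos : 0 < 3 * h ^ 2 + 2 * h * g + g ^ 2 - 4 := by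
      have : 0 < h * g := mul_pos hp0 hp
      nlinarith [sq_nonneg g]
    constructor
    · have : 0 ≤ (h - g) ^ 2 * (3 * h ^ 2 + 2 * h * g + g ^ 2 - 4) / 4 / (2 * h * r0) := by
        positivity
      linarith
    · intro heq
      have h7 : (h - g) ^ 2 * (3 * h ^ 2 + 2 * h * g + g ^ 2 - 4) / 4 / (2 * h * r0) = 0 := by
        rw [← e5, heq]; ring
      have h8 : h - g = 0 := by
        by_contra hne
        have : 0 < (h - g) ^ 2 := by positivity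
        have : 0 < (h - g) ^ 2 * (3 * h ^ 2 + 2 * h * g + g ^ 2 - 4) / 4 / (2 * h * r0) := by
          positivity
        linarith
      have h9 : h = g := by linarith
      rw [h9] at e3
      linarith

end Pool.Agent.XPL
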