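import Pool.Agent.XPL.Lm
import Pool.Agent.XPL.B1
import Pool.Agent.XPL.I1
import Pool.Agent.XPL.P1
import Pool.Agent.XPL.Rm
import Pool.Agent.XPL.Lo
import Pool.Agent.XPL.Ta
import Pool.Agent.XPL.Pe
import Pool.Agent.XPL.Mt
import Pool.Agent.XPL.Rw
import Pool.Agent.XPL.S1
import Pool.Agent.XPL.Id
import Pool.Agent.XPL.BB
import Pool.Agent.XPL.A1
import Pool.Agent.XPL.Sm
import Pool.Agent.XPL.Gs
import Pool.Agent.XPL.A3
import Pool.Agent.XPL.A4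
import Pool.Agent.XPL.Cv
import Pool.Agent.XPL.Sx
import Pool.Agent.XPL.Fin

set_option autoImplicit false

namespace Pool.Agent.XPL

theorem all_S1 : St_S1 :=
  thm_S1 thm_Pe thm_Mt (thm_Rw (thm_B1 thm_Lm) (thm_B2 thm_Lm) (thm_P2 thm_Lm (thm_P1 thm_Lm thm_I1)))
    thm_Ru (thm_Rm thm_Lm)

theorem all_BB : St_BB := thm_BB all_S1 thm_Id thm_Pe

theorem all_A3 : St_A3 :=
  thm_A3 (thm_A1 all_S1 thm_Id thm_Pe thm_Ta) thm_Sm (thm_Gs thm_Pe) thm_Lo thm_Ta thm_Pe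

end Pool.Agent.XPL
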