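import Pool.Agent.XPL.St3

set_option autoImplicit false

/-!
XPL, **C1**: block inequality for matched rows.
-/

namespace Pool.Agent.XPL

open Finset

section
variable {ι : Type} {d : ℕ}

private theorem C1_comm (p : ι → E d) (i j : ι) : gr p i j = gr p j i := real_inner_comm _ _

private theorem C1_abs (p : ι → E d) (hp : ∀ i, ‖p i‖ = 1) (i j : ι) : |gr p i j| ≤ 1 := by
  have h := abs_real_inner_le_norm (p i) (p j)
  rw [hp, hp, mul_one] at h
  exact h

private theorem C1_wf (p : ι → E d) (m : ι → ι) (h1 : ∀ i, m (m i) = i) (i : ι) :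
    wf p m (m i) = wf p m i := by
  unfold wf
  rw [h1 i, C1_comm p (m i) i]

private theorem C1_pair (hP2 : St_P2) [Fintype ι] [DecidableEq ι] (p : ι → E d) (m : ι → ι)
    (hp : ∀ i, ‖p i‖ = 1) (hm : MM p m) (i : ι) (hi : m i ≠ i) (l : ι) :
    lam (gr p i l) + lam (gr p (m i) l) ≤
      muf (wf p m i) * (gr p i l ^ 2 + gr p (m i) l ^ 2) := by
  obtain ⟨h1, h2, h3⟩ := hm
  obtain ⟨j, hj⟩ : ∃ j, j = m i := ⟨_, rfl⟩
  have hij : i ≠ j := by rw [hj]; exact Ne.symm hi
  have hg := h2 i hi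
  rw [← hj] at hg ⊢
  have hgr := abs_le.1 (C1_abs p hp i j)
  have hw0 : 0 ≤ wf p m i := Real.sqrt_nonneg _
  have hw2 : wf p m i ^ 2 = (1 + gr p i j) / 2 := by
    unfold wf
    rw [← hj, Real.sq_sqrt]
    linarith
  have hw : wf p m i ^ 2 ≤ 11 / 100 := by
    rw [hw2]
    linarith
  have hnorm : ‖p i + p j‖ = 2 * wf p m i := by
    have e1 : ‖p i + p j‖ ^ 2 = (2 * wf p m i) ^ 2 := by
      rw [mul_pow, hw2, norm_add_sq_real, hp, hp]
      unfold gr
      ring
    exact (pow_left_inj₀ (norm_nonneg _) (by linarith) (by norm_num)).1 e1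
  have a1 := abs_le.1 (C1_abs p hp i l)
  have a2 := abs_le.1 (C1_abs p hp j l)
  have a3 : |gr p i l + gr p j l| ≤ 2 * wf p m i := by
    have := abs_real_inner_le_norm (p i + p j) (p l)
    rw [inner_add_left, hp, mul_one, hnorm] at this
    exact this
  exact hP2 _ _ _ a1.1 a1.2 a2.1 a2.2 a3 hw0 hw

end

theorem thm_C1 (hP2 : St_P2) : St_C1 := by
  intro ι _ _ d p m hp hm A B hA
  have h1 : ∀ i, m (m i) = i := hm.1
  have hperm : ∀ F : ι → ℝ, ∑ i ∈ A, F (m i) = ∑ i ∈ A, F i := by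
    intro F
    refine Finset.sum_nbij' m m ?_ ?_ ?_ ?_ ?_
    · intro l hl
      exact (hA l hl).1
    · intro l hl
      exact (hA l hl).1
    · intro l _
      exact h1 l
    · intro l _
      exact h1 l
    · intro l _
      rfl
  have hset : ∀ i, (B.erase (m i)).erase (m (m i)) = (B.erase i).erase (m i) := by
    intro i
    rw [h1 i]
    exact Finset.erase_right_comm
  have L2 : ∑ i ∈ A, ∑ l ∈ (B.erase i).erase (m i), lam (gr p (m i) l)
      = ∑ i ∈ A, ∑ l ∈ (B.erase i).erase (m i), lam (gr p i l) := by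
    rw [← hperm (fun i => ∑ l ∈ (B.erase i).erase (m i), lam (gr p i l))]
    refine Finset.sum_congr rfl fun i _ => ?_
    simp only [hset]
  have R2 : ∑ i ∈ A, muf (wf p m i) * ∑ l ∈ (B.erase i).erase (m i), gr p (m i) l ^ 2
      = ∑ i ∈ A, muf (wf p m i) * ∑ l ∈ (B.erase i).erase (m i), gr p i l ^ 2 := by
    rw [← hperm (fun i => muf (wf p m i) * ∑ l ∈ (B.erase i).erase (m i), gr p i l ^ 2)]
    refine Finset.sum_congr rfl fun i _ => ?_
    simp only [hset, C1_wf p m h1]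
  have hs : ∑ i ∈ A, (∑ l ∈ (B.erase i).erase (m i), lam (gr p i l)
        + ∑ l ∈ (B.erase i).erase (m i), lam (gr p (m i) l))
      ≤ ∑ i ∈ A, (muf (wf p m i) * ∑ l ∈ (B.erase i).erase (m i), gr p i l ^ 2
        + muf (wf p m i) * ∑ l ∈ (B.erase i).erase (m i), gr p (m i) l ^ 2) := by
    refine Finset.sum_le_sum fun i hi => ?_
    rw [← mul_add, ← Finset.sum_add_distrib, ← Finset.sum_add_distrib, Finset.mul_sum]
    exact Finset.sum_le_sum fun l _ => C1_pair hP2 p m hp hm i (hA i hi).2 l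
  rw [Finset.sum_add_distrib, Finset.sum_add_distrib, L2, R2] at hs
  linarith

end Pool.Agent.XPL
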