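import Pool.Agent.XPL.St3

set_option autoImplicit false

namespace Pool.Agent.XPL

/-- Second difference of the root. -/
private theorem C2_second (x h : ℝ) (h1 : |x + h| ≤ 1 / 32) (h2 : |x - h| ≤ 1 / 32) :
    √(1 - (x + h)) + √(1 - (x - h)) ≤ 2 * √(1 - x) - 21 / 88 * h ^ 2 := by
  obtain ⟨h1a, h1b⟩ := abs_le.1 h1
  obtain ⟨h2a, h2b⟩ := abs_le.1 h2
  have ha := Real.sq_sqrt (show (0 : ℝ) ≤ 1 - (x + h) by linarith)
  have hb := Real.sq_sqrt (show (0 : ℝ) ≤ 1 - (x - h) by linarith)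
  have hc := Real.sq_sqrt (show (0 : ℝ) ≤ 1 - x by linarith)
  have ha0 : 0 < √(1 - (x + h)) := Real.sqrt_pos.2 (by linarith)
  have hb0 : 0 < √(1 - (x - h)) := Real.sqrt_pos.2 (by linarith)
  have hc0 : 0 < √(1 - x) := Real.sqrt_pos.2 (by linarith)
  set a := √(1 - (x + h))
  set b := √(1 - (x - h))
  set c := √(1 - x)
  have hab : a ^ 2 + b ^ 2 = 2 * c ^ 2 := by rw [ha, hb, hc]; ring
  have hh1 : b ^ 2 - a ^ 2 = 2 * h := by rw [ha, hb]; ring
  have hle : a + b ≤ 2 * c := by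
    by_contra hn
    push Not at hn
    have h3 : (2 * c) ^ 2 < (a + b) ^ 2 := pow_lt_pow_left₀ hn (by linarith) (by norm_num)
    nlinarith [sq_nonneg (a - b)]
  have hc2 : c ^ 2 ≤ 33 / 32 := by rw [hc]; linarith
  have hc1 : c ≤ 10156 / 10000 := by
    by_contra hn
    push Not at hn
    nlinarith
  -- (2c - a - b)(a+b+2c)(a+b)^2 = 4 h^2
  have hid : (2 * c - (a + b)) * ((a + b + 2 * c) * (a + b) ^ 2) = 4 * h ^ 2 := by
    have e1 : (2 * c - (a + b)) * (a + b + 2 * c) = (a - b) ^ 2 := by nlinarith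
    have e2 : (a - b) ^ 2 * (a + b) ^ 2 = (b ^ 2 - a ^ 2) ^ 2 := by ring
    calc (2 * c - (a + b)) * ((a + b + 2 * c) * (a + b) ^ 2)
        = ((2 * c - (a + b)) * (a + b + 2 * c)) * (a + b) ^ 2 := by ring
      _ = (2 * h) ^ 2 := by rw [e1, e2, hh1]
      _ = 4 * h ^ 2 := by ring
  have hbound : (a + b + 2 * c) * (a + b) ^ 2 ≤ 352 / 21 := by
    have e1 : (a + b) ^ 2 ≤ (2 * c) ^ 2 := pow_le_pow_left₀ (by linarith) hle 2
    have e2 : a + b + 2 * c ≤ 4 * c := by linarith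
    have e3 : (a + b + 2 * c) * (a + b) ^ 2 ≤ (4 * c) * (2 * c) ^ 2 :=
      mul_le_mul e2 e1 (by positivity) (by positivity)
    have e4 : (4 * c) * (2 * c) ^ 2 = 16 * (c * c ^ 2) := by ring
    have e5 : c * c ^ 2 ≤ 10156 / 10000 * (33 / 32) :=
      mul_le_mul hc1 hc2 (by positivity) (by norm_num)
    rw [e4] at e3
    linarith
  have hd0 : 0 ≤ 2 * c - (a + b) := by linarith
  have : 4 * h ^ 2 ≤ (2 * c - (a + b)) * (352 / 21) := by
    rw [← hid]
    exact mul_le_mul_of_nonneg_left hbound hd0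
  linarith

/-- First order expansion of the root. -/
private theorem C2_first (x h : ℝ) (h1 : |x + h| ≤ 1 / 32) (h2 : |x| ≤ 1 / 32) :
    √(1 - (x + h)) ≤ √(1 - x) - h / (2 * √(1 - x)) - 21 / 176 * h ^ 2 := by
  obtain ⟨h1a, h1b⟩ := abs_le.1 h1
  obtain ⟨h2a, h2b⟩ := abs_le.1 h2
  have ha := Real.sq_sqrt (show (0 : ℝ) ≤ 1 - (x + h) by linarith)
  have hc := Real.sq_sqrt (show (0 : ℝ) ≤ 1 - x by linarith)
  have ha0 : 0 < √(1 - (x + h)) := Real.sqrt_pos.2 (by linarith)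
  have hc0 : 0 < √(1 - x) := Real.sqrt_pos.2 (by linarith)
  have hac : √(1 - (x + h)) ^ 2 ≤ 33 / 32 := by rw [ha]; linarith
  have hcc : √(1 - x) ^ 2 ≤ 33 / 32 := by rw [hc]; linarith
  set a := √(1 - (x + h))
  set c := √(1 - x)
  have hh1 : h = c ^ 2 - a ^ 2 := by rw [ha, hc]; ring
  have ha1 : a ≤ 10156 / 10000 := by
    by_contra hn
    push Not at hn
    nlinarith
  have hc1 : c ≤ 10156 / 10000 := by
    by_contra hn
    push Not at hn
    nlinarith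
  have hid : a - c + h / (2 * c) = -((a - c) ^ 2 / (2 * c)) := by
    rw [hh1]
    field_simp
    ring
  have hb : 21 / 176 * h ^ 2 ≤ (a - c) ^ 2 / (2 * c) := by
    rw [le_div_iff₀ (by positivity)]
    have e1 : h ^ 2 = (a - c) ^ 2 * (a + c) ^ 2 := by rw [hh1]; ring
    rw [e1]
    have e2 : (a + c) ^ 2 ≤ 33 / 8 := by nlinarith [sq_nonneg (a - c)]
    have e3 : (a + c) ^ 2 * (2 * c) ≤ 33 / 8 * (20312 / 10000) :=
      mul_le_mul e2 (by linarith) (by positivity) (by positivity)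
    have e4 : 21 / 176 * ((a - c) ^ 2 * (a + c) ^ 2) * (2 * c)
        = (a - c) ^ 2 * (21 / 176 * ((a + c) ^ 2 * (2 * c))) := by
      ring
    rw [e4]
    have e5 : 21 / 176 * ((a + c) ^ 2 * (2 * c)) ≤ 1 := by
      linarith
    have := mul_le_mul_of_nonneg_left e5 (sq_nonneg (a - c))
    linarith
  linarith

/-- The sum of the reciprocals of the roots. -/
private theorem C2_inv (α : ℝ) (h : |α| ≤ 1 / 32) :
    1 ≤ 1 / (2 * √(1 - α)) + 1 / (2 * √(1 - -α)) ∧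
      1 / (2 * √(1 - α)) + 1 / (2 * √(1 - -α)) ≤ 1 + 2 / 5 * α ^ 2 := by
  obtain ⟨h2a, h2b⟩ := abs_le.1 h
  have ha := Real.sq_sqrt (show (0 : ℝ) ≤ 1 - α by linarith)
  have hb := Real.sq_sqrt (show (0 : ℝ) ≤ 1 - -α by linarith)
  have ha0 : 0 < √(1 - α) := Real.sqrt_pos.2 (by linarith)
  have hb0 : 0 < √(1 - -α) := Real.sqrt_pos.2 (by linarith)
  set a := √(1 - α)
  set b := √(1 - -α)
  have hab : a ^ 2 + b ^ 2 = 2 := by rw [ha, hb]; ring
  have hab2 : (a * b) ^ 2 = 1 - α ^ 2 := by rw [mul_pow, ha, hb]; ring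
  have hα : α ^ 2 ≤ 9 / 400 := by
    rw [← sq_abs]
    have := pow_le_pow_left₀ (abs_nonneg α) h 2
    norm_num at this ⊢
    linarith
  have hp0 : 0 < a * b := mul_pos ha0 hb0
  have hsum : 1 / (2 * a) + 1 / (2 * b) = (a + b) / (2 * (a * b)) := by
    field_simp
    ring
  rw [hsum]
  have hsq : (a + b) ^ 2 = 2 + 2 * (a * b) := by nlinarith
  have hs0 : 0 < a + b := by positivity
  set q := a * b with hq
  have hq1 : q ≤ 1 := by
    by_contra hn
    push Not at hn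
    nlinarith
  constructor
  · rw [le_div_iff₀ (by positivity)]
    by_contra hn
    push Not at hn
    have h3 : (a + b) ^ 2 < (1 * (2 * q)) ^ 2 := pow_lt_pow_left₀ hn (by linarith) (by norm_num)
    nlinarith
  · rw [div_le_iff₀ (by positivity)]
    -- (a+b)^2 = 2 + 2q ≤ (1+2/5 α^2)^2 4 q^2,  α^2 = 1 - q^2
    have hα2 : α ^ 2 = 1 - q ^ 2 := by rw [hab2]; ring
    have hq2 : 98 / 100 ≤ q := by
      by_contra hn
      push Not at hn
      nlinarith
    have h4 : 0 ≤ (1 + 2 / 5 * α ^ 2) * (2 * q) := by positivity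
    by_contra hn
    push Not at hn
    have h3 : ((1 + 2 / 5 * α ^ 2) * (2 * q)) ^ 2 < (a + b) ^ 2 :=
      pow_lt_pow_left₀ hn h4 (by norm_num)
    rw [hsq, hα2] at h3
    -- 2 + 2q > 4 q^2 (1 + 2/5 (1-q^2))^2
    obtain ⟨y, hy⟩ : ∃ y, q = 1 - y := ⟨1 - q, by ring⟩
    have hy0 : 0 ≤ y := by linarith
    have hy1 : y ≤ 2 / 100 := by linarith
    rw [hy] at h3
    have h5 : 0 ≤ 2 / 100 - y := by linarith
    nlinarith [mul_nonneg hy0 h5, mul_nonneg (mul_nonneg hy0 h5) hy0,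
      mul_nonneg (mul_nonneg hy0 h5) (sq_nonneg y), pow_nonneg hy0 3,
      mul_nonneg (mul_nonneg hy0 h5) (pow_nonneg hy0 3), pow_nonneg hy0 5]

theorem thm_C2 : St_C2 := by
  intro α β γ δ h1 h2 h3 h4
  have e1 : α + β + γ + δ = (α + δ) + (β + γ) := by ring
  have e2 : α - β - γ + δ = (α + δ) - (β + γ) := by ring
  have e3 : -α + β - γ + δ = (-α + δ) + (β - γ) := by ring
  have e4 : -α - β + γ + δ = (-α + δ) - (β - γ) := by ring
  have s1 := C2_second (α + δ) (β + γ) (by rw [← e1]; exact h1) (by rw [← e2]; exact h2)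
  have s2 := C2_second (-α + δ) (β - γ) (by rw [← e3]; exact h3) (by rw [← e4]; exact h4)
  rw [← e1, ← e2] at s1
  rw [← e3, ← e4] at s2
  obtain ⟨h1a, h1b⟩ := abs_le.1 h1
  obtain ⟨h2a, h2b⟩ := abs_le.1 h2
  obtain ⟨h3a, h3b⟩ := abs_le.1 h3
  obtain ⟨h4a, h4b⟩ := abs_le.1 h4
  have hα : |α| ≤ 1 / 32 := by rw [abs_le]; constructor <;> linarith
  have hnα : |-α| ≤ 1 / 32 := by rw [abs_neg]; exact hα
  have hαδ : |α + δ| ≤ 1 / 32 := by rw [abs_le]; constructor <;> linarith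
  have hnαδ : |-α + δ| ≤ 1 / 32 := by rw [abs_le]; constructor <;> linarith
  have f1 := C2_first α δ hαδ hα
  have f2 := C2_first (-α) δ hnαδ hnα
  obtain ⟨i1, i2⟩ := C2_inv α hα
  have hh1 : hh α = √(1 - α) + √(1 - -α) := by
    unfold hh
    rw [sub_neg_eq_add]
  have hk : δ / (2 * √(1 - α)) + δ / (2 * √(1 - -α)) =
      δ * (1 / (2 * √(1 - α)) + 1 / (2 * √(1 - -α))) := by ring
  have hδ : δ - 2 / 5 * |δ| * α ^ 2 ≤ δ * (1 / (2 * √(1 - α)) + 1 / (2 * √(1 - -α))) := by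
    set T := 1 / (2 * √(1 - α)) + 1 / (2 * √(1 - -α))
    have hT : δ * T - δ = δ * (T - 1) := by ring
    have h5 : -(|δ| * (2 / 5 * α ^ 2)) ≤ δ * (T - 1) := by
      have h6 : |δ * (T - 1)| ≤ |δ| * (2 / 5 * α ^ 2) := by
        rw [abs_mul]
        apply mul_le_mul_of_nonneg_left _ (abs_nonneg δ)
        rw [abs_of_nonneg (by linarith)]
        linarith
      exact (abs_le.1 h6).1
    linarith
  have hhle : √(1 - α) + √(1 - -α) ≤ 2 - α ^ 2 / 4 := by
    obtain ⟨ha1, ha2⟩ := abs_le.1 hα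
    have ha := Real.sq_sqrt (show (0 : ℝ) ≤ 1 - α by linarith)
    have hb := Real.sq_sqrt (show (0 : ℝ) ≤ 1 - -α by linarith)
    have ha0 := Real.sqrt_nonneg (1 - α)
    have hb0 := Real.sqrt_nonneg (1 - -α)
    set a := √(1 - α)
    set b := √(1 - -α)
    have hα2 : α ^ 2 ≤ 1 := by nlinarith
    have hp : a * b ≤ 1 - α ^ 2 / 2 := by
      have h5 : (a * b) ^ 2 = 1 - α ^ 2 := by rw [mul_pow, ha, hb]; ring
      by_contra hn
      push Not at hn
      have h6 : (1 - α ^ 2 / 2) ^ 2 < (a * b) ^ 2 :=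
        pow_lt_pow_left₀ hn (by linarith) (by norm_num)
      nlinarith [sq_nonneg (α ^ 2)]
    have hs : (a + b) ^ 2 = 2 + 2 * (a * b) := by nlinarith
    by_contra hn
    push Not at hn
    have h6 : (2 - α ^ 2 / 4) ^ 2 < (a + b) ^ 2 :=
      pow_lt_pow_left₀ hn (by linarith) (by norm_num)
    nlinarith [sq_nonneg (α ^ 2)]
  unfold lam
  nlinarith

end Pool.Agent.XPL
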