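import Pool.Agent.XPL.St3

/-!
# XPL C3: the good-good block (helper8)
-/

set_option autoImplicit false

namespace Pool.Agent.XPL

open Finset

private theorem C3_four (h2 : St_C2) {a b c d t1 t2 t3 t4 : ℝ} (e1 : t1 = a + b + c + d)
    (e2 : t2 = a - b - c + d) (e3 : t3 = -a + b - c + d) (e4 : t4 = -a - b + c + d)
    (h1 : t1 ^ 2 ≤ 1 / 1024) (h2' : t2 ^ 2 ≤ 1 / 1024) (h3 : t3 ^ 2 ≤ 1 / 1024)
    (h4 : t4 ^ 2 ≤ 1 / 1024) :
    lam t1 + lam t2 + lam t3 + lam t4 ≤ 1 / 44 * (b ^ 2 + c ^ 2 + d ^ 2) + 4 / 5 * |d| * a ^ 2 := by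
  have key : ∀ t : ℝ, t ^ 2 ≤ 1 / 1024 → |t| ≤ 1 / 32 := fun t ht =>
    abs_le_of_sq_le_sq (by norm_num; linarith) (by norm_num)
  subst e1 e2 e3 e4
  exact h2 a b c d (key _ h1) (key _ h2') (key _ h3) (key _ h4)

private theorem C3_al {a b c d t1 t2 t3 t4 : ℝ} (e1 : t1 = a + b + c + d)
    (e2 : t2 = a - b - c + d) (e3 : t3 = -a + b - c + d) (e4 : t4 = -a - b + c + d) :
    a ^ 2 ≤ (t1 ^ 2 + t2 ^ 2 + t3 ^ 2 + t4 ^ 2) / 4 := by
  subst e1 e2 e3 e4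
  nlinarith [sq_nonneg b, sq_nonneg c, sq_nonneg d]

theorem thm_C3 (h2 : St_C2) : St_C3 := by
  intro ι _ _ d p m hp hmm G hG hy
  set u : ι → E d := uv p m with hu
  set w : ι → E d := wv p m with hw
  have hum : ∀ i, u (m i) = -u i := by
    intro i
    rw [hu]
    unfold uv
    rw [hmm, ← smul_neg, neg_sub]
  have hwm : ∀ i, w (m i) = w i := by
    intro i
    rw [hw]
    unfold wv
    rw [hmm, add_comm]
  have hpu : ∀ j, p j = u j + w j := by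
    intro j
    rw [hu, hw]
    unfold uv wv
    rw [← smul_add]
    have h : p j - p (m j) + (p j + p (m j)) = (2 : ℝ) • p j := by
      rw [two_smul]
      abel
    rw [h, smul_smul]
    norm_num
  have hpm : ∀ j, p (m j) = -u j + w j := by
    intro j
    rw [hpu (m j), hum, hwm]
  -- the four products
  have e1 : ∀ i l, gr p i l = inner ℝ (u i) (u l) + inner ℝ (u i) (w l) + inner ℝ (w i) (u l) +
      inner ℝ (w i) (w l) := by
    intro i l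
    unfold gr
    rw [hpu i, hpu l, inner_add_left, inner_add_right, inner_add_right]
    ring
  have e2 : ∀ i l, gr p (m i) (m l) = inner ℝ (u i) (u l) - inner ℝ (u i) (w l) -
      inner ℝ (w i) (u l) + inner ℝ (w i) (w l) := by
    intro i l
    rw [e1, hum, hum, hwm, hwm, inner_neg_neg, inner_neg_left, inner_neg_right]
    ring
  have e3 : ∀ i l, gr p i (m l) = -inner ℝ (u i) (u l) + inner ℝ (u i) (w l) -
      inner ℝ (w i) (u l) + inner ℝ (w i) (w l) := by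
    intro i l
    rw [e1, hum, hwm, inner_neg_right, inner_neg_right]
    ring
  have e4 : ∀ i l, gr p (m i) l = -inner ℝ (u i) (u l) - inner ℝ (u i) (w l) +
      inner ℝ (w i) (u l) + inner ℝ (w i) (w l) := by
    intro i l
    rw [e1, hum, hwm, inner_neg_left, inner_neg_left]
    ring
  -- norms of `w`
  have hwn : ∀ i, ‖w i‖ ^ 2 = wf p m i ^ 2 := by
    intro i
    have h1 : ‖w i‖ ^ 2 = (1 + gr p i (m i)) / 2 := by
      rw [hw]
      unfold wv gr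
      rw [norm_smul, mul_pow, norm_add_sq_real, hp, hp]
      norm_num
      ring
    rw [h1]
    unfold wf
    rw [Real.sq_sqrt]
    rw [← h1]
    positivity
  -- the index sets
  set D : ι → Finset ι := fun i => (G.erase i).erase (m i) with hD
  have memD : ∀ i l, l ∈ D i ↔ l ≠ m i ∧ l ≠ i ∧ l ∈ G := by
    intro i l
    simp only [hD, mem_erase]
  have hDm : ∀ i l, l ∈ D i → m l ∈ D i := by
    intro i l hl
    rw [memD] at hl ⊢
    refine ⟨fun h => hl.2.1 ?_, fun h => hl.1 ?_, (hG l hl.2.2).1⟩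
    · rw [← hmm l, h, hmm]
    · rw [← hmm l, h]
  have hDe : ∀ i, D (m i) = D i := by
    intro i
    simp only [hD, hmm]
    exact erase_right_comm
  have hDs : ∀ i l, (i ∈ G ∧ l ∈ D i) ↔ (i ∈ D l ∧ l ∈ G) := by
    intro i l
    rw [memD, memD]
    constructor
    · rintro ⟨h1, h3, h4, h5⟩
      refine ⟨⟨fun h => h3 ?_, h4.symm, h1⟩, h5⟩
      rw [h, hmm]
    · rintro ⟨⟨h3, h4, h1⟩, h5⟩
      refine ⟨h1, fun h => h3 ?_, h4.symm, h5⟩
      rw [h, hmm]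
  have R1 : ∀ (i : ι) (F : ι → ℝ), ∑ l ∈ D i, F (m l) = ∑ l ∈ D i, F l := by
    intro i F
    exact sum_nbij' m m (fun l hl => hDm i l hl) (fun l hl => hDm i l hl)
      (fun l _ => hmm l) (fun l _ => hmm l) (fun l _ => rfl)
  have R2 : ∀ F : ι → ℝ, ∑ i ∈ G, F (m i) = ∑ i ∈ G, F i := by
    intro F
    exact sum_nbij' m m (fun l hl => (hG l hl).1) (fun l hl => (hG l hl).1)
      (fun l _ => hmm l) (fun l _ => hmm l) (fun l _ => rfl)
  have R3 : ∀ F : ι → ι → ℝ, ∑ i ∈ G, ∑ l ∈ D i, F i l = ∑ i ∈ G, ∑ l ∈ D i, F l i := by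
    intro F
    exact sum_comm' fun i l => hDs i l
  -- small products
  have hyy : ∀ i ∈ G, ∑ l ∈ D i, gr p i l ^ 2 ≤ 1 / 1024 := by
    intro i hi
    have h1 : ∑ l ∈ D i, gr p i l ^ 2 ≤ ∑ l ∈ (univ.erase i).erase (m i), gr p i l ^ 2 := by
      refine sum_le_sum_of_subset_of_nonneg ?_ fun l _ _ => sq_nonneg _
      intro l hl
      rw [memD] at hl
      rw [mem_erase, mem_erase]
      exact ⟨hl.1, hl.2.1, mem_univ _⟩
    have h3 : ∑ l ∈ (univ.erase i).erase (m i), gr p i l ^ 2 = yy p m i := by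
      rw [sum_erase_eq_sub (mem_erase.mpr ⟨(hG i hi).2, mem_univ _⟩),
        sum_erase_eq_sub (mem_univ _)]
      unfold yy uu
      have h4 : gr p i i = 1 := by
        unfold gr
        rw [real_inner_self_eq_norm_sq, hp]
        norm_num
      rw [h4]
      norm_num
    rw [h3] at h1
    exact h1.trans (hy i hi)
  have hsm : ∀ i ∈ G, ∀ l ∈ D i, gr p i l ^ 2 ≤ 1 / 1024 := by
    intro i hi l hl
    exact (single_le_sum (f := fun l => gr p i l ^ 2) (fun l _ => sq_nonneg _) hl).trans (hyy i hi)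
  -- average of the four sums
  have hΛ : 4 * ∑ i ∈ G, ∑ l ∈ D i, lam (gr p i l) = ∑ i ∈ G, ∑ l ∈ D i,
      (lam (gr p i l) + lam (gr p (m i) (m l)) + lam (gr p i (m l)) + lam (gr p (m i) l)) := by
    have a1 : ∑ i ∈ G, ∑ l ∈ D i, lam (gr p i (m l)) = ∑ i ∈ G, ∑ l ∈ D i, lam (gr p i l) :=
      sum_congr rfl fun i _ => R1 i fun l => lam (gr p i l)
    have a2 : ∑ i ∈ G, ∑ l ∈ D i, lam (gr p (m i) l) = ∑ i ∈ G, ∑ l ∈ D i, lam (gr p i l) := by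
      rw [← R2 fun i => ∑ l ∈ D i, lam (gr p i l)]
      exact sum_congr rfl fun i _ => by rw [hDe]
    have a3 : ∑ i ∈ G, ∑ l ∈ D i, lam (gr p (m i) (m l)) = ∑ i ∈ G, ∑ l ∈ D i, lam (gr p i l) := by
      rw [← a2]
      exact sum_congr rfl fun i _ => R1 i fun l => lam (gr p (m i) l)
    simp only [sum_add_distrib]
    rw [a1, a2, a3]
    ring
  have hstep : 4 * ∑ i ∈ G, ∑ l ∈ D i, lam (gr p i l) ≤ ∑ i ∈ G, ∑ l ∈ D i,
      (1 / 44 * ((inner ℝ (u i) (w l) : ℝ) ^ 2 + (inner ℝ (w i) (u l) : ℝ) ^ 2 +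
        (inner ℝ (w i) (w l) : ℝ) ^ 2) +
        4 / 5 * |(inner ℝ (w i) (w l) : ℝ)| * (inner ℝ (u i) (u l) : ℝ) ^ 2) := by
    rw [hΛ]
    refine sum_le_sum fun i hi => sum_le_sum fun l hl => ?_
    have hmi := (hG i hi).1
    have hml := hDm i l hl
    refine C3_four h2 (e1 i l) (e2 i l) (e3 i l) (e4 i l) (hsm i hi l hl) ?_ (hsm i hi _ hml) ?_
    · exact hsm (m i) hmi _ (by rw [hDe]; exact hml)
    · exact hsm (m i) hmi _ (by rw [hDe]; exact hl)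
  -- the quadratic part
  have hV : ∑ i ∈ G, ∑ l ∈ G, ((inner ℝ (w i) (u l) : ℝ) ^ 2 + (inner ℝ (w i) (w l) : ℝ) ^ 2) =
      ∑ i ∈ G, ∑ l ∈ G, (inner ℝ (w i) (p l) : ℝ) ^ 2 := by
    refine sum_congr rfl fun i _ => ?_
    have h1 := R2 fun l => (inner ℝ (w i) (p l) : ℝ) ^ 2
    have h3 : ∑ l ∈ G, ((inner ℝ (w i) (p l) : ℝ) ^ 2 + (inner ℝ (w i) (p (m l)) : ℝ) ^ 2) =
        ∑ l ∈ G, 2 * ((inner ℝ (w i) (u l) : ℝ) ^ 2 + (inner ℝ (w i) (w l) : ℝ) ^ 2) := by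
      refine sum_congr rfl fun l _ => ?_
      rw [hpm l, hpu l, inner_add_right, inner_add_right, inner_neg_right]
      ring
    rw [sum_add_distrib, h1, ← mul_sum] at h3
    linarith
  have hVs : ∑ i ∈ G, ∑ l ∈ G, ((inner ℝ (u i) (w l) : ℝ) ^ 2 + (inner ℝ (w i) (w l) : ℝ) ^ 2) =
      ∑ i ∈ G, ∑ l ∈ G, (inner ℝ (w i) (p l) : ℝ) ^ 2 := by
    rw [← hV, sum_comm]
    refine sum_congr rfl fun i _ => sum_congr rfl fun l _ => ?_
    rw [real_inner_comm, real_inner_comm (w i) (w l)]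
  have hq : ∑ i ∈ G, ∑ l ∈ D i, ((inner ℝ (u i) (w l) : ℝ) ^ 2 + (inner ℝ (w i) (u l) : ℝ) ^ 2 +
        (inner ℝ (w i) (w l) : ℝ) ^ 2) ≤
      2 * ∑ i ∈ G, ∑ l ∈ G, (inner ℝ (w i) (p l) : ℝ) ^ 2 := by
    calc _ ≤ ∑ i ∈ G, ∑ l ∈ G, (((inner ℝ (w i) (u l) : ℝ) ^ 2 + (inner ℝ (w i) (w l) : ℝ) ^ 2) +
          ((inner ℝ (u i) (w l) : ℝ) ^ 2 + (inner ℝ (w i) (w l) : ℝ) ^ 2)) := by
          refine sum_le_sum fun i _ => ?_
          refine (sum_le_sum_of_subset_of_nonneg (t := G) (fun l hl => ((memD i l).1 hl).2.2)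
            fun l _ _ => by positivity).trans ?_
          refine sum_le_sum fun l _ => ?_
          nlinarith [sq_nonneg (inner ℝ (w i) (w l) : ℝ)]
      _ = _ := by
          simp only [sum_add_distrib] at hV hVs ⊢
          linarith
  -- the cubic part
  have hal : ∀ i ∈ G, ∑ l ∈ D i, (inner ℝ (u i) (u l) : ℝ) ^ 2 ≤ 1 / 1024 := by
    intro i hi
    have h1 : ∑ l ∈ D i, (inner ℝ (u i) (u l) : ℝ) ^ 2 ≤ ∑ l ∈ D i,
        (gr p i l ^ 2 + gr p (m i) (m l) ^ 2 + gr p i (m l) ^ 2 + gr p (m i) l ^ 2) / 4 :=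
      sum_le_sum fun l _ => C3_al (e1 i l) (e2 i l) (e3 i l) (e4 i l)
    have h3 := R1 i fun l => gr p i l ^ 2
    have h4 := R1 i fun l => gr p (m i) l ^ 2
    have h5 := hyy i hi
    have h6 := hyy (m i) (hG i hi).1
    rw [hDe] at h6
    rw [← sum_div] at h1
    simp only [sum_add_distrib] at h1
    rw [h3, h4] at h1
    linarith
  have hc : ∑ i ∈ G, ∑ l ∈ D i,
      |(inner ℝ (w i) (w l) : ℝ)| * (inner ℝ (u i) (u l) : ℝ) ^ 2 ≤
      1 / 1024 * ∑ i ∈ G, wf p m i ^ 2 := by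
    have h1 : ∑ i ∈ G, ∑ l ∈ D i, |(inner ℝ (w i) (w l) : ℝ)| * (inner ℝ (u i) (u l) : ℝ) ^ 2 ≤
        ∑ i ∈ G, ∑ l ∈ D i, (wf p m i ^ 2 / 2 * (inner ℝ (u i) (u l) : ℝ) ^ 2 +
          wf p m l ^ 2 / 2 * (inner ℝ (u l) (u i) : ℝ) ^ 2) := by
      refine sum_le_sum fun i _ => sum_le_sum fun l _ => ?_
      have h3 : |(inner ℝ (w i) (w l) : ℝ)| ≤ wf p m i ^ 2 / 2 + wf p m l ^ 2 / 2 := by
        refine (abs_real_inner_le_norm _ _).trans ?_
        rw [← hwn i, ← hwn l]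
        nlinarith [sq_nonneg (‖w i‖ - ‖w l‖)]
      rw [real_inner_comm (u i) (u l), ← add_mul]
      exact mul_le_mul_of_nonneg_right h3 (sq_nonneg _)
    have h3 := R3 fun i l => wf p m l ^ 2 / 2 * (inner ℝ (u l) (u i) : ℝ) ^ 2
    have h4 : ∑ i ∈ G, ∑ l ∈ D i, (wf p m i ^ 2 / 2 * (inner ℝ (u i) (u l) : ℝ) ^ 2 +
          wf p m l ^ 2 / 2 * (inner ℝ (u l) (u i) : ℝ) ^ 2) =
        ∑ i ∈ G, wf p m i ^ 2 * ∑ l ∈ D i, (inner ℝ (u i) (u l) : ℝ) ^ 2 := by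
      simp only [sum_add_distrib]
      rw [h3, ← sum_add_distrib]
      refine sum_congr rfl fun i _ => ?_
      rw [← sum_add_distrib, mul_sum]
      refine sum_congr rfl fun l _ => ?_
      ring
    rw [h4] at h1
    refine h1.trans ?_
    rw [mul_sum]
    refine sum_le_sum fun i hi => ?_
    rw [mul_comm (1 / 1024 : ℝ)]
    exact mul_le_mul_of_nonneg_left (hal i hi) (sq_nonneg _)
  have hfin : ∑ i ∈ G, ∑ l ∈ D i,
      (1 / 44 * ((inner ℝ (u i) (w l) : ℝ) ^ 2 + (inner ℝ (w i) (u l) : ℝ) ^ 2 +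
        (inner ℝ (w i) (w l) : ℝ) ^ 2) +
        4 / 5 * |(inner ℝ (w i) (w l) : ℝ)| * (inner ℝ (u i) (u l) : ℝ) ^ 2) =
      1 / 44 * (∑ i ∈ G, ∑ l ∈ D i, ((inner ℝ (u i) (w l) : ℝ) ^ 2 +
        (inner ℝ (w i) (u l) : ℝ) ^ 2 + (inner ℝ (w i) (w l) : ℝ) ^ 2)) +
      4 / 5 * ∑ i ∈ G, ∑ l ∈ D i,
        |(inner ℝ (w i) (w l) : ℝ)| * (inner ℝ (u i) (u l) : ℝ) ^ 2 := by
    rw [mul_sum, mul_sum, ← sum_add_distrib]
    refine sum_congr rfl fun i _ => ?_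
    rw [mul_sum, mul_sum, ← sum_add_distrib]
    refine sum_congr rfl fun l _ => ?_
    ring
  rw [hfin] at hstep
  have hW : 0 ≤ ∑ i ∈ G, wf p m i ^ 2 := sum_nonneg fun i _ => sq_nonneg _
  have hgoal : ∑ i ∈ G, ∑ l ∈ D i, lam (gr p i l) ≤
      1 / 88 * (∑ i ∈ G, ∑ l ∈ G, (inner ℝ (w i) (p l) : ℝ) ^ 2) +
        1 / 5000 * ∑ i ∈ G, wf p m i ^ 2 := by
    linarith
  exact hgoal

end Pool.Agent.XPL
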