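import Pool.Agent.XPL.St3

set_option autoImplicit false

/-! **C4.** The Perron type inequality with an extra term. No hypotheses are assumed. -/

namespace Pool.Agent.XPL

open Finset

private noncomputable def C4_X {κ : Type} [Fintype κ] {d : ℕ} (q : κ → E d) (y : κ → ℝ) (θ : ℝ)
    (c : Fin d × Fin d) : ℝ :=
  ∑ i, y i * (q i c.1 * q i c.2) - if c.1 = c.2 then θ else 0

private lemma C4_inner {d : ℕ} (v w : E d) : (inner ℝ v w : ℝ) = ∑ a, v a * w a := by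
  rw [PiLp.inner_apply]
  refine Finset.sum_congr rfl fun a _ => ?_
  simp [mul_comm]

private lemma C4_sum {κ : Type} [Fintype κ] {d : ℕ} (q : κ → E d)
    (y : κ → ℝ) (θ : ℝ) : ∑ c, C4_X q y θ c ^ 2 =
      ∑ i, ∑ j, y i * y j * (inner ℝ (q i) (q j) : ℝ) ^ 2 -
        2 * θ * ∑ i, y i * (inner ℝ (q i) (q i) : ℝ) + θ ^ 2 * d := by
  have e1 : ∀ c : Fin d × Fin d, C4_X q y θ c ^ 2 =
      (∑ i, ∑ j, y i * y j * ((q i c.1 * q j c.1) * (q i c.2 * q j c.2))) -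
        2 * θ * (if c.1 = c.2 then ∑ i, y i * (q i c.1 * q i c.2) else 0) +
        (if c.1 = c.2 then θ ^ 2 else 0) := by
    intro c
    have e2 : (∑ i, y i * (q i c.1 * q i c.2)) ^ 2 =
        ∑ i, ∑ j, y i * y j * ((q i c.1 * q j c.1) * (q i c.2 * q j c.2)) := by
      rw [pow_two, Finset.sum_mul_sum]
      refine Finset.sum_congr rfl fun i _ => Finset.sum_congr rfl fun j _ => ?_
      ring
    unfold C4_X
    rw [← e2]
    split_ifs <;> ring
  rw [Finset.sum_congr rfl fun c _ => e1 c, Finset.sum_add_distrib, Finset.sum_sub_distrib,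
    ← Finset.mul_sum]
  have e3 : ∑ c : Fin d × Fin d, ∑ i, ∑ j, y i * y j * ((q i c.1 * q j c.1) *
      (q i c.2 * q j c.2)) = ∑ i, ∑ j, y i * y j * (inner ℝ (q i) (q j) : ℝ) ^ 2 := by
    rw [Finset.sum_comm]
    refine Finset.sum_congr rfl fun i _ => ?_
    rw [Finset.sum_comm]
    refine Finset.sum_congr rfl fun j _ => ?_
    rw [← Finset.mul_sum, Fintype.sum_prod_type]
    congr 1
    rw [C4_inner, pow_two, Finset.sum_mul_sum]
  have e4 : ∑ c : Fin d × Fin d, (if c.1 = c.2 then ∑ i, y i * (q i c.1 * q i c.2) else 0) =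
      ∑ i, y i * (inner ℝ (q i) (q i) : ℝ) := by
    rw [Fintype.sum_prod_type]
    have h1 : ∀ a : Fin d, ∑ b : Fin d, (if a = b then ∑ i, y i * (q i a * q i b) else 0) =
        ∑ i, y i * (q i a * q i a) := by
      intro a
      rw [Finset.sum_ite_eq]
      simp
    rw [Finset.sum_congr rfl fun a _ => h1 a, Finset.sum_comm]
    refine Finset.sum_congr rfl fun i _ => ?_
    rw [← Finset.mul_sum, ← C4_inner]
  have e5 : ∑ c : Fin d × Fin d, (if c.1 = c.2 then θ ^ 2 else 0) = θ ^ 2 * d := by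
    rw [Fintype.sum_prod_type]
    have h1 : ∀ a : Fin d, ∑ b : Fin d, (if a = b then θ ^ 2 else 0) = θ ^ 2 := by
      intro a
      rw [Finset.sum_ite_eq]
      simp
    rw [Finset.sum_congr rfl fun a _ => h1 a, Finset.sum_const, Finset.card_univ,
      Fintype.card_fin, nsmul_eq_mul, mul_comm]
  rw [e3, e4, e5]

private lemma C4_wf {ι : Type} {d : ℕ} (p : ι → E d) (m : ι → ι)
    (hp : ∀ i, ‖p i‖ = 1) (i : ι) :
    (inner ℝ (wv p m i) (wv p m i) : ℝ) = wf p m i ^ 2 := by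
  have h1 : |gr p i (m i)| ≤ 1 := by
    unfold gr
    have h2 := abs_real_inner_le_norm (p i) (p (m i))
    rw [hp i, hp (m i)] at h2
    linarith
  have h3 := (abs_le.1 h1).1
  unfold wf wv
  rw [Real.sq_sqrt (by linarith)]
  rw [inner_smul_left, inner_smul_right, inner_add_left, inner_add_right, inner_add_right,
    real_inner_self_eq_norm_sq, real_inner_self_eq_norm_sq, hp i, hp (m i),
    real_inner_comm (p i) (p (m i))]
  unfold gr
  simp only [conj_trivial]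
  ring

theorem thm_C4 : St_C4 := by
  intro ι _ _ d p m hp hm G hG θ hθ hz1
  have hpp : ∀ i, gr p i i = 1 := by
    intro i
    unfold gr
    rw [real_inner_self_eq_norm_sq, hp i]
    norm_num
  have hu : ∀ i, 0 < uu p i := by
    intro i
    have h1 : gr p i i ^ 2 ≤ uu p i :=
      Finset.single_le_sum (f := fun j => gr p i j ^ 2) (fun _ _ => sq_nonneg _)
        (Finset.mem_univ i)
    rw [hpp i] at h1
    linarith
  obtain ⟨z, hz⟩ : ∃ z : ι → ℝ, ∀ i, z i = (uu p i - θ) / uu p i := ⟨_, fun _ => rfl⟩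
  have hzu : ∀ i, z i * uu p i = uu p i - θ := by
    intro i
    rw [hz, div_mul_cancel₀ _ (hu i).ne']
  have hz0 : ∀ i, 0 ≤ 1 - z i := by
    intro i
    have h1 : z i ≤ 1 := by
      rw [hz, div_le_one (hu i)]
      linarith
    linarith
  have hz2 : ∀ i ∈ G, 99 / 100 ≤ 1 - z i := by
    intro i hi
    have h1 : z i ≤ 1 / 100 := by
      rw [hz, div_le_iff₀ (hu i)]
      have := hz1 i hi
      linarith
    linarith
  obtain ⟨g, hg⟩ : ∃ g : ι → ℝ, ∀ i, g i = if i ∈ G then (-1 / 20 : ℝ) else 0 :=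
    ⟨_, fun _ => rfl⟩
  have h0 : 0 ≤ ∑ c, C4_X (Sum.elim p (wv p m)) (Sum.elim (fun i => 1 - z i) g) θ c ^ 2 :=
    Finset.sum_nonneg fun _ _ => sq_nonneg _
  rw [C4_sum] at h0
  simp only [Fintype.sum_sum_type, Sum.elim_inl, Sum.elim_inr] at h0
  -- rewriting of the sums
  have hsym : ∀ i j, gr p i j = gr p j i := fun i j => real_inner_comm _ _
  have h1 : ∑ i, ∑ j, (1 - z i) * (1 - z j) * gr p i j ^ 2 ≤
      ∑ i, (uu p i - 2 * (z i * uu p i) + z i ^ 2 * uu p i) := by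
    have g1 : ∑ i, ∑ j, (1 - z i) * (1 - z j) * gr p i j ^ 2 ≤
        ∑ i, ∑ j, ((1 - z i - z j + z i ^ 2 / 2 + z j ^ 2 / 2) * gr p i j ^ 2) := by
      refine Finset.sum_le_sum fun i _ => Finset.sum_le_sum fun j _ => ?_
      have h2 := mul_nonneg (sq_nonneg (z i - z j)) (sq_nonneg (gr p i j))
      nlinarith
    refine g1.trans (le_of_eq ?_)
    have g2 : ∑ i, ∑ j, ((1 - z i - z j + z i ^ 2 / 2 + z j ^ 2 / 2) * gr p i j ^ 2) =
        ∑ i, ∑ j, ((1 - z i + z i ^ 2 / 2) * gr p i j ^ 2) +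
          ∑ i, ∑ j, ((-z j + z j ^ 2 / 2) * gr p i j ^ 2) := by
      rw [← Finset.sum_add_distrib]
      refine Finset.sum_congr rfl fun i _ => ?_
      rw [← Finset.sum_add_distrib]
      refine Finset.sum_congr rfl fun j _ => ?_
      ring
    have g3 : ∑ i, ∑ j, ((-z j + z j ^ 2 / 2) * gr p i j ^ 2) =
        ∑ i, ((-z i + z i ^ 2 / 2) * uu p i) := by
      rw [Finset.sum_comm]
      refine Finset.sum_congr rfl fun i _ => ?_
      unfold uu
      rw [Finset.mul_sum]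
      refine Finset.sum_congr rfl fun j _ => ?_
      rw [hsym j i]
    have g4 : ∑ i, ∑ j, ((1 - z i + z i ^ 2 / 2) * gr p i j ^ 2) =
        ∑ i, ((1 - z i + z i ^ 2 / 2) * uu p i) := by
      refine Finset.sum_congr rfl fun i _ => ?_
      unfold uu
      rw [Finset.mul_sum]
    rw [g2, g3, g4, ← Finset.sum_add_distrib]
    refine Finset.sum_congr rfl fun i _ => ?_
    ring
  have h2 : ∑ i, (uu p i - 2 * (z i * uu p i) + z i ^ 2 * uu p i) - 2 * θ * ∑ i, (1 - z i) +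
      θ ^ 2 * d = DD p θ - ∑ i, (uu p i - θ) ^ 2 / uu p i := by
    have g1 : ∀ i, (uu p i - 2 * (z i * uu p i) + z i ^ 2 * uu p i) - 2 * θ * (1 - z i) =
        uu p i - 2 * θ - (uu p i - θ) ^ 2 / uu p i := by
      intro i
      have g2 : (uu p i - θ) ^ 2 / uu p i = z i * (uu p i - θ) := by
        rw [hz]; ring
      rw [g2]
      have g3 := hzu i
      linear_combination (z i) * g3
    have g5 : ∑ i, (uu p i - 2 * (z i * uu p i) + z i ^ 2 * uu p i) - 2 * θ * ∑ i, (1 - z i) =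
        ∑ i, (uu p i - 2 * θ - (uu p i - θ) ^ 2 / uu p i) := by
      rw [Finset.mul_sum, ← Finset.sum_sub_distrib]
      exact Finset.sum_congr rfl fun i _ => g1 i
    rw [g5, Finset.sum_sub_distrib, Finset.sum_sub_distrib, Finset.sum_const,
      Finset.card_univ, nsmul_eq_mul]
    unfold DD G2
    ring
  -- the cross terms
  obtain ⟨V, hV⟩ : ∃ V : ℝ, V = ∑ i ∈ G, ∑ l ∈ G, (inner ℝ (wv p m i) (p l) : ℝ) ^ 2 :=
    ⟨_, rfl⟩
  have hgs : ∀ f : ι → ℝ, ∑ i, g i * f i = -1 / 20 * ∑ i ∈ G, f i := by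
    intro f
    rw [Finset.mul_sum]
    have e1 : ∀ i, g i * f i = if i ∈ G then -1 / 20 * f i else 0 := by
      intro i
      rw [hg i]
      split_ifs
      · rfl
      · ring
    rw [Finset.sum_congr rfl fun i _ => e1 i, Finset.sum_ite_mem, Finset.univ_inter]
  have hA : ∑ i, (1 - z i) * (∑ l ∈ G, (inner ℝ (wv p m l) (p i) : ℝ) ^ 2) ≥ 99 / 100 * V := by
    have e1 : ∑ i ∈ G, (1 - z i) * (∑ l ∈ G, (inner ℝ (wv p m l) (p i) : ℝ) ^ 2) ≤
        ∑ i, (1 - z i) * (∑ l ∈ G, (inner ℝ (wv p m l) (p i) : ℝ) ^ 2) := by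
      refine Finset.sum_le_sum_of_subset_of_nonneg (Finset.subset_univ _) fun i _ _ => ?_
      exact mul_nonneg (hz0 i) (Finset.sum_nonneg fun _ _ => sq_nonneg _)
    have e2 : ∑ i ∈ G, 99 / 100 * (∑ l ∈ G, (inner ℝ (wv p m l) (p i) : ℝ) ^ 2) ≤
        ∑ i ∈ G, (1 - z i) * (∑ l ∈ G, (inner ℝ (wv p m l) (p i) : ℝ) ^ 2) := by
      refine Finset.sum_le_sum fun i hi => ?_
      exact mul_le_mul_of_nonneg_right (hz2 i hi) (Finset.sum_nonneg fun _ _ => sq_nonneg _)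
    rw [← Finset.mul_sum, Finset.sum_comm, ← hV] at e2
    linarith
  have hB1 : ∑ i, ∑ j, (1 - z i) * g j * (inner ℝ (p i) (wv p m j) : ℝ) ^ 2 =
      -1 / 20 * ∑ i, (1 - z i) * (∑ l ∈ G, (inner ℝ (wv p m l) (p i) : ℝ) ^ 2) := by
    rw [Finset.mul_sum]
    refine Finset.sum_congr rfl fun i _ => ?_
    have e1 : ∑ j, (1 - z i) * g j * (inner ℝ (p i) (wv p m j) : ℝ) ^ 2 =
        (1 - z i) * ∑ j, g j * (inner ℝ (wv p m j) (p i) : ℝ) ^ 2 := by
      rw [Finset.mul_sum]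
      refine Finset.sum_congr rfl fun j _ => ?_
      rw [real_inner_comm (p i) (wv p m j)]
      ring
    rw [e1, hgs]
    ring
  have hB2 : ∑ i, ∑ j, g i * (1 - z j) * (inner ℝ (wv p m i) (p j) : ℝ) ^ 2 =
      -1 / 20 * ∑ i, (1 - z i) * (∑ l ∈ G, (inner ℝ (wv p m l) (p i) : ℝ) ^ 2) := by
    rw [Finset.sum_comm, Finset.mul_sum]
    refine Finset.sum_congr rfl fun i _ => ?_
    have e1 : ∑ j, g j * (1 - z i) * (inner ℝ (wv p m j) (p i) : ℝ) ^ 2 =
        (1 - z i) * ∑ j, g j * (inner ℝ (wv p m j) (p i) : ℝ) ^ 2 := by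
      rw [Finset.mul_sum]
      refine Finset.sum_congr rfl fun j _ => ?_
      ring
    rw [e1, hgs]
    ring
  have hC1 : ∑ i, ∑ j, g i * g j * (inner ℝ (wv p m i) (wv p m j) : ℝ) ^ 2 =
      1 / 400 * ∑ i ∈ G, ∑ j ∈ G, (inner ℝ (wv p m i) (wv p m j) : ℝ) ^ 2 := by
    have e1 : ∀ i, ∑ j, g i * g j * (inner ℝ (wv p m i) (wv p m j) : ℝ) ^ 2 =
        g i * (-1 / 20 * ∑ j ∈ G, (inner ℝ (wv p m i) (wv p m j) : ℝ) ^ 2) := by
      intro i
      rw [← hgs, Finset.mul_sum]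
      refine Finset.sum_congr rfl fun j _ => ?_
      ring
    rw [Finset.sum_congr rfl fun i _ => e1 i, hgs, ← Finset.mul_sum]
    ring
  have hC2 : ∑ i ∈ G, ∑ j ∈ G, (inner ℝ (wv p m i) (wv p m j) : ℝ) ^ 2 ≤ V := by
    rw [hV]
    refine Finset.sum_le_sum fun i _ => ?_
    have e1 : ∑ j ∈ G, (inner ℝ (wv p m i) (p (m j)) : ℝ) ^ 2 =
        ∑ j ∈ G, (inner ℝ (wv p m i) (p j) : ℝ) ^ 2 := by
      refine Finset.sum_nbij' m m (fun j hj => hG j hj) (fun j hj => hG j hj)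
        (fun j _ => hm j) (fun j _ => hm j) (fun j _ => rfl)
    have e2 : ∑ j ∈ G, (inner ℝ (wv p m i) (wv p m j) : ℝ) ^ 2 ≤
        ∑ j ∈ G, (1 / 2 * (inner ℝ (wv p m i) (p j) : ℝ) ^ 2 +
          1 / 2 * (inner ℝ (wv p m i) (p (m j)) : ℝ) ^ 2) := by
      refine Finset.sum_le_sum fun j _ => ?_
      have e3 : (inner ℝ (wv p m i) (wv p m j) : ℝ) =
          1 / 2 * ((inner ℝ (wv p m i) (p j) : ℝ) + (inner ℝ (wv p m i) (p (m j)) : ℝ)) := by
        have e4 : wv p m j = (1 / 2 : ℝ) • (p j + p (m j)) := rfl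
        rw [e4, inner_smul_right, inner_add_right]
      rw [e3]
      nlinarith [sq_nonneg ((inner ℝ (wv p m i) (p j) : ℝ) - (inner ℝ (wv p m i) (p (m j)) : ℝ))]
    rw [Finset.sum_add_distrib, ← Finset.mul_sum, ← Finset.mul_sum, e1] at e2
    linarith
  have hD : ∑ i, g i * (inner ℝ (wv p m i) (wv p m i) : ℝ) = -1 / 20 * ∑ i ∈ G, wf p m i ^ 2 := by
    rw [hgs]
    congr 1
    exact Finset.sum_congr rfl fun i _ => C4_wf p m hp i
  have hE : ∑ i, (1 - z i) * (inner ℝ (p i) (p i) : ℝ) = ∑ i, (1 - z i) := by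
    refine Finset.sum_congr rfl fun i _ => ?_
    have := hpp i
    unfold gr at this
    rw [this, mul_one]
  have hF : ∑ i, ∑ j, (1 - z i) * (1 - z j) * (inner ℝ (p i) (p j) : ℝ) ^ 2 =
      ∑ i, ∑ j, (1 - z i) * (1 - z j) * gr p i j ^ 2 := rfl
  rw [Finset.sum_add_distrib, Finset.sum_add_distrib, hB1, hB2, hC1, hD, hE, hF] at h0
  rw [← hV]
  obtain ⟨S1, hS1⟩ : ∃ S : ℝ,
      S = ∑ i, (1 - z i) * (∑ l ∈ G, (inner ℝ (wv p m l) (p i) : ℝ) ^ 2) := ⟨_, rfl⟩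
  rw [← hS1] at h0 hA
  linarith

end Pool.Agent.XPL
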