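import Pool.Agent.XPL.St3

set_option autoImplicit false

namespace Pool.Agent.XPL

private theorem C5_basic (u θ s : ℝ) (hu : 0 < u) :
    (1 - s ^ 2) * u - 2 * θ * (1 - s) ≤ (u - θ) ^ 2 / u := by
  rw [le_div_iff₀ hu]
  nlinarith [sq_nonneg (θ - s * u)]

private theorem C5_sqrt2_lo : (141421 : ℝ) / 100000 ≤ √2 := by
  apply Real.le_sqrt_of_sq_le
  norm_num

private theorem C5_sqrt2_hi : √2 ≤ (141422 : ℝ) / 100000 := by
  apply Real.sqrt_le_iff.2
  norm_num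

private theorem C5_gap (w : ℝ) (hw : w ^ 2 ≤ 11 / 100) :
    w ^ 2 * (2071 / 10000) - w ^ 4 * (32323 / 100000) ≤ c0 - lam (-(1 - 2 * w ^ 2)) := by
  have h3 : (1 : ℝ) - -(1 - 2 * w ^ 2) = 2 * (1 - w ^ 2) := by ring
  unfold c0 lam
  rw [h3, Real.sqrt_mul (by norm_num : (0 : ℝ) ≤ 2)]
  have h4 : √(1 - w ^ 2) ≤ 1 - w ^ 2 / 2 - w ^ 4 / 8 := by
    apply Real.sqrt_le_iff.2
    constructor
    · nlinarith [sq_nonneg (w ^ 2)]
    · have h5 : (1 - w ^ 2 / 2 - w ^ 4 / 8) ^ 2 - (1 - w ^ 2) = w ^ 6 / 8 + w ^ 8 / 64 := by ring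
      have h6 : 0 ≤ w ^ 6 / 8 + w ^ 8 / 64 := by positivity
      linarith
  have hs1 := C5_sqrt2_lo
  have hs2 := C5_sqrt2_hi
  have h7 : √2 * √(1 - w ^ 2) ≤ √2 * (1 - w ^ 2 / 2 - w ^ 4 / 8) :=
    mul_le_mul_of_nonneg_left h4 (by positivity)
  have hw4 : 0 ≤ w ^ 4 := by positivity
  have hw2' : 0 ≤ w ^ 2 := by positivity
  have h8 : w ^ 2 * (2071 / 10000) ≤ w ^ 2 * ((√2 - 1) / 2) := by
    apply mul_le_mul_of_nonneg_left _ hw2'
    linarith
  have h9 : w ^ 4 * (1 / 2 - √2 / 8) ≤ w ^ 4 * (32323 / 100000) := by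
    apply mul_le_mul_of_nonneg_left _ hw4
    linarith
  nlinarith

/-- `z = 1 - yf w` and its size. -/
private theorem C5_z (w : ℝ) (hw0 : 0 ≤ w) (hw1 : w ^ 2 ≤ 11 / 100) :
    ∃ z : ℝ, yf w = 1 - z ∧ muf w = (2 * z - z ^ 2) / 8 ∧ 0 ≤ z ∧ z ≤ 41 / 50 * w ∧ z ≤ 1 / 5 ∧
      w * (41 / 50 - 23 / 25 * w) * (1 - w) ≤ z := by
  have hw3 : w ≤ 3317 / 10000 := by
    by_contra h
    push Not at h
    nlinarith
  set D := 1 + 41 / 50 * w - 23 / 25 * w ^ 2 with hD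
  have hD1 : 1 ≤ D := by rw [hD]; nlinarith
  have hD0 : 0 < D := by linarith
  have hn0 : 0 ≤ 41 / 50 - 23 / 25 * w := by linarith
  have hzD : (D - 1) / D * D = D - 1 := by field_simp
  have hDe : D - 1 = w * (41 / 50 - 23 / 25 * w) := by rw [hD]; ring
  have hz0 : 0 ≤ (D - 1) / D := div_nonneg (by linarith) hD0.le
  have hzle : (D - 1) / D ≤ D - 1 := by
    rw [div_le_iff₀ hD0]
    nlinarith
  refine ⟨(D - 1) / D, ?_, ?_, hz0, ?_, ?_, ?_⟩
  · have h3 : yf w = 1 / D := rfl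
    rw [h3]; field_simp; ring
  · unfold muf
    have h3 : yf w = 1 / D := rfl
    have h4 : yf w = 1 - (D - 1) / D := by rw [h3]; field_simp; ring
    rw [h4]; ring
  · refine le_trans hzle ?_
    rw [hDe]; nlinarith
  · refine le_trans hzle ?_
    rw [hDe]; nlinarith
  · rw [le_div_iff₀ hD0, hDe]
    have h5 : (1 - w) * D ≤ 1 := by rw [hD]; nlinarith [pow_nonneg hw0 3]
    have h6 : 0 ≤ w * (41 / 50 - 23 / 25 * w) := mul_nonneg hw0 hn0
    nlinarith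

private theorem C5_mu_le (w : ℝ) (hw0 : 0 ≤ w) (hw1 : w ^ 2 ≤ 11 / 100) :
    0 ≤ muf w ∧ muf w ≤ 41 / 200 * w := by
  obtain ⟨z, -, hmu, hz0, hz1, hz2, -⟩ := C5_z w hw0 hw1
  rw [hmu]
  constructor <;> nlinarith

private theorem C5_mono (v w : ℝ) (hv0 : 0 ≤ v) (hvw : v ≤ w) (hw2 : w ^ 2 ≤ 11 / 100) :
    muf v ≤ muf w := by
  have hw0 : 0 ≤ w := le_trans hv0 hvw
  have hw1 : w ≤ 3317 / 10000 := by
    by_contra h
    push Not at h
    nlinarith
  have hDv : 1 ≤ 1 + 41 / 50 * v - 23 / 25 * v ^ 2 := by nlinarith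
  have hDw : 1 ≤ 1 + 41 / 50 * w - 23 / 25 * w ^ 2 := by nlinarith
  have hDD : 1 + 41 / 50 * v - 23 / 25 * v ^ 2 ≤ 1 + 41 / 50 * w - 23 / 25 * w ^ 2 := by
    nlinarith
  unfold muf yf
  have h2 : 1 / (1 + 41 / 50 * w - 23 / 25 * w ^ 2) ≤ 1 / (1 + 41 / 50 * v - 23 / 25 * v ^ 2) :=
    one_div_le_one_div_of_le (by linarith) hDD
  have h3 : 0 ≤ 1 / (1 + 41 / 50 * w - 23 / 25 * w ^ 2) := by positivity
  have h4 := pow_le_pow_left₀ h3 h2 2
  linarith

theorem thm_C5 : St_C5 := by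
  refine ⟨?_, ?_, ?_, ?_, ?_, ?_, ?_⟩
  · intro w u θ hw0 hw1 hu hθ1 hθ2
    have hw2 : w ^ 2 ≤ 1 / 1000000 := by nlinarith
    obtain ⟨z, -, hmu, hz0, hz1, hz2, -⟩ := C5_z w hw0 (by linarith)
    have hgap := C5_gap w (by linarith)
    have hu0 : 0 < u := by
      have : 0 ≤ (1 - 2 * w ^ 2) ^ 2 := sq_nonneg _
      linarith
    have hb := C5_basic u θ (1 - 253 / 250 * z) hu0
    have hcoef : muf w ≤ 99 / 800 * (1 - (1 - 253 / 250 * z) ^ 2) := by
      rw [hmu]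
      nlinarith [mul_nonneg hz0 (sub_nonneg.2 hz2)]
    have hub : muf w * (u - 1 - (1 - 2 * w ^ 2) ^ 2) ≤
        99 / 800 * (1 - (1 - 253 / 250 * z) ^ 2) * (u - (1 + (1 - 2 * w ^ 2) ^ 2)) := by
      have h3 : u - 1 - (1 - 2 * w ^ 2) ^ 2 = u - (1 + (1 - 2 * w ^ 2) ^ 2) := by ring
      rw [h3]
      exact mul_le_mul_of_nonneg_right hcoef (by linarith)
    have hmain : 99 / 800 * ((1 - (1 - 253 / 250 * z) ^ 2) * u - 2 * θ * (1 - (1 - 253 / 250 * z)))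
        ≤ 99 / 800 * ((u - θ) ^ 2 / u) := mul_le_mul_of_nonneg_left hb (by norm_num)
    have hid : 99 / 800 * (1 - (1 - 253 / 250 * z) ^ 2) * (1 + (1 - 2 * w ^ 2) ^ 2)
        - 99 / 800 * (4 * (253 / 250 * z)) = -(99 / 800 * (253 / 250 * z) * (2 * (253 / 250 * z) +
        (4 * w ^ 2 - 4 * w ^ 4) * (2 - 253 / 250 * z))) := by ring
    have hth : 99 / 800 * (2 * θ * (1 - (1 - 253 / 250 * z))) - (θ - 2) * w / 4
        ≤ 99 / 800 * (4 * (253 / 250 * z)) := by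
      have h3 : 99 / 800 * (2 * (253 / 250 * z)) ≤ w / 4 := by
        nlinarith
      nlinarith
    have hfin : 99 / 800 * (253 / 250 * z) * (2 * (253 / 250 * z) +
        (4 * w ^ 2 - 4 * w ^ 4) * (2 - 253 / 250 * z)) ≤ 1705 / 10000 * w ^ 2 + 1 / 1000 * w ^ 2 := by
      have hz3 : z ^ 2 ≤ (41 / 50 * w) ^ 2 := pow_le_pow_left₀ hz0 hz1 2
      have h5 : (4 * w ^ 2 - 4 * w ^ 4) * (2 - 253 / 250 * z) ≤ 8 * w ^ 2 := by
        have h6 : 0 ≤ w ^ 4 := by positivity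
        have h7 : 0 ≤ w ^ 2 := by positivity
        have h8 : 4 * w ^ 2 - 4 * w ^ 4 ≤ 4 * w ^ 2 := by linarith
        have h9 : 2 - 253 / 250 * z ≤ 2 := by linarith
        have h10 : 0 ≤ 2 - 253 / 250 * z := by linarith
        calc (4 * w ^ 2 - 4 * w ^ 4) * (2 - 253 / 250 * z) ≤ 4 * w ^ 2 * (2 - 253 / 250 * z) :=
              mul_le_mul_of_nonneg_right h8 h10
          _ ≤ 4 * w ^ 2 * 2 := mul_le_mul_of_nonneg_left h9 (by positivity)
          _ = 8 * w ^ 2 := by ring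
      have h11 : 0 ≤ 99 / 800 * (253 / 250 * z) := by positivity
      have h12 : 99 / 800 * (253 / 250 * z) * ((4 * w ^ 2 - 4 * w ^ 4) * (2 - 253 / 250 * z))
          ≤ 99 / 800 * (253 / 250 * z) * (8 * w ^ 2) := mul_le_mul_of_nonneg_left h5 h11
      have h13 : 99 / 800 * (253 / 250 * z) * (8 * w ^ 2) ≤ 1 / 1000 * w ^ 2 := by
        have h14 : z ≤ 82 / 100000 := by linarith
        have h15 : 0 ≤ w ^ 2 := by positivity
        nlinarith
      nlinarith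
    have hw4 : w ^ 4 ≤ 1 / 1000000 * w ^ 2 := by
      have : w ^ 4 = w ^ 2 * w ^ 2 := by ring
      rw [this]
      exact mul_le_mul_of_nonneg_right hw2 (sq_nonneg w)
    nlinarith
  · intro w hw0 hw1
    have hw2 : w ^ 2 ≤ 1 / 1000000 := by nlinarith
    have hgap := C5_gap w (by linarith)
    have hw4 : w ^ 4 ≤ 1 / 1000000 * w ^ 2 := by
      have : w ^ 4 = w ^ 2 * w ^ 2 := by ring
      rw [this]
      exact mul_le_mul_of_nonneg_right hw2 (sq_nonneg w)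
    nlinarith [sq_nonneg w]
  · intro w u θ hw0 hw1 hu hθ1 hθ2
    have hw2 : w ^ 2 ≤ 1 / 400000000 := by nlinarith
    obtain ⟨hm0, hm1⟩ := C5_mu_le w hw0 (by linarith)
    have hgap := C5_gap w (by linarith)
    have hw4 : w ^ 4 ≤ 1 / 1000000 * w ^ 2 := by
      have : w ^ 4 = w ^ 2 * w ^ 2 := by ring
      rw [this]
      exact mul_le_mul_of_nonneg_right (by linarith) (sq_nonneg w)
    have hgap2 : lam (-(1 - 2 * w ^ 2)) - c0 ≤ -(w ^ 2 / 5) := by nlinarith [sq_nonneg w]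
    have hw40 : 0 ≤ w ^ 4 := by positivity
    obtain ⟨y, hy⟩ : ∃ y, y = u - 1 - (1 - 2 * w ^ 2) ^ 2 := ⟨_, rfl⟩
    have hy0 : 0 ≤ y := by rw [hy]; linarith
    have hu0 : 0 < u := by
      have : 0 ≤ (1 - 2 * w ^ 2) ^ 2 := sq_nonneg _
      linarith
    have huy : u = 2 + y - 4 * w ^ 2 + 4 * w ^ 4 := by rw [hy]; ring
    rw [← hy]
    have hmy : 2 * muf w * y ≤ 41 / 100 * w * y := by
      have := mul_le_mul_of_nonneg_right hm1 hy0
      linarith
    have hS : 0 ≤ (u - θ) ^ 2 / u := by positivity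
    constructor
    · -- choose s = 1 - k with k = 33/40 * 2 * w : slope 99/800 * (2k - k^2) ≥ 41/100 w
      have hb := C5_basic u θ (1 - 17 / 10 * w) hu0
      have hmain : 99 / 800 * ((1 - (1 - 17 / 10 * w) ^ 2) * u - 2 * θ * (1 - (1 - 17 / 10 * w)))
        ≤ 99 / 800 * ((u - θ) ^ 2 / u) := mul_le_mul_of_nonneg_left hb (by norm_num)
      have h1 : 41 / 100 * w * y ≤ 99 / 800 * (1 - (1 - 17 / 10 * w) ^ 2) * y := by
        apply mul_le_mul_of_nonneg_right _ hy0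
        nlinarith
      have h2 : 99 / 800 * ((1 - (1 - 17 / 10 * w) ^ 2) * u - 2 * θ * (1 - (1 - 17 / 10 * w)))
          = 99 / 800 * (1 - (1 - 17 / 10 * w) ^ 2) * y +
            99 / 800 * ((34 / 10 * w - 289 / 100 * w ^ 2) * (2 - 4 * w ^ 2 + 4 * w ^ 4)
              - 34 / 10 * w * θ) := by
        rw [huy]; ring
      have h3 : (34 / 10 * w - 289 / 100 * w ^ 2) * (2 - 4 * w ^ 2 + 4 * w ^ 4)
              - 34 / 10 * w * θ ≥ - (34 / 10 * w / 10 ^ 7) - 578 / 100 * w ^ 2 - 14 * w ^ 3 := by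
        have h5 : 0 ≤ w ^ 3 := by positivity
        have h6 : 0 ≤ w ^ 5 := by positivity
        have h7 : w ^ 6 ≤ w ^ 5 := by
          have : w ^ 6 = w ^ 5 * w := by ring
          rw [this]
          nlinarith
        have h8 : 34 / 10 * w * θ ≤ 34 / 10 * w * (2 + 1 / 10 ^ 7) :=
          mul_le_mul_of_nonneg_left hθ2 (by positivity)
        nlinarith
      have h9 : w ^ 3 ≤ 1 / 20000 * w ^ 2 := by
        have : w ^ 3 = w * w ^ 2 := by ring
        rw [this]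
        exact mul_le_mul_of_nonneg_right hw1 (sq_nonneg w)
      nlinarith
    · intro hy1
      -- (u - θ) ≥ 99/100 y
      have h1 : 99 / 100 * y ≤ u - θ := by rw [huy]; nlinarith
      have h2 : (99 / 100 * y) ^ 2 ≤ (u - θ) ^ 2 := pow_le_pow_left₀ (by positivity) h1 2
      have h3 : u ≤ 2 + y := by rw [huy]; nlinarith
      have h4 : (99 / 100 * y) ^ 2 / (2 + y) ≤ (u - θ) ^ 2 / u := by
        rw [div_le_div_iff₀ (by positivity) hu0]
        exact mul_le_mul h2 h3 hu0.le (sq_nonneg _)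
      have h5 : y / 2100 ≤ (99 / 100 * y) ^ 2 / (2 + y) := by
        rw [le_div_iff₀ (by positivity)]
        nlinarith
      have h6 : 41 / 100 * w * y ≤ 41 / 2000000 * y := by
        have := mul_le_mul_of_nonneg_right hw1 hy0
        linarith
      nlinarith [sq_nonneg w]
  · intro u θ hu h1 h2
    have hb := C5_basic u θ (8549 / 10000) (by linarith)
    have hs := C5_sqrt2_lo
    unfold c0
    have hθ : 2 * θ * (1 - 8549 / 10000) ≤ 2 * (2 + 1 / 1000) * (1 - 8549 / 10000) := by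
      nlinarith
    nlinarith
  · intro v w hv0 hvw hw2
    have hw0 : 0 ≤ w := le_trans hv0 hvw
    have hv2 : v ^ 2 ≤ 11 / 100 := le_trans (pow_le_pow_left₀ hv0 hvw 2) hw2
    exact ⟨(C5_mu_le v hv0 hv2).1, C5_mono v w hv0 hvw hw2⟩
  · have := (C5_mu_le (1 / 50000) (by norm_num) (by norm_num)).2
    linarith
  · intro w hw1 hw2
    have h1 := C5_mono (1 / 20000) w (by norm_num) hw1 hw2
    have h2 := (C5_mu_le (1 / 50000) (by norm_num) (by norm_num)).2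
    obtain ⟨z, -, hmu, hz0, -, hz2, hz3⟩ := C5_z (1 / 20000) (by norm_num) (by norm_num)
    have hz4 : (409 : ℝ) / 10000000 ≤ z := by
      refine le_trans ?_ hz3
      norm_num
    rw [hmu] at h1
    nlinarith

end Pool.Agent.XPL
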