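import Pool.Agent.XPL.St3

/-!
# XPL, module C6: improved Stage 1, bookkeeping of the blocks
-/

set_option autoImplicit false

namespace Pool.Agent.XPL

open Finset

section blocks
variable {ι : Type} [Fintype ι] [DecidableEq ι]

/-- the entries off the diagonal and off the matching -/
private noncomputable def C6_ee (m : ι → ι) (f : ι → ι → ℝ) (i l : ι) : ℝ :=
  if l = i ∨ l = m i then 0 else f i l

private theorem C6_erase (m : ι → ι) (f : ι → ι → ℝ) (B : Finset ι) (i : ι) :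
    ∑ l ∈ (B.erase i).erase (m i), f i l = ∑ l ∈ B, C6_ee m f i l := by
  have h : (B.erase i).erase (m i) = B.filter (fun l => ¬ (l = i ∨ l = m i)) := by
    ext l
    simp only [mem_erase, mem_filter, not_or]
    tauto
  rw [h, sum_filter]
  refine sum_congr rfl fun l _ => ?_
  unfold C6_ee
  by_cases h : l = i ∨ l = m i
  · rw [if_pos h, if_neg (not_not.2 h)]
  · rw [if_neg h, if_pos h]

private theorem C6_symm (m : ι → ι) (hm : ∀ i, m (m i) = i) (f : ι → ι → ℝ)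
    (hf : ∀ i l, f i l = f l i) (i l : ι) : C6_ee m f i l = C6_ee m f l i := by
  unfold C6_ee
  refine if_congr ?_ rfl (hf i l)
  constructor
  · rintro (h | h)
    · exact Or.inl h.symm
    · right
      rw [h, hm]
  · rintro (h | h)
    · exact Or.inl h.symm
    · right
      rw [h, hm]

private theorem C6_swap (m : ι → ι) (hm : ∀ i, m (m i) = i) (f : ι → ι → ℝ)
    (hf : ∀ i l, f i l = f l i) (A B : Finset ι) :
    ∑ i ∈ A, ∑ l ∈ B, C6_ee m f i l = ∑ i ∈ B, ∑ l ∈ A, C6_ee m f i l := by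
  rw [sum_comm]
  exact sum_congr rfl fun i _ => sum_congr rfl fun l _ => C6_symm m hm f hf l i

private theorem C6_inv (m : ι → ι) (hm : ∀ i, m (m i) = i) (B : Finset ι)
    (hB : ∀ i ∈ B, m i ∈ B) (f : ι → ℝ) : ∑ i ∈ B, f (m i) = ∑ i ∈ B, f i :=
  sum_nbij' m m hB hB (fun i _ => hm i) (fun i _ => hm i) fun _ _ => rfl

/-- five classes -/
private theorem C6_part (a b c e : ι → Prop) [DecidablePred a] [DecidablePred b]
    [DecidablePred c] [DecidablePred e] (f : ι → ℝ) :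
    ∑ i, f i = ∑ i ∈ univ.filter (fun i => a i), f i
      + ∑ i ∈ univ.filter (fun i => ¬ a i ∧ ¬ b i), f i
      + ∑ i ∈ univ.filter (fun i => ¬ a i ∧ b i ∧ ¬ c i), f i
      + ∑ i ∈ univ.filter (fun i => ¬ a i ∧ b i ∧ c i ∧ e i), f i
      + ∑ i ∈ univ.filter (fun i => ¬ a i ∧ b i ∧ c i ∧ ¬ e i), f i := by
  simp only [sum_filter]
  rw [← sum_add_distrib, ← sum_add_distrib, ← sum_add_distrib, ← sum_add_distrib]
  refine sum_congr rfl fun i _ => ?_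
  by_cases h1 : a i <;> by_cases h2 : b i <;> by_cases h3 : c i <;> by_cases h4 : e i <;>
    simp [h1, h2, h3, h4]

private theorem C6_partG (a b c e : ι → Prop) [DecidablePred a] [DecidablePred b]
    [DecidablePred c] [DecidablePred e] (f : ι → ℝ) :
    ∑ i ∈ univ.filter (fun i => ¬ a i ∧ b i ∧ c i), f i
      = ∑ i ∈ univ.filter (fun i => ¬ a i ∧ b i ∧ c i ∧ e i), f i
      + ∑ i ∈ univ.filter (fun i => ¬ a i ∧ b i ∧ c i ∧ ¬ e i), f i := by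
  simp only [sum_filter]
  rw [← sum_add_distrib]
  refine sum_congr rfl fun i _ => ?_
  by_cases h1 : a i <;> by_cases h2 : b i <;> by_cases h3 : c i <;> by_cases h4 : e i <;>
    simp [h1, h2, h3, h4]

end blocks

private theorem C6_gsymm {ι : Type} {d : ℕ} (p : ι → E d) (i j : ι) : gr p i j = gr p j i := by
  unfold gr
  exact real_inner_comm _ _

private theorem C6_self {ι : Type} {d : ℕ} (p : ι → E d) (hp : ∀ i, ‖p i‖ = 1) (i : ι) :
    gr p i i = 1 := by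
  unfold gr
  rw [real_inner_self_eq_norm_sq, hp i, one_pow]

private theorem C6_ge {ι : Type} {d : ℕ} (p : ι → E d) (hp : ∀ i, ‖p i‖ = 1) (i j : ι) :
    -1 ≤ gr p i j := by
  unfold gr
  have h := abs_real_inner_le_norm (p i) (p j)
  rw [hp i, hp j, one_mul] at h
  exact (abs_le.1 h).1

private theorem C6_one {ι : Type} [Fintype ι] [DecidableEq ι] {d : ℕ} (p : ι → E d)
    (hp : ∀ i, ‖p i‖ = 1) (i : ι) : 1 ≤ uu p i := by
  unfold uu
  have h := single_le_sum (f := fun j => gr p i j ^ 2) (fun j _ => sq_nonneg _) (mem_univ i)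
  simp only [C6_self p hp i, one_pow] at h
  exact h

section
variable {ι : Type} [Fintype ι] [DecidableEq ι] {d : ℕ}

/-- sum of the squares off the matching -/
private theorem C6_T (p : ι → E d) (m : ι → ι) (hp : ∀ i, ‖p i‖ = 1) (i : ι) (hi : m i ≠ i) :
    ∑ l, C6_ee m (fun i l => gr p i l ^ 2) i l = yy p m i := by
  have h := C6_erase m (fun i l => gr p i l ^ 2) univ i
  rw [← h]
  have h1 : ∑ l ∈ univ.erase i, gr p i l ^ 2 + gr p i i ^ 2 = ∑ l, gr p i l ^ 2 :=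
    sum_erase_add univ _ (mem_univ i)
  have h2 : ∑ l ∈ (univ.erase i).erase (m i), gr p i l ^ 2 + gr p i (m i) ^ 2 =
      ∑ l ∈ univ.erase i, gr p i l ^ 2 :=
    sum_erase_add _ _ (mem_erase.2 ⟨hi, mem_univ _⟩)
  rw [C6_self p hp i] at h1
  unfold yy uu
  linarith

private theorem C6_TU (p : ι → E d) (m : ι → ι) (hp : ∀ i, ‖p i‖ = 1) (i : ι) (hi : m i = i) :
    ∑ l, C6_ee m (fun i l => gr p i l ^ 2) i l = uu p i - 1 := by
  have h := C6_erase m (fun i l => gr p i l ^ 2) univ i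
  rw [← h, hi, erase_idem]
  have h1 : ∑ l ∈ univ.erase i, gr p i l ^ 2 + gr p i i ^ 2 = ∑ l, gr p i l ^ 2 :=
    sum_erase_add univ _ (mem_univ i)
  rw [C6_self p hp i] at h1
  unfold uu
  linarith

private theorem C6_row (p : ι → E d) (m : ι → ι) (i : ι) :
    ∑ l ∈ univ.erase i, lam (gr p i l) = (if m i = i then 0 else lam (gr p i (m i))) +
      ∑ l, C6_ee m (fun i l => lam (gr p i l)) i l := by
  rw [← C6_erase m (fun i l => lam (gr p i l)) univ i]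
  by_cases hi : m i = i
  · rw [if_pos hi, zero_add, hi, erase_idem]
  · rw [if_neg hi, add_comm]
    exact (sum_erase_add _ _ (mem_erase.2 ⟨hi, mem_univ _⟩)).symm

private theorem C6_Tnn (p : ι → E d) (m : ι → ι) (i l : ι) :
    0 ≤ C6_ee m (fun i l => gr p i l ^ 2) i l := by
  unfold C6_ee
  split_ifs
  · exact le_rfl
  · exact sq_nonneg _

private theorem C6_Tsub (p : ι → E d) (m : ι → ι) (i : ι) (A : Finset ι) :
    ∑ l ∈ A, C6_ee m (fun i l => gr p i l ^ 2) i l ≤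
      ∑ l, C6_ee m (fun i l => gr p i l ^ 2) i l :=
  sum_le_sum_of_subset_of_nonneg (subset_univ _) fun l _ _ => C6_Tnn p m i l

end

theorem thm_C6 (hC1 : St_C1) (hC3 : St_C3) (hC4 : St_C4) (hC5 : St_C5) (hMt : St_Mt)
    (hRw : St_Rw) (hRm : St_Rm) : St_C6 := by
  classical
  obtain ⟨h51, h52, h53, h54, h55, h56, h57⟩ := hC5
  intro ι _ _ d p hp θ hθ1 hθ2
  have hθ3 : θ ≤ 2 + 1 / 1000 := by
    refine hθ2.trans ?_
    norm_num
  obtain ⟨m, hm1, hm2, hm3⟩ := hMt ι (fun i j => gr p i j ≤ -(39 / 50))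
    (fun i j h => by rw [C6_gsymm]; exact h)
  have hMM : MM p m := by
    refine ⟨hm1, hm2, fun i j hij hi hj => ?_⟩
    have h := hm3 i j hij hi hj
    exact not_le.1 h
  refine ⟨m, hMM, ?_⟩
  obtain ⟨hw1, -⟩ := hRw ι d p m hp hMM
  -- facts on rows
  have hw0 : ∀ i, 0 ≤ wf p m i := fun i => Real.sqrt_nonneg _
  have hwm : ∀ i, wf p m (m i) = wf p m i := by
    intro i
    unfold wf
    rw [hm1 i, C6_gsymm]
  have hwsq : ∀ i, wf p m i ^ 2 = (1 + gr p i (m i)) / 2 := by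
    intro i
    unfold wf
    rw [Real.sq_sqrt (by linarith [C6_ge p hp i (m i)])]
  have hw11 : ∀ i, m i ≠ i → wf p m i ^ 2 ≤ 11 / 100 := by
    intro i hi
    rw [hwsq i]
    linarith [hm2 i hi]
  have ht : ∀ i, -(1 - 2 * wf p m i ^ 2) = gr p i (m i) := by
    intro i
    rw [hwsq i]
    ring
  have ht' : ∀ i, (1 - 2 * wf p m i ^ 2) ^ 2 = gr p i (m i) ^ 2 := by
    intro i
    rw [← ht i]
    ring
  have hy0 : ∀ i, m i ≠ i → 0 ≤ yy p m i := by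
    intro i hi
    rw [← C6_T p m hp i hi]
    exact sum_nonneg fun l _ => C6_Tnn p m i l
  have hyu : ∀ i, uu p i - 1 - (1 - 2 * wf p m i ^ 2) ^ 2 = yy p m i := by
    intro i
    rw [ht' i]
    rfl
  have hu : ∀ i, m i ≠ i → 1 + (1 - 2 * wf p m i ^ 2) ^ 2 ≤ uu p i := by
    intro i hi
    linarith [hyu i, hy0 i hi]
  have hmuf : ∀ i, m i ≠ i → 0 ≤ muf (wf p m i) := fun i hi =>
    (h55 _ _ (hw0 i) le_rfl (hw11 i hi)).1
  -- the classes
  obtain ⟨a, ha⟩ : ∃ a : ι → Prop, a = fun i => m i = i := ⟨_, rfl⟩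
  obtain ⟨b, hb⟩ : ∃ b : ι → Prop, b = fun i => wf p m i < 1 / 20000 := ⟨_, rfl⟩
  obtain ⟨c, hc⟩ : ∃ c : ι → Prop, c = fun i => yy p m i < 1 / 1024 ∧ yy p m (m i) < 1 / 1024 :=
    ⟨_, rfl⟩
  obtain ⟨e, he⟩ : ∃ e : ι → Prop, e = fun i => wf p m i < 1 / 50000 := ⟨_, rfl⟩
  have ham : ∀ i, a (m i) ↔ a i := by
    intro i
    rw [ha]
    show m (m i) = m i ↔ m i = i
    rw [hm1 i]
    exact eq_comm
  have hbm : ∀ i, b (m i) ↔ b i := by
    intro i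
    rw [hb]
    show wf p m (m i) < _ ↔ _
    rw [hwm i]
  have hem : ∀ i, e (m i) ↔ e i := by
    intro i
    rw [he]
    show wf p m (m i) < _ ↔ _
    rw [hwm i]
  have hcm : ∀ i, c (m i) ↔ c i := by
    intro i
    rw [hc]
    show (yy p m (m i) < 1 / 1024 ∧ yy p m (m (m i)) < 1 / 1024) ↔ _
    rw [hm1 i]
    exact and_comm
  obtain ⟨U, hU⟩ : ∃ U : Finset ι, U = univ.filter (fun i => a i) := ⟨_, rfl⟩
  obtain ⟨L, hL⟩ : ∃ L : Finset ι, L = univ.filter (fun i => ¬ a i ∧ ¬ b i) := ⟨_, rfl⟩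
  obtain ⟨B, hB⟩ : ∃ B : Finset ι, B = univ.filter (fun i => ¬ a i ∧ b i ∧ ¬ c i) := ⟨_, rfl⟩
  obtain ⟨S, hS⟩ : ∃ S : Finset ι, S = univ.filter (fun i => ¬ a i ∧ b i ∧ c i ∧ e i) := ⟨_, rfl⟩
  obtain ⟨Z, hZ⟩ : ∃ Z : Finset ι, Z = univ.filter (fun i => ¬ a i ∧ b i ∧ c i ∧ ¬ e i) :=
    ⟨_, rfl⟩
  obtain ⟨G, hG⟩ : ∃ G : Finset ι, G = univ.filter (fun i => ¬ a i ∧ b i ∧ c i) := ⟨_, rfl⟩
  have hpart : ∀ f : ι → ℝ, ∑ i, f i = ∑ i ∈ U, f i + ∑ i ∈ L, f i + ∑ i ∈ B, f i +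
      ∑ i ∈ S, f i + ∑ i ∈ Z, f i := by
    intro f
    rw [hU, hL, hB, hS, hZ]
    exact C6_part a b c e f
  have hpartG : ∀ f : ι → ℝ, ∑ i ∈ G, f i = ∑ i ∈ S, f i + ∑ i ∈ Z, f i := by
    intro f
    rw [hG, hS, hZ]
    exact C6_partG a b c e f
  -- membership
  have mU : ∀ i ∈ U, m i = i := by
    intro i hi
    rw [hU, mem_filter, ha] at hi
    exact hi.2
  have mL : ∀ i ∈ L, m i ≠ i ∧ 1 / 20000 ≤ wf p m i := by
    intro i hi
    rw [hL, mem_filter, ha, hb] at hi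
    exact ⟨hi.2.1, not_lt.1 hi.2.2⟩
  have mB : ∀ i ∈ B, m i ≠ i ∧ wf p m i < 1 / 20000 ∧
      ¬ (yy p m i < 1 / 1024 ∧ yy p m (m i) < 1 / 1024) := by
    intro i hi
    rw [hB, mem_filter, ha, hb, hc] at hi
    exact hi.2
  have mS : ∀ i ∈ S, m i ≠ i ∧ wf p m i < 1 / 20000 ∧
      (yy p m i < 1 / 1024 ∧ yy p m (m i) < 1 / 1024) ∧ wf p m i < 1 / 50000 := by
    intro i hi
    rw [hS, mem_filter, ha, hb, hc, he] at hi
    exact hi.2
  have mZ : ∀ i ∈ Z, m i ≠ i ∧ wf p m i < 1 / 20000 ∧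
      (yy p m i < 1 / 1024 ∧ yy p m (m i) < 1 / 1024) ∧ 1 / 50000 ≤ wf p m i := by
    intro i hi
    rw [hZ, mem_filter, ha, hb, hc, he] at hi
    exact ⟨hi.2.1, hi.2.2.1, hi.2.2.2.1, not_lt.1 hi.2.2.2.2⟩
  have mG : ∀ i ∈ G, m i ≠ i ∧ wf p m i < 1 / 20000 ∧
      (yy p m i < 1 / 1024 ∧ yy p m (m i) < 1 / 1024) := by
    intro i hi
    rw [hG, mem_filter, ha, hb, hc] at hi
    exact hi.2
  -- invariance
  have iL : ∀ i ∈ L, m i ∈ L := by
    intro i hi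
    rw [hL, mem_filter] at hi ⊢
    rw [ham, hbm]
    exact ⟨mem_univ _, hi.2⟩
  have iB : ∀ i ∈ B, m i ∈ B := by
    intro i hi
    rw [hB, mem_filter] at hi ⊢
    rw [ham, hbm, hcm]
    exact ⟨mem_univ _, hi.2⟩
  have iS : ∀ i ∈ S, m i ∈ S := by
    intro i hi
    rw [hS, mem_filter] at hi ⊢
    rw [ham, hbm, hcm, hem]
    exact ⟨mem_univ _, hi.2⟩
  have iZ : ∀ i ∈ Z, m i ∈ Z := by
    intro i hi
    rw [hZ, mem_filter] at hi ⊢
    rw [ham, hbm, hcm, hem]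
    exact ⟨mem_univ _, hi.2⟩
  have iG : ∀ i ∈ G, m i ∈ G := by
    intro i hi
    rw [hG, mem_filter] at hi ⊢
    rw [ham, hbm, hcm]
    exact ⟨mem_univ _, hi.2⟩
  -- block sums
  obtain ⟨T, hT⟩ : ∃ T : ι → ι → ℝ, T = C6_ee m (fun i l => gr p i l ^ 2) := ⟨_, rfl⟩
  obtain ⟨A, hA⟩ : ∃ A : ι → ι → ℝ, A = C6_ee m (fun i l => lam (gr p i l)) := ⟨_, rfl⟩
  have hTs : ∀ X Y : Finset ι, ∑ i ∈ X, ∑ l ∈ Y, T i l = ∑ i ∈ Y, ∑ l ∈ X, T i l := by
    intro X Y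
    rw [hT]
    exact C6_swap m hm1 _ (fun i l => by rw [C6_gsymm]) X Y
  have hAs : ∀ X Y : Finset ι, ∑ i ∈ X, ∑ l ∈ Y, A i l = ∑ i ∈ Y, ∑ l ∈ X, A i l := by
    intro X Y
    rw [hA]
    exact C6_swap m hm1 _ (fun i l => by rw [C6_gsymm]) X Y
  have hTn : ∀ i l, 0 ≤ T i l := by
    rw [hT]
    exact C6_Tnn p m
  have hTm : ∀ i, m i ≠ i → ∑ l, T i l = yy p m i := by
    rw [hT]
    exact C6_T p m hp
  have hTU : ∀ i, m i = i → ∑ l, T i l = uu p i - 1 := by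
    rw [hT]
    exact C6_TU p m hp
  have hTle : ∀ (i : ι) (X : Finset ι), ∑ l ∈ X, T i l ≤ ∑ l, T i l := fun i X =>
    sum_le_sum_of_subset_of_nonneg (subset_univ _) fun l _ _ => hTn i l
  have c1 : ∀ X Y : Finset ι, (∀ i ∈ X, m i ∈ X ∧ m i ≠ i) →
      ∑ i ∈ X, ∑ l ∈ Y, A i l ≤ ∑ i ∈ X, muf (wf p m i) * ∑ l ∈ Y, T i l := by
    intro X Y hX
    have h := hC1 ι d p m hp hMM X Y hX
    have h1 : ∀ i, ∑ l ∈ (Y.erase i).erase (m i), lam (gr p i l) = ∑ l ∈ Y, A i l := by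
      rw [hA]
      exact C6_erase m (fun i l => lam (gr p i l)) Y
    have h2 : ∀ i, ∑ l ∈ (Y.erase i).erase (m i), gr p i l ^ 2 = ∑ l ∈ Y, T i l := by
      rw [hT]
      exact C6_erase m (fun i l => gr p i l ^ 2) Y
    simp only [h1, h2] at h
    exact h
  have i1 : ∑ i ∈ U, ∑ l, A i l ≤ 333 / 10000 * ∑ i ∈ U, (uu p i - 1) := by
    rw [mul_sum]
    refine sum_le_sum fun i hi => ?_
    have h := hw1 i (mU i hi)
    have h2 := C6_row p m i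
    rw [if_pos (mU i hi), zero_add] at h2
    rw [hA]
    linarith
  have i2 : ∑ i ∈ B, ∑ l, A i l ≤ ∑ i ∈ B, muf (wf p m i) * yy p m i := by
    refine (c1 B univ fun i hi => ⟨iB i hi, (mB i hi).1⟩).trans (le_of_eq ?_)
    exact sum_congr rfl fun i hi => by rw [hTm i (mB i hi).1]
  have i3 : ∑ i ∈ B, ∑ l ∈ G, A i l ≤ ∑ i ∈ B, muf (wf p m i) * yy p m i := by
    refine (c1 B G fun i hi => ⟨iB i hi, (mB i hi).1⟩).trans ?_
    refine sum_le_sum fun i hi => ?_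
    have h := hTle i G
    rw [hTm i (mB i hi).1] at h
    exact mul_le_mul_of_nonneg_left h (hmuf i (mB i hi).1)
  have hμ0 : ∀ i ∈ S, muf (wf p m i) ≤ muf (1 / 50000) := fun i hi =>
    (h55 _ _ (hw0 i) (mS i hi).2.2.2.le (by norm_num)).2
  have cS : ∀ Y : Finset ι, ∑ i ∈ S, ∑ l ∈ Y, A i l ≤
      muf (1 / 50000) * ∑ i ∈ Y, ∑ l ∈ S, T i l := by
    intro Y
    rw [hTs Y S, mul_sum]
    refine (c1 S Y fun i hi => ⟨iS i hi, (mS i hi).1⟩).trans ?_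
    refine sum_le_sum fun i hi => ?_
    exact mul_le_mul_of_nonneg_right (hμ0 i hi) (sum_nonneg fun l _ => hTn i l)
  have i5 : ∑ i ∈ L, ∑ l, A i l + ∑ i ∈ S, ∑ l ∈ L, A i l ≤
      ∑ i ∈ L, muf (wf p m i) * yy p m i := by
    have h1 : ∑ i ∈ L, ∑ l, A i l = ∑ i ∈ L, ∑ l ∈ S, A i l + ∑ i ∈ L, ∑ l ∈ Sᶜ, A i l := by
      rw [← sum_add_distrib]
      exact sum_congr rfl fun i _ => (sum_add_sum_compl S _).symm
    have h2 := hAs L S
    have h3 := cS L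
    have h4 := c1 L Sᶜ fun i hi => ⟨iL i hi, (mL i hi).1⟩
    have h5 : 2 * (muf (1 / 50000) * ∑ i ∈ L, ∑ l ∈ S, T i l) +
        ∑ i ∈ L, muf (wf p m i) * ∑ l ∈ Sᶜ, T i l ≤ ∑ i ∈ L, muf (wf p m i) * yy p m i := by
      rw [mul_sum, mul_sum, ← sum_add_distrib]
      refine sum_le_sum fun i hi => ?_
      have h6 : ∑ l ∈ S, T i l + ∑ l ∈ Sᶜ, T i l = yy p m i := by
        rw [sum_add_sum_compl, hTm i (mL i hi).1]
      have h7 : 0 ≤ ∑ l ∈ S, T i l := sum_nonneg fun l _ => hTn i l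
      have h8 := h57 _ (mL i hi).2 (hw11 i (mL i hi).1)
      have h9 := mul_le_mul_of_nonneg_right h8 h7
      rw [← h6]
      linarith
    linarith
  have i6 : ∑ i ∈ Z, ∑ l ∈ L, A i l + ∑ i ∈ Z, ∑ l ∈ U, A i l ≤
      ∑ i ∈ Z, muf (wf p m i) * yy p m i := by
    have h1 := c1 Z L fun i hi => ⟨iZ i hi, (mZ i hi).1⟩
    have h2 := c1 Z U fun i hi => ⟨iZ i hi, (mZ i hi).1⟩
    have h3 : ∑ i ∈ Z, muf (wf p m i) * ∑ l ∈ L, T i l +
        ∑ i ∈ Z, muf (wf p m i) * ∑ l ∈ U, T i l ≤ ∑ i ∈ Z, muf (wf p m i) * yy p m i := by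
      rw [← sum_add_distrib]
      refine sum_le_sum fun i hi => ?_
      have h4 := hpart (T i)
      rw [hTm i (mZ i hi).1] at h4
      have h5 : 0 ≤ ∑ l ∈ B, T i l := sum_nonneg fun l _ => hTn i l
      have h6 : 0 ≤ ∑ l ∈ S, T i l := sum_nonneg fun l _ => hTn i l
      have h7 : 0 ≤ ∑ l ∈ Z, T i l := sum_nonneg fun l _ => hTn i l
      rw [← mul_add]
      exact mul_le_mul_of_nonneg_left (by linarith) (hmuf i (mZ i hi).1)
    linarith
  have i7 : ∑ i ∈ S, ∑ l ∈ U, A i l ≤ 1 / 200000 * ∑ i ∈ U, (uu p i - 1) := by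
    refine (cS U).trans ?_
    have h1 : 0 ≤ ∑ i ∈ U, ∑ l ∈ S, T i l := sum_nonneg fun i _ => sum_nonneg fun l _ => hTn i l
    refine (mul_le_mul_of_nonneg_right h56 h1).trans ?_
    refine mul_le_mul_of_nonneg_left ?_ (by norm_num)
    refine sum_le_sum fun i hi => ?_
    have h2 := hTle i S
    rwa [hTU i (mU i hi)] at h2
  obtain ⟨V, hV⟩ : ∃ V : ℝ, V = ∑ i ∈ G, ∑ l ∈ G, (inner ℝ (wv p m i) (p l) : ℝ) ^ 2 := ⟨_, rfl⟩
  have hV0 : 0 ≤ V := by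
    rw [hV]
    exact sum_nonneg fun i _ => sum_nonneg fun l _ => sq_nonneg _
  have i8 : ∑ i ∈ G, ∑ l ∈ G, A i l ≤ 1 / 88 * V + 1 / 5000 * ∑ i ∈ G, wf p m i ^ 2 := by
    have h := hC3 ι d p m hp hm1 G (fun i hi => ⟨iG i hi, (mG i hi).1⟩)
      (fun i hi => (mG i hi).2.2.1.le)
    have h1 : ∀ i, ∑ l ∈ (G.erase i).erase (m i), lam (gr p i l) = ∑ l ∈ G, A i l := by
      rw [hA]
      exact C6_erase m (fun i l => lam (gr p i l)) G
    simp only [h1] at h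
    rw [hV]
    exact h
  have i9 : ∑ i, (uu p i - θ) ^ 2 / uu p i + 193 / 2000 * V - θ / 10 * ∑ i ∈ G, wf p m i ^ 2 ≤
      DD p θ := by
    rw [hV]
    refine hC4 ι d p m hp hm1 G iG θ (by linarith) fun i hi => ?_
    have h1 := hyu i
    have h2 := (mG i hi).2.2.1
    have h3 : wf p m i ^ 2 ≤ 11 / 100 := hw11 i (mG i hi).1
    have h4 : 0 ≤ wf p m i ^ 2 := sq_nonneg _
    have h5 : (1 - 2 * wf p m i ^ 2) ^ 2 ≤ 1 := by nlinarith
    have h6 := C6_one p hp i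
    linarith
  have hWG : 0 ≤ ∑ i ∈ G, wf p m i ^ 2 := sum_nonneg fun i _ => sq_nonneg _
  -- the sum of all entries
  have e1 := hpart fun i => ∑ l, A i l
  have e2 : ∑ i ∈ S, ∑ l, A i l = ∑ i ∈ S, ∑ l ∈ U, A i l + ∑ i ∈ S, ∑ l ∈ L, A i l +
      ∑ i ∈ S, ∑ l ∈ B, A i l + ∑ i ∈ S, ∑ l ∈ S, A i l + ∑ i ∈ S, ∑ l ∈ Z, A i l := by
    simp only [hpart (A _), sum_add_distrib]
  have e3 : ∑ i ∈ Z, ∑ l, A i l = ∑ i ∈ Z, ∑ l ∈ U, A i l + ∑ i ∈ Z, ∑ l ∈ L, A i l +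
      ∑ i ∈ Z, ∑ l ∈ B, A i l + ∑ i ∈ Z, ∑ l ∈ S, A i l + ∑ i ∈ Z, ∑ l ∈ Z, A i l := by
    simp only [hpart (A _), sum_add_distrib]
  have e4 : ∑ i ∈ G, ∑ l ∈ G, A i l = ∑ i ∈ S, ∑ l ∈ S, A i l + ∑ i ∈ S, ∑ l ∈ Z, A i l +
      (∑ i ∈ Z, ∑ l ∈ S, A i l + ∑ i ∈ Z, ∑ l ∈ Z, A i l) := by
    rw [hpartG]
    simp only [hpartG (A _), sum_add_distrib]
  have e5 : ∑ i ∈ B, ∑ l ∈ G, A i l = ∑ i ∈ B, ∑ l ∈ S, A i l + ∑ i ∈ B, ∑ l ∈ Z, A i l := by
    simp only [hpartG (A _), sum_add_distrib]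
  have e6 := hAs B S
  have e7 := hAs B Z
  have hall : ∑ i, ∑ l, A i l ≤ (333 / 10000 + 1 / 200000) * ∑ i ∈ U, (uu p i - 1) +
      ∑ i ∈ L, muf (wf p m i) * yy p m i + 2 * ∑ i ∈ B, muf (wf p m i) * yy p m i +
      ∑ i ∈ Z, muf (wf p m i) * yy p m i + (1 / 88 * V + 1 / 5000 * ∑ i ∈ G, wf p m i ^ 2) := by
    linarith
  -- rows
  obtain ⟨F, hF⟩ : ∃ F : ι → ℝ, ∀ i, F i = (if m i = i then 0 else lam (gr p i (m i))) - c0 -
    99 / 800 * ((uu p i - θ) ^ 2 / uu p i) + g2 p m i := ⟨_, fun _ => rfl⟩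
  have hq0 : ∀ i, 0 ≤ (uu p i - θ) ^ 2 / uu p i := fun i =>
    div_nonneg (sq_nonneg _) (by linarith [C6_one p hp i])
  have rU : ∑ i ∈ U, F i + (333 / 10000 + 1 / 200000) * ∑ i ∈ U, (uu p i - 1) ≤ 0 := by
    rw [mul_sum, ← sum_add_distrib]
    refine sum_nonpos fun i hi => ?_
    have h1 := h54 (uu p i) θ (C6_one p hp i) hθ1 hθ3
    have h2 : g2 p m i = 1 / 2000 := by
      unfold g2
      rw [if_pos (mU i hi)]
    rw [hF i, h2, if_pos (mU i hi)]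
    linarith
  have rL : ∑ i ∈ L, F i + ∑ i ∈ L, muf (wf p m i) * yy p m i ≤ 0 := by
    rw [← sum_add_distrib]
    refine sum_nonpos fun i hi => ?_
    have hi1 := (mL i hi).1
    have h1 := hRm (wf p m i) (uu p i) θ (hw0 i) (hw11 i hi1) (hu i hi1) hθ1 hθ3
    have h2 : g2 p m i = wf p m i ^ 2 / 2000 := by
      unfold g2
      rw [if_neg hi1, if_pos (mL i hi).2]
    rw [hyu i, ht i] at h1
    rw [hF i, h2, if_neg hi1]
    have h3 := (mL i hi).2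
    have h4 : (θ - 2) * wf p m i / 4 ≤ wf p m i ^ 2 / 2000 := by
      have h5 : θ - 2 ≤ 1 / 10 ^ 7 := by linarith
      nlinarith [hw0 i, mul_le_mul_of_nonneg_right h5 (hw0 i), mul_le_mul_of_nonneg_right h3 (hw0 i)]
    linarith
  have rB : ∑ i ∈ B, F i + 2 * ∑ i ∈ B, muf (wf p m i) * yy p m i ≤ 0 := by
    rw [mul_sum, ← sum_add_distrib]
    obtain ⟨H, hH⟩ : ∃ H : ι → ℝ, H = fun i => F i + 2 * (muf (wf p m i) * yy p m i) := ⟨_, rfl⟩
    have h1 : ∑ i ∈ B, (F i + 2 * (muf (wf p m i) * yy p m i)) = ∑ i ∈ B, H i := by rw [hH]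
    rw [h1]
    have h2 := C6_inv m hm1 B iB H
    have h3 : ∑ i ∈ B, (H i + H (m i)) ≤ 0 := by
      refine sum_nonpos fun i hi => ?_
      have key : ∀ j ∈ B, H j ≤ 11 / 10 ^ 9 ∧ (1 / 1024 ≤ yy p m j → H j ≤ -11 / 10 ^ 9) := by
        intro j hj
        obtain ⟨hj1, hj2, hj3⟩ := mB j hj
        obtain ⟨h4, h5⟩ := h53 (wf p m j) (uu p j) θ (hw0 j) hj2.le (hu j hj1) hθ1 hθ2
        rw [hyu j, ht j] at h4 h5
        have h6 : g2 p m j = 9 / 10 ^ 9 := by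
          unfold g2
          rw [if_neg hj1, if_neg (not_le.2 hj2), if_neg hj3]
        have h7 : H j = lam (gr p j (m j)) - c0 - 99 / 800 * ((uu p j - θ) ^ 2 / uu p j) +
            9 / 10 ^ 9 + 2 * (muf (wf p m j) * yy p m j) := by
          rw [hH]
          show F j + _ = _
          rw [hF j, h6, if_neg hj1]
        rw [h7]
        refine ⟨by linarith, fun h8 => ?_⟩
        have h9 := h5 h8
        linarith
      obtain ⟨hi1, hi2, hi3⟩ := mB i hi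
      obtain ⟨k1, k2⟩ := key i hi
      obtain ⟨k3, k4⟩ := key (m i) (iB i hi)
      rcases not_and_or.1 hi3 with h | h
      · have := k2 (not_lt.1 h)
        linarith
      · have := k4 (not_lt.1 h)
        linarith
    rw [sum_add_distrib, h2] at h3
    linarith
  have rS : ∑ i ∈ S, F i + 1 / 40 * ∑ i ∈ S, wf p m i ^ 2 ≤ 0 := by
    rw [mul_sum, ← sum_add_distrib]
    refine sum_nonpos fun i hi => ?_
    obtain ⟨hi1, hi2, hi3, hi4⟩ := mS i hi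
    have h1 := h52 (wf p m i) (hw0 i) (by linarith)
    rw [ht i] at h1
    have h2 : g2 p m i = wf p m i ^ 2 / 500 := by
      unfold g2
      rw [if_neg hi1, if_neg (not_le.2 hi2), if_pos hi3]
    rw [hF i, h2, if_neg hi1]
    have h3 := hq0 i
    have h4 : 0 ≤ wf p m i ^ 2 := sq_nonneg _
    linarith
  have rZ : ∑ i ∈ Z, F i + ∑ i ∈ Z, muf (wf p m i) * yy p m i + 1 / 40 * ∑ i ∈ Z, wf p m i ^ 2 ≤
      0 := by
    rw [mul_sum, ← sum_add_distrib, ← sum_add_distrib]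
    refine sum_nonpos fun i hi => ?_
    obtain ⟨hi1, hi2, hi3, hi4⟩ := mZ i hi
    have h1 := h51 (wf p m i) (uu p i) θ (hw0 i) (by linarith) (hu i hi1) hθ1 hθ3
    rw [hyu i, ht i] at h1
    have h2 : g2 p m i = wf p m i ^ 2 / 500 := by
      unfold g2
      rw [if_neg hi1, if_neg (not_le.2 hi2), if_pos hi3]
    rw [hF i, h2, if_neg hi1]
    have h4 : (θ - 2) * wf p m i / 4 ≤ 3 / 1000 * wf p m i ^ 2 := by
      have h5 : θ - 2 ≤ 1 / 10 ^ 7 := by linarith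
      nlinarith [hw0 i, mul_le_mul_of_nonneg_right h5 (hw0 i),
        mul_le_mul_of_nonneg_right hi4 (hw0 i)]
    linarith
  -- summation
  have s1 : ∑ i, ∑ j ∈ univ.erase i, lam (gr p i j) =
      ∑ i, (if m i = i then 0 else lam (gr p i (m i))) + ∑ i, ∑ l, A i l := by
    rw [← sum_add_distrib, hA]
    exact sum_congr rfl fun i _ => C6_row p m i
  have s2 : ∑ i, F i = ∑ i, (if m i = i then 0 else lam (gr p i (m i))) -
      c0 * (Fintype.card ι : ℝ) - 99 / 800 * ∑ i, (uu p i - θ) ^ 2 / uu p i + ∑ i, g2 p m i := by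
    simp only [hF]
    rw [sum_add_distrib, sum_sub_distrib, sum_sub_distrib, ← mul_sum, sum_const, card_univ,
      nsmul_eq_mul, mul_comm c0]
  have s3 := hpart F
  have s4 := hpartG fun i => wf p m i ^ 2
  have s5 : θ / 10 * ∑ i ∈ G, wf p m i ^ 2 ≤ (2 + 1 / 10 ^ 7) / 10 * ∑ i ∈ G, wf p m i ^ 2 :=
    mul_le_mul_of_nonneg_right (by linarith) hWG
  rw [s1]
  linarith

end Pool.Agent.XPL
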