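import Pool.Agent.XPL.St3

/-!
# C7 : consequences for near optimal families
-/

set_option autoImplicit false

namespace Pool.Agent.XPL

open Finset

theorem thm_C7 : St_C6 → St_Id → St_Pe → St_C7 := by
  intro hC6 hId hPe ι _ _ d p h1 hd hn hn'
  set n : ℝ := (Fintype.card ι : ℝ) with hndef
  have hd0 : (0 : ℝ) < (d : ℝ) := by exact_mod_cast hd
  have hn2 : 2 * (d : ℝ) ≤ n := by
    rw [hndef]
    exact_mod_cast hn
  set θ : ℝ := n / d with hθ
  have hθd : θ * d = n := div_mul_cancel₀ _ hd0.ne'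
  have hθ1 : 2 ≤ θ := by rw [hθ, le_div_iff₀ hd0]; exact hn2
  have hθ2 : θ ≤ 2 + 1 / 10 ^ 7 := by rw [hθ, div_le_iff₀ hd0]; exact hn'
  obtain ⟨m, hm, h2⟩ := hC6 ι d p h1 θ hθ1 hθ2
  obtain ⟨-, hDD, -⟩ := hPe ι d p h1 θ
  have h3 := hId ι d p h1
  have h4 : DD p θ = G2 p - n ^ 2 / d := by
    have : DD p θ = G2 p - 2 * θ * n + θ ^ 2 * d := rfl
    rw [this]
    have e1 : θ * n = n ^ 2 / d := by rw [hθ]; ring
    have e2 : θ ^ 2 * d = n ^ 2 / d := by rw [pow_two, mul_assoc, hθd, e1]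
    linarith
  have h5 : c0 = √2 - 11 / 8 := rfl
  have h6 : 0 ≤ ‖∑ i, p i‖ ^ 2 := sq_nonneg _
  have h7 : Bs n d = n ^ 2 - 7 / 4 * n + √2 * n - n ^ 2 / d / 8 := by
    unfold Bs
    rw [div_div, mul_comm (d : ℝ) 8]
  have hg : ∀ i, 0 ≤ g2 p m i := by
    intro i
    unfold g2
    split_ifs <;> positivity
  have hmain : sq p + DD p θ / 800 + ∑ i, g2 p m i ≤ Bs n d := by
    rw [h5] at h2
    rw [h7]
    nlinarith
  have hgs : 0 ≤ ∑ i, g2 p m i := sum_nonneg fun i _ => hg i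
  refine ⟨by linarith, fun hs => ?_⟩
  have hsum : ∑ i, g2 p m i ≤ 1 / 10 ^ 12 := by linarith
  have hi : ∀ i, g2 p m i ≤ 1 / 10 ^ 12 := fun i =>
    (single_le_sum (f := fun i => g2 p m i) (fun j _ => hg j) (mem_univ i)).trans hsum
  have hcase : ∀ i, m i ≠ i ∧ wf p m i < 1 / 20000 ∧ (yy p m i < 1 / 1024) ∧
      g2 p m i = wf p m i ^ 2 / 500 := by
    intro i
    have hgi := hi i
    unfold g2 at hgi ⊢
    split_ifs at hgi ⊢ with a1 a2 a3
    · norm_num at hgi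
    · exfalso
      have : (1 / 20000 : ℝ) ^ 2 ≤ wf p m i ^ 2 := pow_le_pow_left₀ (by norm_num) a2 2
      norm_num at hgi this
      linarith
    · exact ⟨a1, not_le.1 a2, a3.1, rfl⟩
    · norm_num at hgi
  refine ⟨m, hm.1, fun i => (hcase i).1, fun i => (hcase i).2.1, fun i => (hcase i).2.2.1, ?_, ?_⟩
  · change DD p θ ≤ 800 / 10 ^ 12
    linarith
  · have : ∑ i, g2 p m i = (∑ i, wf p m i ^ 2) / 500 := by
      rw [sum_div]
      exact sum_congr rfl fun i _ => (hcase i).2.2.2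
    linarith

end Pool.Agent.XPL
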