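import Pool.Agent.XPL.St3

/-!
# XPL C8: lower bound for the mixed Gram sum
-/

set_option autoImplicit false

namespace Pool.Agent.XPL

open Finset

/-! ### The Frobenius bound from below (copied from Pe) -/

private noncomputable def C8_X {ι : Type} [Fintype ι] {d : ℕ} (p : ι → E d) (θ : ℝ)
    (c : Fin d × Fin d) : ℝ :=
  ∑ i, (p i c.1 * p i c.2) - if c.1 = c.2 then θ else 0

private lemma C8_inner {d : ℕ} (v w : E d) : (inner ℝ v w : ℝ) = ∑ a, v a * w a := by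
  rw [PiLp.inner_apply]
  refine Finset.sum_congr rfl fun a _ => ?_
  simp [mul_comm]

private lemma C8_norm {ι : Type} {d : ℕ} (p : ι → E d) (hp : ∀ i, ‖p i‖ = 1) (i : ι) :
    gr p i i = 1 := by
  unfold gr
  rw [real_inner_self_eq_norm_sq, hp i]
  norm_num

private lemma C8_one {ι : Type} [Fintype ι] {d : ℕ} (p : ι → E d) (hp : ∀ i, ‖p i‖ = 1)
    (θ : ℝ) : ∑ c, C8_X p θ c ^ 2 = DD p θ := by
  have e1 : ∀ c : Fin d × Fin d, C8_X p θ c ^ 2 =
      (∑ i, ∑ j, ((p i c.1 * p j c.1) * (p i c.2 * p j c.2))) -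
        2 * θ * (if c.1 = c.2 then ∑ i, (p i c.1 * p i c.2) else 0) +
        (if c.1 = c.2 then θ ^ 2 else 0) := by
    intro c
    have e2 : (∑ i, (p i c.1 * p i c.2)) ^ 2 =
        ∑ i, ∑ j, ((p i c.1 * p j c.1) * (p i c.2 * p j c.2)) := by
      rw [pow_two, Finset.sum_mul_sum]
      refine Finset.sum_congr rfl fun i _ => Finset.sum_congr rfl fun j _ => ?_
      ring
    unfold C8_X
    rw [← e2]
    split_ifs <;> ring
  rw [Finset.sum_congr rfl fun c _ => e1 c, Finset.sum_add_distrib, Finset.sum_sub_distrib,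
    ← Finset.mul_sum]
  have e3 : ∑ c : Fin d × Fin d, ∑ i, ∑ j, ((p i c.1 * p j c.1) *
      (p i c.2 * p j c.2)) = ∑ i, ∑ j, gr p i j ^ 2 := by
    rw [Finset.sum_comm]
    refine Finset.sum_congr rfl fun i _ => ?_
    rw [Finset.sum_comm]
    refine Finset.sum_congr rfl fun j _ => ?_
    rw [Fintype.sum_prod_type]
    unfold gr
    rw [C8_inner, pow_two, Finset.sum_mul_sum]
  have e4 : ∑ c : Fin d × Fin d, (if c.1 = c.2 then ∑ i, (p i c.1 * p i c.2) else 0) =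
      (Fintype.card ι : ℝ) := by
    rw [Fintype.sum_prod_type]
    have h1 : ∀ a : Fin d, ∑ b : Fin d, (if a = b then ∑ i, (p i a * p i b) else 0) =
        ∑ i, (p i a * p i a) := by
      intro a
      rw [Finset.sum_ite_eq]
      simp
    rw [Finset.sum_congr rfl fun a _ => h1 a, Finset.sum_comm]
    have h2 : ∀ i, ∑ a, p i a * p i a = 1 := by
      intro i
      rw [← C8_inner]
      exact C8_norm p hp i
    rw [Finset.sum_congr rfl fun i _ => h2 i, Finset.sum_const, Finset.card_univ, nsmul_eq_mul,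
      mul_one]
  have e5 : ∑ c : Fin d × Fin d, (if c.1 = c.2 then θ ^ 2 else 0) = θ ^ 2 * d := by
    rw [Fintype.sum_prod_type]
    have h1 : ∀ a : Fin d, ∑ b : Fin d, (if a = b then θ ^ 2 else 0) = θ ^ 2 := by
      intro a
      rw [Finset.sum_ite_eq]
      simp
    rw [Finset.sum_congr rfl fun a _ => h1 a, Finset.sum_const, Finset.card_univ,
      Fintype.card_fin, nsmul_eq_mul, mul_comm]
  rw [e3, e4, e5]
  unfold DD G2 uu
  rfl

private lemma C8_low {ι : Type} [Fintype ι] {d : ℕ} (p : ι → E d) (hp : ∀ i, ‖p i‖ = 1)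
    (θ : ℝ) (v : E d) :
    (θ - √(DD p θ)) * ‖v‖ ^ 2 ≤ ∑ j, (inner ℝ v (p j) : ℝ) ^ 2 := by
  have hone := C8_one p hp θ
  have hDD : 0 ≤ DD p θ := by
    rw [← hone]
    exact Finset.sum_nonneg fun _ _ => sq_nonneg _
  have hcs := Finset.sum_mul_sq_le_sq_mul_sq (Finset.univ : Finset (Fin d × Fin d))
    (C8_X p θ) (fun c => v c.1 * v c.2)
  have hvv : ∑ a, v a * v a = ‖v‖ ^ 2 := by
    rw [← C8_inner, real_inner_self_eq_norm_sq]
  have e1 : ∑ c : Fin d × Fin d, (v c.1 * v c.2) ^ 2 = (‖v‖ ^ 2) ^ 2 := by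
    rw [Fintype.sum_prod_type, ← hvv, pow_two, Finset.sum_mul_sum]
    refine Finset.sum_congr rfl fun a _ => Finset.sum_congr rfl fun b _ => ?_
    ring
  have e2 : ∑ c : Fin d × Fin d, C8_X p θ c * (v c.1 * v c.2) =
      ∑ j, (inner ℝ v (p j) : ℝ) ^ 2 - θ * ‖v‖ ^ 2 := by
    have g1 : ∀ c : Fin d × Fin d, C8_X p θ c * (v c.1 * v c.2) =
        ∑ j, (v c.1 * p j c.1) * (v c.2 * p j c.2) -
          (if c.1 = c.2 then θ * (v c.1 * v c.2) else 0) := by
      intro c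
      unfold C8_X
      rw [sub_mul, Finset.sum_mul]
      congr 1
      · refine Finset.sum_congr rfl fun j _ => ?_
        ring
      · split_ifs
        · rfl
        · rw [zero_mul]
    rw [Finset.sum_congr rfl fun c _ => g1 c, Finset.sum_sub_distrib]
    congr 1
    · rw [Finset.sum_comm]
      refine Finset.sum_congr rfl fun j _ => ?_
      rw [Fintype.sum_prod_type, C8_inner, pow_two, Finset.sum_mul_sum]
    · rw [Fintype.sum_prod_type, ← hvv, Finset.mul_sum]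
      refine Finset.sum_congr rfl fun a _ => ?_
      have : ∑ b : Fin d, (if a = b then θ * (v a * v b) else 0) = θ * (v a * v a) := by
        rw [Finset.sum_ite_eq]
        simp
      exact this
  rw [e1, e2, hone] at hcs
  have h3 : |∑ j, (inner ℝ v (p j) : ℝ) ^ 2 - θ * ‖v‖ ^ 2| ≤ √(DD p θ) * ‖v‖ ^ 2 := by
    rw [← Real.sqrt_sq_eq_abs]
    have h4 : √(DD p θ) * ‖v‖ ^ 2 = √(DD p θ * (‖v‖ ^ 2) ^ 2) := by
      rw [Real.sqrt_mul hDD, Real.sqrt_sq (sq_nonneg _)]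
    rw [h4]
    exact Real.sqrt_le_sqrt hcs
  have h5 := (abs_le.1 h3).1
  linarith

/-! ### The sum -/

private theorem C8_ers {ι : Type} [Fintype ι] [DecidableEq ι] (m : ι → ι)
    (hm : ∀ i, m i ≠ i) (i : ι) (F : ι → ℝ) :
    ∑ j ∈ (univ.erase i).erase (m i), F j = ∑ j, F j - F i - F (m i) := by
  rw [Finset.sum_erase_eq_sub (Finset.mem_erase.mpr ⟨hm i, Finset.mem_univ _⟩),
    Finset.sum_erase_eq_sub (Finset.mem_univ _)]

private theorem C8_reidx {ι : Type} [Fintype ι] {A : Type} [AddCommMonoid A] (m : ι → ι)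
    (hmm : ∀ i, m (m i) = i) (F : ι → A) : ∑ j, F (m j) = ∑ j, F j :=
  Fintype.sum_bijective m (Function.Involutive.bijective hmm) _ _ (fun _ => rfl)

theorem thm_C8 : St_C8 := by
  intro ι _ _ d p m hp hmm hm θ
  have hv := C8_low p hp θ
  set u : ι → E d := uv p m with hu
  set w : ι → E d := wv p m with hw
  have hum : ∀ i, u (m i) = -u i := by
    intro i
    rw [hu]
    unfold uv
    rw [hmm, ← smul_neg, neg_sub]
  have hwm : ∀ i, w (m i) = w i := by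
    intro i
    rw [hw]
    unfold wv
    rw [hmm, add_comm]
  have hpu : ∀ j, p j = u j + w j := by
    intro j
    rw [hu, hw]
    unfold uv wv
    rw [← smul_add]
    have h : p j - p (m j) + (p j + p (m j)) = (2 : ℝ) • p j := by
      rw [two_smul]
      abel
    rw [h, smul_smul]
    norm_num
  have hpm : ∀ j, p (m j) = -u j + w j := by
    intro j
    rw [hpu (m j), hum, hwm]
  have huw : ∀ i, (inner ℝ (u i) (w i) : ℝ) = 0 := by
    intro i
    have h1 : ‖u i + w i‖ ^ 2 = 1 := by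
      rw [← hpu, hp]
      norm_num
    have h2 : ‖-u i + w i‖ ^ 2 = 1 := by
      rw [← hpm, hp]
      norm_num
    rw [norm_add_sq_real] at h1 h2
    rw [norm_neg, inner_neg_left] at h2
    linarith
  have hww : ∀ i, (inner ℝ (w i) (w i) : ℝ) = ‖w i‖ ^ 2 := fun i => real_inner_self_eq_norm_sq _
  -- the splitting of the squares
  have hsp : ∀ x : E d, ∑ j, ((inner ℝ x (u j) : ℝ) ^ 2 + (inner ℝ x (w j) : ℝ) ^ 2)
      = ∑ j, (inner ℝ x (p j) : ℝ) ^ 2 := by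
    intro x
    have h1 : ∑ j, (inner ℝ x (p (m j)) : ℝ) ^ 2 = ∑ j, (inner ℝ x (p j) : ℝ) ^ 2 :=
      C8_reidx m hmm (fun j => (inner ℝ x (p j) : ℝ) ^ 2)
    have h2 : ∑ j, ((inner ℝ x (p j) : ℝ) ^ 2 + (inner ℝ x (p (m j)) : ℝ) ^ 2)
        = ∑ j, 2 * ((inner ℝ x (u j) : ℝ) ^ 2 + (inner ℝ x (w j) : ℝ) ^ 2) := by
      refine Finset.sum_congr rfl (fun j _ => ?_)
      rw [hpu j, hpm j, inner_add_right, inner_add_right, inner_neg_right]
      ring
    rw [Finset.sum_add_distrib, h1, ← Finset.mul_sum] at h2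
    linarith
  have h2 : ∑ i, ∑ j, (inner ℝ (u i) (w j) : ℝ) ^ 2 = ∑ i, ∑ j, (inner ℝ (w i) (u j) : ℝ) ^ 2 := by
    rw [Finset.sum_comm]
    refine Finset.sum_congr rfl (fun i _ => Finset.sum_congr rfl (fun j _ => ?_))
    rw [real_inner_comm]
  -- the sum over the erased sets
  have h3 : ∀ i, ∑ j ∈ (univ.erase i).erase (m i), ((inner ℝ (u i) (w j) : ℝ) ^ 2
        + (inner ℝ (w i) (u j) : ℝ) ^ 2 + (inner ℝ (w i) (w j) : ℝ) ^ 2)
      = ∑ j, (inner ℝ (u i) (w j) : ℝ) ^ 2 + ∑ j, (inner ℝ (w i) (u j) : ℝ) ^ 2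
        + ∑ j, (inner ℝ (w i) (w j) : ℝ) ^ 2 - 2 * ‖w i‖ ^ 4 := by
    intro i
    have e1 : (inner ℝ (w i) (u i) : ℝ) = 0 := by
      rw [real_inner_comm, huw]
    rw [C8_ers m hm, hum, hwm, inner_neg_right, hww, huw, e1]
    simp only [Finset.sum_add_distrib]
    ring
  have h4 : ∑ i, ∑ j ∈ (univ.erase i).erase (m i), ((inner ℝ (u i) (w j) : ℝ) ^ 2
        + (inner ℝ (w i) (u j) : ℝ) ^ 2 + (inner ℝ (w i) (w j) : ℝ) ^ 2)
      = 2 * (∑ i, ∑ j, (inner ℝ (w i) (p j) : ℝ) ^ 2)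
        - ∑ i, ∑ j, (inner ℝ (w i) (w j) : ℝ) ^ 2 - 2 * ∑ i, ‖w i‖ ^ 4 := by
    rw [Finset.sum_congr rfl (fun i _ => h3 i), Finset.sum_sub_distrib, Finset.sum_add_distrib,
      Finset.sum_add_distrib, h2, ← Finset.mul_sum]
    have e1 : ∑ i, ∑ j, (inner ℝ (w i) (p j) : ℝ) ^ 2 =
        ∑ i, ∑ j, (inner ℝ (w i) (u j) : ℝ) ^ 2 + ∑ i, ∑ j, (inner ℝ (w i) (w j) : ℝ) ^ 2 := by
      rw [← Finset.sum_add_distrib]
      refine Finset.sum_congr rfl (fun i _ => ?_)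
      rw [← hsp, Finset.sum_add_distrib]
    rw [e1]
    ring
  have h5 : ∑ i, ∑ j, (inner ℝ (w i) (w j) : ℝ) ^ 2 ≤ (∑ i, ‖w i‖ ^ 2) ^ 2 := by
    rw [pow_two (∑ i, ‖w i‖ ^ 2), Finset.sum_mul_sum]
    refine Finset.sum_le_sum (fun i _ => Finset.sum_le_sum (fun j _ => ?_))
    have h6 := abs_real_inner_le_norm (w i) (w j)
    have h7 := pow_le_pow_left₀ (abs_nonneg _) h6 2
    rw [sq_abs, mul_pow] at h7
    exact h7
  have h6 : (θ - √(DD p θ)) * (∑ i, ‖w i‖ ^ 2) ≤ ∑ i, ∑ j, (inner ℝ (w i) (p j) : ℝ) ^ 2 := by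
    rw [Finset.mul_sum]
    exact Finset.sum_le_sum (fun i _ => hv (w i))
  rw [h4]
  linarith

end Pool.Agent.XPL
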