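import Pool.Agent.XPL.St3

/-!
# C9 (helper34): comparison with the antipodal family
-/

set_option autoImplicit false

namespace Pool.Agent.XPL

open Finset

private theorem C9_root (w2 : ℝ) (h : w2 ≤ 2) : √(2 - 2 * w2) ≤ √2 - √2 / 2 * w2 := by
  rw [Real.sqrt_le_iff]
  have h1 : √2 * √2 = 2 := Real.mul_self_sqrt (by norm_num)
  have h2 : 0 ≤ √2 := Real.sqrt_nonneg 2
  constructor
  · nlinarith
  · have h3 : (√2 - √2 / 2 * w2) ^ 2 = (√2 * √2) * (1 - w2 / 2) ^ 2 := by ring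
    rw [h3, h1]
    nlinarith [sq_nonneg w2]

private theorem C9_num (δ θ W2 W4 B A De s2 : ℝ) (hθ : 2 ≤ θ) (hδ1 : δ ≤ 1 / 1000)
    (hW2 : 0 ≤ W2) (hW21 : W2 ≤ 1 / 1000) (hW4 : W4 ≤ W2 / 1000)
    (hB : 2 * (θ - δ) * W2 - W2 ^ 2 - 2 * W4 ≤ B) (hA : A ≤ W2 / 1024) (hDe : -2 * W2 ≤ De)
    (hs2 : 1414 / 1000 ≤ s2) :
    -(s2 / 2) * W2 - De / 2 - B / 10 + A / 2 + W2 / 20 ≤ 0 := by
  have h1 : (2 - 1 / 1000) * W2 ≤ (θ - δ) * W2 := mul_le_mul_of_nonneg_right (by linarith) hW2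
  have h2 : W2 ^ 2 ≤ W2 / 1000 := by nlinarith
  have h3 : 1414 / 1000 * W2 ≤ s2 * W2 := mul_le_mul_of_nonneg_right hs2 hW2
  nlinarith

/-- **C9** -/
theorem thm_C9 (hC8 : St_C8) (hCa : St_Ca) (hLo : St_Lo) (hSm : St_Sm) (hGs : St_Gs) : St_C9 := by
  classical
  intro ι _ _ d p m hp hm1 hm2 hw1 hy θ hθ2 hDD hWs
  obtain ⟨hG1, -, -, -⟩ := hGs ι d p m hp hm1 hm2 θ hθ2
  have hG3 := hC8 ι d p m hp hm1 hm2 θ
  obtain ⟨δ, hδ⟩ : ∃ δ : ℝ, δ = √(DD p θ) := ⟨_, rfl⟩
  rw [← hδ] at hG3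
  have hδ1 : δ ≤ 1 / 1000 := by
    rw [hδ, Real.sqrt_le_iff]
    constructor
    · norm_num
    · refine hDD.trans ?_
      norm_num
  -- the numbers `w`
  have hgb : ∀ i j, |gr p i j| ≤ 1 := by
    intro i j
    unfold gr
    refine (abs_real_inner_le_norm _ _).trans ?_
    rw [hp, hp, one_mul]
  have hw2 : ∀ i, wf p m i ^ 2 = (1 + gr p i (m i)) / 2 := by
    intro i
    unfold wf
    rw [Real.sq_sqrt]
    have := (abs_le.1 (hgb i (m i))).1
    linarith
  have hwf0 : ∀ i, 0 ≤ wf p m i := fun i => Real.sqrt_nonneg _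
  have hwsm : ∀ i, wf p m i ^ 2 ≤ 1 / 10 ^ 6 := by
    intro i
    have h1 := hw1 i
    have h2 := hwf0 i
    have h3 : wf p m i ^ 2 ≤ (1 / 20000) ^ 2 := pow_le_pow_left₀ h2 h1 2
    refine h3.trans ?_
    norm_num
  -- the vectors
  have hpi : ∀ i, p i = uv p m i + wv p m i := by
    intro i
    unfold uv wv
    rw [← smul_add, sub_add_add_cancel, ← two_smul ℝ, smul_smul]
    norm_num
  have hpm : ∀ i, p (m i) = -uv p m i + wv p m i := by
    intro i
    unfold uv wv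
    rw [neg_add_eq_sub, ← smul_sub, add_sub_sub_cancel, ← two_smul ℝ, smul_smul]
    norm_num
  have hum : ∀ i, uv p m (m i) = -uv p m i := by
    intro i
    unfold uv
    rw [hm1, ← smul_neg, neg_sub]
  have hwn : ∀ i, ‖wv p m i‖ ^ 2 = wf p m i ^ 2 := by
    intro i
    rw [hw2 i]
    unfold wv gr
    rw [norm_smul, mul_pow, norm_add_sq_real, hp, hp]
    norm_num
    ring
  have hun : ∀ i, ‖uv p m i‖ ^ 2 = 1 - wf p m i ^ 2 := by
    intro i
    rw [hw2 i]
    unfold uv gr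
    rw [norm_smul, mul_pow, norm_sub_sq_real, hp, hp]
    norm_num
    ring
  have hw0 : ∀ i, 0 ≤ wf p m i ^ 2 := fun i => sq_nonneg _
  have hupos : ∀ i, 0 < ‖uv p m i‖ := by
    intro i
    have h1 := hun i
    have h2 := hwsm i
    have h3 : (0 : ℝ) < ‖uv p m i‖ ^ 2 := by
      rw [h1]
      have : (1 : ℝ) / 10 ^ 6 < 1 := by norm_num
      linarith
    refine lt_of_le_of_ne (norm_nonneg _) ?_
    intro h
    rw [← h] at h3
    norm_num at h3
  obtain ⟨al, hal⟩ : ∃ al : ι → ι → ℝ, al = fun i j => (inner ℝ (uv p m i) (uv p m j) : ℝ) := ⟨_, rfl⟩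
  obtain ⟨be, hbe⟩ : ∃ be : ι → ι → ℝ, be = fun i j => (inner ℝ (uv p m i) (wv p m j) : ℝ) := ⟨_, rfl⟩
  obtain ⟨ga, hga⟩ : ∃ ga : ι → ι → ℝ, ga = fun i j => (inner ℝ (wv p m i) (uv p m j) : ℝ) := ⟨_, rfl⟩
  obtain ⟨de, hde⟩ : ∃ de : ι → ι → ℝ, de = fun i j => (inner ℝ (wv p m i) (wv p m j) : ℝ) := ⟨_, rfl⟩
  have hal' : ∀ i j, (inner ℝ (uv p m i) (uv p m j) : ℝ) = al i j := fun i j => by rw [hal]
  have hbe' : ∀ i j, (inner ℝ (uv p m i) (wv p m j) : ℝ) = be i j := fun i j => by rw [hbe]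
  have hga' : ∀ i j, (inner ℝ (wv p m i) (uv p m j) : ℝ) = ga i j := fun i j => by rw [hga]
  have hde' : ∀ i j, (inner ℝ (wv p m i) (wv p m j) : ℝ) = de i j := fun i j => by rw [hde]
  have halsym : ∀ i j, al i j = al j i := by
    intro i j
    rw [← hal', ← hal', real_inner_comm]
  have g1 : ∀ i j, gr p i j = al i j + be i j + ga i j + de i j := by
    intro i j
    unfold gr
    rw [hpi i, hpi j, inner_add_left, inner_add_right, inner_add_right, hal', hbe', hga', hde']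
    ring
  have g2 : ∀ i j, gr p (m i) (m j) = al i j - be i j - ga i j + de i j := by
    intro i j
    unfold gr
    rw [hpm i, hpm j, inner_add_left, inner_add_right, inner_add_right, inner_neg_left, inner_neg_left, inner_neg_right,
      inner_neg_right, hal', hbe', hga', hde']
    ring
  have g3 : ∀ i j, gr p i (m j) = -al i j + be i j - ga i j + de i j := by
    intro i j
    unfold gr
    rw [hpi i, hpm j, inner_add_left, inner_add_right, inner_add_right, inner_neg_right,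
      inner_neg_right, hal', hbe', hga', hde']
    ring
  have g4 : ∀ i j, gr p (m i) j = -al i j - be i j + ga i j + de i j := by
    intro i j
    unfold gr
    rw [hpm i, hpi j, inner_add_left, inner_add_right, inner_add_right, inner_neg_left, inner_neg_left,
      hal', hbe', hga', hde']
    ring
  simp only [hbe', hga', hde'] at hG1 hG3
  have hmm : ∀ i j, m i = m j → i = j := fun i j h => by rw [← hm1 i, h, hm1]
  -- the index sets
  obtain ⟨D, hD⟩ : ∃ D : ι → Finset ι, D = fun i => (univ.erase i).erase (m i) := ⟨_, rfl⟩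
  have hD' : ∀ i, (univ.erase i).erase (m i) = D i := fun i => by rw [hD]
  have hmem : ∀ i, m i ∈ (univ : Finset ι).erase i := fun i => mem_erase.2 ⟨hm2 i, mem_univ _⟩
  have hDmem : ∀ i j, j ∈ D i ↔ j ≠ m i ∧ j ≠ i := by
    intro i j
    rw [← hD', mem_erase, mem_erase]
    simp
  have hDm : ∀ i, D (m i) = D i := by
    intro i
    ext j
    rw [hDmem, hDmem, hm1]
    exact and_comm
  have hDmj : ∀ i j, j ∈ D i → m j ∈ D i := by
    intro i j hj
    rw [hDmem] at hj ⊢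
    refine ⟨fun h => hj.2 (hmm _ _ h), fun h => hj.1 ?_⟩
    rw [← h, hm1]
  have hDsym : ∀ i j, j ∈ D i ↔ i ∈ D j := by
    intro i j
    rw [hDmem, hDmem]
    constructor
    · rintro ⟨h1, h2⟩
      exact ⟨fun h => h1 (by rw [h, hm1]), Ne.symm h2⟩
    · rintro ⟨h1, h2⟩
      exact ⟨fun h => h1 (by rw [h, hm1]), Ne.symm h2⟩
  have hDsum : ∀ i (F : ι → ℝ), ∑ j ∈ D i, F (m j) = ∑ j ∈ D i, F j := by
    intro i F
    refine sum_nbij' m m (hDmj i) (hDmj i) ?_ ?_ ?_
    · intro j _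
      exact hm1 j
    · intro j _
      exact hm1 j
    · intro j _
      rfl
  have hyy : ∀ i, ∑ j ∈ D i, gr p i j ^ 2 = yy p m i := by
    intro i
    unfold yy uu
    rw [← add_sum_erase univ (fun j => gr p i j ^ 2) (mem_univ i),
      ← add_sum_erase (univ.erase i) (fun j => gr p i j ^ 2) (hmem i), hD']
    have h1 : gr p i i = 1 := by
      unfold gr
      rw [real_inner_self_eq_norm_sq, hp, one_pow]
    rw [h1]
    ring
  simp only [hD'] at hG1 hG3
  -- the products are small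
  have hsm2 : ∀ i j, j ∈ D i → gr p i j ^ 2 ≤ 1 / 1024 := by
    intro i j hj
    have h1 := single_le_sum (f := fun l => gr p i l ^ 2) (fun l _ => sq_nonneg _) hj
    refine h1.trans ?_
    have h2 : ∑ l ∈ D i, gr p i l ^ 2 ≤ 1 / 1024 := by
      rw [hyy]
      exact hy i
    exact h2
  have hsm : ∀ i j, j ∈ D i → |gr p i j| ≤ 1 / 32 := by
    intro i j hj
    refine abs_le_of_sq_le_sq ?_ (by norm_num)
    refine (hsm2 i j hj).trans (by norm_num)
  have hsm3 : ∀ i j, j ∈ D i → |gr p i j| ≤ 3 / 20 := fun i j hj => (hsm i j hj).trans (by norm_num)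
  have hal4 : ∀ i j, al i j = (gr p i j + gr p (m i) (m j) - gr p i (m j) - gr p (m i) j) / 4 := by
    intro i j
    rw [g1, g2, g3, g4]
    ring
  have hal10 : ∀ i j, j ∈ D i → |al i j| ≤ 1 / 10 := by
    intro i j hj
    have h1 := abs_le.1 (hsm i j hj)
    have h2 := abs_le.1 (hsm (m i) (m j) (by rw [hDm]; exact hDmj i j hj))
    have h3 := abs_le.1 (hsm i (m j) (hDmj i j hj))
    have h4 := abs_le.1 (hsm (m i) j (by rw [hDm]; exact hj))
    rw [hal4, abs_le]
    constructor <;> linarith [h1.1, h1.2, h2.1, h2.2, h3.1, h3.2, h4.1, h4.2]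
  have halsq : ∀ i j, al i j ^ 2 ≤ (gr p i j ^ 2 + gr p (m i) (m j) ^ 2 + gr p i (m j) ^ 2 + gr p (m i) j ^ 2) / 4 := by
    intro i j
    rw [hal4]
    nlinarith [sq_nonneg (gr p i j - gr p (m i) (m j)), sq_nonneg (gr p i j + gr p i (m j)),
      sq_nonneg (gr p i j + gr p (m i) j), sq_nonneg (gr p (m i) (m j) + gr p i (m j)),
      sq_nonneg (gr p (m i) (m j) + gr p (m i) j), sq_nonneg (gr p i (m j) - gr p (m i) j)]
  have halsum : ∀ i, ∑ j ∈ D i, al i j ^ 2 ≤ 1 / 1024 := by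
    intro i
    refine (sum_le_sum fun j _ => halsq i j).trans ?_
    rw [← sum_div, sum_add_distrib, sum_add_distrib, sum_add_distrib,
      hDsum i (fun j => gr p (m i) j ^ 2), hDsum i (fun j => gr p i j ^ 2), hyy]
    have h1 : ∑ j ∈ D i, gr p (m i) j ^ 2 = yy p m (m i) := by
      rw [← hyy, hDm]
    rw [h1]
    have h2 := hy i
    have h3 := hy (m i)
    linarith
  -- the four roots
  have hH : ∀ i j, j ∈ D i →
      √(1 - gr p i j) + √(1 - gr p (m i) (m j)) + √(1 - gr p i (m j)) + √(1 - gr p (m i) j) ≤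
        2 * hh (al i j) - 2 * de i j - 2 / 5 * (be i j ^ 2 + ga i j ^ 2 + de i j ^ 2) + 4 / 5 * |de i j| * al i j ^ 2 := by
    intro i j hj
    rw [g1, g2, g3, g4]
    apply hLo
    · rw [← g1]
      exact hsm3 i j hj
    · rw [← g2]
      exact hsm3 (m i) (m j) (by rw [hDm]; exact hDmj i j hj)
    · rw [← g3]
      exact hsm3 i (m j) (hDmj i j hj)
    · rw [← g4]
      exact hsm3 (m i) j (by rw [hDm]; exact hj)
  -- the antipodal family
  obtain ⟨q, hq⟩ : ∃ q : ι → E d, q = fun i => (1 / ‖uv p m i‖) • uv p m i := ⟨_, rfl⟩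
  rw [← hq]
  have hqi : ∀ i, q i = (1 / ‖uv p m i‖) • uv p m i := fun i => by rw [hq]
  have hqn : ∀ i, ‖q i‖ = 1 := by
    intro i
    rw [hqi, norm_smul, Real.norm_eq_abs, abs_of_pos (by have := hupos i; positivity)]
    have := (hupos i).ne'
    field_simp
  have hqm : ∀ i, q (m i) = -q i := by
    intro i
    rw [hqi, hqi, hum, norm_neg, smul_neg]
  obtain ⟨bl, hbl⟩ : ∃ bl : ι → ι → ℝ, bl = fun i j => gr q i j := ⟨_, rfl⟩
  have hbl' : ∀ i j, gr q i j = bl i j := fun i j => by rw [hbl]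
  have hbl1 : ∀ i j, bl i j = 1 / ‖uv p m i‖ * (1 / ‖uv p m j‖ * al i j) := by
    intro i j
    rw [← hbl']
    unfold gr
    rw [hqi, hqi, inner_smul_left, inner_smul_right, hal']
    rfl
  have hblm1 : ∀ i j, gr q (m i) j = -bl i j := by
    intro i j
    rw [← hbl']
    unfold gr
    rw [hqm, inner_neg_left]
  have hblm2 : ∀ i j, gr q i (m j) = -bl i j := by
    intro i j
    rw [← hbl']
    unfold gr
    rw [hqm, inner_neg_right]
  have hblm3 : ∀ i j, gr q (m i) (m j) = bl i j := by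
    intro i j
    rw [← hbl']
    unfold gr
    rw [hqm, hqm, inner_neg_left, inner_neg_right, neg_neg]
  have hblsq : ∀ i j, bl i j ^ 2 * ((1 - wf p m i ^ 2) * (1 - wf p m j ^ 2)) = al i j ^ 2 := by
    intro i j
    rw [hbl1, ← hun, ← hun]
    have h1 := (hupos i).ne'
    have h2 := (hupos j).ne'
    field_simp
  have hCa' : ∀ i j, j ∈ D i → hh (al i j) - hh (bl i j) ≤
      3 / 10 * al i j ^ 2 * (wf p m i ^ 2 + wf p m j ^ 2) := by
    intro i j hj
    exact hCa _ _ _ _ (hw0 i) (hwsm i) (hw0 j) (hwsm j) (hal10 i j hj) (hblsq i j)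
  refine ⟨?_, fun i => by rw [← hqi]; exact hqn i, ?_⟩
  · -- the inequality
    have hsq : ∀ r : ι → E d, sq r = ∑ i, √(1 - gr r i (m i)) + (∑ i, ∑ j ∈ D i,
        (√(1 - gr r i j) + √(1 - gr r (m i) (m j)) + √(1 - gr r i (m j)) + √(1 - gr r (m i) j))) / 4 := by
      intro r
      have hSm1 := hSm ι m hm1 hm2 (fun i j => √(1 - gr r i j))
      simp only [hD'] at hSm1
      rw [← hSm1]
      unfold sq
      rw [← sum_add_distrib]
      refine sum_congr rfl fun i _ => ?_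
      rw [← hD']
      exact (add_sum_erase (univ.erase i) (fun j => √(1 - gr r i j)) (hmem i)).symm
    have hroot : ∑ i, √(1 - gr p i (m i)) ≤ ∑ i : ι, √2 - √2 / 2 * ∑ i, wf p m i ^ 2 := by
      rw [mul_sum, ← sum_sub_distrib]
      refine sum_le_sum fun i _ => ?_
      have h2 : 1 - gr p i (m i) = 2 - 2 * wf p m i ^ 2 := by
        have := hw2 i
        linarith
      rw [h2]
      exact C9_root _ (by
        have := hwsm i
        have h3 : (1 : ℝ) / 10 ^ 6 ≤ 2 := by norm_num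
        linarith)
    have hrootq : ∑ i, √(1 - gr q i (m i)) = ∑ i : ι, √2 := by
      refine sum_congr rfl fun i _ => ?_
      have h1 : gr q i (m i) = -1 := by
        unfold gr
        rw [hqm, inner_neg_right, real_inner_self_eq_norm_sq, hqn, one_pow]
      rw [h1]
      norm_num
    have hHq : ∑ i, ∑ j ∈ D i,
        (√(1 - gr q i j) + √(1 - gr q (m i) (m j)) + √(1 - gr q i (m j)) + √(1 - gr q (m i) j)) =
        2 * ∑ i, ∑ j ∈ D i, hh (bl i j) := by
      rw [mul_sum]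
      refine sum_congr rfl fun i _ => ?_
      rw [mul_sum]
      refine sum_congr rfl fun j _ => ?_
      rw [hblm3, hblm2, hblm1, hbl']
      unfold hh
      rw [sub_neg_eq_add]
      ring
    -- names for the sums
    obtain ⟨W2, hW2⟩ : ∃ W2 : ℝ, W2 = ∑ i, wf p m i ^ 2 := ⟨_, rfl⟩
    obtain ⟨W4, hW4⟩ : ∃ W4 : ℝ, W4 = ∑ i, ‖wv p m i‖ ^ 4 := ⟨_, rfl⟩
    have hW2' : ∑ i, ‖wv p m i‖ ^ 2 = W2 := by
      rw [hW2]
      exact sum_congr rfl fun i _ => hwn i
    have hW20 : 0 ≤ W2 := hW2 ▸ sum_nonneg fun i _ => hw0 i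
    have hW4le : W4 ≤ W2 / 1000 := by
      rw [hW4, hW2, sum_div]
      refine sum_le_sum fun i _ => ?_
      have h1 : ‖wv p m i‖ ^ 4 = (‖wv p m i‖ ^ 2) ^ 2 := by ring
      rw [h1, hwn]
      have h2 := hwsm i
      have h3 := hw0 i
      have h4 : (1 : ℝ) / 10 ^ 6 ≤ 1 / 1000 := by norm_num
      nlinarith
    rw [hW2'] at hG1 hG3
    rw [← hW4] at hG3
    rw [← hW2] at hroot hWs ⊢
    -- the al terms
    obtain ⟨A, hA⟩ : ∃ A : ℝ, A = ∑ i, ∑ j ∈ D i, al i j ^ 2 * wf p m i ^ 2 := ⟨_, rfl⟩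
    have hA1 : A ≤ W2 / 1024 := by
      rw [hA, hW2, sum_div]
      refine sum_le_sum fun i _ => ?_
      rw [← sum_mul]
      have h1 := halsum i
      have h2 := hw0 i
      nlinarith
    have hA2 : ∑ i, ∑ j ∈ D i, al i j ^ 2 * wf p m j ^ 2 = A := by
      rw [hA, sum_comm' (s' := D) (t' := univ)]
      · refine sum_congr rfl fun j _ => sum_congr rfl fun i _ => ?_
        rw [halsym]
      · intro x y
        simp only [mem_univ, true_and, and_true]
        exact hDsym x y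
    have hde1 : ∀ i j, |de i j| ≤ (wf p m i ^ 2 + wf p m j ^ 2) / 2 := by
      intro i j
      rw [← hde', ← hwn, ← hwn]
      refine (abs_real_inner_le_norm _ _).trans ?_
      nlinarith [sq_nonneg (‖wv p m i‖ - ‖wv p m j‖)]
    -- the main estimate
    have hmain : ∑ i, ∑ j ∈ D i,
        (√(1 - gr p i j) + √(1 - gr p (m i) (m j)) + √(1 - gr p i (m j)) + √(1 - gr p (m i) j)) ≤
        ∑ i, ∑ j ∈ D i, (2 * hh (bl i j) - 2 * de i j - 2 / 5 * (be i j ^ 2 + ga i j ^ 2 + de i j ^ 2) +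
          (al i j ^ 2 * wf p m i ^ 2 + al i j ^ 2 * wf p m j ^ 2)) := by
      refine sum_le_sum fun i _ => sum_le_sum fun j hj => ?_
      refine (hH i j hj).trans ?_
      have h1 := hCa' i j hj
      have h2 : |de i j| * al i j ^ 2 ≤ (wf p m i ^ 2 + wf p m j ^ 2) / 2 * al i j ^ 2 :=
        mul_le_mul_of_nonneg_right (hde1 i j) (sq_nonneg _)
      linarith
    have hsplit : ∑ i, ∑ j ∈ D i, (2 * hh (bl i j) - 2 * de i j - 2 / 5 * (be i j ^ 2 + ga i j ^ 2 + de i j ^ 2) +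
          (al i j ^ 2 * wf p m i ^ 2 + al i j ^ 2 * wf p m j ^ 2)) =
        2 * ∑ i, ∑ j ∈ D i, hh (bl i j) - 2 * ∑ i, ∑ j ∈ D i, de i j -
          2 / 5 * ∑ i, ∑ j ∈ D i, (be i j ^ 2 + ga i j ^ 2 + de i j ^ 2) +
          (∑ i, ∑ j ∈ D i, al i j ^ 2 * wf p m i ^ 2 + ∑ i, ∑ j ∈ D i, al i j ^ 2 * wf p m j ^ 2) := by
      simp only [mul_sum, ← sum_sub_distrib, ← sum_add_distrib]
    rw [hsplit, hA2, ← hA] at hmain
    have hs2 : 1414 / 1000 ≤ √2 := Real.le_sqrt_of_sq_le (by norm_num)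
    have hS0 : 0 ≤ ‖∑ i, p i‖ ^ 2 := sq_nonneg _
    have key := C9_num δ θ W2 W4 (∑ i, ∑ j ∈ D i, (be i j ^ 2 + ga i j ^ 2 + de i j ^ 2)) A
      (∑ i, ∑ j ∈ D i, de i j) (√2) hθ2 hδ1 hW20 hWs hW4le hG3 hA1 (by linarith) hs2
    rw [hsq p, hsq q, hrootq, hHq]
    linarith
  · -- injectivity
    intro i l hil
    by_contra hne
    by_cases hlm : l = m i
    · have h1 : q i = q l := hil
      rw [hlm, hqm] at h1
      have h3 := congrArg (fun z => (inner ℝ (q i) z : ℝ)) h1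
      have h4 : (inner ℝ (q i) (q i) : ℝ) = inner ℝ (q i) (-q i) := h3
      rw [inner_neg_right, real_inner_self_eq_norm_sq, hqn] at h4
      norm_num at h4
    · have h1 : q i = q l := hil
      have hlD : l ∈ D i := (hDmem i l).2 ⟨hlm, Ne.symm hne⟩
      have h2 : bl i l = 1 := by
        rw [← hbl']
        unfold gr
        rw [← h1, real_inner_self_eq_norm_sq, hqn, one_pow]
      have h3 := hblsq i l
      rw [h2] at h3
      have h4 := abs_le.1 (hal10 i l hlD)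
      have h5 : al i l ^ 2 ≤ 1 / 100 := by nlinarith [h4.1, h4.2]
      have h6 := hwsm i
      have h7 := hwsm l
      have h8 := hw0 i
      have h9 := hw0 l
      have h10 : (1 : ℝ) / 10 ^ 6 ≤ 1 / 100 := by norm_num
      nlinarith

end Pool.Agent.XPL
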