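import Pool.Agent.XPL.St3

/-!
# XPL CE: antipodal sets, the equiangular case (helper8)
-/

set_option autoImplicit false

namespace Pool.Agent.XPL

open Finset

private theorem CE_hh_neg (x : ℝ) : hh (-x) = hh x := by
  unfold hh
  rw [sub_neg_eq_add, ← sub_eq_add_neg, add_comm]

private theorem CE_dist {d : ℕ} {x y : E d} (hx : ‖x‖ = 1) (hy : ‖y‖ = 1) :
    dist x y = √2 * √(1 - inner ℝ x y) := by
  rw [dist_eq_norm, ← Real.sqrt_mul (by norm_num), ← Real.sqrt_sq (norm_nonneg (x - y)),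
    norm_sub_sq_real, hx, hy]
  congr 1
  ring

theorem thm_CE (hTa : St_Ta) (hPe : St_Pe) : St_CE := by
  classical
  intro d c s hc hcd hs hs2 P hP hP1 hPn
  have hc' : (1 : ℝ) ≤ c := by exact_mod_cast hc
  have hcd' : 100 * (c : ℝ) ≤ d := by exact_mod_cast hcd
  have hd : (100 : ℝ) ≤ d := by linarith
  have hdc : (100 : ℝ) ≤ (d : ℝ) + c - 1 := by linarith
  have hd0 : (0 : ℝ) < d := by linarith
  have hM0 : (0 : ℝ) < (d : ℝ) + c - 1 := by linarith
  -- `s ≤ 1 / 100`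
  have hs1 : s ≤ 1 / 100 := by
    have h1 : s ^ 2 ≤ (1 / 100) ^ 2 := by
      rw [hs2, div_le_iff₀ (mul_pos hd0 hM0)]
      nlinarith
    exact abs_le_of_sq_le_sq' h1 (by norm_num) |>.2
  obtain ⟨K, hK1, hK2, -, -, hT⟩ := hTa s hs hs1
  set N : ℝ := 2 * (d : ℝ) + 2 * c with hN
  have hcard : (P.card : ℝ) = N := by
    rw [hP, hN]
    push_cast
    ring
  set D : E d → Finset (E d) := fun x => (P.erase x).erase (-x) with hD
  have memD : ∀ x y, y ∈ D x ↔ y ≠ -x ∧ y ≠ x ∧ y ∈ P := by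
    intro x y
    simp only [hD, mem_erase]
  have hne : ∀ x ∈ P, -x ≠ x := by
    intro x hx h
    have h1 : x = 0 := by
      have h2 : (2 : ℝ) • x = 0 := by
        rw [two_smul]
        nth_rewrite 1 [← h]
        exact neg_add_cancel x
      exact (smul_eq_zero.1 h2).resolve_left (by norm_num)
    have h3 := hP1 x hx
    rw [h1, norm_zero] at h3
    exact zero_ne_one h3
  have hself : ∀ x ∈ P, (inner ℝ x x : ℝ) = 1 := by
    intro x hx
    rw [real_inner_self_eq_norm_sq, hP1 x hx]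
    norm_num
  have hsplit : ∀ x ∈ P, ∀ F : E d → ℝ, ∑ y ∈ P, F y = F x + F (-x) + ∑ y ∈ D x, F y := by
    intro x hx F
    simp only [hD]
    rw [sum_erase_eq_sub (mem_erase.mpr ⟨hne x hx, hPn x hx⟩), sum_erase_eq_sub hx]
    ring
  have hDn : ∀ x y, y ∈ D x → -y ∈ D x := by
    intro x y hy
    rw [memD] at hy ⊢
    refine ⟨fun h => hy.2.1 (neg_injective h), fun h => hy.1 ?_, hPn y hy.2.2⟩
    rw [← h, neg_neg]
  have R1 : ∀ (x : E d) (F : E d → ℝ), ∑ y ∈ D x, F (-y) = ∑ y ∈ D x, F y := by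
    intro x F
    exact sum_nbij' (fun y => -y) (fun y => -y) (fun y hy => hDn x y hy) (fun y hy => hDn x y hy)
      (fun y _ => neg_neg y) (fun y _ => neg_neg y) (fun y _ => rfl)
  have hDcard : ∀ x ∈ P, ((D x).card : ℝ) = N - 2 := by
    intro x hx
    have h1 := hsplit x hx fun _ => 1
    simp only [sum_const, nsmul_eq_mul, mul_one] at h1
    rw [hcard] at h1
    linarith
  -- the distances
  set A : ℝ := ∑ x ∈ P, ∑ y ∈ D x, hh (inner ℝ x y) with hA
  have hdist : ∑ x ∈ P, ∑ y ∈ P, dist x y = √2 * (√2 * N + A / 2) := by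
    have h1 : ∀ x ∈ P, ∑ y ∈ P, dist x y = √2 * (√2 + (∑ y ∈ D x, hh (inner ℝ x y)) / 2) := by
      intro x hx
      have h2 : ∑ y ∈ P, dist x y = √2 * ∑ y ∈ P, √(1 - inner ℝ x y) := by
        rw [mul_sum]
        exact sum_congr rfl fun y hy => CE_dist (hP1 x hx) (hP1 y hy)
      rw [h2, hsplit x hx fun y => √(1 - inner ℝ x y)]
      have h3 := R1 x fun y => √(1 - inner ℝ x y)
      have h4 : ∑ y ∈ D x, hh (inner ℝ x y) =
          ∑ y ∈ D x, √(1 - inner ℝ x y) + ∑ y ∈ D x, √(1 - inner ℝ x (-y)) := by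
        rw [← sum_add_distrib]
        refine sum_congr rfl fun y _ => ?_
        unfold hh
        rw [inner_neg_right, sub_neg_eq_add]
      rw [h4, h3, inner_neg_right, hself x hx]
      have h5 : √(1 - 1 : ℝ) = 0 := by rw [sub_self, Real.sqrt_zero]
      have h6 : √(1 - -1 : ℝ) = √2 := by norm_num
      rw [h5, h6]
      ring
    rw [sum_congr rfl h1, ← mul_sum, sum_add_distrib, ← sum_div]
    rw [sum_const, nsmul_eq_mul, hcard]
    ring
  -- the squares
  set S2 : ℝ := ∑ x ∈ P, ∑ y ∈ D x, (inner ℝ x y : ℝ) ^ 2 with hS2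
  have hS2a : ∑ x ∈ P, ∑ y ∈ P, (inner ℝ x y : ℝ) ^ 2 = 2 * N + S2 := by
    have h1 : ∀ x ∈ P, ∑ y ∈ P, (inner ℝ x y : ℝ) ^ 2 = 2 + ∑ y ∈ D x, (inner ℝ x y : ℝ) ^ 2 := by
      intro x hx
      rw [hsplit x hx fun y => (inner ℝ x y : ℝ) ^ 2, inner_neg_right, hself x hx]
      norm_num
    rw [sum_congr rfl h1, sum_add_distrib, sum_const, nsmul_eq_mul, hcard]
    ring
  have hG : N ^ 2 / d ≤ 2 * N + S2 := by
    have h1 := (hPe P d (fun x : P => (x : E d)) (fun x => hP1 x x.2) (N / d)).2.1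
    have h2 : G2 (fun x : P => (x : E d)) = 2 * N + S2 := by
      rw [← hS2a]
      unfold G2 uu gr
      rw [← Finset.sum_coe_sort P]
      refine sum_congr rfl fun x _ => ?_
      exact Finset.sum_coe_sort P fun y => (inner ℝ (x : E d) y : ℝ) ^ 2
    unfold DD at h1
    rw [h2, Fintype.card_coe, hcard] at h1
    have h3 : (N / d) ^ 2 * d = N ^ 2 / d := by
      field_simp
    have h4 : 2 * (N / d) * N = 2 * (N ^ 2 / d) := by ring
    rw [h3, h4] at h1
    linarith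
  have hN2 : N ^ 2 / d - 2 * N = N * (N - 2) * s ^ 2 := by
    have h1 : N - 2 = 2 * ((d : ℝ) + c - 1) := by rw [hN]; ring
    rw [h1, hs2, hN]
    field_simp
    ring
  have hS2b : N * (N - 2) * s ^ 2 ≤ S2 := by linarith
  have htle : ∀ x ∈ P, ∀ y ∈ P, |(inner ℝ x y : ℝ)| ≤ 1 := by
    intro x hx y hy
    have h1 := abs_real_inner_le_norm x y
    rw [hP1 x hx, hP1 y hy, mul_one] at h1
    exact h1
  -- the sum of the right-hand sides of `Ta`
  have hsumR : ∑ x ∈ P, ∑ y ∈ D x, (hh s - K * ((inner ℝ x y : ℝ) ^ 2 - s ^ 2)) =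
      N * (N - 2) * hh s - K * (S2 - N * (N - 2) * s ^ 2) := by
    have h1 : ∀ x ∈ P, ∑ y ∈ D x, (hh s - K * ((inner ℝ x y : ℝ) ^ 2 - s ^ 2)) =
        (N - 2) * (hh s + K * s ^ 2) - K * ∑ y ∈ D x, (inner ℝ x y : ℝ) ^ 2 := by
      intro x hx
      rw [← hDcard x hx, mul_sum, ← nsmul_eq_mul, ← sum_const, ← sum_sub_distrib]
      refine sum_congr rfl fun y _ => ?_
      ring
    rw [sum_congr rfl h1, sum_sub_distrib, sum_const, nsmul_eq_mul, hcard, ← mul_sum]
    ring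
  have hle : ∀ x ∈ P, ∀ y ∈ D x, hh (inner ℝ x y) ≤ hh s - K * ((inner ℝ x y : ℝ) ^ 2 - s ^ 2) :=
    fun x hx y hy => (hT _ (htle x hx y ((memD x y).1 hy).2.2)).1
  have hAle : A ≤ N * (N - 2) * hh s - K * (S2 - N * (N - 2) * s ^ 2) := by
    rw [← hsumR]
    exact sum_le_sum fun x hx => sum_le_sum fun y hy => hle x hx y hy
  have hK0 : 0 ≤ K * (S2 - N * (N - 2) * s ^ 2) := mul_nonneg (by linarith) (by linarith)
  have hAle2 : A ≤ N * (N - 2) * hh s := by linarith
  have h2pos : (0 : ℝ) < √2 := by positivity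
  rw [hdist]
  refine ⟨?_, ?_⟩
  · refine mul_le_mul_of_nonneg_left ?_ h2pos.le
    linarith
  · constructor
    · intro h x hx y hy hxy hxy'
      have h1 := mul_left_cancel₀ h2pos.ne' h
      have h2 : A = N * (N - 2) * hh s := by linarith
      have h3 : A = ∑ x ∈ P, ∑ y ∈ D x, (hh s - K * ((inner ℝ x y : ℝ) ^ 2 - s ^ 2)) := by
        rw [hsumR]
        linarith
      have h4 : ∀ x ∈ P, ∑ y ∈ D x, hh (inner ℝ x y) =
          ∑ y ∈ D x, (hh s - K * ((inner ℝ x y : ℝ) ^ 2 - s ^ 2)) :=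
        (sum_eq_sum_iff_of_le fun x hx => sum_le_sum fun y hy => hle x hx y hy).1 h3
      have h5 := (sum_eq_sum_iff_of_le fun y hy => hle x hx y hy).1 (h4 x hx)
      have hyD : y ∈ D x := (memD x y).2 ⟨fun h => hxy' (by rw [h, neg_neg]), hxy.symm, hy⟩
      exact (hT _ (htle x hx y hy)).2 (h5 y hyD)
    · intro h
      have h1 : A = N * (N - 2) * hh s := by
        have h2 : ∀ x ∈ P, ∑ y ∈ D x, hh (inner ℝ x y) = (N - 2) * hh s := by
          intro x hx
          rw [← hDcard x hx, ← nsmul_eq_mul, ← sum_const]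
          refine sum_congr rfl fun y hy => ?_
          obtain ⟨h3, h4, h5⟩ := (memD x y).1 hy
          have h6 := h x hx y h5 h4.symm fun h => h3 (by rw [h, neg_neg])
          rcases sq_eq_sq_iff_eq_or_eq_neg.1 h6 with h7 | h7
          · rw [h7]
          · rw [h7, CE_hh_neg]
        rw [hA, sum_congr rfl h2, sum_const, nsmul_eq_mul, hcard]
        ring
      rw [h1]

end Pool.Agent.XPL
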