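import Pool.Agent.XPL.St3

/-!
# XPL, module Ca: scalar inequality for `hh`
-/

set_option autoImplicit false

namespace Pool.Agent.XPL

private theorem Ca_hh (x : ℝ) (hx : x ^ 2 ≤ 19 / 1000) : ∃ A : ℝ, 99 / 100 ≤ A ∧ A * A = 1 - x ^ 2 ∧
    hh x * hh x = 2 + 2 * A ∧ 199 / 100 ≤ hh x := by
  have h1 : 0 ≤ 1 - x := by nlinarith
  have h2 : 0 ≤ 1 + x := by nlinarith
  have e1 : √(1 - x) * √(1 - x) = 1 - x := Real.mul_self_sqrt h1
  have e2 : √(1 + x) * √(1 + x) = 1 + x := Real.mul_self_sqrt h2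
  have p1 : 0 ≤ √(1 - x) := Real.sqrt_nonneg _
  have p2 : 0 ≤ √(1 + x) := Real.sqrt_nonneg _
  have hA0 : 0 ≤ √(1 - x) * √(1 + x) := mul_nonneg p1 p2
  have hAA : (√(1 - x) * √(1 + x)) * (√(1 - x) * √(1 + x)) = 1 - x ^ 2 := by
    have : (√(1 - x) * √(1 + x)) * (√(1 - x) * √(1 + x)) =
        (√(1 - x) * √(1 - x)) * (√(1 + x) * √(1 + x)) := by ring
    rw [this, e1, e2]
    ring
  have hA : 99 / 100 ≤ √(1 - x) * √(1 + x) := by
    by_contra hc
    push Not at hc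
    nlinarith
  have hS : hh x * hh x = 2 + 2 * (√(1 - x) * √(1 + x)) := by
    unfold hh
    linear_combination e1 + e2
  have hS0 : 0 ≤ hh x := by
    unfold hh
    exact add_nonneg p1 p2
  refine ⟨√(1 - x) * √(1 + x), hA, hAA, hS, ?_⟩
  by_contra hc
  push Not at hc
  nlinarith

theorem thm_Ca : St_Ca := by
  intro a b v w hv0 hv1 hw0 hw1 ha hab
  have ha2 : a ^ 2 ≤ 1 / 100 := by
    have := abs_le.1 ha
    nlinarith [this.1, this.2]
  have hb0 : 0 ≤ b ^ 2 := sq_nonneg b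
  have hvw : 999997 / 1000000 ≤ (1 - v) * (1 - w) := by
    norm_num at hv1 hw1
    nlinarith
  have hb2 : b ^ 2 * (999997 / 1000000) ≤ a ^ 2 := by
    rw [← hab]
    exact mul_le_mul_of_nonneg_left hvw hb0
  obtain ⟨A, hA, hAA, hS, hSl⟩ := Ca_hh a (by linarith)
  obtain ⟨B, hB, hBB, hT, hTl⟩ := Ca_hh b (by linarith)
  have hdiff : b ^ 2 - a ^ 2 ≤ b ^ 2 * (v + w) := by
    have : b ^ 2 - a ^ 2 = b ^ 2 * (v + w) - b ^ 2 * (v * w) := by
      rw [← hab]
      ring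
    have h2 : 0 ≤ b ^ 2 * (v * w) := mul_nonneg hb0 (mul_nonneg hv0 hw0)
    linarith
  have hba : b ^ 2 ≤ 11 / 10 * a ^ 2 := by nlinarith [sq_nonneg a]
  have hvw0 : 0 ≤ v + w := add_nonneg hv0 hw0
  have hd2 : b ^ 2 - a ^ 2 ≤ 11 / 10 * a ^ 2 * (v + w) :=
    hdiff.trans (mul_le_mul_of_nonneg_right hba hvw0)
  have hr0 : 0 ≤ a ^ 2 * (v + w) := mul_nonneg (sq_nonneg a) hvw0
  rcases le_total (hh a) (hh b) with h | h
  · linarith
  · have hprod : (hh a - hh b) * ((hh a + hh b) * (A + B)) = 2 * (b ^ 2 - a ^ 2) := by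
      have e1 : (hh a - hh b) * (hh a + hh b) = 2 * (A - B) := by
        linear_combination hS - hT
      have e2 : (A - B) * (A + B) = b ^ 2 - a ^ 2 := by
        linear_combination hAA - hBB
      calc (hh a - hh b) * ((hh a + hh b) * (A + B))
          = ((hh a - hh b) * (hh a + hh b)) * (A + B) := by ring
        _ = 2 * ((A - B) * (A + B)) := by rw [e1]; ring
        _ = 2 * (b ^ 2 - a ^ 2) := by rw [e2]
    have hlow : 78 / 10 ≤ (hh a + hh b) * (A + B) := by nlinarith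
    have hmul : (hh a - hh b) * (78 / 10) ≤ (hh a - hh b) * ((hh a + hh b) * (A + B)) :=
      mul_le_mul_of_nonneg_left hlow (sub_nonneg.2 h)
    rw [hprod] at hmul
    linarith

end Pool.Agent.XPL
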