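import Pool.Agent.XPL.St3

/-!
# XPL: Naimark complement
-/

set_option autoImplicit false

namespace Pool.Agent.XPL

open Finset

private lemma F1_aux (d c : ℕ) (g : Fin c → Fin (d + c) → ℝ)
    (hg : ∀ a b, ∑ i, g a i * g b i = if a = b then 1 else 0) :
    ∃ b : Fin d → Fin (d + c) → ℝ, ∀ i l, ∑ j, b j i * b j l + ∑ a, g a i * g a l =
      if i = l then 1 else 0 := by
  classical
  let v : Fin d ⊕ Fin c → EuclideanSpace ℝ (Fin (d + c)) :=
    Sum.elim (fun _ => 0) (fun a => WithLp.toLp 2 (g a))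
  have hv : Orthonormal ℝ ((Set.range (Sum.inr : Fin c → Fin d ⊕ Fin c)).domRestrict v) := by
    rw [orthonormal_iff_ite]
    rintro ⟨_, a, rfl⟩ ⟨_, b, rfl⟩
    have h1 : (inner ℝ (v (Sum.inr a)) (v (Sum.inr b)) : ℝ) = ∑ i, g a i * g b i := by
      simp [v, PiLp.inner_apply, mul_comm]
    refine (h1.trans (hg a b)).trans ?_
    by_cases hab : a = b
    · subst hab
      simp
    · rw [if_neg hab, if_neg]
      intro e
      apply hab
      have := congrArg Subtype.val e
      exact Sum.inr_injective this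
  have hcard : Module.finrank ℝ (EuclideanSpace ℝ (Fin (d + c))) = Fintype.card (Fin d ⊕ Fin c) := by
    simp
  obtain ⟨b, hb⟩ := Orthonormal.exists_orthonormalBasis_extension_of_card_eq hcard hv
  refine ⟨fun j i => b (Sum.inl j) i, fun i l => ?_⟩
  have h2 := b.sum_inner_mul_inner (EuclideanSpace.single i (1 : ℝ)) (EuclideanSpace.single l (1 : ℝ))
  rw [Fintype.sum_sum_type] at h2
  have h3 : ∀ a, b (Sum.inr a) = WithLp.toLp 2 (g a) := fun a => hb _ ⟨a, rfl⟩
  simp only [h3, EuclideanSpace.inner_single_left, EuclideanSpace.inner_single_right] at h2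
  simp at h2
  rw [h2]
  by_cases h : i = l
  · rw [if_pos h, if_pos h.symm]
  · rw [if_neg h, if_neg fun e => h e.symm]

theorem thm_F1 : St_F1 := by
  intro d c hd g hg hg2
  obtain ⟨b, hb⟩ := F1_aux d c g hg
  have hd' : (0 : ℝ) < d := by exact_mod_cast hd
  have hdc : (0 : ℝ) < (d : ℝ) + c := by positivity
  have hs : √(((d : ℝ) + c) / d) ^ 2 = ((d : ℝ) + c) / d := Real.sq_sqrt (by positivity)
  have hin : ∀ i l, (inner ℝ ((√(((d : ℝ) + c) / d)) • (WithLp.toLp 2 (fun j => b j i) : E d))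
      ((√(((d : ℝ) + c) / d)) • (WithLp.toLp 2 (fun j => b j l) : E d)) : ℝ) =
      (((d : ℝ) + c) / d) * ((if i = l then 1 else 0) - ∑ a, g a i * g a l) := by
    intro i l
    rw [real_inner_smul_left, real_inner_smul_right, ← mul_assoc, ← pow_two, hs, ← hb i l,
      add_sub_cancel_right]
    congr 1
    rw [PiLp.inner_apply]
    refine Finset.sum_congr rfl fun j _ => ?_
    simp [mul_comm]
  refine ⟨fun i => (√(((d : ℝ) + c) / d)) • (WithLp.toLp 2 (fun j => b j i) : E d), fun i => ?_,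
    fun i l hil => ?_⟩
  · have h1 := hin i i
    rw [if_pos rfl, real_inner_self_eq_norm_sq] at h1
    have h2 : ∑ a, g a i * g a i = (c : ℝ) / ((d : ℝ) + c) := by
      rw [← hg2 i]
      exact Finset.sum_congr rfl fun a _ => (pow_two _).symm
    have h3 : (((d : ℝ) + c) / d) * (1 - (c : ℝ) / ((d : ℝ) + c)) = 1 := by
      field_simp
      ring
    rw [h2, h3] at h1
    nlinarith [norm_nonneg ((√(((d : ℝ) + c) / d)) • (WithLp.toLp 2 (fun j => b j i) : E d))]
  · rw [hin i l, if_neg hil]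
    ring

end Pool.Agent.XPL
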