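import Pool.Agent.XPL.St3

set_option autoImplicit false

/-!
MP_b22a07_co, module F2: trigonometric orthonormal systems.
-/

namespace Pool.Agent.XPL

open Finset Real

private theorem F2_dir (r : ℕ) (x : ℝ) :
    sin x * (1 + ∑ f ∈ Icc 1 r, 2 * cos (2 * (f : ℝ) * x)) = sin ((2 * (r : ℝ) + 1) * x) := by
  induction r with
  | zero => simp
  | succ n ih =>
    rw [Finset.sum_Icc_succ_top (by omega), ← add_assoc, mul_add, ih]
    push_cast
    have h1 : (2 * ((n : ℝ) + 1) + 1) * x = 2 * ((n : ℝ) + 1) * x + x := by ring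
    have h2 : (2 * (n : ℝ) + 1) * x = 2 * ((n : ℝ) + 1) * x - x := by ring
    rw [h1, h2, sin_add, sin_sub]
    ring

private theorem F2_cosum (M : ℕ) (x : ℝ) :
    sin x * ∑ i ∈ range M, cos (2 * x * (i : ℝ)) = (sin ((2 * (M : ℝ) - 1) * x) + sin x) / 2 := by
  induction M with
  | zero =>
    have h : (2 * ((0 : ℕ) : ℝ) - 1) * x = -x := by push_cast; ring
    rw [h, sin_neg, range_zero, sum_empty]
    ring
  | succ n ih =>
    rw [sum_range_succ, mul_add, ih]
    push_cast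
    have h1 : (2 * ((n : ℝ) + 1) - 1) * x = 2 * x * n + x := by ring
    have h2 : (2 * (n : ℝ) - 1) * x = 2 * x * n - x := by ring
    rw [h1, h2, sin_add, sin_sub]
    ring

private theorem F2_sisum (M : ℕ) (x : ℝ) :
    sin x * ∑ i ∈ range M, sin (2 * x * (i : ℝ)) = (cos x - cos ((2 * (M : ℝ) - 1) * x)) / 2 := by
  induction M with
  | zero =>
    have h : (2 * ((0 : ℕ) : ℝ) - 1) * x = -x := by push_cast; ring
    rw [h, cos_neg, range_zero, sum_empty]
    ring
  | succ n ih =>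
    rw [sum_range_succ, mul_add, ih]
    push_cast
    have h1 : (2 * ((n : ℝ) + 1) - 1) * x = 2 * x * n + x := by ring
    have h2 : (2 * (n : ℝ) - 1) * x = 2 * x * n - x := by ring
    rw [h1, h2, cos_add, cos_sub]
    ring

private theorem F2_sin_ne {M : ℕ} (hM : 0 < M) {k : ℤ} (hk : ¬ (M : ℤ) ∣ k) :
    sin (π * k / M) ≠ 0 := by
  intro h
  rw [sin_eq_zero_iff] at h
  obtain ⟨n, hn⟩ := h
  have hM' : (M : ℝ) ≠ 0 := by exact_mod_cast hM.ne'
  apply hk
  refine ⟨n, ?_⟩
  have h2 : (k : ℝ) = (M : ℝ) * n := by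
    have h3 : (n : ℝ) * π * M = π * k := by
      rw [hn]; field_simp
    have h4 : π * ((k : ℝ) - M * n) = 0 := by linear_combination -h3
    have h5 := (mul_eq_zero.mp h4).resolve_left pi_ne_zero
    linarith
  exact_mod_cast h2

private theorem F2_C {M : ℕ} (hM : 0 < M) {k : ℤ} (hk : ¬ (M : ℤ) ∣ k) :
    ∑ i : Fin M, cos (2 * π * k * ((i : ℕ) : ℝ) / M) = 0 := by
  have hM' : (M : ℝ) ≠ 0 := by exact_mod_cast hM.ne'
  rw [Fin.sum_univ_eq_sum_range (fun i => cos (2 * π * k * (i : ℝ) / M)) M]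
  have h1 := F2_cosum M (π * k / M)
  have h2 : (2 * (M : ℝ) - 1) * (π * k / M) = k * (2 * π) - π * k / M := by field_simp
  rw [h2, sin_int_mul_two_pi_sub, neg_add_cancel, zero_div] at h1
  have h3 := (mul_eq_zero.mp h1).resolve_left (F2_sin_ne hM hk)
  rw [← h3]
  refine sum_congr rfl fun i _ => ?_
  congr 1
  ring

private theorem F2_S {M : ℕ} (hM : 0 < M) {k : ℤ} (hk : ¬ (M : ℤ) ∣ k) :
    ∑ i : Fin M, sin (2 * π * k * ((i : ℕ) : ℝ) / M) = 0 := by
  have hM' : (M : ℝ) ≠ 0 := by exact_mod_cast hM.ne'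
  rw [Fin.sum_univ_eq_sum_range (fun i => sin (2 * π * k * (i : ℝ) / M)) M]
  have h1 := F2_sisum M (π * k / M)
  have h2 : (2 * (M : ℝ) - 1) * (π * k / M) = k * (2 * π) - π * k / M := by field_simp
  rw [h2, cos_int_mul_two_pi_sub, sub_self, zero_div] at h1
  have h3 := (mul_eq_zero.mp h1).resolve_left (F2_sin_ne hM hk)
  rw [← h3]
  refine sum_congr rfl fun i _ => ?_
  congr 1
  ring

/-- the functions before normalisation: `true` cosine, `false` sine -/
private noncomputable def F2_tr (M : ℕ) (f : ℕ) (b : Bool) (i : Fin M) : ℝ :=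
  if b then cos (2 * π * f * ((i : ℕ) : ℝ) / M) else sin (2 * π * f * ((i : ℕ) : ℝ) / M)

private theorem F2_ndvd {M : ℕ} {k : ℤ} (h0 : k ≠ 0) (h1 : |k| < M) : ¬ (M : ℤ) ∣ k := by
  intro h
  exact h0 (Int.eq_zero_of_abs_lt_dvd h h1)

private theorem F2_lin {M : ℕ} (hM : 0 < M) {f : ℕ} (h1 : 1 ≤ f) (h2 : f < M) (b : Bool) :
    ∑ i : Fin M, F2_tr M f b i = 0 := by
  have hk : ¬ (M : ℤ) ∣ (f : ℤ) := F2_ndvd (by omega) (by rw [abs_of_nonneg (by omega)]; omega)
  cases b with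
  | true =>
    have h := F2_C hM hk
    simp only [F2_tr, if_true]
    rw [← h]
    refine sum_congr rfl fun i _ => ?_
    push_cast
    rfl
  | false =>
    have h := F2_S hM hk
    simp only [F2_tr, Bool.false_eq_true, if_false]
    rw [← h]
    refine sum_congr rfl fun i _ => ?_
    push_cast
    rfl

private theorem F2_quad {M : ℕ} (hM : 0 < M) {f f' : ℕ} (h1 : 1 ≤ f) (h1' : 1 ≤ f')
    (h2 : 2 * f < M) (h2' : 2 * f' < M) (b b' : Bool) :
    ∑ i : Fin M, F2_tr M f b i * F2_tr M f' b' i = if f = f' ∧ b = b' then (M : ℝ) / 2 else 0 := by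
  have hp : ¬ (M : ℤ) ∣ ((f : ℤ) + f') :=
    F2_ndvd (by omega) (by rw [abs_of_nonneg (by omega)]; omega)
  have hm : f ≠ f' → ¬ (M : ℤ) ∣ ((f : ℤ) - f') := by
    intro hne
    refine F2_ndvd (by omega) ?_
    rw [abs_lt]
    constructor <;> omega
  have hCp := F2_C hM hp
  have hSp := F2_S hM hp
  have hCm : ∑ i : Fin M, cos (2 * π * ((f : ℤ) - (f' : ℤ) : ℤ) * ((i : ℕ) : ℝ) / M)
      = if f = f' then (M : ℝ) else 0 := by
    by_cases hff : f = f'
    · subst hff
      simp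
    · rw [if_neg hff]
      exact F2_C hM (hm hff)
  have hSm : ∑ i : Fin M, sin (2 * π * ((f : ℤ) - (f' : ℤ) : ℤ) * ((i : ℕ) : ℝ) / M) = 0 := by
    by_cases hff : f = f'
    · subst hff
      simp
    · exact F2_S hM (hm hff)
  push_cast at hCp hSp hCm hSm
  have ep : ∀ i : Fin M, 2 * π * ((f : ℝ) + f') * ((i : ℕ) : ℝ) / M
      = 2 * π * f * ((i : ℕ) : ℝ) / M + 2 * π * f' * ((i : ℕ) : ℝ) / M := fun i => by ring
  have em : ∀ i : Fin M, 2 * π * ((f : ℝ) - f') * ((i : ℕ) : ℝ) / M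
      = 2 * π * f * ((i : ℕ) : ℝ) / M - 2 * π * f' * ((i : ℕ) : ℝ) / M := fun i => by ring
  simp only [ep, cos_add, sin_add, sum_add_distrib, sum_sub_distrib] at hCp hSp
  simp only [em, cos_sub, sin_sub, sum_add_distrib, sum_sub_distrib] at hCm hSm
  cases b <;> cases b' <;> simp only [F2_tr, if_true, Bool.false_eq_true, if_false, and_true,
    and_false, reduceCtorEq]
  · split_ifs at hCm ⊢ <;> linarith
  · linarith
  · have : ∑ i : Fin M, cos (2 * π * f * ((i : ℕ) : ℝ) / M) * sin (2 * π * f' * ((i : ℕ) : ℝ) / M)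
        = 0 := by linarith
    exact this
  · split_ifs at hCm ⊢ <;> linarith

/-- **F2.** -/
theorem thm_F2 : St_F2 := by
  classical
  intro M hM
  have hM0 : 0 < M := by omega
  have hMr : (0 : ℝ) < M := by exact_mod_cast hM0
  refine ⟨?_, ?_⟩
  · intro i l hil
    set k : ℤ := (i : ℤ) - (l : ℤ) with hk
    have hi := i.2
    have hl := l.2
    have hne : (i : ℕ) ≠ l := fun h => hil (Fin.ext h)
    have hkn : ¬ (M : ℤ) ∣ k := by
      refine F2_ndvd (by omega) ?_
      rw [abs_lt]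
      constructor <;> omega
    have hs := F2_sin_ne hM0 hkn
    set x : ℝ := π * k / M with hx
    have hkr : (k : ℝ) = (i : ℝ) - (l : ℝ) := by
      rw [hk]; push_cast; rfl
    have hsum : ∑ f ∈ Finset.Icc 1 ((M - 1) / 2),
        2 * Real.cos (2 * Real.pi * f * ((i : ℝ) - (l : ℝ)) / M)
        = ∑ f ∈ Icc 1 ((M - 1) / 2), 2 * cos (2 * (f : ℝ) * x) := by
      refine sum_congr rfl fun f _ => ?_
      rw [hx, hkr]
      congr 2
      ring
    rw [hsum]
    have hD := F2_dir ((M - 1) / 2) x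
    set D : ℝ := 1 + ∑ f ∈ Icc 1 ((M - 1) / 2), 2 * cos (2 * (f : ℝ) * x) with hDd
    have hMx : (M : ℝ) * x = k * π := by rw [hx]; field_simp
    have hsMx : sin ((M : ℝ) * x) = 0 := by rw [hMx]; exact sin_int_mul_pi k
    have hle : |sin ((2 * (((M - 1) / 2 : ℕ) : ℝ) + 1) * x)| ≤ |sin x| := by
      rcases Nat.even_or_odd M with he | ho
      · obtain ⟨t, ht⟩ := he
        have h1 : 2 * ((M - 1) / 2) + 1 = M - 1 := by omega
        have h2 : 2 * (((M - 1) / 2 : ℕ) : ℝ) + 1 = (M : ℝ) - 1 := by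
          have h3 : ((2 * ((M - 1) / 2) + 1 : ℕ) : ℝ) = ((M - 1 : ℕ) : ℝ) := by rw [h1]
          rw [Nat.cast_sub (by omega)] at h3
          push_cast at h3 ⊢
          exact h3
        rw [h2, sub_mul, one_mul, sin_sub, hsMx, zero_mul, zero_sub, abs_neg, abs_mul]
        calc |cos ((M : ℝ) * x)| * |sin x| ≤ 1 * |sin x| :=
              mul_le_mul_of_nonneg_right (abs_cos_le_one _) (abs_nonneg _)
          _ = |sin x| := one_mul _
      · obtain ⟨t, ht⟩ := ho
        have h1 : 2 * ((M - 1) / 2) + 1 = M := by omega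
        have h2 : 2 * (((M - 1) / 2 : ℕ) : ℝ) + 1 = (M : ℝ) := by
          have h3 : ((2 * ((M - 1) / 2) + 1 : ℕ) : ℝ) = (M : ℝ) := by rw [h1]
          push_cast at h3 ⊢
          exact h3
        rw [h2, hsMx, abs_zero]
        exact abs_nonneg _
    rw [← hD, abs_mul] at hle
    have hsp : 0 < |sin x| := abs_pos.mpr hs
    nlinarith
  · intro F hF h hh
    have hFf : ∀ f ∈ F, 1 ≤ f ∧ 2 * f < M := by
      intro f hf
      have := mem_Icc.mp (hF hf)
      omega
    let g' : (Fin h ⊕ ({x // x ∈ F} × Bool)) → Fin M → ℝ := fun a i =>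
      Sum.elim (fun _ => √(1 / M)) (fun q => √(2 / M) * F2_tr M q.1 q.2 i) a
    have hcard : Fintype.card (Fin h ⊕ ({x // x ∈ F} × Bool)) = h + 2 * F.card := by
      rw [Fintype.card_sum, Fintype.card_prod, Fintype.card_fin, Fintype.card_bool,
        Fintype.card_coe, mul_comm]
    let e : Fin (h + 2 * F.card) ≃ (Fin h ⊕ ({x // x ∈ F} × Bool)) :=
      (Fintype.equivFinOfCardEq hcard).symm
    have hq1 : √(1 / (M : ℝ)) * √(1 / (M : ℝ)) = 1 / M := mul_self_sqrt (by positivity)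
    have hq2 : √(2 / (M : ℝ)) * √(2 / (M : ℝ)) = 2 / M := mul_self_sqrt (by positivity)
    have horth : ∀ a b, ∑ i, g' a i * g' b i = if a = b then 1 else 0 := by
      rintro (a | ⟨f, b⟩) (a' | ⟨f', b'⟩)
      · have haa : a = a' := by
          have := a.2
          have := a'.2
          exact Fin.ext (by omega)
        simp only [g', Sum.elim_inl, hq1, sum_const, card_univ, Fintype.card_fin, nsmul_eq_mul,
          haa, if_true]
        field_simp
      · simp only [g', Sum.elim_inl, Sum.elim_inr, reduceCtorEq, if_false]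
        have h1 : ∀ i, √(1 / (M : ℝ)) * (√(2 / (M : ℝ)) * F2_tr M f' b' i)
            = (√(1 / (M : ℝ)) * √(2 / (M : ℝ))) * F2_tr M f' b' i := fun i => by ring
        simp only [h1]
        rw [← mul_sum, F2_lin hM0 (hFf f' f'.2).1 (by have := (hFf f' f'.2).2; omega), mul_zero]
      · simp only [g', Sum.elim_inl, Sum.elim_inr, reduceCtorEq, if_false]
        have h1 : ∀ i, √(2 / (M : ℝ)) * F2_tr M f b i * √(1 / (M : ℝ))
            = (√(1 / (M : ℝ)) * √(2 / (M : ℝ))) * F2_tr M f b i := fun i => by ring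
        simp only [h1]
        rw [← mul_sum, F2_lin hM0 (hFf f f.2).1 (by have := (hFf f f.2).2; omega), mul_zero]
      · simp only [g', Sum.elim_inr, Sum.inr.injEq, Prod.mk.injEq]
        have h1 : ∀ i, √(2 / (M : ℝ)) * F2_tr M f b i * (√(2 / (M : ℝ)) * F2_tr M f' b' i)
            = 2 / M * (F2_tr M f b i * F2_tr M f' b' i) := fun i => by
          linear_combination (F2_tr M f b i * F2_tr M f' b' i) * hq2
        simp only [h1]
        rw [← mul_sum, F2_quad hM0 (hFf f f.2).1 (hFf f' f'.2).1 (hFf f f.2).2 (hFf f' f'.2).2]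
        by_cases hc : f = f' ∧ b = b'
        · rw [if_pos hc, if_pos ⟨congrArg _ hc.1, hc.2⟩]
          field_simp
        · rw [if_neg hc, if_neg (fun hc' => hc ⟨Subtype.ext hc'.1, hc'.2⟩), mul_zero]
    have hker : ∀ i l, ∑ a, g' a i * g' a l = ((h : ℝ) + ∑ f ∈ F,
        2 * Real.cos (2 * Real.pi * f * ((i : ℝ) - (l : ℝ)) / M)) / M := by
      intro i l
      rw [Fintype.sum_sum_type, Fintype.sum_prod_type]
      simp only [g', Sum.elim_inl, Sum.elim_inr, hq1, sum_const, card_univ, Fintype.card_fin,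
        nsmul_eq_mul, Fintype.sum_bool, F2_tr, if_true, Bool.false_eq_true, if_false]
      have h1 : ∀ f : {x // x ∈ F},
          √(2 / (M : ℝ)) * cos (2 * π * (f : ℕ) * ((i : ℕ) : ℝ) / M)
              * (√(2 / (M : ℝ)) * cos (2 * π * (f : ℕ) * ((l : ℕ) : ℝ) / M))
            + √(2 / (M : ℝ)) * sin (2 * π * (f : ℕ) * ((i : ℕ) : ℝ) / M)
              * (√(2 / (M : ℝ)) * sin (2 * π * (f : ℕ) * ((l : ℕ) : ℝ) / M))
            = 2 * cos (2 * π * (f : ℕ) * ((i : ℝ) - (l : ℝ)) / M) / M := by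
        intro f
        have e1 : 2 * π * ((f : ℕ) : ℝ) * ((i : ℝ) - (l : ℝ)) / M
            = 2 * π * (f : ℕ) * ((i : ℕ) : ℝ) / M - 2 * π * (f : ℕ) * ((l : ℕ) : ℝ) / M := by ring
        rw [e1, cos_sub]
        linear_combination (cos (2 * π * (f : ℕ) * ((i : ℕ) : ℝ) / M)
          * cos (2 * π * (f : ℕ) * ((l : ℕ) : ℝ) / M)
          + sin (2 * π * (f : ℕ) * ((i : ℕ) : ℝ) / M)
          * sin (2 * π * (f : ℕ) * ((l : ℕ) : ℝ) / M)) * hq2
      rw [sum_congr rfl fun f _ => h1 f]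
      rw [← Finset.sum_div, Finset.sum_coe_sort F (fun f =>
        2 * cos (2 * π * (f : ℝ) * ((i : ℝ) - (l : ℝ)) / M))]
      ring
    refine ⟨fun a => g' (e a), ?_, ?_⟩
    · intro a b
      rw [horth]
      by_cases hab : a = b
      · rw [if_pos hab, if_pos (congrArg e hab)]
      · rw [if_neg hab, if_neg (fun hh2 => hab (e.injective hh2))]
    · intro i l
      rw [← hker i l]
      exact Equiv.sum_comp e (fun j => g' j i * g' j l)

end Pool.Agent.XPL
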