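import Pool.Agent.XPL.St3

set_option autoImplicit false

namespace Pool.Agent.XPL

open Finset

/-- the function of the frequency -/
noncomputable def F3_x (M f : ℕ) (i l : Fin M) : ℝ :=
  2 * Real.cos (2 * Real.pi * f * ((i : ℝ) - (l : ℝ)) / M)

noncomputable def F3_D (M h : ℕ) (F : Finset ℕ) (i l : Fin M) : ℝ :=
  (h : ℝ) + ∑ f ∈ F, F3_x M f i l

noncomputable def F3_Phi (M h : ℕ) (F : Finset ℕ) : ℝ :=
  ∑ i, ∑ l ∈ univ.erase i, F3_D M h F i l ^ 4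

theorem F3_md (M D : ℝ) (hM : M ≠ 0) : M * (D / M) = D := by field_simp

theorem F3_x_abs (M f : ℕ) (i l : Fin M) : |F3_x M f i l| ≤ 2 := by
  unfold F3_x
  rw [abs_mul, abs_two]
  have := Real.abs_cos_le_one (2 * Real.pi * f * ((i : ℝ) - (l : ℝ)) / M)
  linarith

/-- sum of the squares for an orthonormal family -/
theorem F3_sq {M c : ℕ} (g : Fin c → Fin M → ℝ)
    (hg : ∀ a b, ∑ i, g a i * g b i = if a = b then 1 else 0) :
    ∑ i, ∑ l, (∑ a, g a i * g a l) ^ 2 = (c : ℝ) := by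
  have e : ∀ i l : Fin M, (∑ a, g a i * g a l) ^ 2 =
      ∑ a, ∑ b, (g a i * g b i) * (g a l * g b l) := by
    intro i l
    rw [pow_two, Finset.sum_mul_sum]
    refine Finset.sum_congr rfl fun a _ => Finset.sum_congr rfl fun b _ => ?_
    ring
  calc ∑ i, ∑ l, (∑ a, g a i * g a l) ^ 2
      = ∑ i, ∑ l, ∑ a, ∑ b, (g a i * g b i) * (g a l * g b l) :=
        Finset.sum_congr rfl fun i _ => Finset.sum_congr rfl fun l _ => e i l
    _ = ∑ a, ∑ b, ∑ i, ∑ l, (g a i * g b i) * (g a l * g b l) := by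
        have h1 : ∀ i : Fin M, ∑ l, ∑ a, ∑ b, (g a i * g b i) * (g a l * g b l) =
            ∑ a, ∑ b, ∑ l, (g a i * g b i) * (g a l * g b l) := by
          intro i
          rw [Finset.sum_comm]
          refine Finset.sum_congr rfl fun a _ => ?_
          rw [Finset.sum_comm]
        rw [Finset.sum_congr rfl fun i _ => h1 i, Finset.sum_comm]
        refine Finset.sum_congr rfl fun a _ => ?_
        rw [Finset.sum_comm]
    _ = ∑ a, ∑ b, (if a = b then (1 : ℝ) else 0) := by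
        refine Finset.sum_congr rfl fun a _ => Finset.sum_congr rfl fun b _ => ?_
        have h2 : ∑ i, ∑ l, (g a i * g b i) * (g a l * g b l) =
            (∑ i, g a i * g b i) * (∑ l, g a l * g b l) := by
          rw [Finset.sum_mul_sum]
        rw [h2, hg]
        split_ifs <;> norm_num
    _ = c := by simp

theorem F3_poly (D x : ℝ) (hx : |x| ≤ 2) :
    (D + x) ^ 4 ≤ D ^ 4 + 4 * D ^ 3 * x + (40 * D ^ 2 + 32) := by
  have h1 := abs_le.1 hx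
  have hx2 : x ^ 2 ≤ 4 := by nlinarith
  have hx4 : x ^ 4 ≤ 16 := by nlinarith [sq_nonneg (x ^ 2)]
  have h3 : 4 * D * x ^ 3 ≤ 16 * D ^ 2 + 16 := by
    have hx6 : x ^ 6 ≤ 64 := by nlinarith [sq_nonneg (x ^ 2), sq_nonneg x, sq_nonneg (x ^ 3)]
    nlinarith [sq_nonneg (4 * D - x ^ 3 / 2)]
  have h2 : 6 * D ^ 2 * x ^ 2 ≤ 24 * D ^ 2 := by nlinarith [sq_nonneg D]
  have e : (D + x) ^ 4 = D ^ 4 + 4 * D ^ 3 * x + 6 * D ^ 2 * x ^ 2 + 4 * D * x ^ 3 + x ^ 4 := by ring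
  rw [e]
  linarith

theorem F3_cub (D e : ℝ) (he : |e| ≤ 2) : 4 * D ^ 3 * (-D + e) ≤ 7 := by
  have h1 : D ^ 3 * e ≤ 2 * |D| ^ 3 := by
    calc D ^ 3 * e ≤ |D ^ 3 * e| := le_abs_self _
      _ = |D| ^ 3 * |e| := by rw [abs_mul, abs_pow]
      _ ≤ |D| ^ 3 * 2 := mul_le_mul_of_nonneg_left he (by positivity)
      _ = 2 * |D| ^ 3 := by ring
  have h2 : D ^ 4 = |D| ^ 4 := by
    have : |D| ^ 4 = (|D| ^ 2) ^ 2 := by ring
    rw [this, sq_abs]; ring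
  have h3 : 8 * |D| ^ 3 - 4 * |D| ^ 4 ≤ 7 := by
    nlinarith [sq_nonneg (|D| ^ 2 - |D| - 3 / 4), sq_nonneg (|D| - 3 / 2), sq_nonneg (|D|)]
  have e1 : 4 * D ^ 3 * (-D + e) = 4 * (D ^ 3 * e) - 4 * D ^ 4 := by ring
  rw [e1, h2]
  linarith

/-- sum over the unused frequencies at one pair -/
theorem F3_pair (M h : ℕ) (hh : h ≤ 1) (F : Finset ℕ) (hF : F ⊆ Icc 1 ((M - 1) / 2))
    (hne : 1 ≤ (Icc 1 ((M - 1) / 2) \ F).card) (i l : Fin M)
    (hil : |1 + ∑ f ∈ Icc 1 ((M - 1) / 2), F3_x M f i l| ≤ 1) :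
    ∑ f ∈ Icc 1 ((M - 1) / 2) \ F, (F3_D M h F i l + F3_x M f i l) ^ 4 ≤
      ((Icc 1 ((M - 1) / 2) \ F).card : ℝ) * (F3_D M h F i l ^ 4 + 40 * F3_D M h F i l ^ 2 + 39) := by
  set U := Icc 1 ((M - 1) / 2) \ F with hU
  set D := F3_D M h F i l with hD
  have hs : ∑ f ∈ U, F3_x M f i l = -D + ((1 + ∑ f ∈ Icc 1 ((M - 1) / 2), F3_x M f i l) + ((h : ℝ) - 1)) := by
    have := Finset.sum_sdiff hF (f := fun f => F3_x M f i l)
    rw [hD]
    unfold F3_D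
    rw [← this]
    ring
  have he : |(1 + ∑ f ∈ Icc 1 ((M - 1) / 2), F3_x M f i l) + ((h : ℝ) - 1)| ≤ 2 := by
    have h0 : (0 : ℝ) ≤ h := by positivity
    have h1 : (h : ℝ) ≤ 1 := by exact_mod_cast hh
    have := abs_le.1 hil
    rw [abs_le]
    constructor <;> linarith
  have hc := F3_cub D _ he
  calc ∑ f ∈ U, (D + F3_x M f i l) ^ 4
      ≤ ∑ f ∈ U, (D ^ 4 + 4 * D ^ 3 * F3_x M f i l + (40 * D ^ 2 + 32)) :=
        Finset.sum_le_sum fun f _ => F3_poly D _ (F3_x_abs M f i l)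
    _ = (U.card : ℝ) * (D ^ 4 + 40 * D ^ 2 + 32) + 4 * D ^ 3 * ∑ f ∈ U, F3_x M f i l := by
        rw [Finset.sum_add_distrib, Finset.sum_add_distrib, Finset.sum_const, Finset.sum_const,
          ← Finset.mul_sum]
        simp only [nsmul_eq_mul]
        ring
    _ ≤ (U.card : ℝ) * (D ^ 4 + 40 * D ^ 2 + 32) + 7 := by
        rw [hs]; linarith
    _ ≤ (U.card : ℝ) * (D ^ 4 + 40 * D ^ 2 + 39) := by
        have : (1 : ℝ) ≤ U.card := by exact_mod_cast hne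
        nlinarith

theorem F3_step (hF2 : St_F2) (M h : ℕ) (hM : 3 ≤ M) (hh : h ≤ 1) (F : Finset ℕ)
    (hF : F ⊆ Icc 1 ((M - 1) / 2)) (hlt : F.card < (M - 1) / 2) :
    ∃ f ∈ Icc 1 ((M - 1) / 2) \ F, F3_Phi M h (insert f F) ≤
      F3_Phi M h F + 40 * (M : ℝ) ^ 2 * ((h : ℝ) + 2 * F.card) + 39 * (M : ℝ) ^ 2 := by
  obtain ⟨hA, hB⟩ := hF2 M hM
  set U := Icc 1 ((M - 1) / 2) \ F with hU
  have hcU : 1 ≤ U.card := by
    rw [hU, Finset.card_sdiff_of_subset hF]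
    simp only [Nat.card_Icc]
    omega
  have hUne : U.Nonempty := Finset.card_pos.1 hcU
  -- sum of squares
  obtain ⟨g, hg1, hg2⟩ := hB F hF h hh
  have hM0 : (0 : ℝ) < M := by
    have : 0 < M := by omega
    exact_mod_cast this
  have hsq : ∑ i, ∑ l, F3_D M h F i l ^ 2 = (M : ℝ) ^ 2 * ((h : ℝ) + 2 * F.card) := by
    have h1 := F3_sq g hg1
    have h2 : ∀ i l : Fin M, F3_D M h F i l ^ 2 = (M : ℝ) ^ 2 * (∑ a, g a i * g a l) ^ 2 := by
      intro i l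
      rw [hg2 i l, ← mul_pow, F3_md _ _ hM0.ne']
      rfl
    calc ∑ i, ∑ l, F3_D M h F i l ^ 2
        = ∑ i, ∑ l, (M : ℝ) ^ 2 * (∑ a, g a i * g a l) ^ 2 :=
          Finset.sum_congr rfl fun i _ => Finset.sum_congr rfl fun l _ => h2 i l
      _ = (M : ℝ) ^ 2 * ∑ i, ∑ l, (∑ a, g a i * g a l) ^ 2 := by
          rw [Finset.mul_sum]
          exact Finset.sum_congr rfl fun i _ => (Finset.mul_sum _ _ _).symm
      _ = (M : ℝ) ^ 2 * ((h : ℝ) + 2 * F.card) := by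
          rw [h1]; push_cast; ring
  have hsq' : ∑ i, ∑ l ∈ univ.erase i, F3_D M h F i l ^ 2 ≤ (M : ℝ) ^ 2 * ((h : ℝ) + 2 * F.card) := by
    rw [← hsq]
    refine Finset.sum_le_sum fun i _ => ?_
    exact Finset.sum_le_sum_of_subset_of_nonneg (Finset.erase_subset _ _) fun _ _ _ => sq_nonneg _
  have hone : ∑ i : Fin M, ∑ l ∈ univ.erase i, (1 : ℝ) ≤ (M : ℝ) ^ 2 := by
    calc ∑ i : Fin M, ∑ l ∈ univ.erase i, (1 : ℝ) ≤ ∑ i : Fin M, ∑ l : Fin M, (1 : ℝ) :=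
          Finset.sum_le_sum fun i _ =>
            Finset.sum_le_sum_of_subset_of_nonneg (Finset.erase_subset _ _) fun _ _ _ => zero_le_one
      _ = (M : ℝ) ^ 2 := by simp [pow_two]
  -- sum over the unused frequencies
  have hins : ∀ f ∈ U, F3_Phi M h (insert f F) =
      ∑ i, ∑ l ∈ univ.erase i, (F3_D M h F i l + F3_x M f i l) ^ 4 := by
    intro f hf
    unfold F3_Phi
    refine Finset.sum_congr rfl fun i _ => Finset.sum_congr rfl fun l _ => ?_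
    congr 1
    unfold F3_D
    have hf' : f ∉ F := (Finset.mem_sdiff.1 hf).2
    rw [Finset.sum_insert hf']
    ring
  have hsum : ∑ f ∈ U, F3_Phi M h (insert f F) ≤
      ∑ f ∈ U, (F3_Phi M h F + 40 * (M : ℝ) ^ 2 * ((h : ℝ) + 2 * F.card) + 39 * (M : ℝ) ^ 2) := by
    calc ∑ f ∈ U, F3_Phi M h (insert f F)
        = ∑ f ∈ U, ∑ i, ∑ l ∈ univ.erase i, (F3_D M h F i l + F3_x M f i l) ^ 4 :=
          Finset.sum_congr rfl hins
      _ = ∑ i, ∑ l ∈ univ.erase i, ∑ f ∈ U, (F3_D M h F i l + F3_x M f i l) ^ 4 := by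
          rw [Finset.sum_comm]
          refine Finset.sum_congr rfl fun i _ => ?_
          rw [Finset.sum_comm]
      _ ≤ ∑ i, ∑ l ∈ univ.erase i, (U.card : ℝ) * (F3_D M h F i l ^ 4 + 40 * F3_D M h F i l ^ 2 + 39) := by
          refine Finset.sum_le_sum fun i _ => Finset.sum_le_sum fun l hl => ?_
          have hil : i ≠ l := fun h => (Finset.mem_erase.1 hl).1 h.symm
          exact F3_pair M h hh F hF hcU i l (hA i l hil)
      _ = (U.card : ℝ) * (F3_Phi M h F + 40 * (∑ i, ∑ l ∈ univ.erase i, F3_D M h F i l ^ 2) +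
            39 * ∑ i : Fin M, ∑ l ∈ univ.erase i, (1 : ℝ)) := by
          unfold F3_Phi
          simp only [Finset.mul_sum, mul_add, Finset.sum_add_distrib, mul_one]
      _ ≤ (U.card : ℝ) * (F3_Phi M h F + 40 * ((M : ℝ) ^ 2 * ((h : ℝ) + 2 * F.card)) +
            39 * (M : ℝ) ^ 2) := by
          apply mul_le_mul_of_nonneg_left _ (by positivity)
          linarith
      _ = ∑ f ∈ U, (F3_Phi M h F + 40 * (M : ℝ) ^ 2 * ((h : ℝ) + 2 * F.card) + 39 * (M : ℝ) ^ 2) := by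
          rw [Finset.sum_const, nsmul_eq_mul]
          ring
  obtain ⟨f, hf, hle⟩ := Finset.exists_le_of_sum_le hUne hsum
  exact ⟨f, hf, hle⟩

theorem F3_iter (hF2 : St_F2) (M h : ℕ) (hM : 3 ≤ M) (hh : h ≤ 1) (s : ℕ) (hs : s ≤ (M - 1) / 2) :
    ∃ F : Finset ℕ, F ⊆ Icc 1 ((M - 1) / 2) ∧ F.card = s ∧
      F3_Phi M h F ≤ (M : ℝ) ^ 2 * ((h : ℝ) + 40 * h * s + 40 * (s : ℝ) ^ 2 - s) := by
  induction s with
  | zero =>
    refine ⟨∅, by simp, rfl, ?_⟩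
    unfold F3_Phi F3_D
    simp only [Finset.sum_empty, add_zero, Nat.cast_zero, mul_zero, sub_zero]
    have h4 : ((h : ℝ)) ^ 4 = h := by
      have : h = 0 ∨ h = 1 := by omega
      rcases this with rfl | rfl <;> norm_num
    have hone : ∑ i : Fin M, ∑ l ∈ univ.erase i, (h : ℝ) ^ 4 ≤ ∑ i : Fin M, ∑ l : Fin M, (h : ℝ) ^ 4 :=
      Finset.sum_le_sum fun i _ =>
        Finset.sum_le_sum_of_subset_of_nonneg (Finset.erase_subset _ _) fun _ _ _ => by positivity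
    refine hone.trans (le_of_eq ?_)
    rw [h4]
    simp
    ring
  | succ s ih =>
    obtain ⟨F, hF, hc, hP⟩ := ih (by omega)
    obtain ⟨f, hf, hle⟩ := F3_step hF2 M h hM hh F hF (by omega)
    refine ⟨insert f F, ?_, ?_, ?_⟩
    · exact Finset.insert_subset (Finset.mem_sdiff.1 hf).1 hF
    · rw [Finset.card_insert_of_notMem (Finset.mem_sdiff.1 hf).2, hc]
    · refine hle.trans ?_
      rw [hc]
      push_cast
      have e : (M : ℝ) ^ 2 * ((h : ℝ) + 40 * h * (s + 1) + 40 * ((s : ℝ) + 1) ^ 2 - (s + 1)) =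
          (M : ℝ) ^ 2 * ((h : ℝ) + 40 * h * s + 40 * (s : ℝ) ^ 2 - s) +
            40 * (M : ℝ) ^ 2 * ((h : ℝ) + 2 * s) + 39 * (M : ℝ) ^ 2 := by ring
      rw [e]
      linarith

theorem thm_F3 (hF2 : St_F2) : St_F3 := by
  intro M c hc hM
  have hM3 : 3 ≤ M := by omega
  obtain ⟨h, s, hcs, hh⟩ : ∃ h s : ℕ, h + 2 * s = c ∧ h ≤ 1 := ⟨c % 2, c / 2, by omega, by omega⟩
  obtain ⟨F, hF, hFc, hP⟩ := F3_iter hF2 M h hM3 hh s (by omega)
  obtain ⟨g, hg1, hg2⟩ := (hF2 M hM3).2 F hF h hh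
  have hM0 : (0 : ℝ) < M := by
    have : 0 < M := by omega
    exact_mod_cast this
  have hcc : h + 2 * F.card = c := by omega
  subst hcc
  refine ⟨g, hg1, ?_, ?_⟩
  · intro i
    have e : ∑ a, g a i ^ 2 = ∑ a, g a i * g a i := Finset.sum_congr rfl fun a _ => pow_two _
    rw [e, hg2 i i]
    congr 1
    simp
    ring
  · have e : ∑ i, ∑ l ∈ univ.erase i, ((M : ℝ) * ∑ a, g a i * g a l) ^ 4 = F3_Phi M h F := by
      unfold F3_Phi
      refine Finset.sum_congr rfl fun i _ => Finset.sum_congr rfl fun l _ => ?_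
      rw [hg2 i l, F3_md _ _ hM0.ne']
      rfl
    rw [e]
    refine hP.trans ?_
    rw [hFc]
    push_cast
    have h1 : ((h : ℝ)) ^ 2 = h := by
      have : h = 0 ∨ h = 1 := by omega
      rcases this with rfl | rfl <;> norm_num
    have h0 : (0 : ℝ) ≤ h := by positivity
    have hs0 : (0 : ℝ) ≤ s := by positivity
    have : (h : ℝ) + 40 * h * s + 40 * (s : ℝ) ^ 2 - s ≤ 11 * ((h : ℝ) + 2 * s) ^ 2 := by
      nlinarith [mul_nonneg h0 hs0, sq_nonneg (s : ℝ)]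
    calc (M : ℝ) ^ 2 * ((h : ℝ) + 40 * h * s + 40 * (s : ℝ) ^ 2 - s)
        ≤ (M : ℝ) ^ 2 * (11 * ((h : ℝ) + 2 * s) ^ 2) := mul_le_mul_of_nonneg_left this (by positivity)
      _ = 11 * (M : ℝ) ^ 2 * ((h : ℝ) + 2 * s) ^ 2 := by ring

end Pool.Agent.XPL
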