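import Pool.Agent.XPL.St3

/-!
# XPL: tight frames with small fourth moment (F4)
-/

set_option autoImplicit false

namespace Pool.Agent.XPL

open Finset

private theorem F4_sq {c n : ℕ} (g : Fin c → Fin n → ℝ)
    (h : ∀ a b, ∑ i, g a i * g b i = if a = b then 1 else 0) :
    ∑ i, ∑ l, (∑ a, g a i * g a l) ^ 2 = (c : ℝ) := by
  have e1 : ∀ i l, (∑ a, g a i * g a l) ^ 2 =
      ∑ a, ∑ b, (g a i * g b i) * (g a l * g b l) := by
    intro i l
    rw [pow_two, Finset.sum_mul_sum]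
    refine Finset.sum_congr rfl fun a _ => Finset.sum_congr rfl fun b _ => ?_
    ring
  have e2 : ∑ i, ∑ l, (∑ a, g a i * g a l) ^ 2 =
      ∑ a, ∑ b, (∑ i, g a i * g b i) * (∑ l, g a l * g b l) := by
    simp_rw [e1]
    calc ∑ i, ∑ l, ∑ a, ∑ b, (g a i * g b i) * (g a l * g b l)
        = ∑ i, ∑ a, ∑ l, ∑ b, (g a i * g b i) * (g a l * g b l) :=
          Finset.sum_congr rfl fun i _ => Finset.sum_comm
      _ = ∑ a, ∑ i, ∑ l, ∑ b, (g a i * g b i) * (g a l * g b l) := Finset.sum_comm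
      _ = ∑ a, ∑ i, ∑ b, ∑ l, (g a i * g b i) * (g a l * g b l) :=
          Finset.sum_congr rfl fun a _ => Finset.sum_congr rfl fun i _ => Finset.sum_comm
      _ = ∑ a, ∑ b, ∑ i, ∑ l, (g a i * g b i) * (g a l * g b l) :=
          Finset.sum_congr rfl fun a _ => Finset.sum_comm
      _ = _ := by
          refine Finset.sum_congr rfl fun a _ => Finset.sum_congr rfl fun b _ => ?_
          rw [Finset.sum_mul_sum]
  rw [e2]
  simp_rw [h]
  have e3 : ∀ a b : Fin c, (if a = b then (1 : ℝ) else 0) * (if a = b then (1 : ℝ) else 0) =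
      if a = b then 1 else 0 := by
    intro a b
    split_ifs <;> simp
  simp_rw [e3]
  simp

theorem thm_F4 : St_F1 → St_F3 → St_F4 := by
  intro h1 h3 d c hc hd
  have hd1 : 1 ≤ d := by omega
  obtain ⟨g, hg1, hg2, hg3⟩ := h3 (d + c) c hc (by omega)
  have hcR : (1 : ℝ) ≤ c := by exact_mod_cast hc
  have hdR : 100 * (c : ℝ) ≤ d := by exact_mod_cast hd
  have hdpos : (0 : ℝ) < d := by linarith
  have hM : (0 : ℝ) < (d : ℝ) + c := by linarith
  have hg2' : ∀ i, ∑ a, g a i ^ 2 = (c : ℝ) / ((d : ℝ) + c) := by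
    intro i
    rw [hg2 i]
    push_cast
    rfl
  obtain ⟨q, hq1, hq2⟩ := h1 d c hd1 g hg1 hg2'
  refine ⟨q, hq1, ?_, ?_⟩
  · have e1 : ∑ i, ∑ l ∈ univ.erase i, (inner ℝ (q i) (q l) : ℝ) ^ 2 =
        (((d : ℝ) + c) / d) ^ 2 * ∑ i, ∑ l ∈ univ.erase i, (∑ a, g a i * g a l) ^ 2 := by
      rw [Finset.mul_sum]
      refine Finset.sum_congr rfl fun i _ => ?_
      rw [Finset.mul_sum]
      refine Finset.sum_congr rfl fun l hl => ?_
      rw [hq2 i l (Finset.ne_of_mem_erase hl).symm]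
      ring
    have e2 : ∑ i, ∑ l ∈ univ.erase i, (∑ a, g a i * g a l) ^ 2 =
        (c : ℝ) - ((d : ℝ) + c) * ((c : ℝ) / ((d : ℝ) + c)) ^ 2 := by
      have e3 : ∀ i : Fin (d + c), ∑ l ∈ univ.erase i, (∑ a, g a i * g a l) ^ 2 =
          ∑ l, (∑ a, g a i * g a l) ^ 2 - ((c : ℝ) / ((d : ℝ) + c)) ^ 2 := by
        intro i
        have e4 := Finset.sum_erase_add (univ : Finset (Fin (d + c)))
          (fun l => (∑ a, g a i * g a l) ^ 2) (Finset.mem_univ i)
        have e5 : ∑ a, g a i * g a i = (c : ℝ) / ((d : ℝ) + c) := by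
          rw [← hg2' i]
          exact Finset.sum_congr rfl fun a _ => (pow_two _).symm
        simp only [e5] at e4
        linarith
      simp_rw [e3]
      rw [Finset.sum_sub_distrib, F4_sq g hg1]
      simp
    rw [e1, e2]
    field_simp
    ring
  · have e1 : ∑ i, ∑ l ∈ univ.erase i, (inner ℝ (q i) (q l) : ℝ) ^ 4 =
        1 / (d : ℝ) ^ 4 * ∑ i, ∑ l ∈ univ.erase i,
          (((d + c : ℕ) : ℝ) * ∑ a, g a i * g a l) ^ 4 := by
      rw [Finset.mul_sum]
      refine Finset.sum_congr rfl fun i _ => ?_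
      rw [Finset.mul_sum]
      refine Finset.sum_congr rfl fun l hl => ?_
      rw [hq2 i l (Finset.ne_of_mem_erase hl).symm]
      push_cast
      ring
    rw [e1]
    have e2 : 1 / (d : ℝ) ^ 4 * ∑ i, ∑ l ∈ univ.erase i,
          (((d + c : ℕ) : ℝ) * ∑ a, g a i * g a l) ^ 4 ≤
        1 / (d : ℝ) ^ 4 * (11 * ((d + c : ℕ) : ℝ) ^ 2 * (c : ℝ) ^ 2) :=
      mul_le_mul_of_nonneg_left hg3 (by positivity)
    refine e2.trans ?_
    push_cast
    have e3 : 11 * ((d : ℝ) + c) ^ 2 ≤ 12 * (d : ℝ) ^ 2 := by nlinarith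
    have e4 : 12 * ((c : ℝ) / d) ^ 2 = 1 / (d : ℝ) ^ 4 * (12 * (d : ℝ) ^ 2 * (c : ℝ) ^ 2) := by
      field_simp
    rw [e4]
    apply mul_le_mul_of_nonneg_left _ (by positivity)
    exact mul_le_mul_of_nonneg_right e3 (by positivity)

end Pool.Agent.XPL
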