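import Pool.Agent.XPL.St3

set_option autoImplicit false

/-!
# XPL, statement F5 : antipodal sets from the frames, value of the distance sum
-/

namespace Pool.Agent.XPL

open Finset

private theorem F5_dist {d : ℕ} (x y : E d) (hx : ‖x‖ = 1) (hy : ‖y‖ = 1) :
    dist x y = √2 * √(1 - inner ℝ x y) := by
  have h1 : ‖x - y‖ ^ 2 = 2 * (1 - inner ℝ x y) := by
    rw [norm_sub_sq_real, hx, hy]
    ring
  rw [dist_eq_norm, ← Real.sqrt_sq (norm_nonneg (x - y)), h1, Real.sqrt_mul (by norm_num)]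

/-- `hh x ≥ 2 - x^2/4 - x^4/10` for `|x| ≤ 1/2`. -/
private theorem F5_hh (x : ℝ) (hx : |x| ≤ 1 / 2) : 2 - x ^ 2 / 4 - x ^ 4 / 10 ≤ hh x := by
  have hx1 := (abs_le.mp hx).1
  have hx2 := (abs_le.mp hx).2
  have hy0 : 0 ≤ x ^ 2 := sq_nonneg x
  have hy1 : x ^ 2 ≤ 1 / 4 := by nlinarith
  have ha : 0 ≤ 1 - x := by linarith
  have hb : 0 ≤ 1 + x := by linarith
  have hnn : 0 ≤ hh x := by
    unfold hh
    positivity
  have hsq : hh x ^ 2 = 2 + 2 * √(1 - x ^ 2) := by
    have h1 : √(1 - x) * √(1 + x) = √(1 - x ^ 2) := by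
      rw [← Real.sqrt_mul ha]
      congr 1
      ring
    have h2 : √(1 - x) ^ 2 = 1 - x := Real.sq_sqrt ha
    have h3 : √(1 + x) ^ 2 = 1 + x := Real.sq_sqrt hb
    unfold hh
    linear_combination h2 + h3 + 2 * h1
  have hx4 : x ^ 4 = (x ^ 2) ^ 2 := by ring
  rw [hx4]
  generalize x ^ 2 = y at hy0 hy1 hsq ⊢
  have hroot : 1 - y / 2 - y ^ 2 / 8 - y ^ 3 / 12 ≤ √(1 - y) := by
    apply Real.le_sqrt_of_sq_le
    have h4 : 0 ≤ y ^ 3 * (1 / 4 - y) := mul_nonneg (by positivity) (by linarith)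
    have h5 : 0 ≤ y ^ 4 * (1 / 4 - y) := mul_nonneg (by positivity) (by linarith)
    have h6 : 0 ≤ y ^ 5 * (1 / 4 - y) := mul_nonneg (by positivity) (by linarith)
    have h7 : 0 ≤ y ^ 3 := by positivity
    have h8 : 0 ≤ y ^ 4 := by positivity
    nlinarith
  have hfin : (2 - y / 4 - y ^ 2 / 10) ^ 2 ≤ hh x ^ 2 := by
    rw [hsq]
    have h4 : 0 ≤ y ^ 2 * (1 / 4 - y) := mul_nonneg (by positivity) (by linarith)
    have h5 : 0 ≤ y ^ 3 * (1 / 4 - y) := mul_nonneg (by positivity) (by linarith)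
    have h6 : 0 ≤ y ^ 2 := by positivity
    have h7 : 0 ≤ y ^ 3 := by positivity
    nlinarith
  exact le_of_sq_le_sq hfin hnn
where
  le_of_sq_le_sq {a b : ℝ} (h : a ^ 2 ≤ b ^ 2) (hb : 0 ≤ b) : a ≤ b := abs_le_of_sq_le_sq' h hb |>.2

/-- The general construction. -/
private theorem F5_main (d c : ℕ) (hd : 1 ≤ d) (hc : 100 * c ≤ d) (q : Fin (d + c) → E d)
    (hq : ∀ i, ‖q i‖ = 1)
    (h2 : ∑ i, ∑ l ∈ univ.erase i, (inner ℝ (q i) (q l) : ℝ) ^ 2 = ((d : ℝ) + c) * c / d)
    (h4 : ∑ i, ∑ l ∈ univ.erase i, (inner ℝ (q i) (q l) : ℝ) ^ 4 ≤ 12 * ((c : ℝ) / d) ^ 2) :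
    ∃ P : Finset (E d), P.card = 2 * d + 2 * c ∧ (∀ x ∈ P, ‖x‖ = 1) ∧ (∀ x ∈ P, -x ∈ P) ∧
      √2 * (Bs (2 * (d : ℝ) + 2 * c) d - 3 * ((c : ℝ) / d) ^ 2) ≤
        ∑ x ∈ P, ∑ y ∈ P, dist x y := by
  have hd0 : (0 : ℝ) < d := by exact_mod_cast hd
  have hcd : (c : ℝ) / d ≤ 1 / 100 := by
    rw [div_le_iff₀ hd0]
    have h5 : (100 : ℝ) * c ≤ d := by exact_mod_cast hc
    linarith
  have hcd0 : 0 ≤ (c : ℝ) / d := by positivity
  have hsmall : ∀ i l, i ≠ l → |(inner ℝ (q i) (q l) : ℝ)| ≤ 1 / 2 := by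
    intro i l hil
    have h5 : (inner ℝ (q i) (q l) : ℝ) ^ 4 ≤ 12 * ((c : ℝ) / d) ^ 2 := by
      refine le_trans ?_ h4
      refine le_trans ?_ (Finset.single_le_sum (f := fun i => ∑ l ∈ univ.erase i,
        (inner ℝ (q i) (q l) : ℝ) ^ 4) (fun i _ => Finset.sum_nonneg fun l _ => by positivity)
        (Finset.mem_univ i))
      exact Finset.single_le_sum (f := fun l => (inner ℝ (q i) (q l) : ℝ) ^ 4)
        (fun l _ => by positivity) (Finset.mem_erase.mpr ⟨hil.symm, Finset.mem_univ l⟩)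
    have h6 : ((c : ℝ) / d) ^ 2 ≤ (1 / 100) ^ 2 := by gcongr
    have h7 : (inner ℝ (q i) (q l) : ℝ) ^ 4 ≤ (1 / 2) ^ 4 := by
      refine h5.trans ?_
      norm_num at h6 ⊢
      linarith
    have h8 : |(inner ℝ (q i) (q l) : ℝ)| ^ 4 ≤ (1 / 2) ^ 4 := by
      rw [pow_abs, abs_of_nonneg (by positivity)]
      exact h7
    exact le_of_pow_le_pow_left₀ (by norm_num) (by norm_num) h8
  have hself : ∀ i, (inner ℝ (q i) (q i) : ℝ) = 1 := by
    intro i
    rw [real_inner_self_eq_norm_sq, hq i, one_pow]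
  have hqinj : Function.Injective q := by
    intro i l hil
    by_contra hne
    have h5 := hsmall i l hne
    rw [← hil, hself, abs_one] at h5
    norm_num at h5
  have hne : ∀ i l, q i ≠ -q l := by
    intro i l hil
    have h5 : (inner ℝ (q i) (q l) : ℝ) = -1 := by
      rw [hil, inner_neg_left, hself]
    by_cases h6 : i = l
    · subst h6
      rw [hself] at h5
      norm_num at h5
    · have h7 := hsmall i l h6
      rw [h5, abs_neg, abs_one] at h7
      norm_num at h7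
  have hinj : Function.Injective (fun x : E d => -x) := neg_injective
  set A : Finset (E d) := univ.image q with hA
  have hAc : A.card = d + c := by
    rw [hA, Finset.card_image_of_injective _ hqinj, Finset.card_univ, Fintype.card_fin]
  have hdis : Disjoint A (A.image (fun x => -x)) := by
    rw [Finset.disjoint_left]
    intro a ha hb
    rw [hA, Finset.mem_image] at ha
    obtain ⟨i, _, rfl⟩ := ha
    rw [Finset.mem_image] at hb
    obtain ⟨b, hb, hbi⟩ := hb
    rw [hA, Finset.mem_image] at hb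
    obtain ⟨l, _, rfl⟩ := hb
    exact hne i l hbi.symm
  have hunit : ∀ x ∈ A, ‖x‖ = 1 := by
    intro x hx
    rw [hA, Finset.mem_image] at hx
    obtain ⟨i, _, rfl⟩ := hx
    exact hq i
  have hsum : ∀ f : E d → ℝ, ∑ x ∈ A ∪ A.image (fun x => -x), f x =
      ∑ i, f (q i) + ∑ i, f (-q i) := by
    intro f
    rw [Finset.sum_union hdis, Finset.sum_image (fun x _ y _ h => hinj h), hA,
      Finset.sum_image (fun x _ y _ h => hqinj h), Finset.sum_image (fun x _ y _ h => hqinj h)]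
  have hrow : ∀ i, ∑ l, dist (q i) (q l) + ∑ l, dist (q i) (-q l) =
      2 + √2 * ∑ l ∈ univ.erase i, hh (inner ℝ (q i) (q l)) := by
    intro i
    have h5 : dist (q i) (-q i) = 2 := by
      rw [dist_eq_norm, sub_neg_eq_add, ← two_smul ℝ (q i), norm_smul, hq i]
      norm_num
    rw [← Finset.add_sum_erase univ (fun l => dist (q i) (q l)) (Finset.mem_univ i),
      ← Finset.add_sum_erase univ (fun l => dist (q i) (-q l)) (Finset.mem_univ i), dist_self,
      h5, Finset.mul_sum]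
    have h6 : ∀ l ∈ univ.erase i, √2 * hh (inner ℝ (q i) (q l)) =
        dist (q i) (q l) + dist (q i) (-q l) := by
      intro l _
      rw [F5_dist _ _ (hq i) (hq l), F5_dist _ _ (hq i) (by rw [norm_neg]; exact hq l),
        inner_neg_right, sub_neg_eq_add]
      unfold hh
      ring
    rw [Finset.sum_congr rfl h6, Finset.sum_add_distrib]
    ring
  refine ⟨A ∪ A.image (fun x => -x), ?_, ?_, ?_, ?_⟩
  · rw [Finset.card_union_of_disjoint hdis, Finset.card_image_of_injective A hinj, hAc]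
    ring
  · intro x hx
    rcases Finset.mem_union.mp hx with hx | hx
    · exact hunit x hx
    · obtain ⟨y, hy, rfl⟩ := Finset.mem_image.mp hx
      show ‖-y‖ = 1
      rw [norm_neg]
      exact hunit y hy
  · intro x hx
    rcases Finset.mem_union.mp hx with hx | hx
    · exact Finset.mem_union_right _ (Finset.mem_image_of_mem _ hx)
    · obtain ⟨y, hy, rfl⟩ := Finset.mem_image.mp hx
      refine Finset.mem_union_left _ ?_
      show - -y ∈ A
      rw [neg_neg]
      exact hy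
  · have hneg : ∀ i, ∑ y ∈ A ∪ A.image (fun x => -x), dist (-q i) y =
        ∑ y ∈ A ∪ A.image (fun x => -x), dist (q i) y := by
      intro i
      rw [hsum, hsum, add_comm]
      congr 1
      · exact Finset.sum_congr rfl fun l _ => dist_neg_neg (q i) (q l)
      · refine Finset.sum_congr rfl fun l _ => ?_
        rw [← dist_neg_neg (-q i) (q l), neg_neg]
    have htot : ∑ x ∈ A ∪ A.image (fun x => -x), ∑ y ∈ A ∪ A.image (fun x => -x), dist x y =
        2 * ∑ i, (2 + √2 * ∑ l ∈ univ.erase i, hh (inner ℝ (q i) (q l))) := by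
      rw [hsum, Finset.sum_congr rfl fun i _ => hneg i, ← two_mul]
      congr 1
      refine Finset.sum_congr rfl fun i _ => ?_
      rw [hsum]
      exact hrow i
    rw [htot]
    have hlow : ∑ i, ∑ l ∈ univ.erase i, (2 - (inner ℝ (q i) (q l) : ℝ) ^ 2 / 4 -
        (inner ℝ (q i) (q l) : ℝ) ^ 4 / 10) ≤
        ∑ i, ∑ l ∈ univ.erase i, hh (inner ℝ (q i) (q l)) := by
      refine Finset.sum_le_sum fun i _ => Finset.sum_le_sum fun l hl => ?_
      exact F5_hh _ (hsmall i l (Finset.mem_erase.mp hl).1.symm)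
    have hcard : ∀ i : Fin (d + c), (univ.erase i).card = d + c - 1 := by
      intro i
      rw [Finset.card_erase_of_mem (Finset.mem_univ i), Finset.card_univ, Fintype.card_fin]
    have hM1 : ((d + c - 1 : ℕ) : ℝ) = (d : ℝ) + c - 1 := by
      rw [Nat.cast_sub (by omega)]
      push_cast
      ring
    have hval : ∑ i, ∑ l ∈ univ.erase i, (2 - (inner ℝ (q i) (q l) : ℝ) ^ 2 / 4 -
        (inner ℝ (q i) (q l) : ℝ) ^ 4 / 10) =
        ((d : ℝ) + c) * (((d : ℝ) + c - 1) * 2) -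
          (∑ i, ∑ l ∈ univ.erase i, (inner ℝ (q i) (q l) : ℝ) ^ 2) / 4 -
          (∑ i, ∑ l ∈ univ.erase i, (inner ℝ (q i) (q l) : ℝ) ^ 4) / 10 := by
      simp only [Finset.sum_sub_distrib, Finset.sum_const, hcard, nsmul_eq_mul, hM1,
        Finset.card_univ, Fintype.card_fin, Finset.sum_div]
      push_cast
      ring
    rw [hval, h2] at hlow
    rw [Finset.sum_add_distrib, Finset.sum_const, Finset.card_univ, Fintype.card_fin,
      nsmul_eq_mul, ← Finset.mul_sum]
    set H := ∑ i, ∑ l ∈ univ.erase i, hh (inner ℝ (q i) (q l)) with hH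
    set T := ∑ i, ∑ l ∈ univ.erase i, (inner ℝ (q i) (q l) : ℝ) ^ 4 with hT
    have hs2 : √2 * √2 = (2 : ℝ) := Real.mul_self_sqrt (by norm_num)
    have hs0 : 0 ≤ √(2 : ℝ) := Real.sqrt_nonneg 2
    have hB : Bs (2 * (d : ℝ) + 2 * c) d - 3 * ((c : ℝ) / d) ^ 2 ≤
        2 * √2 * ((d : ℝ) + c) + 2 * H := by
      have hN : (2 * (d : ℝ) + 2 * c) ^ 2 / (8 * d) =
          ((d : ℝ) + c) / 2 + ((d : ℝ) + c) * c / d / 2 := by
        field_simp
        ring
      unfold Bs
      rw [hN]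
      have h9 : 0 ≤ ((c : ℝ) / d) ^ 2 := by positivity
      nlinarith
    calc √2 * (Bs (2 * (d : ℝ) + 2 * c) d - 3 * ((c : ℝ) / d) ^ 2)
        ≤ √2 * (2 * √2 * ((d : ℝ) + c) + 2 * H) := mul_le_mul_of_nonneg_left hB hs0
      _ = 2 * (((d + c : ℕ) : ℝ) * 2 + √2 * H) := by
          push_cast
          linear_combination (2 * ((d : ℝ) + c)) * hs2

/-- **F5.** -/
theorem thm_F5 (hF : St_F4) : St_F5 := by
  intro d c hd hc
  rcases Nat.eq_zero_or_pos c with h0 | h0
  · subst h0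
    have horth : ∀ i l : Fin (d + 0), (inner ℝ (EuclideanSpace.single (i : Fin d) (1 : ℝ))
        (EuclideanSpace.single (l : Fin d) (1 : ℝ)) : ℝ) = if i = l then 1 else 0 := by
      intro i l
      rw [EuclideanSpace.inner_single_left]
      simp
    have hz : ∀ i : Fin (d + 0), ∀ l ∈ univ.erase i,
        (inner ℝ (EuclideanSpace.single (i : Fin d) (1 : ℝ))
          (EuclideanSpace.single (l : Fin d) (1 : ℝ)) : ℝ) = 0 := by
      intro i l hl
      rw [horth, if_neg (Finset.mem_erase.mp hl).1.symm]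
    refine F5_main d 0 hd hc (fun i => EuclideanSpace.single (i : Fin d) (1 : ℝ)) ?_ ?_ ?_
    · intro i
      simp
    · have h5 : ∀ i : Fin (d + 0), ∑ l ∈ univ.erase i,
          (inner ℝ (EuclideanSpace.single (i : Fin d) (1 : ℝ))
            (EuclideanSpace.single (l : Fin d) (1 : ℝ)) : ℝ) ^ 2 = 0 := fun i =>
        Finset.sum_eq_zero fun l hl => by rw [hz i l hl]; norm_num
      rw [Finset.sum_congr rfl fun i _ => h5 i, Finset.sum_const_zero]
      simp
    · have h5 : ∀ i : Fin (d + 0), ∑ l ∈ univ.erase i,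
          (inner ℝ (EuclideanSpace.single (i : Fin d) (1 : ℝ))
            (EuclideanSpace.single (l : Fin d) (1 : ℝ)) : ℝ) ^ 4 = 0 := fun i =>
        Finset.sum_eq_zero fun l hl => by rw [hz i l hl]; norm_num
      rw [Finset.sum_congr rfl fun i _ => h5 i, Finset.sum_const_zero]
      positivity
  · obtain ⟨q, hq1, hq2, hq4⟩ := hF d c h0 hc
    exact F5_main d c hd hc q hq1 hq2 hq4

end Pool.Agent.XPL
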