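import Pool.Agent.XPL.All
import Pool.Agent.XPL.C1
import Pool.Agent.XPL.C2
import Pool.Agent.XPL.C3
import Pool.Agent.XPL.C4
import Pool.Agent.XPL.C5
import Pool.Agent.XPL.C6
import Pool.Agent.XPL.C7
import Pool.Agent.XPL.C8
import Pool.Agent.XPL.C9
import Pool.Agent.XPL.Ca
import Pool.Agent.XPL.CE
import Pool.Agent.XPL.F1
import Pool.Agent.XPL.F2
import Pool.Agent.XPL.F3
import Pool.Agent.XPL.F4
import Pool.Agent.XPL.F5
import Pool.Agent.XPL.Fin4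

set_option autoImplicit false

namespace Pool.Agent.XPL

theorem all_P2 : St_P2 := thm_P2 thm_Lm (thm_P1 thm_Lm thm_I1)

theorem all_Rw : St_Rw := thm_Rw (thm_B1 thm_Lm) (thm_B2 thm_Lm) all_P2

theorem all_C6 : St_C6 :=
  thm_C6 (thm_C1 all_P2) (thm_C3 thm_C2) thm_C4 thm_C5 thm_Mt all_Rw (thm_Rm thm_Lm)

theorem all_C7 : St_C7 := thm_C7 all_C6 thm_Id thm_Pe

theorem all_C9 : St_C9 := thm_C9 thm_C8 thm_Ca thm_Lo thm_Sm (thm_Gs thm_Pe)

theorem all_F5 : St_F5 := thm_F5 (thm_F4 thm_F1 (thm_F3 thm_F2))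

theorem all_CE : St_CE := thm_CE thm_Ta thm_Pe

end Pool.Agent.XPL
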