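import Pool.Agent.XPL.St

set_option autoImplicit false

namespace Pool.Agent.XPL

open Finset

/-- Distance of two unit vectors. -/
theorem Tr_dist {d : ℕ} (x y : E d) (hx : ‖x‖ = 1) (hy : ‖y‖ = 1) :
    dist x y = √2 * √(1 - inner ℝ x y) := by
  rw [dist_eq_norm, ← Real.sqrt_mul (by norm_num : (0 : ℝ) ≤ 2)]
  have h : ‖x - y‖ ^ 2 = 2 * (1 - inner ℝ x y) := by
    rw [norm_sub_sq_real, hx, hy]; ring
  rw [← h, Real.sqrt_sq (norm_nonneg _)]

/-- The sum of the distances over ordered pairs, as `√2 sq`. -/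
theorem Tr_sum {d : ℕ} (P : Finset (E d)) (hP : ∀ x ∈ P, ‖x‖ = 1) :
    ∑ x ∈ P, ∑ y ∈ P, dist x y = √2 * sq (fun i : {x // x ∈ P} => (i : E d)) := by
  classical
  unfold sq
  rw [← Finset.sum_coe_sort P (fun x => ∑ y ∈ P, dist x y), Finset.mul_sum]
  refine Finset.sum_congr rfl fun i _ => ?_
  rw [← Finset.sum_coe_sort P (fun y => dist (i : E d) y), Finset.mul_sum,
    ← Finset.add_sum_erase (Finset.univ : Finset {x // x ∈ P})
      (fun j => dist (i : E d) (j : E d)) (Finset.mem_univ i),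
    dist_self, zero_add]
  refine Finset.sum_congr rfl fun j _ => ?_
  rw [Tr_dist _ _ (hP _ i.2) (hP _ j.2)]
  rfl

theorem Tr_card {d : ℕ} (P : Finset (E d)) : Fintype.card {x // x ∈ P} = P.card := by
  simp

end Pool.Agent.XPL
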