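import Pool.Agent.XPL.St3
import Pool.Agent.XPL.Tr

set_option autoImplicit false

namespace Pool.Agent.XPL

open Finset

/-- The sum of the distances of an injective family of unit vectors. -/
theorem Fin3_image {ι : Type} [Fintype ι] [DecidableEq ι] {d : ℕ} (p : ι → E d)
    (hp : ∀ i, ‖p i‖ = 1) (hinj : Function.Injective p) :
    ∑ x ∈ univ.image p, ∑ y ∈ univ.image p, dist x y = √2 * sq p := by
  classical
  rw [Finset.sum_image (fun a _ b _ h => hinj h)]
  unfold sq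
  rw [Finset.mul_sum]
  refine Finset.sum_congr rfl fun i _ => ?_
  rw [Finset.sum_image (fun a _ b _ h => hinj h), Finset.mul_sum,
    ← Finset.add_sum_erase (Finset.univ : Finset ι) (fun j => dist (p i) (p j))
      (Finset.mem_univ i), dist_self, zero_add]
  refine Finset.sum_congr rfl fun j _ => ?_
  rw [Tr_dist _ _ (hp i) (hp j)]
  rfl

/-- Range of the parameters: `N = 2 (d + c)`, `2 * 10^7 * c ≤ d`. -/
theorem Fin3_core (hC7 : St_C7) (hC9 : St_C9) {ι : Type} [Fintype ι] [DecidableEq ι] {d c : ℕ}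
    (hd : 1 ≤ d) (hc : 2 * 10 ^ 7 * c ≤ d) (hN : Fintype.card ι = 2 * d + 2 * c)
    (p : ι → E d) (hp : ∀ i, ‖p i‖ = 1)
    (hlow : Bs (2 * (d : ℝ) + 2 * c) d - 3 * ((c : ℝ) / d) ^ 2 ≤ sq p)
    (hmax : ∀ q : ι → E d, (∀ i, ‖q i‖ = 1) → Function.Injective q → sq q ≤ sq p) :
    Function.Injective p ∧ ∃ m : ι → ι, ∀ i, p (m i) = -p i := by
  classical
  have hdR : (1 : ℝ) ≤ d := by exact_mod_cast hd
  have hd0 : (0 : ℝ) < d := by linarith
  have hcR : 2 * 10 ^ 7 * (c : ℝ) ≤ d := by exact_mod_cast hc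
  have hNR : (Fintype.card ι : ℝ) = 2 * d + 2 * c := by rw [hN]; push_cast; ring
  have hcd : (c : ℝ) / d ≤ 1 / (2 * 10 ^ 7) := by
    rw [div_le_div_iff₀ hd0 (by norm_num)]
    linarith
  have hcd0 : 0 ≤ (c : ℝ) / d := by positivity
  have hE : 3 * ((c : ℝ) / d) ^ 2 ≤ 1 / 10 ^ 12 := by
    have := pow_le_pow_left₀ hcd0 hcd 2
    have h2 : (1 / (2 * 10 ^ 7) : ℝ) ^ 2 ≤ 1 / (3 * 10 ^ 12) := by norm_num
    linarith
  obtain ⟨-, h7⟩ := hC7 ι d p hp hd (by omega) (by rw [hNR]; linarith)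
  obtain ⟨m, hm1, hm2, hm3, hm4, hm5, hm6⟩ := h7 (by rw [hNR]; linarith)
  have hθ : (2 : ℝ) ≤ (Fintype.card ι : ℝ) / d := by
    rw [hNR, le_div_iff₀ hd0]
    have : (0 : ℝ) ≤ c := by positivity
    linarith
  obtain ⟨h9, h9u, h9i⟩ := hC9 ι d p m hp hm1 hm2 (fun i => (hm3 i).le) (fun i => (hm4 i).le) _ hθ
    (le_trans hm5 (by norm_num)) (le_trans hm6 (by norm_num))
  have hle := hmax _ h9u h9i
  have hsum : ∑ i, wf p m i ^ 2 ≤ 0 := by linarith
  have hw : ∀ i, wf p m i ^ 2 = 0 := by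
    intro i
    have h0 : ∑ i, wf p m i ^ 2 = 0 := le_antisymm hsum (Finset.sum_nonneg fun i _ => sq_nonneg _)
    exact (Finset.sum_eq_zero_iff_of_nonneg (fun i _ => sq_nonneg (wf p m i))).1 h0 i
      (Finset.mem_univ i)
  have hneg : ∀ i, p (m i) = -p i := by
    intro i
    have h1 := hw i
    unfold wf at h1
    have h2 : (0 : ℝ) ≤ (1 + gr p i (m i)) / 2 := by
      have h3 : |gr p i (m i)| ≤ 1 := by
        have := abs_real_inner_le_norm (p i) (p (m i))
        rw [hp, hp] at this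
        simpa [gr] using this
      have := (abs_le.1 h3).1
      linarith
    rw [Real.sq_sqrt h2] at h1
    have h4 : (inner ℝ (p i) (p (m i)) : ℝ) = -1 := by
      have : gr p i (m i) = -1 := by linarith
      exact this
    have h5 : ‖p (m i) + p i‖ ^ 2 = 0 := by
      rw [norm_add_sq_real, real_inner_comm, h4, hp, hp]; ring
    have h6 : p (m i) + p i = 0 := by
      rw [← norm_eq_zero]
      exact pow_eq_zero_iff (two_ne_zero) |>.1 h5
    exact eq_neg_of_add_eq_zero_left h6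
  refine ⟨?_, m, hneg⟩
  -- p' = p
  have huv : ∀ i, uv p m i = p i := by
    intro i
    unfold uv
    rw [hneg i, sub_neg_eq_add, ← two_smul ℝ (p i), smul_smul]
    norm_num
  intro i j hij
  apply h9i
  show (1 / ‖uv p m i‖) • uv p m i = (1 / ‖uv p m j‖) • uv p m j
  rw [huv, huv, hij]

/-- Continuity of `sq`. -/
theorem Fin3_cont {ι : Type} [Fintype ι] [DecidableEq ι] {d : ℕ} :
    Continuous (fun p : ι → E d => sq p) := by
  unfold sq gr
  fun_prop

/-- A family of unit vectors with the largest `sq`. -/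
theorem Fin3_exists {ι : Type} [Fintype ι] [DecidableEq ι] {d : ℕ} (hd : 1 ≤ d) :
    ∃ p : ι → E d, (∀ i, ‖p i‖ = 1) ∧ ∀ q : ι → E d, (∀ i, ‖q i‖ = 1) → sq q ≤ sq p := by
  classical
  have hcomp : IsCompact (Set.univ.pi fun _ : ι => Metric.sphere (0 : E d) 1) :=
    isCompact_univ_pi fun _ => isCompact_sphere _ _
  have hne : (Set.univ.pi fun _ : ι => Metric.sphere (0 : E d) 1).Nonempty := by
    refine ⟨fun _ => EuclideanSpace.single ⟨0, hd⟩ 1, fun i _ => ?_⟩
    simp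
  obtain ⟨p, hp, hpm⟩ := hcomp.exists_isMaxOn hne (Fin3_cont (ι := ι) (d := d)).continuousOn
  refine ⟨p, fun i => ?_, fun q hq => ?_⟩
  · have := hp i (Set.mem_univ i)
    simpa using this
  · apply hpm
    intro i _
    simp [hq i]

/-- The facts on maximisers for sets. -/
theorem Fin3_sets (hC7 : St_C7) (hC9 : St_C9) (hF5 : St_F5) {d c : ℕ} (hd : 1 ≤ d)
    (hc : 2 * 10 ^ 7 * c ≤ d) :
    -- a maximiser exists
    (∃ P : Finset (E d), P.card = 2 * d + 2 * c ∧ (∀ x ∈ P, ‖x‖ = 1) ∧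
      ∀ Q : Finset (E d), Q.card = 2 * d + 2 * c → (∀ x ∈ Q, ‖x‖ = 1) →
        ∑ x ∈ Q, ∑ y ∈ Q, dist x y ≤ ∑ x ∈ P, ∑ y ∈ P, dist x y) ∧
    -- every maximiser is antipodal
    (∀ P : Finset (E d), P.card = 2 * d + 2 * c → (∀ x ∈ P, ‖x‖ = 1) →
      (∀ Q : Finset (E d), Q.card = 2 * d + 2 * c → (∀ x ∈ Q, ‖x‖ = 1) →
        ∑ x ∈ Q, ∑ y ∈ Q, dist x y ≤ ∑ x ∈ P, ∑ y ∈ P, dist x y) → ∀ x ∈ P, -x ∈ P) ∧
    -- the bound
    (∀ P : Finset (E d), P.card = 2 * d + 2 * c → (∀ x ∈ P, ‖x‖ = 1) →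
      ∑ x ∈ P, ∑ y ∈ P, dist x y ≤ √2 * Bs (2 * (d : ℝ) + 2 * c) d) := by
  classical
  have hs2 : 0 < √2 := by positivity
  have hc100 : 100 * c ≤ d := by omega
  obtain ⟨P0, hP0c, hP01, -, hP0v⟩ := hF5 d c hd hc100
  have hdR : (1 : ℝ) ≤ d := by exact_mod_cast hd
  have hcR : 2 * 10 ^ 7 * (c : ℝ) ≤ d := by exact_mod_cast hc
  refine ⟨?_, ?_, ?_⟩
  · obtain ⟨p, hp, hpm⟩ := Fin3_exists (ι := {x // x ∈ P0}) (d := d) hd
    have hlow : Bs (2 * (d : ℝ) + 2 * c) d - 3 * ((c : ℝ) / d) ^ 2 ≤ sq p := by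
      have h1 := hpm (fun i => (i : E d)) (fun i => hP01 _ i.2)
      rw [Tr_sum P0 hP01] at hP0v
      have h2 := le_of_mul_le_mul_left hP0v hs2
      linarith
    obtain ⟨hinj, -⟩ := Fin3_core hC7 hC9 hd hc (by rw [Tr_card, hP0c]) p hp hlow
      (fun q hq _ => hpm q hq)
    refine ⟨univ.image p, ?_, ?_, ?_⟩
    · rw [Finset.card_image_of_injective _ hinj, Finset.card_univ, Tr_card, hP0c]
    · intro x hx
      obtain ⟨i, -, rfl⟩ := Finset.mem_image.1 hx
      exact hp i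
    · intro Q hQc hQ1
      rw [Fin3_image p hp hinj, Tr_sum Q hQ1]
      apply mul_le_mul_of_nonneg_left _ hs2.le
      -- transport along an equivalence
      have hcard : Fintype.card {x // x ∈ P0} = Fintype.card {x // x ∈ Q} := by
        rw [Tr_card, Tr_card, hP0c, hQc]
      let e : {x // x ∈ P0} ≃ {x // x ∈ Q} := Fintype.equivOfCardEq hcard
      have h1 := hpm (fun i => ((e i : {x // x ∈ Q}) : E d)) (fun i => hQ1 _ (e i).2)
      refine le_trans (le_of_eq ?_) h1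
      unfold sq
      rw [← Equiv.sum_comp e]
      refine Finset.sum_congr rfl fun i _ => ?_
      have h3 : (univ.erase (e i) : Finset {x // x ∈ Q}) = (univ.erase i).map e.toEmbedding := by
        ext j
        simp only [Finset.mem_erase, Finset.mem_univ, and_true, Finset.mem_map,
          Equiv.coe_toEmbedding, ne_eq]
        constructor
        · intro h
          exact ⟨e.symm j, fun h' => h (by rw [← h']; simp), by simp⟩
        · rintro ⟨a, ha, rfl⟩ h
          exact ha (e.injective h)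
      rw [h3, Finset.sum_map]
      rfl
  · intro P hPc hP1 hPm x hx
    have hlow : Bs (2 * (d : ℝ) + 2 * c) d - 3 * ((c : ℝ) / d) ^ 2
        ≤ sq (fun i : {x // x ∈ P} => (i : E d)) := by
      have h1 := hPm P0 hP0c hP01
      rw [Tr_sum P hP1] at h1
      have h2 := le_trans hP0v h1
      exact le_of_mul_le_mul_left h2 hs2
    obtain ⟨-, m, hm⟩ := Fin3_core hC7 hC9 hd hc (by rw [Tr_card, hPc])
      (fun i : {x // x ∈ P} => (i : E d)) (fun i => hP1 _ i.2) hlow (by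
        intro q hq hqi
        have h1 := hPm (univ.image q) (by
          rw [Finset.card_image_of_injective _ hqi, Finset.card_univ, Tr_card, hPc]) (by
          intro x hx
          obtain ⟨i, -, rfl⟩ := Finset.mem_image.1 hx
          exact hq i)
        rw [Fin3_image q hq hqi, Tr_sum P hP1] at h1
        exact le_of_mul_le_mul_left h1 hs2)
    have := hm ⟨x, hx⟩
    rw [← this]
    exact (m ⟨x, hx⟩).2
  · intro P hPc hP1
    rw [Tr_sum P hP1]
    apply mul_le_mul_of_nonneg_left _ hs2.le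
    have hNR : (Fintype.card {x // x ∈ P} : ℝ) = 2 * d + 2 * c := by
      rw [Tr_card, hPc]; push_cast; ring
    have h7 := (hC7 {x // x ∈ P} d (fun i => (i : E d)) (fun i => hP1 _ i.2) hd
      (by rw [Tr_card, hPc]; omega) (by rw [hNR]; linarith)).1
    rw [hNR] at h7
    exact h7

end Pool.Agent.XPL
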