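import Pool.Agent.XPL.Fin3

set_option autoImplicit false

namespace Pool.Agent.XPL

open Finset

/-- Equiangular case. -/
theorem Fin4_equi (hC7 : St_C7) (hC9 : St_C9) (hF5 : St_F5) (hCE : St_CE) {d c : ℕ} {s : ℝ}
    (hd : 1 ≤ d) (hc1 : 1 ≤ c) (hc : 2 * 10 ^ 7 * c ≤ d) (hs : 0 < s)
    (hs2 : s ^ 2 = (c : ℝ) / ((d : ℝ) * ((d : ℝ) + c - 1)))
    (Q0 : Finset (E d)) (hQc : Q0.card = 2 * d + 2 * c) (hQ1 : ∀ x ∈ Q0, ‖x‖ = 1)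
    (hQn : ∀ x ∈ Q0, -x ∈ Q0)
    (hQs : ∀ x ∈ Q0, ∀ y ∈ Q0, x ≠ y → x ≠ -y → (inner ℝ x y : ℝ) ^ 2 = s ^ 2) :
    ∑ x ∈ Q0, ∑ y ∈ Q0, dist x y = √2 * (√2 * (2 * (d : ℝ) + 2 * c)
      + (2 * (d : ℝ) + 2 * c) * (2 * (d : ℝ) + 2 * c - 2) * hh s / 2) ∧
    ∀ P : Finset (E d), P.card = 2 * d + 2 * c → (∀ x ∈ P, ‖x‖ = 1) →
      ∑ x ∈ P, ∑ y ∈ P, dist x y ≤ √2 * (√2 * (2 * (d : ℝ) + 2 * c)
        + (2 * (d : ℝ) + 2 * c) * (2 * (d : ℝ) + 2 * c - 2) * hh s / 2) ∧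
      (∑ x ∈ P, ∑ y ∈ P, dist x y = √2 * (√2 * (2 * (d : ℝ) + 2 * c)
        + (2 * (d : ℝ) + 2 * c) * (2 * (d : ℝ) + 2 * c - 2) * hh s / 2) ↔
        (∀ x ∈ P, -x ∈ P) ∧
          ∀ x ∈ P, ∀ y ∈ P, x ≠ y → x ≠ -y → (inner ℝ x y : ℝ) ^ 2 = s ^ 2) := by
  classical
  have hc100 : 100 * c ≤ d := by omega
  obtain ⟨⟨P1, hP1c, hP11, hP1m⟩, hanti, -⟩ := Fin3_sets hC7 hC9 hF5 hd hc
  have hQ0 := ((hCE d c s hc1 hc100 hs hs2 Q0 hQc hQ1 hQn).2).2 hQs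
  have hP1n : ∀ x ∈ P1, -x ∈ P1 := hanti P1 hP1c hP11 hP1m
  have hub := (hCE d c s hc1 hc100 hs hs2 P1 hP1c hP11 hP1n).1
  refine ⟨hQ0, fun P hPc hPu => ⟨le_trans (hP1m P hPc hPu) hub, ?_⟩⟩
  constructor
  · intro heq
    have hPn : ∀ x ∈ P, -x ∈ P := by
      apply hanti P hPc hPu
      intro Q hQc' hQ1'
      rw [heq]
      exact le_trans (hP1m Q hQc' hQ1') hub
    exact ⟨hPn, ((hCE d c s hc1 hc100 hs hs2 P hPc hPu hPn).2).1 heq⟩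
  · rintro ⟨hPn, hPs⟩
    exact ((hCE d c s hc1 hc100 hs hs2 P hPc hPu hPn).2).2 hPs

/-- The simplex case `c = 1`. -/
theorem Fin4_simplex (hC7 : St_C7) (hC9 : St_C9) (hF5 : St_F5) (hCE : St_CE) (hA4 : St_A4)
    (hCv : St_Cv) (hSx : St_Sx) {d : ℕ} (hc : 2 * 10 ^ 7 ≤ d) :
    (∃ P : Finset (E d), P.card = 2 * d + 2 ∧ (∀ x ∈ P, ‖x‖ = 1) ∧
      ∑ x ∈ P, ∑ y ∈ P, dist x y = √2 * VV d) ∧
    ∀ P : Finset (E d), P.card = 2 * d + 2 → (∀ x ∈ P, ‖x‖ = 1) →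
      ∑ x ∈ P, ∑ y ∈ P, dist x y ≤ √2 * VV d ∧
      (∑ x ∈ P, ∑ y ∈ P, dist x y = √2 * VV d ↔
        ∃ A : Finset (E d), A.card = d + 1 ∧ (∀ a ∈ A, ‖a‖ = 1) ∧
          (∀ a ∈ A, ∀ b ∈ A, a ≠ b → (inner ℝ a b : ℝ) = -(1 / (d : ℝ))) ∧
          P = A ∪ A.image (fun x => -x)) := by
  classical
  have hd2 : 2 ≤ d := by omega
  have hdR : (2 : ℝ) ≤ d := by exact_mod_cast hd2
  have hd0 : (0 : ℝ) < d := by linarith
  obtain ⟨A, hA, hA1, hA2⟩ := hSx d hd2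
  obtain ⟨h1, h2, h3⟩ := hCv d A hd2 hA hA1 hA2
  set s : ℝ := 1 / (d : ℝ) with hs
  have hs0 : 0 < s := by rw [hs]; positivity
  have hs2 : s ^ 2 = ((1 : ℕ) : ℝ) / ((d : ℝ) * ((d : ℝ) + ((1 : ℕ) : ℝ) - 1)) := by
    have h5 : (d : ℝ) * ((d : ℝ) + ((1 : ℕ) : ℝ) - 1) = (d : ℝ) ^ 2 := by push_cast; ring
    rw [h5, hs]; push_cast; rw [div_pow, one_pow]
  have hQn : ∀ x ∈ A ∪ A.image (fun x => -x), -x ∈ A ∪ A.image (fun x => -x) := by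
    intro x hx
    rcases Finset.mem_union.1 hx with h | h
    · exact Finset.mem_union_right _ (Finset.mem_image_of_mem _ h)
    · obtain ⟨a, ha, rfl⟩ := Finset.mem_image.1 h
      apply Finset.mem_union_left
      simpa using ha
  have hQs : ∀ x ∈ A ∪ A.image (fun x => -x), ∀ y ∈ A ∪ A.image (fun x => -x), x ≠ y → x ≠ -y →
      (inner ℝ x y : ℝ) ^ 2 = s ^ 2 := by
    intro x hx y hy hxy hxy'
    rcases Finset.mem_union.1 hx with h | h <;> rcases Finset.mem_union.1 hy with h' | h'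
    · rw [hA2 x h y h' hxy, hs]; ring
    · obtain ⟨b, hb, rfl⟩ := Finset.mem_image.1 h'
      have : x ≠ b := by
        intro h5; apply hxy'; rw [h5, neg_neg]
      rw [inner_neg_right, hA2 x h b hb this, hs]; ring
    · obtain ⟨a, ha, rfl⟩ := Finset.mem_image.1 h
      have : a ≠ y := by
        intro h5; apply hxy'; rw [h5]
      rw [inner_neg_left, hA2 a ha y h' this, hs]; ring
    · obtain ⟨a, ha, rfl⟩ := Finset.mem_image.1 h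
      obtain ⟨b, hb, rfl⟩ := Finset.mem_image.1 h'
      have : a ≠ b := by
        intro h5; apply hxy; rw [h5]
      rw [inner_neg_neg, hA2 a ha b hb this, hs]; ring
  have hval : √2 * (√2 * (2 * (d : ℝ) + 2 * ((1 : ℕ) : ℝ))
      + (2 * (d : ℝ) + 2 * ((1 : ℕ) : ℝ)) * (2 * (d : ℝ) + 2 * ((1 : ℕ) : ℝ) - 2) * hh s / 2)
      = √2 * VV d := by
    unfold VV
    rw [← hs]
    push_cast
    ring
  obtain ⟨-, hmain⟩ := Fin4_equi (c := 1) hC7 hC9 hF5 hCE (by omega) le_rfl (by omega) hs0 hs2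
    _ h1 h2 hQn hQs
  rw [hval] at hmain
  refine ⟨⟨_, h1, h2, h3⟩, fun P hPc hP1 => ⟨(hmain P hPc hP1).1, ?_⟩⟩
  rw [(hmain P hPc hP1).2]
  constructor
  · rintro ⟨hPn, hPs⟩
    apply hA4 d P hd2 hPc hP1 hPn
    intro x hx y hy hxy hxy'
    rw [hPs x hx y hy hxy hxy', hs]; ring
  · rintro ⟨B, hB, hB1, hB2, rfl⟩
    have := (hCv d B hd2 hB hB1 hB2).2.2
    exact ((hmain _ hPc hP1).2).1 this

end Pool.Agent.XPL
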