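import Pool.Agent.XPL.St2

/-!
# XPL, module LB: the lower bound (helper91)
-/

set_option autoImplicit false

namespace Pool.Agent.XPL

open Finset

private theorem LB_hh (x : ℝ) (hx : |x| ≤ 1 / 2) : 2 - x ^ 2 / 4 - x ^ 4 / 10 ≤ hh x := by
  obtain ⟨hx1, hx2⟩ := abs_le.1 hx
  set r := √(1 - x) with hr
  set s := √(1 + x) with hs
  have hr0 : 0 ≤ r := Real.sqrt_nonneg _
  have hs0 : 0 ≤ s := Real.sqrt_nonneg _
  have hr2 : r ^ 2 = 1 - x := Real.sq_sqrt (by linarith)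
  have hs2 : s ^ 2 = 1 + x := Real.sq_sqrt (by linarith)
  obtain ⟨v, hv⟩ : ∃ v : ℝ, v = x ^ 2 := ⟨_, rfl⟩
  have hv0 : 0 ≤ v := by rw [hv]; exact sq_nonneg x
  have hv1 : v ≤ 1 / 4 := by
    rw [hv]
    nlinarith
  have hx4 : x ^ 4 = v ^ 2 := by rw [hv]; ring
  have hrs : (r * s) ^ 2 = 1 - v := by
    rw [mul_pow, hr2, hs2, hv]
    ring
  show 2 - x ^ 2 / 4 - x ^ 4 / 10 ≤ r + s
  rw [hx4, ← hv]
  by_contra hcon
  have hcon' : r + s < 2 - v / 4 - v ^ 2 / 10 := not_le.1 hcon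
  have h0 : 0 ≤ r + s := add_nonneg hr0 hs0
  have h1 : (r + s) ^ 2 < (2 - v / 4 - v ^ 2 / 10) ^ 2 := pow_lt_pow_left₀ hcon' h0 two_ne_zero
  have h2 : (r + s) ^ 2 = 2 + 2 * (r * s) := by
    have : (r + s) ^ 2 = r ^ 2 + s ^ 2 + 2 * (r * s) := by ring
    rw [this, hr2, hs2]
    ring
  have hvv : 0 ≤ v ^ 2 := sq_nonneg v
  have h6 : v ^ 2 ≤ 1 / 16 := by nlinarith
  have h6' : v ^ 3 ≤ 1 / 4 * v ^ 2 := by
    have e : v ^ 3 = v * v ^ 2 := by ring
    rw [e]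
    exact mul_le_mul_of_nonneg_right hv1 hvv
  have h7 : v ^ 4 ≤ 1 / 16 * v ^ 2 := by
    have e : v ^ 4 = v ^ 2 * v ^ 2 := by ring
    rw [e]
    exact mul_le_mul_of_nonneg_right h6 hvv
  have hS : (2 - v / 4 - v ^ 2 / 10) ^ 2 =
      2 * (1 - v / 2 - 27 / 160 * v ^ 2 + v ^ 3 / 40 + v ^ 4 / 200) + 2 := by ring
  have h3 : r * s < 1 - v / 2 - 4 / 25 * v ^ 2 := by
    rw [h2, hS] at h1
    linarith
  have h4 : (r * s) ^ 2 < (1 - v / 2 - 4 / 25 * v ^ 2) ^ 2 :=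
    pow_lt_pow_left₀ h3 (mul_nonneg hr0 hs0) two_ne_zero
  rw [hrs] at h4
  have h5 : (1 - v / 2 - 4 / 25 * v ^ 2) ^ 2 =
      1 - v - 7 / 100 * v ^ 2 + 4 / 25 * v ^ 3 + 16 / 625 * v ^ 4 := by ring
  rw [h5] at h4
  linarith

/-- numbers, first kind -/
private theorem LB_g1 (a q : ℝ) (ha : 2 ≤ a) (h1 : 1 / (a + 1) ≤ q) (h2 : q ≤ 1 / a) :
    1 / (2 * a) + (a + 1) / (5 * a ^ 3) ≤ 2 * q - a * q ^ 2 := by
  have ha0 : 0 < a := by linarith
  have hb0 : 0 < a + 1 := by linarith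
  have h3 : 0 ≤ (q - 1 / (a + 1)) * (1 / a - q) := mul_nonneg (by linarith) (by linarith)
  have h4 : a * q ^ 2 ≤ a * (q * (1 / a + 1 / (a + 1)) - 1 / (a * (a + 1))) := by
    apply mul_le_mul_of_nonneg_left _ ha0.le
    have e : (q - 1 / (a + 1)) * (1 / a - q) = q * (1 / a + 1 / (a + 1)) - 1 / (a * (a + 1)) - q ^ 2 := by
      field_simp
      ring
    rw [e] at h3
    linarith
  have h5 : a * (q * (1 / a + 1 / (a + 1)) - 1 / (a * (a + 1))) = q * (2 - 1 / (a + 1)) - 1 / (a + 1) := by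
    field_simp
    ring
  rw [h5] at h4
  have h6 : (1 / (a + 1)) * (1 / (a + 1)) ≤ q * (1 / (a + 1)) :=
    mul_le_mul_of_nonneg_right h1 (by positivity)
  have h7 : 1 / (2 * a) + (a + 1) / (5 * a ^ 3) ≤ 1 / (a + 1) + (1 / (a + 1)) * (1 / (a + 1)) := by
    have e1 : 1 / (2 * a) + (a + 1) / (5 * a ^ 3) = (5 * a ^ 2 + 2 * (a + 1)) / (10 * a ^ 3) := by
      field_simp
      ring
    have e2 : 1 / (a + 1) + (1 / (a + 1)) * (1 / (a + 1)) = (a + 2) / (a + 1) ^ 2 := by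
      field_simp
      ring
    rw [e1, e2, div_le_div_iff₀ (by positivity) (by positivity)]
    nlinarith [pow_nonneg (sub_nonneg.2 ha) 2, pow_nonneg (sub_nonneg.2 ha) 3,
      pow_nonneg (sub_nonneg.2 ha) 4]
  linarith

/-- numbers, second kind -/
private theorem LB_g2 (a q : ℝ) (ha : 2 ≤ a) (h1 : 1 / (a + 1) ≤ q) (h2 : q ≤ 1 / a) :
    1 / (2 * (a + 1)) + (a + 1 + 1) / (5 * (a + 1) ^ 3) ≤ 2 * q - (a + 1) * q ^ 2 := by
  have ha0 : 0 < a := by linarith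
  have hb0 : 0 < a + 1 := by linarith
  have h3 : 0 ≤ (q - 1 / (a + 1)) * (1 / a - q) := mul_nonneg (by linarith) (by linarith)
  have h4 : (a + 1) * q ^ 2 ≤ (a + 1) * (q * (1 / a + 1 / (a + 1)) - 1 / (a * (a + 1))) := by
    apply mul_le_mul_of_nonneg_left _ hb0.le
    have e : (q - 1 / (a + 1)) * (1 / a - q) = q * (1 / a + 1 / (a + 1)) - 1 / (a * (a + 1)) - q ^ 2 := by
      field_simp
      ring
    rw [e] at h3
    linarith
  have h5 : (a + 1) * (q * (1 / a + 1 / (a + 1)) - 1 / (a * (a + 1))) = q * (2 + 1 / a) - 1 / a := by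
    field_simp
    ring
  rw [h5] at h4
  have h6 : q * (1 / a) ≤ (1 / a) * (1 / a) :=
    mul_le_mul_of_nonneg_right h2 (by positivity)
  have h7 : 1 / (2 * (a + 1)) + (a + 1 + 1) / (5 * (a + 1) ^ 3) ≤ 1 / a - (1 / a) * (1 / a) := by
    have e1 : 1 / (2 * (a + 1)) + (a + 1 + 1) / (5 * (a + 1) ^ 3) =
        (5 * (a + 1) ^ 2 + 2 * (a + 2)) / (10 * (a + 1) ^ 3) := by
      field_simp
      ring
    have e2 : 1 / a - (1 / a) * (1 / a) = (a - 1) / a ^ 2 := by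
      field_simp
    rw [e1, e2, div_le_div_iff₀ (by positivity) (by positivity)]
    nlinarith [pow_nonneg (sub_nonneg.2 ha) 2, pow_nonneg (sub_nonneg.2 ha) 3,
      pow_nonneg (sub_nonneg.2 ha) 4]
  linarith

open Pool.Agent.Results.MP_b22a07_co.OrthogonalSimplices

/-- distances of unit vectors -/
private theorem LB_dist {d : ℕ} (x y : E d) (hx : ‖x‖ = 1) (hy : ‖y‖ = 1) :
    dist x y = √2 * √(1 - inner ℝ x y) ∧ dist x (-y) = √2 * √(1 + inner ℝ x y) := by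
  have key : ∀ z : E d, ‖z‖ = 1 → dist x z = √2 * √(1 - inner ℝ x z) := by
    intro z hz
    have h1 : dist x z ^ 2 = 2 * (1 - inner ℝ x z) := by
      rw [dist_eq_norm, @norm_sub_sq_real, hx, hz]
      ring
    rw [← Real.sqrt_mul (by norm_num : (0 : ℝ) ≤ 2), ← h1, Real.sqrt_sq dist_nonneg]
  refine ⟨key y hy, ?_⟩
  rw [key (-y) (by rw [norm_neg]; exact hy), inner_neg_right, sub_neg_eq_add]

/-- the double sum over `P0` together with its antipodes -/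
private theorem LB_double {d : ℕ} (P0 : Finset (E d)) (hn : ∀ x ∈ P0, ‖x‖ = 1)
    (hneg : ∀ x ∈ P0, -x ∉ P0) : ∃ P : Finset (E d), P.card = 2 * P0.card ∧ (∀ x ∈ P, ‖x‖ = 1) ∧
      ∑ x ∈ P, ∑ y ∈ P, dist x y = 2 * √2 * ∑ x ∈ P0, ∑ y ∈ P0, hh (inner ℝ x y) := by
  classical
  have hinj : Function.Injective (fun x : E d => -x) := neg_injective
  have hdis : Disjoint P0 (P0.image fun x => -x) := by
    rw [Finset.disjoint_left]
    intro x hx hx'
    obtain ⟨y, hy, hyx⟩ := Finset.mem_image.1 hx'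
    apply hneg y hy
    rw [hyx]
    exact hx
  have hsum : ∀ f : E d → ℝ, ∑ x ∈ P0 ∪ (P0.image fun x => -x), f x = ∑ x ∈ P0, (f x + f (-x)) := by
    intro f
    rw [Finset.sum_union hdis, Finset.sum_image (fun x _ y _ h => hinj h), Finset.sum_add_distrib]
  refine ⟨P0 ∪ (P0.image fun x => -x), ?_, ?_, ?_⟩
  · rw [Finset.card_union_of_disjoint hdis, Finset.card_image_of_injective _ hinj]
    ring
  · intro x hx
    rcases Finset.mem_union.1 hx with h | h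
    · exact hn x h
    · obtain ⟨y, hy, rfl⟩ := Finset.mem_image.1 h
      rw [norm_neg]
      exact hn y hy
  · rw [hsum, Finset.mul_sum]
    apply Finset.sum_congr rfl
    intro x hx
    rw [hsum, hsum, Finset.mul_sum, ← Finset.sum_add_distrib]
    apply Finset.sum_congr rfl
    intro y hy
    obtain ⟨h1, h2⟩ := LB_dist x y (hn x hx) (hn y hy)
    have h3 : dist (-x) y = dist x (-y) := by
      rw [← dist_neg_neg, neg_neg]
    have h4 : dist (-x) (-y) = dist x y := dist_neg_neg x y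
    rw [h3, h4, h1, h2]
    unfold hh
    ring

/-- the sum of one row -/
private theorem LB_row {d c : ℕ} (P0 : Finset (E d)) (κ : E d → Fin c)
    (h2 : ∀ p ∈ P0, ∀ q ∈ P0, p ≠ q → inner ℝ p q =
      if κ p = κ q then -(1 / (((P0.filter (fun l => κ l = κ p)).card : ℝ) - 1)) else (0 : ℝ))
    (x : E d) (hx : x ∈ P0) (hx1 : ‖x‖ = 1) (b : ℝ) (hb : 2 ≤ b)
    (hbx : (((P0.filter (fun l => κ l = κ x)).card : ℝ)) = b + 1) :
    √2 + 2 * ((P0.card : ℝ) - 1) - (1 / (4 * b) + 1 / (10 * b ^ 3)) ≤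
      ∑ y ∈ P0, hh (inner ℝ x y) := by
  classical
  have hb0 : 0 < b := by linarith
  rw [← Finset.add_sum_erase _ _ hx]
  have h1 : hh (inner ℝ x x) = √2 := by
    rw [real_inner_self_eq_norm_sq, hx1]
    unfold hh
    norm_num
  rw [h1]
  have h3 : ∑ y ∈ P0.erase x, (2 - if κ y = κ x then 1 / (4 * b ^ 2) + 1 / (10 * b ^ 4) else (0 : ℝ))
      ≤ ∑ y ∈ P0.erase x, hh (inner ℝ x y) := by
    apply Finset.sum_le_sum
    intro y hy
    obtain ⟨hyx, hyP⟩ := Finset.mem_erase.1 hy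
    have h4 := h2 x hx y hyP (fun h => hyx h.symm)
    rw [hbx] at h4
    by_cases hk : κ x = κ y
    · rw [if_pos hk] at h4
      rw [if_pos hk.symm, h4]
      have e : b + 1 - 1 = b := by ring
      rw [e]
      have h5 : |(-(1 / b))| ≤ 1 / 2 := by
        rw [abs_neg, abs_of_pos (by positivity)]
        exact one_div_le_one_div_of_le (by norm_num) hb
      refine le_trans (le_of_eq ?_) (LB_hh _ h5)
      field_simp
      ring
    · rw [if_neg hk] at h4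
      rw [if_neg (fun h => hk h.symm), h4]
      unfold hh
      norm_num
  have h6 : ∑ y ∈ P0.erase x, (2 - if κ y = κ x then 1 / (4 * b ^ 2) + 1 / (10 * b ^ 4) else (0 : ℝ))
      = 2 * ((P0.card : ℝ) - 1) - (1 / (4 * b) + 1 / (10 * b ^ 3)) := by
    rw [Finset.sum_sub_distrib, Finset.sum_const, ← Finset.sum_filter, Finset.sum_const,
      Finset.card_erase_of_mem hx]
    have h7 : ((P0.erase x).filter fun y => κ y = κ x) = (P0.filter fun y => κ y = κ x).erase x := by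
      ext y
      simp only [Finset.mem_filter, Finset.mem_erase]
      tauto
    have hxf : x ∈ P0.filter fun y => κ y = κ x := Finset.mem_filter.2 ⟨hx, rfl⟩
    rw [h7, Finset.card_erase_of_mem hxf, nsmul_eq_mul, nsmul_eq_mul,
      Nat.cast_sub (Finset.card_pos.2 ⟨x, hx⟩),
      Nat.cast_sub (Finset.card_pos.2 ⟨x, hxf⟩), hbx, Nat.cast_one]
    field_simp
    ring
  rw [h6] at h3
  linarith

theorem thm_LB : St_LB := by
  classical
  intro d c hc hcd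
  obtain ⟨k, rfl⟩ : ∃ k, d = k + 1 := ⟨d - 1, by omega⟩
  obtain ⟨hmem, -⟩ := (result (k + 1 + c) k (by omega) (by omega)).1
  obtain ⟨P0, hP0, hval⟩ := hmem
  have hr : k + 1 + c - (k + 1) = c := by omega
  obtain ⟨κ, hκ1, hκ2⟩ : OrthogonalSimplexUnion P0 c ((k + 1 + c) / c) := by
    have h := ((result (k + 1 + c) k (by omega) (by omega)).2 P0 hP0).1 hval
    rwa [hr] at h
  obtain ⟨hcard, hnorm⟩ := hP0
  set m := (k + 1 + c) / c with hm
  have hm3 : 3 ≤ m := by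
    rw [hm, Nat.le_div_iff_mul_le (by omega)]
    omega
  have hmlow : m * c ≤ k + 1 + c := Nat.div_mul_le_self _ _
  have hmup : k + 1 + c < (m + 1) * c := by
    have h1 := Nat.div_add_mod (k + 1 + c) c
    have h2 := Nat.mod_lt (k + 1 + c) (show 0 < c by omega)
    rw [← hm] at h1
    calc k + 1 + c = c * m + (k + 1 + c) % c := h1.symm
      _ < c * m + c := by omega
      _ = (m + 1) * c := by ring
  -- real versions
  have hc0 : (0 : ℝ) < c := by exact_mod_cast (show 0 < c by omega)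
  have hd0 : (0 : ℝ) < (k : ℝ) + 1 := by positivity
  have hmr : (3 : ℝ) ≤ m := by exact_mod_cast hm3
  have hmlow' : (m : ℝ) * c ≤ k + 1 + c := by exact_mod_cast hmlow
  have hmup' : (k : ℝ) + 1 + c < (m + 1) * c := by exact_mod_cast hmup
  obtain ⟨q, hq⟩ : ∃ q : ℝ, q = c / ((k : ℝ) + 1) := ⟨_, rfl⟩
  obtain ⟨a, ha⟩ : ∃ a : ℝ, a = (m : ℝ) - 1 := ⟨_, rfl⟩
  have ha2 : 2 ≤ a := by rw [ha]; linarith
  have hq1 : 1 / (a + 1) ≤ q := by
    rw [hq, div_le_div_iff₀ (by linarith) hd0, ha]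
    nlinarith
  have hq2 : q ≤ 1 / a := by
    rw [hq, div_le_div_iff₀ hd0 (by linarith), ha]
    nlinarith
  obtain ⟨n, hn⟩ : ∃ n : Fin c → ℕ, ∀ t, n t = (P0.filter (fun p => κ p = t)).card :=
    ⟨_, fun _ => rfl⟩
  have hcls : ∀ t, 2 ≤ (n t : ℝ) - 1 ∧
      1 / (2 * ((n t : ℝ) - 1)) + ((n t : ℝ) - 1 + 1) / (5 * ((n t : ℝ) - 1) ^ 3) ≤
        2 * q - ((n t : ℝ) - 1) * q ^ 2 := by
    intro t
    rcases hκ1 t with h | h
    · rw [← hn] at h
      rw [h]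
      exact ⟨by rw [← ha]; exact ha2, by rw [← ha]; exact LB_g1 a q ha2 hq1 hq2⟩
    · rw [← hn] at h
      rw [h]
      have e : ((m + 1 : ℕ) : ℝ) - 1 = a + 1 := by rw [ha]; push_cast; ring
      rw [e]
      exact ⟨by linarith, LB_g2 a q ha2 hq1 hq2⟩
  have hneg : ∀ x ∈ P0, -x ∉ P0 := by
    intro x hx hx'
    have hx1 := hnorm x hx
    have hne : x ≠ -x := by
      intro h
      have h1 : x = 0 := by
        have h2 : x + x = 0 := by nth_rewrite 2 [h]; exact add_neg_cancel x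
        have h3 : (2 : ℝ) • x = 0 := by rw [two_smul]; exact h2
        exact (smul_eq_zero.1 h3).resolve_left two_ne_zero
      rw [h1, norm_zero] at hx1
      exact zero_ne_one hx1
    have h1 := hκ2 x hx (-x) hx' hne
    rw [inner_neg_right, real_inner_self_eq_norm_sq, hx1, ← hn] at h1
    have h2 := (hcls (κ x)).1
    split_ifs at h1
    · have h3 : 1 / ((n (κ x) : ℝ) - 1) = 1 := by linarith
      have h4 : 1 / ((n (κ x) : ℝ) - 1) ≤ 1 / 2 := one_div_le_one_div_of_le (by norm_num) h2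
      linarith
    · norm_num at h1
  obtain ⟨P, hPc, hPn, hPs⟩ := LB_double P0 hnorm hneg
  refine ⟨P, by rw [hPc, hcard]; ring, hPn, ?_⟩
  rw [hPs]
  -- rows
  have hrows : ∑ x ∈ P0, (√2 + 2 * ((P0.card : ℝ) - 1) -
      (1 / (4 * ((n (κ x) : ℝ) - 1)) + 1 / (10 * ((n (κ x) : ℝ) - 1) ^ 3))) ≤
      ∑ x ∈ P0, ∑ y ∈ P0, hh (inner ℝ x y) := by
    apply Finset.sum_le_sum
    intro x hx
    apply LB_row P0 κ hκ2 x hx (hnorm x hx) _ (hcls (κ x)).1
    rw [← hn]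
    ring
  have hfib : ∑ x ∈ P0, (1 / (4 * ((n (κ x) : ℝ) - 1)) + 1 / (10 * ((n (κ x) : ℝ) - 1) ^ 3)) =
      ∑ t : Fin c, (n t : ℝ) * (1 / (4 * ((n t : ℝ) - 1)) + 1 / (10 * ((n t : ℝ) - 1) ^ 3)) := by
    rw [← Finset.sum_fiberwise P0 κ]
    apply Finset.sum_congr rfl
    intro t _
    rw [Finset.sum_congr rfl (g := fun _ => 1 / (4 * ((n t : ℝ) - 1)) + 1 / (10 * ((n t : ℝ) - 1) ^ 3))
      (fun x hx => by rw [(Finset.mem_filter.1 hx).2]), Finset.sum_const, ← hn, nsmul_eq_mul]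
  have htot : ∑ t : Fin c, (n t : ℝ) = k + 1 + c := by
    have h1 : ∑ t : Fin c, n t = P0.card := by
      rw [Finset.card_eq_sum_card_fiberwise (f := κ) (t := Finset.univ) (fun x _ => Finset.mem_univ _)]
      exact Finset.sum_congr rfl fun t _ => hn t
    rw [hcard] at h1
    exact_mod_cast h1
  have hsumg : ∑ t : Fin c, (n t : ℝ) * (1 / (4 * ((n t : ℝ) - 1)) + 1 / (10 * ((n t : ℝ) - 1) ^ 3)) ≤
      ∑ t : Fin c, (1 / 4 + (2 * q - ((n t : ℝ) - 1) * q ^ 2) / 2) := by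
    apply Finset.sum_le_sum
    intro t _
    obtain ⟨h1, h2⟩ := hcls t
    have h3 : (0 : ℝ) < (n t : ℝ) - 1 := by linarith
    have e : (n t : ℝ) * (1 / (4 * ((n t : ℝ) - 1)) + 1 / (10 * ((n t : ℝ) - 1) ^ 3)) =
        1 / 4 + (1 / (2 * ((n t : ℝ) - 1)) + ((n t : ℝ) - 1 + 1) / (5 * ((n t : ℝ) - 1) ^ 3)) / 2 := by
      obtain ⟨b, hb⟩ : ∃ b : ℝ, b = (n t : ℝ) - 1 := ⟨_, rfl⟩
      have hb' : (n t : ℝ) = b + 1 := by rw [hb]; ring
      rw [← hb, hb']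
      rw [← hb] at h3
      field_simp
      ring
    rw [e]
    linarith
  have hsumq : ∑ t : Fin c, (1 / 4 + (2 * q - ((n t : ℝ) - 1) * q ^ 2) / 2) =
      c / 4 + (c : ℝ) ^ 2 / (2 * ((k : ℝ) + 1)) := by
    have h1 : ∀ t : Fin c, (1 / 4 + (2 * q - ((n t : ℝ) - 1) * q ^ 2) / 2 : ℝ) =
        (1 / 4 + q + q ^ 2 / 2) - (q ^ 2 / 2) * (n t : ℝ) := fun t => by ring
    rw [Finset.sum_congr rfl (fun t _ => h1 t), Finset.sum_sub_distrib, Finset.sum_const,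
      ← Finset.mul_sum, htot, Finset.card_univ, Fintype.card_fin, nsmul_eq_mul, hq]
    field_simp
    ring
  rw [Finset.sum_sub_distrib, Finset.sum_const, hfib, nsmul_eq_mul, hcard] at hrows
  rw [hsumq] at hsumg
  push_cast at hrows ⊢
  have hs2 : (0 : ℝ) ≤ √2 := Real.sqrt_nonneg _
  have hkey : (2 * ((k : ℝ) + 1) + 2 * c) * (2 * ((k : ℝ) + 1) + 2 * c - 1) +
      (√2 - 5 / 4) * (2 * ((k : ℝ) + 1) + 2 * c) + ((k : ℝ) + 1) / 2 - (c : ℝ) ^ 2 / ((k : ℝ) + 1) ≤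
      2 * ∑ x ∈ P0, ∑ y ∈ P0, hh (inner ℝ x y) := by
    have e : (c : ℝ) ^ 2 / ((k : ℝ) + 1) = 2 * ((c : ℝ) ^ 2 / (2 * ((k : ℝ) + 1))) := by
      field_simp
    rw [e]
    linarith
  calc √2 * ((2 * ((k : ℝ) + 1) + 2 * c) * (2 * ((k : ℝ) + 1) + 2 * c - 1) +
      (√2 - 5 / 4) * (2 * ((k : ℝ) + 1) + 2 * c) + ((k : ℝ) + 1) / 2 - (c : ℝ) ^ 2 / ((k : ℝ) + 1))
      ≤ √2 * (2 * ∑ x ∈ P0, ∑ y ∈ P0, hh (inner ℝ x y)) := mul_le_mul_of_nonneg_left hkey hs2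
    _ = 2 * √2 * ∑ x ∈ P0, ∑ y ∈ P0, hh (inner ℝ x y) := by ring

end Pool.Agent.XPL
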