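import Pool.Agent.XPL.St

set_option autoImplicit false

namespace Pool.Agent.XPL

theorem thm_Lm : St_Lm := by
  have key : ∀ t : ℝ, t ≤ 1 → lam t = (√(1 - t) - 1) ^ 3 * (√(1 - t) + 3) / 8 := by
    intro t ht
    have h0 : 0 ≤ 1 - t := by linarith
    have h1 : √(1 - t) ^ 2 = 1 - t := Real.sq_sqrt h0
    have h2 : t = 1 - √(1 - t) ^ 2 := by rw [h1]; ring
    set r := √(1 - t) with hr
    unfold lam
    rw [← hr]
    rw [h2]
    ring
  have mono : ∀ s t : ℝ, s ≤ t → t ≤ 1 → lam t ≤ lam s := by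
    intro s t hst ht
    rw [key t ht, key s (le_trans hst ht)]
    have hr : 0 ≤ √(1 - t) := Real.sqrt_nonneg _
    have hq : √(1 - t) ≤ √(1 - s) := Real.sqrt_le_sqrt (by linarith)
    set r := √(1 - t)
    set q := √(1 - s)
    have h1 : 0 ≤ (q + r) ^ 3 - 12 * (q + r) + 16 := by
      have : (q + r) ^ 3 - 12 * (q + r) + 16 = (q + r - 2) ^ 2 * (q + r + 4) := by ring
      rw [this]
      apply mul_nonneg (sq_nonneg _)
      linarith
    have h2 : 0 ≤ (q + r) * (q ^ 2 + r ^ 2) - 6 * (q + r) + 8 := by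
      have h3 : 0 ≤ (q + r) * (q - r) ^ 2 := mul_nonneg (by linarith) (sq_nonneg _)
      nlinarith
    have h4 : (q - 1) ^ 3 * (q + 3) - (r - 1) ^ 3 * (r + 3)
        = (q - r) * ((q + r) * (q ^ 2 + r ^ 2) - 6 * (q + r) + 8) := by ring
    have h5 : 0 ≤ (q - r) * ((q + r) * (q ^ 2 + r ^ 2) - 6 * (q + r) + 8) :=
      mul_nonneg (by linarith) h2
    linarith
  refine ⟨key, mono, ?_, ?_⟩
  · intro t h0 h1
    have h2 := mono 0 t h0 h1
    have h3 : lam 0 = 0 := by
      unfold lam; norm_num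
    linarith
  · unfold lam c0
    norm_num
    ring

end Pool.Agent.XPL
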