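import Mathlib

set_option autoImplicit false

/-!
MP_b22a07_co, sums of distances beyond N = 2(k+1).  Paper proof: /team-store/xpl_proof.txt.
All modules prove theorems of the form (statements used) → (statement).
-/

namespace Pool.Agent.XPL

open Finset

/-- The ambient space. -/
abbrev E (d : ℕ) := EuclideanSpace ℝ (Fin d)

/-- The remainder of `√(1-t)` after its quadratic Taylor polynomial. -/
noncomputable def lam (t : ℝ) : ℝ := √(1 - t) - 1 + t / 2 + t ^ 2 / 8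

/-- `lam (-1)`. -/
noncomputable def c0 : ℝ := √2 - 11 / 8

noncomputable def yf (w : ℝ) : ℝ := 1 / (1 + 41 / 50 * w - 23 / 25 * w ^ 2)

noncomputable def muf (w : ℝ) : ℝ := (1 - yf w ^ 2) / 8

noncomputable def hh (x : ℝ) : ℝ := √(1 - x) + √(1 + x)

section
variable {ι : Type} {d : ℕ}

/-- Gram matrix. -/
noncomputable def gr (p : ι → E d) (i j : ι) : ℝ := inner ℝ (p i) (p j)

/-- `u_i = sum_j t_ij^2`. -/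
noncomputable def uu [Fintype ι] (p : ι → E d) (i : ι) : ℝ := ∑ j, gr p i j ^ 2

/-- `G2 = sum_ij t_ij^2`. -/
noncomputable def G2 [Fintype ι] (p : ι → E d) : ℝ := ∑ i, uu p i

/-- `||U - θ I||_F^2` with `U = sum p_i p_i^T`. -/
noncomputable def DD [Fintype ι] (p : ι → E d) (θ : ℝ) : ℝ :=
  G2 p - 2 * θ * (Fintype.card ι : ℝ) + θ ^ 2 * (d : ℝ)

/-- `w_i = |p_i + p_{m i}|/2` (for unit vectors). -/
noncomputable def wf (p : ι → E d) (m : ι → ι) (i : ι) : ℝ := √((1 + gr p i (m i)) / 2)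

/-- half difference and half sum of `p_i` and `p_{m i}`. -/
noncomputable def uv (p : ι → E d) (m : ι → ι) (i : ι) : E d := (1 / 2 : ℝ) • (p i - p (m i))
noncomputable def wv (p : ι → E d) (m : ι → ι) (i : ι) : E d := (1 / 2 : ℝ) • (p i + p (m i))

/-- gain of the row `i`. -/
noncomputable def gg [DecidableEq ι] (p : ι → E d) (m : ι → ι) (θ : ℝ) (i : ι) : ℝ :=
  if m i = i then 1 / 2000 else wf p m i ^ 2 / 1000 - (θ - 2) * wf p m i / 4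

/-- sum of `√(1 - t_ij)` over ordered pairs `i ≠ j`. -/
noncomputable def sq [Fintype ι] [DecidableEq ι] (p : ι → E d) : ℝ :=
  ∑ i, ∑ j ∈ univ.erase i, √(1 - gr p i j)

/-- `m` is a maximal matching of near-antipodal points (fixed points are the unmatched ones). -/
def MM (p : ι → E d) (m : ι → ι) : Prop :=
  (∀ i, m (m i) = i) ∧ (∀ i, m i ≠ i → gr p i (m i) ≤ -(39 / 50)) ∧
  ∀ i j, i ≠ j → m i = i → m j = j → -(39 / 50) < gr p i j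
end

/-- **Lm.** Put `r = √(1-t)`, `t = 1 - r^2`: `lam t = r - 1 + (1-r^2)/2 + (1-r^2)^2/8
= (r-1)^3 (r+3)/8`, which is increasing in `r ≥ 0` (derivative `(r-1)^2 (r+2)/2`). -/
def St_Lm : Prop :=
  (∀ t : ℝ, t ≤ 1 → lam t = (√(1 - t) - 1) ^ 3 * (√(1 - t) + 3) / 8) ∧
  (∀ s t : ℝ, s ≤ t → t ≤ 1 → lam t ≤ lam s) ∧
  (∀ t : ℝ, 0 ≤ t → t ≤ 1 → lam t ≤ 0) ∧ lam (-1) = c0

/-- **B1** (uses Lm). With `r = √(1-t) ≤ √1.78 < 1.3342`: `t^2 = (r-1)^2 (r+1)^2` and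
`(r-1)(r+3)/8 ≤ 333/10000 (r+1)^2` for `0 ≤ r ≤ 1.3342`. -/
def St_B1 : Prop := ∀ t : ℝ, -(39 / 50) ≤ t → t ≤ 1 → lam t ≤ 333 / 10000 * t ^ 2

/-- **B2** (uses Lm). `g ≥ 0.215 > 0` so `lam g ≤ 0`; with `τ = -t ∈ [0.78, 1]`, `r = √(1+τ)`,
`τ = r^2 - 1`, one has `lam t = (r-1)^3 (r+3)/8 ≤ 333/10000 (τ^2 + ((3τ-1.91)/2)^2)`. -/
def St_B2 : Prop := ∀ t g : ℝ, -1 ≤ t → t ≤ -(39 / 50) → (-3 * t - 191 / 100) / 2 ≤ g → g ≤ 1 →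
  lam t + lam g ≤ 333 / 10000 * (t ^ 2 + g ^ 2)

/-- **I1.** Polynomial inequality. Equivalent: `e*g(w)*w + w^3 + 5 e^2 (1+w) - 2 e^3 + (w-e)^4/4 ≥ 0`
where `w g(w) = 4 (1+41w/50-23w^2/25)^2 - 4 - 6 w - 4 w^2`, i.e.
`g = 0.56 - 8.6704 w - 6.0352 w^2 + 3.3856 w^3`. Smallest value, relative to `w^3 + e^2`, is `0.074`
at `e = 0.076`, `w = 0.332`. For `w ≤ 0.06` one has `g ≥ 0`. -/
def St_I1 : Prop := ∀ e w : ℝ, 0 ≤ w → w ^ 2 ≤ 11 / 100 → 0 ≤ e → e ≤ 3 / 5 →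
  e * (4 + 6 * w + 4 * w ^ 2) - w ^ 3 - 5 * e ^ 2 * (1 + w) + 2 * e ^ 3 - (w - e) ^ 4 / 4
    ≤ 4 * e * (1 + 41 / 50 * w - 23 / 25 * w ^ 2) ^ 2

/-- **P1** (uses Lm, I1). `r = √(1+x+w)`, `r' = √(1-x+w)`, `B = r + r'`, `e = 2 + w - B`.
`lam (-x-w) + lam (x-w) = B - 2 - w + (x^2+w^2)/4`, `x^2 = B^2 (4+4w-B^2)/4`, so the claim is
`yf^2 (w^2 + B^2 (4+4w-B^2)/4) ≤ 4 (2+w-B)`, which is I1 (`B = 2 + w - e`; `0 ≤ e` by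
`B^2 ≤ 2 (r^2+r'^2) = 4+4w`, `e ≤ 3/5` by `B^2 ≥ r^2+r'^2 = 2+2w`). -/
def St_P1 : Prop := ∀ x w : ℝ, 0 ≤ w → w ^ 2 ≤ 11 / 100 → |x| ≤ 1 - w →
  lam (-x - w) + lam (x - w) ≤ 2 * muf w * (x ^ 2 + w ^ 2)

/-- **P2** (uses Lm, P1). If `a + b ≥ 0` then `lam a + lam b ≤ 0` (with `r, s` the two roots,
`r^2 + s^2 ≤ 2`, `(r-1)^3 (r+3) + (s-1)^3 (s+3) ≤ 0`) and `muf w ≥ 0`. If `a + b < 0` put
`y = -(a+b)/2 ≤ w`, `x = (b-a)/2` (so `-x-y = a`... or `b`), `|x| ≤ 1 - y` because `a, b ≥ -1`, use P1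
at `y` and `muf y ≤ muf w` (monotone on `[0, 0.4]`). -/
def St_P2 : Prop := ∀ a b w : ℝ, -1 ≤ a → a ≤ 1 → -1 ≤ b → b ≤ 1 → |a + b| ≤ 2 * w → 0 ≤ w →
  w ^ 2 ≤ 11 / 100 → lam a + lam b ≤ muf w * (a ^ 2 + b ^ 2)

/-- **Ru.** `(u-θ)^2/u ≥ (1-s^2) u - 2 θ (1-s)` with `s = 8549/10000` (from `(θ - s u)^2 ≥ 0`);
`99/800 (1-s^2) ≥ 333/10000`, so it is enough to look at `u = 1`, and there it is a number. -/
def St_Ru : Prop := ∀ u θ : ℝ, 1 ≤ u → 2 ≤ θ → θ ≤ 2 + 1 / 1000 →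
  333 / 10000 * (u - 1) - c0 ≤ 99 / 800 * ((u - θ) ^ 2 / u) - 1 / 2000

/-- **Rm** (uses Lm). Put `z = 1 - yf w`, `s = 1 - K z`, `K = 253/250`, `c = 99/800`,
`τ = 1 - 2 w^2`. `(u-θ)^2/u ≥ (1-s^2) u - 2 θ (1-s)`; `c (1-s^2) ≥ muf w` (as `z ≤ 0.27`), so `u` may
be replaced by `1 + τ^2` in the difference; `2 c K z ≤ w/4`; what remains is
`c K z (2 K z + (4w^2-4w^4)(2 - K z)) ≤ c0 - lam (-τ) - w^2/1000`, and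
`c0 - lam (-τ) = √2 (1 - √(1-w^2)) - w^2/2 - w^4/2 ≥ w^2 (√2-1)/2 - w^4 (1/2 - √2/8)`.
Divided by `w^2`, with `q = z/w = (41/50-23w/25)/(1+41w/50-23w^2/25)`:
`c K q (2 K q + 4 w (1-w^2) (2 - K z)) ≤ 0.2061 - 0.32323 w^2`; margins 0.035 (w=0), 0.010 (w=0.2),
0.0027 (w=0.3), 0.00105 (w=0.3317). -/
def St_Rm : Prop := ∀ w u θ : ℝ, 0 ≤ w → w ^ 2 ≤ 11 / 100 → 1 + (1 - 2 * w ^ 2) ^ 2 ≤ u →
  2 ≤ θ → θ ≤ 2 + 1 / 1000 →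
  muf w * (u - 1 - (1 - 2 * w ^ 2) ^ 2) + lam (-(1 - 2 * w ^ 2)) - c0
    ≤ 99 / 800 * ((u - θ) ^ 2 / u) - w ^ 2 / 1000 + (θ - 2) * w / 4

/-- **Pe.** For all real `y`: `0 ≤ ‖sum y_i p_i p_i^T - θ I‖_F^2 = sum y_i y_j t_ij^2 - 2 θ sum y_i
+ θ^2 d` (write it as `sum_{a b} (sum_i y_i p_i(a) p_i(b) - θ [a=b])^2`). Take `y_i = 1 - z_i`,
`z_i = (u_i-θ)/u_i`, and `z_i z_j t_ij^2 ≤ (z_i^2+z_j^2) t_ij^2/2`.
Second part: the same with one more rank one term: for a unit vector `v` and real `z`,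
`0 ≤ ‖U - θ I - z v v^T‖_F^2 = DD - 2 z (sum_j <v,p_j>^2 - θ) + z^2`, take `z = sum_j <v,p_j>^2 - θ`. -/
def St_Pe : Prop := ∀ (ι : Type) [Fintype ι] (d : ℕ) (p : ι → E d), (∀ i, ‖p i‖ = 1) → ∀ θ : ℝ,
  ∑ i, (uu p i - θ) ^ 2 / uu p i ≤ DD p θ ∧ 0 ≤ DD p θ ∧
  ∀ v : E d, ∑ j, (inner ℝ v (p j) : ℝ) ^ 2 ≤ (θ + √(DD p θ)) * ‖v‖ ^ 2

/-- **Mt.** A maximal matching exists (take an involution `m` with `m i ≠ i → R i (m i)` and with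
the least number of fixed points; the identity is admissible; if two fixed points `i ≠ j` had
`R i j`, swap them). -/
def St_Mt : Prop := ∀ (ι : Type) [Fintype ι] [DecidableEq ι] (R : ι → ι → Prop),
  (∀ i j, R i j → R j i) → ∃ m : ι → ι, (∀ i, m (m i) = i) ∧ (∀ i, m i ≠ i → R i (m i)) ∧
    ∀ i j, i ≠ j → m i = i → m j = j → ¬ R i j

/-- **Rw** (uses B1, B2, P2). Unmatched rows: for `l ≠ i`, `φ l = lam t_il - 0.0333 t_il^2` satisfies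
`φ l + φ (m l) ≤ 0` (if both products are at least `-0.78`, B1 twice; if `t_il < -0.78` then `l` is
matched by maximality, `q = l`, `s = m l`, `‖p_i + (3/2) p_q + p_s‖^2 ≥ 0` gives the lower bound of B2 for
`g = t_is`; symmetric), and `m` permutes `univ.erase i`.
Matched rows, `j = m i`: for `l ≠ i, j`, `|t_il + t_jl| = |<p_i + p_j, p_l>| ≤ ‖p_i + p_j‖ = 2 w_i` and P2. -/
def St_Rw : Prop := ∀ (ι : Type) [Fintype ι] [DecidableEq ι] (d : ℕ) (p : ι → E d) (m : ι → ι),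
  (∀ i, ‖p i‖ = 1) → MM p m →
  (∀ i, m i = i → ∑ l ∈ univ.erase i, lam (gr p i l) ≤ 333 / 10000 * (uu p i - 1)) ∧
  (∀ i, m i ≠ i → ∑ l ∈ univ.erase i, lam (gr p i l) + ∑ l ∈ univ.erase (m i), lam (gr p (m i) l)
    ≤ 2 * lam (gr p i (m i)) +
      muf (wf p m i) * (uu p i + uu p (m i) - 2 - 2 * gr p i (m i) ^ 2))

/-- **S1** (uses Pe, Mt, Rw, Ru, Rm). Put `R_i = sum_{l ≠ i} lam t_il - c0 - (99/800)(u_i-θ)^2/u_i`.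
Fixed point: `R_i ≤ -gg_i` (Rw, Ru; `u_i ≥ 1`). Matched: `R_i + R_{m i} ≤ -gg_i - gg_{m i}` (Rw, Rm for
`u_i` and for `u_{m i}`, both at least `1 + t^2`; `t_{i,m i} = -(1-2w^2)`, `w_{m i} = w_i`,
`w_i^2 ≤ 11/100`). Sum `R_i + R_{m i}` over all `i`, divide by two, then Pe. -/
def St_S1 : Prop := ∀ (ι : Type) [Fintype ι] [DecidableEq ι] (d : ℕ) (p : ι → E d),
  (∀ i, ‖p i‖ = 1) → ∀ θ : ℝ, 2 ≤ θ → θ ≤ 2 + 1 / 1000 → ∃ m : ι → ι, MM p m ∧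
  ∑ i, ∑ j ∈ univ.erase i, lam (gr p i j)
    ≤ c0 * (Fintype.card ι : ℝ) + 99 / 800 * DD p θ - ∑ i, gg p m θ i

/-- **Id.** Plain algebra: `√(1-t) = 1 - t/2 - t^2/8 + lam t`, `t_ii = 1`. -/
def St_Id : Prop := ∀ (ι : Type) [Fintype ι] [DecidableEq ι] (d : ℕ) (p : ι → E d),
  (∀ i, ‖p i‖ = 1) →
  sq p = (Fintype.card ι : ℝ) * ((Fintype.card ι : ℝ) - 1)
    - (‖∑ i, p i‖ ^ 2 - (Fintype.card ι : ℝ)) / 2 - (G2 p - (Fintype.card ι : ℝ)) / 8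
    + ∑ i, ∑ j ∈ univ.erase i, lam (gr p i j)

/-- **BB** (uses S1, Id, Pe). Theorem B for families; the case of equality: `θ = 2` in S1; then
`DD p 2 = 0`, no fixed points (`gg = 1/2000`), all `w_i = 0`, so `t_{i,m i} = -1`; `DD = 0` and Pe give
`u_i = 2`, so the other products vanish; `DD p 2 = 2N - 4N + 4d = 0` gives `N = 2d`. Conversely
compute. -/
def St_BB : Prop := ∀ (ι : Type) [Fintype ι] [DecidableEq ι] (d : ℕ) (p : ι → E d),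
  (∀ i, ‖p i‖ = 1) →
  sq p ≤ (Fintype.card ι : ℝ) * ((Fintype.card ι : ℝ) - 1) + (√2 - 5 / 4) * (Fintype.card ι : ℝ)
    + (d : ℝ) / 2 ∧
  (sq p = (Fintype.card ι : ℝ) * ((Fintype.card ι : ℝ) - 1) + (√2 - 5 / 4) * (Fintype.card ι : ℝ)
    + (d : ℝ) / 2 ↔
    Fintype.card ι = 2 * d ∧ ∃ m : ι → ι, (∀ i, m (m i) = i) ∧ (∀ i, m i ≠ i) ∧
      (∀ i, gr p i (m i) = -1) ∧ ∀ i j, j ≠ i → j ≠ m i → gr p i j = 0)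

/-- **Lo** (uses Lm if you like). On `[-3/20, 3/20]` one has `lam'' ≤ 1/20`
(`lam'' t = (1 - (1-t)^(-3/2))/4`), so `lam (x+h) + lam (x-h) ≤ 2 lam x + h^2/20` and
`lam (x+h) ≤ lam x + lam' x * h + h^2/40`; `|lam' x + lam' (-x)| ≤ (2/5) x^2`. Therefore
`sum of the four lam ≤ 2 (lam α + lam (-α)) + (1/10)(β^2+γ^2+δ^2) + (4/5)|δ| α^2`; add the quadratic
parts `4 - 2 δ - (α^2+β^2+γ^2+δ^2)/2`. -/
def St_Lo : Prop := ∀ α β γ δ : ℝ,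
  |α + β + γ + δ| ≤ 3 / 20 → |α - β - γ + δ| ≤ 3 / 20 → |-α + β - γ + δ| ≤ 3 / 20 →
  |-α - β + γ + δ| ≤ 3 / 20 →
  √(1 - (α + β + γ + δ)) + √(1 - (α - β - γ + δ)) + √(1 - (-α + β - γ + δ))
    + √(1 - (-α - β + γ + δ))
  ≤ 2 * hh α - 2 * δ - 2 / 5 * (β ^ 2 + γ ^ 2 + δ ^ 2) + 4 / 5 * |δ| * α ^ 2

/-- **Ta.** `h^2 = 2 + 2√(1-x^2)`, `h - h0 = -2 (x^2-x0^2)/((h+h0)(r+r0))`, `r = √(1-x^2)`. Here
`K = 1/(2 h0 r0)`. Strict unless `x^2 = x0^2`. Also `1/4 ≤ K ≤ 1/4 + 1/1000` for `x0 ≤ 1/100`, and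
`h0 ≥ 2 - x0^2/4 - x0^4/10`, `h0 ≤ 2 - x0^2/4`. -/
def St_Ta : Prop := ∀ x0 : ℝ, 0 < x0 → x0 ≤ 1 / 100 → ∃ K : ℝ, 1 / 4 ≤ K ∧ K ≤ 1 / 4 + 1 / 1000 ∧
  2 - x0 ^ 2 / 4 - x0 ^ 4 / 10 ≤ hh x0 ∧ hh x0 ≤ 2 - x0 ^ 2 / 4 ∧
  ∀ x : ℝ, |x| ≤ 1 → hh x ≤ hh x0 - K * (x ^ 2 - x0 ^ 2) ∧
    (hh x = hh x0 - K * (x ^ 2 - x0 ^ 2) → x ^ 2 = x0 ^ 2)

/-- The target value `√2 N + N (N-2) h(1/d)/2`, `N = 2d+2`. -/
noncomputable def VV (d : ℕ) : ℝ :=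
  √2 * (2 * (d : ℝ) + 2) + (2 * (d : ℝ) + 2) * (2 * (d : ℝ)) * hh (1 / (d : ℝ)) / 2

/-- **A1** (uses S1, Id, Pe, Ta). `θ = N/d = 2 + 2/d`, see (a) of the paper proof:
`DD/800 + ‖S‖^2/2 + sum gg ≤ -(N (N-2)/2)(h(1/d)-2+1/(4d^2)) ≤ 1/d^2`,
`w^2/1000 - w/(2d) ≥ w^2/2000 - 125/d^2`, so `DD/800 + sum_{matched} w_i^2/2000 + #fixed/2000 ≤ 376/d`. -/
def St_A1 : Prop := ∀ (ι : Type) [Fintype ι] [DecidableEq ι] (d : ℕ) (p : ι → E d),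
  (∀ i, ‖p i‖ = 1) → 10 ^ 9 ≤ d → Fintype.card ι = 2 * d + 2 → VV d ≤ sq p →
  ∃ m : ι → ι, (∀ i, m (m i) = i) ∧ (∀ i, m i ≠ i) ∧ (∀ i, wf p m i ^ 2 ≤ 1 / 1000) ∧
    (∀ i, wf p m i ^ 2 = (1 + gr p i (m i)) / 2) ∧ DD p (2 + 2 / (d : ℝ)) ≤ 1 / 3000

/-- **Sm.** Regrouping for a fixed point free involution. -/
def St_Sm : Prop := ∀ (ι : Type) [Fintype ι] [DecidableEq ι] (m : ι → ι),
  (∀ i, m (m i) = i) → (∀ i, m i ≠ i) → ∀ F : ι → ι → ℝ,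
  ∑ i, ∑ j ∈ (univ.erase i).erase (m i), F i j
    = (∑ i, ∑ j ∈ (univ.erase i).erase (m i),
        (F i j + F (m i) (m j) + F i (m j) + F (m i) j)) / 4

/-- **Gs** (uses Pe). Gram sums; `al = <u_i,u_j>`, `be = <u_i,w_j>`, `ga = <w_i,u_j>`,
`de = <w_i,w_j>` with the vectors `uv`, `wv`. One has `p_j = u_j + w_j`, `p_{m j} = -u_j + w_j`,
`‖u_i‖^2 = 1 - w^2`, `‖w_i‖^2 = w^2 = (1+t_{i,m i})/2`, `<u_i,w_i> = 0`, `sum_j w_j = sum_j p_j`,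
`sum_j u_j = 0`. (1) and (2) are identities; (3) `sum_{i,j} (be^2+ga^2+de^2) ≤ 2 sum_i sum_j
(<w_i,u_j>^2 + <w_i,w_j>^2) = 2 sum_i sum_j <w_i,p_j>^2`, then Pe; (4) `|de| ≤ (w_i^2+w_j^2)/2`, and
`sum_{j ≠ i, m i} al^2 ≤ sum_j <u_i,p_j>^2 - 2 ‖u_i‖^4 ≤ ‖u_i‖^2 (θ + √DD - 2 ‖u_i‖^2)`. -/
def St_Gs : Prop := ∀ (ι : Type) [Fintype ι] [DecidableEq ι] (d : ℕ) (p : ι → E d) (m : ι → ι),
  (∀ i, ‖p i‖ = 1) → (∀ i, m (m i) = i) → (∀ i, m i ≠ i) → ∀ θ : ℝ, 2 ≤ θ →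
  (∑ i, ∑ j ∈ (univ.erase i).erase (m i), (inner ℝ (wv p m i) (wv p m j) : ℝ)
    = ‖∑ i, p i‖ ^ 2 - 2 * ∑ i, ‖wv p m i‖ ^ 2) ∧
  (∑ i, ∑ j ∈ (univ.erase i).erase (m i), ((inner ℝ (uv p m i) (uv p m j) : ℝ) ^ 2
      + (inner ℝ (uv p m i) (wv p m j) : ℝ) ^ 2 + (inner ℝ (wv p m i) (uv p m j) : ℝ) ^ 2
      + (inner ℝ (wv p m i) (wv p m j) : ℝ) ^ 2)
    = G2 p - 2 * (Fintype.card ι : ℝ) + 4 * ∑ i, ‖wv p m i‖ ^ 2 - 4 * ∑ i, ‖wv p m i‖ ^ 4) ∧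
  (∑ i, ∑ j ∈ (univ.erase i).erase (m i), ((inner ℝ (uv p m i) (wv p m j) : ℝ) ^ 2
      + (inner ℝ (wv p m i) (uv p m j) : ℝ) ^ 2 + (inner ℝ (wv p m i) (wv p m j) : ℝ) ^ 2)
    ≤ 2 * (θ + √(DD p θ)) * ∑ i, ‖wv p m i‖ ^ 2) ∧
  (∑ i, ∑ j ∈ (univ.erase i).erase (m i), |(inner ℝ (wv p m i) (wv p m j) : ℝ)|
      * (inner ℝ (uv p m i) (uv p m j) : ℝ) ^ 2
    ≤ ∑ i, ‖wv p m i‖ ^ 2 * (θ - 2 + √(DD p θ) + 2 * ‖wv p m i‖ ^ 2))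

/-- **A3** (uses A1, Sm, Gs, Lo, Ta, Pe). `sq p ≤ VV d` for `N = 2d+2`; in case of equality the
family is antipodal and all other products are `± 1/d`. Suppose `sq p ≥ VV d` and take `m` of A1.
For `j ≠ i, m i`: `t_ij^2 ≤ u_i - 1 - t_{i,m i}^2 ≤ θ - 2 + √DD + 4 w_i^2 ≤ 9/400` (Pe with `v = p_i`).
Then `sum_{i ≠ j} √(1-t_ij) = sum_i √(2-2w_i^2) + (1/4) sum_i sum_{j ≠ i, m i} H_ij` (Sm), and (c) of the
paper proof gives `sq p ≤ VV d - (1/20) sum_i w_i^2`; the coefficient is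
`-√2/2 + 1 - 2K(1-w^2) + (2K-2/5)(θ+√DD)/2 + (θ-2+√DD+2w^2)/5 ≤ -1/20` (`K ≤ 1/4+1/1000`, `K ≥ 1/4`).
Equality forces `w = 0` and equality in Ta for every `j ≠ i, m i` (then `t_ij = al`). -/
def St_A3 : Prop := ∀ (ι : Type) [Fintype ι] [DecidableEq ι] (d : ℕ) (p : ι → E d),
  (∀ i, ‖p i‖ = 1) → 10 ^ 9 ≤ d → Fintype.card ι = 2 * d + 2 →
  sq p ≤ VV d ∧ (sq p = VV d → ∃ m : ι → ι, (∀ i, m (m i) = i) ∧ (∀ i, m i ≠ i) ∧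
    (∀ i, p (m i) = -p i) ∧ ∀ i j, j ≠ i → j ≠ m i → gr p i j ^ 2 = 1 / (d : ℝ) ^ 2)

/-- **A4.** The rigidity step, for sets. `P` has `2d+2` unit vectors, `P = -P`, and all products of
different non-antipodal points have square `1/d^2`: then `P = A ∪ -A` with `A` a regular simplex.
Choose `d+1` representatives `q_0..q_d` of the antipodal pairs; they are linearly dependent in `E d`:
`sum c_i q_i = 0`; pairing with `q_k` gives `|c_k| ≤ (1/d) sum_{i ≠ k} |c_i|`; summing over `k` all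
these are equalities, so all `|c_k|` are equal and positive and `c_i <q_i,q_k>` has sign opposite to
`c_k`; put `a_k = sgn(c_k) q_k`. -/
def St_A4 : Prop := ∀ (d : ℕ) (P : Finset (E d)), 2 ≤ d → P.card = 2 * d + 2 →
  (∀ x ∈ P, ‖x‖ = 1) → (∀ x ∈ P, -x ∈ P) →
  (∀ x ∈ P, ∀ y ∈ P, x ≠ y → x ≠ -y → (inner ℝ x y : ℝ) ^ 2 = 1 / (d : ℝ) ^ 2) →
  ∃ A : Finset (E d), A.card = d + 1 ∧ (∀ a ∈ A, ‖a‖ = 1) ∧
    (∀ a ∈ A, ∀ b ∈ A, a ≠ b → (inner ℝ a b : ℝ) = -(1 / (d : ℝ))) ∧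
    P = A ∪ A.image (fun x => -x)

/-- **Cv.** The converse computation: for a regular simplex `A` (`d+1` unit vectors with products
`-1/d`, `d ≥ 2`) the set `A ∪ -A` has `2d+2` points and
`sum_{x,y} ‖x-y‖ = √2 VV d` (ordered pairs). -/
def St_Cv : Prop := ∀ (d : ℕ) (A : Finset (E d)), 2 ≤ d → A.card = d + 1 → (∀ a ∈ A, ‖a‖ = 1) →
  (∀ a ∈ A, ∀ b ∈ A, a ≠ b → (inner ℝ a b : ℝ) = -(1 / (d : ℝ))) →
  (A ∪ A.image (fun x => -x)).card = 2 * d + 2 ∧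
  (∀ x ∈ A ∪ A.image (fun x => -x), ‖x‖ = 1) ∧
  ∑ x ∈ A ∪ A.image (fun x => -x), ∑ y ∈ A ∪ A.image (fun x => -x), dist x y = √2 * VV d

/-- **Sx.** Regular simplices exist (take it from
`Pool.Agent.Results.MP_b22a07_co.OrthogonalSimplices.result` with `N = k+2`, or directly). -/
def St_Sx : Prop := ∀ d : ℕ, 2 ≤ d → ∃ A : Finset (E d), A.card = d + 1 ∧ (∀ a ∈ A, ‖a‖ = 1) ∧
  ∀ a ∈ A, ∀ b ∈ A, a ≠ b → (inner ℝ a b : ℝ) = -(1 / (d : ℝ))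

end Pool.Agent.XPL
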