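import Pool.Agent.XPL.St
import Pool.Agent.Results.MP_b22a07_co.OrthogonalSimplices

set_option autoImplicit false

namespace Pool.Agent.XPL

open Finset

/-- **LB.** Lower bound. Let `P0` be a maximiser for `N' = d + c` points of the sphere of `E d`
(`Pool.Agent.Results.MP_b22a07_co.OrthogonalSimplices.result` with `k = d - 1`, so `r = c` classes with
`m` or `m+1` points, `m = (d+c)/c ≥ 3`): products in a class with `n` points are `-1/(n-1)`, products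
between classes are `0`. Take `P = P0 ∪ -P0` (`-x ∉ P0` because `-1 ≠ -1/(n-1)`). For `|x| ≤ 1/2` one has
`hh x ≥ 2 - x^2/4 - x^4/10`, so
`(1/√2) sum dist = 2 sum_{x in P0} (√2 + sum_{y ≠ x} hh <x,y>)
≥ √2 N + N (N-2) - sum_{classes} n (1/(2(n-1)) + 1/(5(n-1)^3))`, `N = 2(d+c)`.
It remains to see `sum_{classes} g(n-1) ≤ c^2/d`, `g x = 1/(2x) + (x+1)/(5x^3)`. The numbers `x = n-1` are
`a` or `a+1`, `a = m - 1 ≥ 2`, their sum is `d`, `X = d/c` lies in `[a,a+1]`; `g x ≤ 2/X - x/X^2` for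
`x = a` and `x = a+1` (`(a+2s)/(a+s)^2` resp. `(a+2s-1)/(a+s)^2` with `X = a+s`); sum over the classes. -/
def St_LB : Prop := ∀ d c : ℕ, 1 ≤ c → 2 * c ≤ d → ∃ P : Finset (E d),
  P.card = 2 * d + 2 * c ∧ (∀ x ∈ P, ‖x‖ = 1) ∧
  √2 * ((2 * (d : ℝ) + 2 * c) * (2 * (d : ℝ) + 2 * c - 1) + (√2 - 5 / 4) * (2 * (d : ℝ) + 2 * c)
    + (d : ℝ) / 2 - (c : ℝ) ^ 2 / d) ≤ ∑ x ∈ P, ∑ y ∈ P, dist x y

end Pool.Agent.XPL
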