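import Pool.Agent.XPL.St

set_option autoImplicit false

/-!
MP_b22a07_co, THEOREM C: even `N` with `2 (k+1) ≤ N ≤ (2 + 10^(-7)) (k+1)`.
Paper proof: /team-store/xpl_proofC.txt.
-/

namespace Pool.Agent.XPL

open Finset

section
variable {ι : Type} {d : ℕ}

/-- Sum of the squares of the products of `p_i` with the points other than `p_i`, `p_{m i}`
(for unit vectors and `m i ≠ i`). -/
noncomputable def yy [Fintype ι] (p : ι → E d) (m : ι → ι) (i : ι) : ℝ :=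
  uu p i - 1 - gr p i (m i) ^ 2

/-- gain of the row `i` in the improved Stage 1. -/
noncomputable def g2 [Fintype ι] [DecidableEq ι] (p : ι → E d) (m : ι → ι) (i : ι) : ℝ :=
  if m i = i then 1 / 2000 else if 1 / 20000 ≤ wf p m i then wf p m i ^ 2 / 2000 else
  if yy p m i < 1 / 1024 ∧ yy p m (m i) < 1 / 1024 then wf p m i ^ 2 / 500 else 9 / 10 ^ 9
end

/-- The bound `B*(N,d) = N^2 - (7/4) N + √2 N - N^2/(8d)` for `sq`. -/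
noncomputable def Bs (N d : ℝ) : ℝ := N ^ 2 - 7 / 4 * N + √2 * N - N ^ 2 / (8 * d)

/-- **C1** (uses P2). Block inequality. For `i ∈ A`, `l ≠ i, m i`:
`lam t_il + lam t_{m i,l} ≤ muf w_i (t_il^2 + t_{m i,l}^2)` (P2 with `w = wf p m i`, because
`|t_il + t_{m i,l}| = |<p_i + p_{m i}, p_l>| ≤ ‖p_i + p_{m i}‖ = 2 w_i`, `w_i^2 ≤ 11/100` by MM), and
`i ↦ m i` permutes `A`, `wf p m (m i) = wf p m i`, the set `(B.erase i).erase (m i)` is the same for `i`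
and `m i`. Add the sum over `i` and the sum over `m i`, divide by two. -/
def St_C1 : Prop := ∀ (ι : Type) [Fintype ι] [DecidableEq ι] (d : ℕ) (p : ι → E d) (m : ι → ι),
  (∀ i, ‖p i‖ = 1) → MM p m → ∀ A B : Finset ι, (∀ i ∈ A, m i ∈ A ∧ m i ≠ i) →
  ∑ i ∈ A, ∑ l ∈ (B.erase i).erase (m i), lam (gr p i l)
    ≤ ∑ i ∈ A, muf (wf p m i) * ∑ l ∈ (B.erase i).erase (m i), gr p i l ^ 2

/-- **C2** (helper61 does it). Local inequality for small products. -/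
def St_C2 : Prop := ∀ α β γ δ : ℝ,
  |α + β + γ + δ| ≤ 1 / 32 → |α - β - γ + δ| ≤ 1 / 32 → |-α + β - γ + δ| ≤ 1 / 32 →
  |-α - β + γ + δ| ≤ 1 / 32 →
  lam (α + β + γ + δ) + lam (α - β - γ + δ) + lam (-α + β - γ + δ) + lam (-α - β + γ + δ)
  ≤ 1 / 44 * (β ^ 2 + γ ^ 2 + δ ^ 2) + 4 / 5 * |δ| * α ^ 2

/-- **C3** (uses C2). Put `al = <u_i,u_l>`, `be = <u_i,w_l>`, `ga = <w_i,u_l>`, `de = <w_i,w_l>` with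
the vectors `uv`, `wv` (`p_i = u_i + w_i`, `p_{m i} = -u_i + w_i`). The map `l ↦ m l` permutes `G` and
`(G.erase i).erase (m i)`, likewise for `i`; so the left side is `1/4` of the sum of the four `lam` of
C2 (`t_il`, `t_{m i,m l}`, `t_{i,m l}`, `t_{m i,l}`), all four products have square `≤ yy ≤ 1/1024`
(`yy p m i = sum_{l ≠ i, m i} t_il^2`). Then `sum_{i,l in G} (ga^2+de^2) = sum_{i,l in G} <w_i,p_l>^2`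
(the cross terms cancel for `l`, `m l`), the same for `be^2+de^2` by symmetry; this gives `1/88`.
`|de| ≤ (w_i^2+w_l^2)/2`, `al = (t_il + t_{m i,m l} - t_{i,m l} - t_{m i,l})/4`, so
`al^2 ≤ (sum of the four squares)/4` and
`sum_{l in G, l ≠ i,m i} al^2 ≤ (2 yy_i + 2 yy_{m i})/4 ≤ 1/1024`; `(1/4)(4/5)(1/1024) ≤ 1/5000`. -/
def St_C3 : Prop := ∀ (ι : Type) [Fintype ι] [DecidableEq ι] (d : ℕ) (p : ι → E d) (m : ι → ι),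
  (∀ i, ‖p i‖ = 1) → (∀ i, m (m i) = i) → ∀ G : Finset ι, (∀ i ∈ G, m i ∈ G ∧ m i ≠ i) →
  (∀ i ∈ G, yy p m i ≤ 1 / 1024) →
  ∑ i ∈ G, ∑ l ∈ (G.erase i).erase (m i), lam (gr p i l)
    ≤ 1 / 88 * (∑ i ∈ G, ∑ l ∈ G, (inner ℝ (wv p m i) (p l) : ℝ) ^ 2)
      + 1 / 5000 * ∑ i ∈ G, wf p m i ^ 2

/-- **C4.** Perron with an extra term. `U = sum p_i p_i^T`, `W = sum_{i in G} w_i w_i^T` (`w_i = wv p m i`),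
`X = sum_i z_i p_i p_i^T + W/20`, `z_i = (u_i-θ)/u_i`; expand `0 ≤ ‖U - θ I - X‖_F^2`
(as a sum over coordinates `a b`): `DD ≥ 2 <U-θI, X> - ‖X‖^2`,
`<U-θI,X> = sum z_i (u_i-θ) + (tr WU - θ tr W)/20`,
`‖X‖^2 = sum z_i z_l t_il^2 + (1/10) sum z_i <p_i,W p_i> + ‖W‖^2/400`, `z_i z_l t^2 ≤ (z_i^2+z_l^2) t^2/2`.
`tr WU = sum_l <p_l,W p_l>`, `z_l ≤ 1` always and `z_l ≤ 1/100` for `l in G`, so
`(1/10)(tr WU - sum z_l <p_l,W p_l>) ≥ (99/1000) V`, `V = sum_{i,l in G} <w_i,p_l>^2`; and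
`‖W‖^2 = sum_{i,l in G} <w_i,w_l>^2 ≤ V` because `<w_i,p_l>^2 + <w_i,p_{m l}>^2 ≥ 2 <w_i,w_l>^2`.
`99/1000 - 1/400 = 193/2000`; `tr W = sum_{i in G} wf^2` (`‖w_i‖ = wf p m i`). -/
def St_C4 : Prop := ∀ (ι : Type) [Fintype ι] [DecidableEq ι] (d : ℕ) (p : ι → E d) (m : ι → ι),
  (∀ i, ‖p i‖ = 1) → (∀ i, m (m i) = i) → ∀ G : Finset ι, (∀ i ∈ G, m i ∈ G) →
  ∀ θ : ℝ, 0 ≤ θ → (∀ i ∈ G, uu p i - θ ≤ uu p i / 100) →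
  ∑ i, (uu p i - θ) ^ 2 / uu p i
    + 193 / 2000 * (∑ i ∈ G, ∑ l ∈ G, (inner ℝ (wv p m i) (p l) : ℝ) ^ 2)
    - θ / 10 * ∑ i ∈ G, wf p m i ^ 2 ≤ DD p θ

/-- **C5** (helper61 does it). Scalar row inequalities. -/
def St_C5 : Prop :=
  (∀ w u θ : ℝ, 0 ≤ w → w ≤ 1 / 1000 → 1 + (1 - 2 * w ^ 2) ^ 2 ≤ u → 2 ≤ θ → θ ≤ 2 + 1 / 1000 →
    muf w * (u - 1 - (1 - 2 * w ^ 2) ^ 2) + lam (-(1 - 2 * w ^ 2)) - c0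
      ≤ 99 / 800 * ((u - θ) ^ 2 / u) - 3 / 100 * w ^ 2 + (θ - 2) * w / 4) ∧
  (∀ w : ℝ, 0 ≤ w → w ≤ 1 / 1000 → lam (-(1 - 2 * w ^ 2)) - c0 ≤ -(w ^ 2 / 5)) ∧
  (∀ w u θ : ℝ, 0 ≤ w → w ≤ 1 / 20000 → 1 + (1 - 2 * w ^ 2) ^ 2 ≤ u → 2 ≤ θ → θ ≤ 2 + 1 / 10 ^ 7 →
    2 * muf w * (u - 1 - (1 - 2 * w ^ 2) ^ 2) + lam (-(1 - 2 * w ^ 2)) - c0
      ≤ 99 / 800 * ((u - θ) ^ 2 / u) + 2 / 10 ^ 9 ∧
    (1 / 1024 ≤ u - 1 - (1 - 2 * w ^ 2) ^ 2 →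
    2 * muf w * (u - 1 - (1 - 2 * w ^ 2) ^ 2) + lam (-(1 - 2 * w ^ 2)) - c0
      ≤ 99 / 800 * ((u - θ) ^ 2 / u) - 2 / 10 ^ 8)) ∧
  (∀ u θ : ℝ, 1 ≤ u → 2 ≤ θ → θ ≤ 2 + 1 / 1000 →
    (333 / 10000 + 1 / 200000) * (u - 1) - c0 ≤ 99 / 800 * ((u - θ) ^ 2 / u) - 1 / 2000) ∧
  (∀ v w : ℝ, 0 ≤ v → v ≤ w → w ^ 2 ≤ 11 / 100 → 0 ≤ muf v ∧ muf v ≤ muf w) ∧
  muf (1 / 50000) ≤ 1 / 200000 ∧
  (∀ w : ℝ, 1 / 20000 ≤ w → w ^ 2 ≤ 11 / 100 → 2 * muf (1 / 50000) ≤ muf w)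

/-- **C6** (uses C1, C3, C4, C5, Mt, Rw, Rm). Improved Stage 1, without linear loss.
`m` from Mt with `R i j := t_ij ≤ -39/50` (as in S1). Classes: `U`: `m i = i`; for the others put
`w = wf p m i`, `y = yy p m i`, `y' = yy p m (m i)`; `L`: `w ≥ 1/20000`; `G`: `w < 1/20000`,
`y, y' < 1/1024`; `B`: `w < 1/20000` and not (`y, y' < 1/1024`); `S`: in `G`, `w < 1/50000`; `Z`: in `G`,
`w ≥ 1/50000`. All classes are `m`-invariant. For sets write `Λ(A,B) = sum_{i in A} sum_{l in B, l ≠ i, m i}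
lam t_il = Λ(B,A)`, `T_i(B) = sum_{l in B, l ≠ i, m i} t_il^2`, `T_i(all) = y_i` (`= u_i - 1` in `U`).
The sum of all `lam t_il`, `i ≠ l`, is `sum_{m i ≠ i} lam t_{i,m i} + Λ(all,all)`.
`Λ(U,all) ≤ 333/10000 sum_U (u_i-1)` (Rw). By C1: `Λ(B,all) + Λ(G,B) ≤ sum_B 2 muf w_i y_i` (use
`Λ(G,B) = Λ(B,G)`); `Λ(L,S) = Λ(S,L) ≤ muf(1/50000) sum_{i in L} T_i(S)`, so with
`2 muf(1/50000) ≤ muf w_i`: `Λ(L,all) + Λ(S,L) ≤ sum_L muf w_i y_i`;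
`Λ(Z,L) + Λ(Z,U) ≤ sum_Z muf w_i y_i`; `Λ(S,U) ≤ muf(1/50000) sum_{i in U} (u_i - 1)`. `Λ(G,G)` by C3.
C4 with this `G` (`u_i = 1 + t^2 + y_i`, `t^2 = (1-2w^2)^2`): `99/800 * 193/2000 ≥ 1/88`,
`99/800 * θ/10 + 1/5000 ≤ 0.025`. Rows: `t_{i,m i} = -(1-2w^2)`.
`U`: fourth part of C5. `L`: Rm and `(θ-2) w/4 ≤ w^2/2000`. `Z`: first part of C5 and
`-(3/100) w^2 + (θ-2) w/4 + 0.025 w^2 ≤ -w^2/500`. `S`: second part of C5 (and `(u-θ)^2/u ≥ 0`).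
`B`: third part of C5 for `u_i` and `u_{m i}` (at least one of `y_i, y_{m i}` is `≥ 1/1024`), sum over
the pair `≤ -1.8/10^8`, so `-9/10^9` for each row. -/
def St_C6 : Prop := ∀ (ι : Type) [Fintype ι] [DecidableEq ι] (d : ℕ) (p : ι → E d),
  (∀ i, ‖p i‖ = 1) → ∀ θ : ℝ, 2 ≤ θ → θ ≤ 2 + 1 / 10 ^ 7 → ∃ m : ι → ι, MM p m ∧
  ∑ i, ∑ j ∈ univ.erase i, lam (gr p i j)
    ≤ c0 * (Fintype.card ι : ℝ) + 99 / 800 * DD p θ - ∑ i, g2 p m i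

/-- **C7** (uses C6, Id). With `θ = N/d`, `DD p θ = G2 - N^2/d`, C6 and Id give
`sq p ≤ Bs N d - DD/800 - ‖sum p‖^2/2 - sum g2` (first part: all these are nonnegative).
If `sq p ≥ Bs N d - 10^(-12)`: no fixed point (`1/2000`), `wf < 1/20000` (`(1/20000)^2/2000 = 1.25/10^12`),
the fourth case of `g2` is excluded, so `wf^2/500` everywhere. -/
def St_C7 : Prop := ∀ (ι : Type) [Fintype ι] [DecidableEq ι] (d : ℕ) (p : ι → E d),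
  (∀ i, ‖p i‖ = 1) → 1 ≤ d → 2 * d ≤ Fintype.card ι →
  (Fintype.card ι : ℝ) ≤ (2 + 1 / 10 ^ 7) * (d : ℝ) →
  sq p ≤ Bs (Fintype.card ι) d ∧
  (Bs (Fintype.card ι) d - 1 / 10 ^ 12 ≤ sq p → ∃ m : ι → ι, (∀ i, m (m i) = i) ∧ (∀ i, m i ≠ i) ∧
    (∀ i, wf p m i < 1 / 20000) ∧ (∀ i, yy p m i < 1 / 1024) ∧
    DD p ((Fintype.card ι : ℝ) / d) ≤ 800 / 10 ^ 12 ∧ ∑ i, wf p m i ^ 2 ≤ 500 / 10 ^ 12)

/-- **C8.** Lower bound for the mixed Gram sum. `be = <u_i,w_j>`, `ga = <w_i,u_j>`, `de = <w_i,w_j>`.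
The sum of `be^2+ga^2+de^2` over ALL `i j` is `2 V - sum_{i j} de^2`, `V = sum_i sum_j <w_i,p_j>^2`
(`sum_j <w_i,p_j>^2 = sum_j (<w_i,u_j>^2 + <w_i,w_j>^2)`, cross terms cancel for `j, m j`); the terms
`j = i, m i` contribute `2 sum_i ‖w_i‖^4` (`<u_i,w_i> = 0`). `sum_j <v,p_j>^2 ≥ (θ - √DD) ‖v‖^2`
(for unit `v`: `0 ≤ ‖U - θ I - z v v^T‖_F^2 = DD - 2 z (a - θ) + z^2` with
`a = sum_j <v,p_j>^2`, `z = a - θ`), and `sum_{i j} de^2 ≤ (sum ‖w_i‖^2)^2`. -/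
def St_C8 : Prop := ∀ (ι : Type) [Fintype ι] [DecidableEq ι] (d : ℕ) (p : ι → E d) (m : ι → ι),
  (∀ i, ‖p i‖ = 1) → (∀ i, m (m i) = i) → (∀ i, m i ≠ i) → ∀ θ : ℝ,
  2 * (θ - √(DD p θ)) * (∑ i, ‖wv p m i‖ ^ 2) - (∑ i, ‖wv p m i‖ ^ 2) ^ 2
      - 2 * ∑ i, ‖wv p m i‖ ^ 4
  ≤ ∑ i, ∑ j ∈ (univ.erase i).erase (m i), ((inner ℝ (uv p m i) (wv p m j) : ℝ) ^ 2
      + (inner ℝ (wv p m i) (uv p m j) : ℝ) ^ 2 + (inner ℝ (wv p m i) (wv p m j) : ℝ) ^ 2)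

/-- **Ca.** `hh^2 = 2 + 2 √(1-x^2)`, `hh a - hh b = 2 (√(1-a^2) - √(1-b^2))/(hh a + hh b)`,
`√(1-a^2) - √(1-b^2) = (b^2-a^2)/(√(1-a^2)+√(1-b^2))`, `b^2 - a^2 ≤ (1001/1000) a^2 (v+w)`. -/
def St_Ca : Prop := ∀ a b v w : ℝ, 0 ≤ v → v ≤ 1 / 10 ^ 6 → 0 ≤ w → w ≤ 1 / 10 ^ 6 → |a| ≤ 1 / 10 →
  b ^ 2 * ((1 - v) * (1 - w)) = a ^ 2 → hh a - hh b ≤ 3 / 10 * a ^ 2 * (v + w)

/-- **C9** (uses C8, Ca, Lo, Sm, Gs (first part)). Comparison with the antipodal family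
`p'_i = u_i/‖u_i‖`, `u_i = uv p m i`, `‖u_i‖^2 = 1 - w_i^2`, `‖wv p m i‖ = wf p m i = w_i`, `p'_{m i} = -p'_i`.
By Sm `sq p = sum_i √(2-2w_i^2) + (1/4) sum_i sum_{l ≠ i,m i} H_il`, `H_il` the sum of the four roots,
`H ≤ 2 hh al - 2 de - (2/5)(be^2+ga^2+de^2) + (4/5)|de| al^2` (Lo; all products have square
`≤ yy ≤ 1/1024`); `sq p' = √2 N + (1/2) sum_i sum_{l ≠ i,m i} hh al'_il`,
`al'^2 (1-w_i^2)(1-w_l^2) = al^2`. With Ca, Gs (1) (`sum de = ‖sum p‖^2 - 2 sum w^2`), C8,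
`√(2-2w^2) ≤ √2 - (√2/2) w^2`, `|de| ≤ (w_i^2+w_l^2)/2`, `sum_{l ≠ i,m i} al_il^2 ≤ 1/1024` (as in C3):
`sq p - sq p' ≤ (-√2/2 + 1 - (1/10)(4 - 2√DD - sum w^2 - 2 max w^2) + (3/10 + 1/5)/1024) sum w^2`.
Injective: `p'_i = p'_l`, `l ≠ i`, would give `l = m i` and `p'_i = -p'_i`, or
`al^2 = (1-w_i^2)(1-w_l^2)`. -/
def St_C9 : Prop := ∀ (ι : Type) [Fintype ι] [DecidableEq ι] (d : ℕ) (p : ι → E d) (m : ι → ι),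
  (∀ i, ‖p i‖ = 1) → (∀ i, m (m i) = i) → (∀ i, m i ≠ i) → (∀ i, wf p m i ≤ 1 / 20000) →
  (∀ i, yy p m i ≤ 1 / 1024) → ∀ θ : ℝ, 2 ≤ θ → DD p θ ≤ 1 / 10 ^ 6 →
  ∑ i, wf p m i ^ 2 ≤ 1 / 1000 →
  sq p + 1 / 20 * (∑ i, wf p m i ^ 2) ≤ sq (fun i => (1 / ‖uv p m i‖) • uv p m i) ∧
  (∀ i, ‖(1 / ‖uv p m i‖) • uv p m i‖ = 1) ∧
  Function.Injective (fun i => (1 / ‖uv p m i‖) • uv p m i)

/-- **F1.** Naimark complement. `K` = span of the `c` orthonormal vectors `g_a` in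
`EuclideanSpace ℝ (Fin (d+c))`, `V = Kᗮ`, `finrank V = d`, take a linear isometry `V ≃ E d`;
`q_i = √((d+c)/d)` times the image of the orthogonal projection of `e_i` to `V`:
`<q_i,q_l> = ((d+c)/d) ([i=l] - sum_a g_a(i) g_a(l))`. -/
def St_F1 : Prop := ∀ (d c : ℕ), 1 ≤ d → ∀ g : Fin c → Fin (d + c) → ℝ,
  (∀ a b, ∑ i, g a i * g b i = if a = b then 1 else 0) →
  (∀ i, ∑ a, g a i ^ 2 = (c : ℝ) / ((d : ℝ) + c)) →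
  ∃ q : Fin (d + c) → E d, (∀ i, ‖q i‖ = 1) ∧
    ∀ i l, i ≠ l → (inner ℝ (q i) (q l) : ℝ) = -(((d : ℝ) + c) / d) * ∑ a, g a i * g a l

/-- **F2.** Trigonometric facts, `M ≥ 3`, `x f i l = 2 cos (2π f (i-l)/M)`, frequencies
`f = 1..r`, `r = (M-1)/2` (integer part). (1) for `i ≠ l` in `Fin M` the sum of all `x f i l` is `-1`
(`M` odd) or `-1 - (-1)^(i-l)` (`M` even) (geometric sum over `0..M-1` and the symmetry `f ↦ M-f`).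
(2) the functions `√(1/M)`, `√(2/M) cos (2π f i/M)`, `√(2/M) sin (2π f i/M)`, `1 ≤ f ≤ r`, are
orthonormal. Stated as: for every set `F` of frequencies and `h = 0, 1` there is an orthonormal
family of `h + 2 |F|` functions with kernel `(h + sum_{f in F} x f i l)/M`. -/
def St_F2 : Prop := ∀ M : ℕ, 3 ≤ M →
  (∀ i l : Fin M, i ≠ l → |1 + ∑ f ∈ Finset.Icc 1 ((M - 1) / 2),
    2 * Real.cos (2 * Real.pi * f * ((i : ℝ) - (l : ℝ)) / M)| ≤ 1) ∧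
  ∀ F : Finset ℕ, F ⊆ Finset.Icc 1 ((M - 1) / 2) → ∀ h : ℕ, h ≤ 1 →
    ∃ g : Fin (h + 2 * F.card) → Fin M → ℝ,
      (∀ a b, ∑ i, g a i * g b i = if a = b then 1 else 0) ∧
      ∀ i l, ∑ a, g a i * g a l = ((h : ℝ) + ∑ f ∈ F,
        2 * Real.cos (2 * Real.pi * f * ((i : ℝ) - (l : ℝ)) / M)) / M

/-- **F3** (uses F2). Greedy choice of the frequencies. For a set `F` of `j` frequencies put
`D_F(i,l) = h + sum_{f in F} x f i l`, `Φ(F) = sum_{i ≠ l} D_F(i,l)^4`. By orthonormality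
`sum_{i,l} D_F^2 = M^2 (h+2j)` (`sum_{i,l} (sum_a g_a(i) g_a(l))^2 = h + 2j`). Average over the
`R = r - j ≥ 1` unused frequencies `f` of `Φ(F ∪ f) = sum_{i ≠ l} (D + x_f)^4`, `|x_f| ≤ 2`: the sum of the
unused `x_f` is `-D + e`, `|e| ≤ 2`, so
`4 D^3 avg x ≤ 4 (2|D|^3 - D^4)/R ≤ 7`, `6 D^2 avg x^2 ≤ 24 D^2`, `4 D avg x^3 ≤ 16 D^2 + 16`, `avg x^4 ≤ 16`:
some `f` has `Φ(F ∪ f) ≤ Φ(F) + 40 M^2 (h+2j) + 39 M^2`. Start: `Φ(∅) ≤ h M^2`. After `s` steps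
`Φ ≤ M^2 (h + 40 h s + 40 s^2 - s) ≤ 11 M^2 c^2`, `c = 2s + h`. -/
def St_F3 : Prop := ∀ M c : ℕ, 1 ≤ c → 10 * c ≤ M → ∃ g : Fin c → Fin M → ℝ,
  (∀ a b, ∑ i, g a i * g b i = if a = b then 1 else 0) ∧
  (∀ i, ∑ a, g a i ^ 2 = (c : ℝ) / M) ∧
  ∑ i, ∑ l ∈ univ.erase i, ((M : ℝ) * ∑ a, g a i * g a l) ^ 4 ≤ 11 * (M : ℝ) ^ 2 * (c : ℝ) ^ 2

/-- **F4** (uses F1, F3). `M = d + c`, `q` from F1 with `g` of F3 (`10 c ≤ M`); `t_il = -D_il/d`,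
`D = M sum_a g_a(i) g_a(l)`; `sum_{i,l} (sum_a g_a(i) g_a(l))^2 = c` (orthonormality), so
`sum_{i ≠ l} t^2 = (M^2 c - M c^2)/d^2 = M c/d`, and
`sum_{i ≠ l} t^4 ≤ 11 M^2 c^2/d^4 ≤ 12 (c/d)^2`. -/
def St_F4 : Prop := ∀ d c : ℕ, 1 ≤ c → 100 * c ≤ d → ∃ q : Fin (d + c) → E d,
  (∀ i, ‖q i‖ = 1) ∧
  ∑ i, ∑ l ∈ univ.erase i, (inner ℝ (q i) (q l) : ℝ) ^ 2 = ((d : ℝ) + c) * c / d ∧
  ∑ i, ∑ l ∈ univ.erase i, (inner ℝ (q i) (q l) : ℝ) ^ 4 ≤ 12 * ((c : ℝ) / d) ^ 2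

/-- **F5** (uses F4). `P = {± q_i}`, `2(d+c)` points because `|t_il| ≤ 1/2 < 1` for `i ≠ l`
(`t^4 ≤ 12/10^4`). `hh x ≥ 2 - x^2/4 - x^4/10` for `|x| ≤ 1/2`. With `N = 2M`, `M = d + c`:
`(1/√2) sum dist = √2 N + 2 sum_{i ≠ l} hh t_il ≥ √2 N + 4 M (M-1) - (1/2) sum t^2 - (1/5) sum t^4
= Bs N d - (1/5) sum t^4`. For `c = 0` take the cross-polytope (equality). -/
def St_F5 : Prop := ∀ d c : ℕ, 1 ≤ d → 100 * c ≤ d → ∃ P : Finset (E d),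
  P.card = 2 * d + 2 * c ∧ (∀ x ∈ P, ‖x‖ = 1) ∧ (∀ x ∈ P, -x ∈ P) ∧
  √2 * (Bs (2 * (d : ℝ) + 2 * c) d - 3 * ((c : ℝ) / d) ^ 2) ≤ ∑ x ∈ P, ∑ y ∈ P, dist x y

/-- **CE** (uses Ta, Pe). Antipodal sets, equiangular case. `N = 2M`, `M = d+c`,
`s^2 = c/(d(M-1))`. `sum_{x,y} <x,y>^2 ≥ N^2/d` (Pe at `θ = N/d`), so the sum over `y ≠ x, -x` is
`≥ N^2/d - 2N = N (N-2) s^2`. `(1/√2) sum dist = √2 N + (1/2) sum_{y ≠ x,-x} hh <x,y>`, and Ta with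
`x0 = s`. Equality forces equality in Ta for all pairs; conversely compute. -/
def St_CE : Prop := ∀ (d c : ℕ) (s : ℝ), 1 ≤ c → 100 * c ≤ d → 0 < s →
  s ^ 2 = (c : ℝ) / ((d : ℝ) * ((d : ℝ) + c - 1)) → ∀ P : Finset (E d),
  P.card = 2 * d + 2 * c → (∀ x ∈ P, ‖x‖ = 1) → (∀ x ∈ P, -x ∈ P) →
  ∑ x ∈ P, ∑ y ∈ P, dist x y ≤ √2 * (√2 * (2 * (d : ℝ) + 2 * c)
    + (2 * (d : ℝ) + 2 * c) * (2 * (d : ℝ) + 2 * c - 2) * hh s / 2) ∧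
  (∑ x ∈ P, ∑ y ∈ P, dist x y = √2 * (√2 * (2 * (d : ℝ) + 2 * c)
    + (2 * (d : ℝ) + 2 * c) * (2 * (d : ℝ) + 2 * c - 2) * hh s / 2) ↔
    ∀ x ∈ P, ∀ y ∈ P, x ≠ y → x ≠ -y → (inner ℝ x y : ℝ) ^ 2 = s ^ 2)

end Pool.Agent.XPL
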